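import Pool.Agent.DEC.ETA
import Pool.Agent.GNP.TMD2

/-!
# [DEC] Row LOC: from the decoupling of the sphere to the local form of TMD2.
-/

set_option autoImplicit false

namespace Pool.Agent.DEC

open MeasureTheory Set Filter Topology Pool.Agent.MP_6cbfb8_an
open scoped ENNReal Real RealInnerProductSpace SchwartzMap Pointwise

theorem loc_of_sphere' (n : ℕ) (q : ℝ) (hq : 2 ≤ q) (h : DecSph n q) :
    GNP.TM.LocDec n q := by
  have hq0 : 0 < q := by linarith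
  intro M ε hε
  obtain ⟨η, hη⟩ := exists_eta n
  obtain ⟨C, hC, hdec⟩ := h 3 M (2 * ε / q) (by norm_num) (by positivity)
  obtain ⟨Cη, hCη, hdecay⟩ := eta_decay hη (n + 1)
  refine ⟨C ^ (q / 2) * ENNReal.ofReal (Cη ^ q), ?_, ?_⟩
  · exact ENNReal.mul_ne_top (ENNReal.rpow_ne_top_of_nonneg (by positivity) hC)
      ENNReal.ofReal_ne_top
  intro N ρ x g hρ hρ1 hg hs hM y
  have hρ2 : 0 < ρ ^ 2 := by positivity
  have hρ2' : ρ ^ 2 ≤ ρ := by nlinarith
  set R : ℝ := (ρ ^ 2)⁻¹ with hR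
  have hR0 : 0 < R := by positivity
  -- the pieces which see the sphere
  classical
  let ι : Type := {i : Fin N // ∃ u : E n, ‖u‖ = 1 ∧ ‖u - x i‖ ≤ ρ}
  have hch : ∀ i : ι, ∃ u : E n, ‖u‖ = 1 ∧ ‖u - x i.1‖ ≤ ρ := fun i => i.2
  choose u hu1 hu2 using hch
  have hzero : ∀ i : Fin N, (¬ ∃ u : E n, ‖u‖ = 1 ∧ ‖u - x i‖ ≤ ρ) → ∀ ξ, extn (g i) ξ = 0 := by
    intro i hi ξ
    unfold extn
    refine integral_eq_zero_of_ae (Filter.Eventually.of_forall fun w => ?_)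
    have hw : ‖(w : E n)‖ = 1 := mem_sphere_zero_iff_norm.1 w.2
    have h1 : ρ < ‖(w : E n) - x i‖ := by
      by_contra hc
      exact hi ⟨w, hw, not_lt.1 hc⟩
    simp [hs i w hw h1]
  set F : ι → E n → ℂ := fun i ξ => bump η y R ξ * extn (g i.1) ξ with hF
  have hsp : ∀ i : ι, Sp (Nsph (u i) (3 * ρ) (3 * ρ ^ 2)) (F i) := by
    intro i
    have h1 := Sp.bump hη y hR0
    rw [hR, inv_inv] at h1
    have h2 : Sp {z : E n | ‖z‖ = 1 ∧ ‖z - x i.1‖ ≤ ρ} (extn (g i.1)) :=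
      Sp.extn (hg i.1) fun z hz hgz => hs i.1 z hz hgz
    refine (h1.mul h2).mono ?_
    rintro z ⟨a, ha, v, ⟨hv1, hv2⟩, rfl⟩
    have ha' : ‖a‖ ≤ ρ ^ 2 := by simpa using ha
    constructor
    · calc ‖a + v - u i‖ = ‖a + (v - x i.1) + (x i.1 - u i)‖ := by congr 1; abel
        _ ≤ ‖a‖ + ‖v - x i.1‖ + ‖x i.1 - u i‖ := norm_add₃_le
        _ ≤ ρ ^ 2 + ρ + ρ := by
            have := hu2 i
            rw [norm_sub_rev] at this
            gcongr
        _ ≤ 3 * ρ := by linarith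
    · have h3 : |‖a + v‖ - ‖v‖| ≤ ‖a‖ := by
        have := abs_norm_sub_norm_le (a + v) v
        simpa using this
      rw [hv1] at h3
      linarith
  have hov : ∀ z, {i : ι | ‖z - u i‖ < ρ}.encard ≤ M := by
    intro z
    refine le_trans ?_ (hM z)
    have hinj : Function.Injective (fun i : ι => i.1) := Subtype.val_injective
    rw [← hinj.encard_image]
    refine Set.encard_le_encard ?_
    rintro _ ⟨i, hi, rfl⟩
    have hi' : ‖z - u i‖ < ρ := hi
    show ‖z - x i.1‖ < 4 * ρ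
    calc ‖z - x i.1‖ = ‖(z - u i) + (u i - x i.1)‖ := by congr 1; abel
      _ ≤ ‖z - u i‖ + ‖u i - x i.1‖ := norm_add_le _ _
      _ < 4 * ρ := by have := hu2 i; linarith
  have h1 := hdec ρ hρ hρ1 ι u F hu1 hov hsp
  -- the left side
  have hsum : ∀ ξ, extn (fun y => ∑ i, g i y) ξ = ∑ i : ι, extn (g i.1) ξ := by
    intro ξ
    rw [GNP.TMR.extn_sum g hg ξ]
    have hinj : Function.Injective (fun i : ι => i.1) := Subtype.val_injective
    have h3 := Finset.sum_map Finset.univ ⟨fun i : ι => i.1, hinj⟩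
      (fun i : Fin N => extn (g i) ξ)
    simp only [Function.Embedding.coeFn_mk] at h3
    rw [← h3]
    refine (Finset.sum_subset (Finset.subset_univ _) fun i _ hi => ?_).symm
    refine hzero i (fun hc => hi ?_) ξ
    exact Finset.mem_map.2 ⟨⟨i, hc⟩, Finset.mem_univ _, rfl⟩
  have h2 : ∫⁻ ξ in Metric.ball y R, ‖extn (fun y => ∑ i, g i y) ξ‖ₑ ^ q ≤
      (Lq q fun ξ => ∑ i, F i ξ) ^ (q / 2) := by
    unfold Lq
    rw [← ENNReal.rpow_mul, show 2 / q * (q / 2) = 1 by field_simp, ENNReal.rpow_one]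
    refine (setLIntegral_mono' measurableSet_ball fun ξ hξ => ?_).trans
      (setLIntegral_le_lintegral _ _)
    refine ENNReal.rpow_le_rpow ?_ hq0.le
    have e1 : (fun ξ => ∑ i, F i ξ) ξ = bump η y R ξ * ∑ i : ι, extn (g i.1) ξ := by
      rw [Finset.mul_sum]
    rw [hsum ξ, e1, enorm_mul]
    have h3 : 1 ≤ ‖bump η y R ξ‖ₑ := by
      unfold bump
      rw [← ofReal_norm, ENNReal.one_le_ofReal]
      refine hη.2 _ ?_
      rw [norm_smul, norm_inv, Real.norm_eq_abs, abs_of_pos hR0, inv_mul_le_iff₀ hR0, mul_one]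
      exact (mem_ball_iff_norm.1 hξ).le
    exact le_mul_of_one_le_left bot_le h3
  have h4 : ∀ i : ι, Lq q (F i) ≤ (ENNReal.ofReal (Cη ^ q) *
      ∫⁻ ξ, GNP.TM.wy ρ y ξ * ‖extn (g i.1) ξ‖ₑ ^ q) ^ (2 / q) := by
    intro i
    unfold Lq
    refine ENNReal.rpow_le_rpow ?_ (by positivity)
    rw [← lintegral_const_mul' _ _ ENNReal.ofReal_ne_top]
    refine lintegral_mono fun ξ => ?_
    beta_reduce
    rw [hF]
    simp only
    rw [enorm_mul, ENNReal.mul_rpow_of_nonneg _ _ hq0.le, ← mul_assoc]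
    gcongr
    unfold GNP.TM.wy bump
    rw [← ofReal_norm, ENNReal.ofReal_rpow_of_nonneg (norm_nonneg _) hq0.le,
      ← ENNReal.ofReal_mul (by positivity)]
    refine ENNReal.ofReal_le_ofReal ?_
    have h5 := hdecay (R⁻¹ • (ξ - y))
    have h6 : ‖R⁻¹ • (ξ - y)‖ = ρ ^ 2 * ‖ξ - y‖ := by
      rw [hR, inv_inv, norm_smul, Real.norm_eq_abs, abs_of_pos hρ2]
    rw [h6] at h5
    set t : ℝ := 1 + ρ ^ 2 * ‖ξ - y‖ with ht
    have ht1 : 1 ≤ t := by
      rw [ht]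
      have : 0 ≤ ρ ^ 2 * ‖ξ - y‖ := by positivity
      linarith
    have h7 : (t ^ (n + 1))⁻¹ ≤ 1 := inv_le_one_of_one_le₀ (one_le_pow₀ ht1)
    have h8 : 0 < (t ^ (n + 1))⁻¹ := by positivity
    calc ‖η (R⁻¹ • (ξ - y))‖ ^ q ≤ (Cη * (t ^ (n + 1))⁻¹) ^ q :=
          Real.rpow_le_rpow (norm_nonneg _) h5 hq0.le
      _ = Cη ^ q * ((t ^ (n + 1))⁻¹) ^ q := Real.mul_rpow hCη.le h8.le
      _ ≤ Cη ^ q * (t ^ (n + 1))⁻¹ := by
          gcongr
          calc ((t ^ (n + 1))⁻¹) ^ q ≤ ((t ^ (n + 1))⁻¹) ^ (1 : ℝ) :=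
                Real.rpow_le_rpow_of_exponent_ge h8 h7 (by linarith)
            _ = _ := Real.rpow_one _
  refine h2.trans ?_
  have h9 : ∑ i : ι, Lq q (F i) ≤ ENNReal.ofReal (Cη ^ q) ^ (2 / q) *
      ∑ i : Fin N, (∫⁻ ξ, GNP.TM.wy ρ y ξ * ‖extn (g i) ξ‖ₑ ^ q) ^ (2 / q) := by
    rw [Finset.mul_sum]
    calc ∑ i : ι, Lq q (F i) ≤ ∑ i : ι, ENNReal.ofReal (Cη ^ q) ^ (2 / q) *
          (∫⁻ ξ, GNP.TM.wy ρ y ξ * ‖extn (g i.1) ξ‖ₑ ^ q) ^ (2 / q) := by
          refine Finset.sum_le_sum fun i _ => (h4 i).trans (le_of_eq ?_)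
          rw [ENNReal.mul_rpow_of_nonneg _ _ (by positivity)]
      _ ≤ _ := by
          have hinj : Function.Injective (fun i : ι => i.1) := Subtype.val_injective
          have h10 := Finset.sum_map Finset.univ ⟨fun i : ι => i.1, hinj⟩
            (fun i : Fin N => ENNReal.ofReal (Cη ^ q) ^ (2 / q) *
              (∫⁻ ξ, GNP.TM.wy ρ y ξ * ‖extn (g i) ξ‖ₑ ^ q) ^ (2 / q))
          simp only [Function.Embedding.coeFn_mk] at h10
          rw [← h10]
          exact Finset.sum_le_sum_of_subset (Finset.subset_univ _)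
  calc (Lq q fun ξ => ∑ i, F i ξ) ^ (q / 2)
      ≤ (C * ENNReal.ofReal (ρ ^ (-(2 * ε / q))) * (ENNReal.ofReal (Cη ^ q) ^ (2 / q) *
        ∑ i : Fin N, (∫⁻ ξ, GNP.TM.wy ρ y ξ * ‖extn (g i) ξ‖ₑ ^ q) ^ (2 / q))) ^ (q / 2) := by
        refine ENNReal.rpow_le_rpow (h1.trans ?_) (by positivity)
        gcongr
    _ = _ := by
        rw [ENNReal.mul_rpow_of_nonneg _ _ (by positivity),
          ENNReal.mul_rpow_of_nonneg _ _ (by positivity),
          ENNReal.mul_rpow_of_nonneg _ _ (by positivity), ← ENNReal.rpow_mul,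
          show 2 / q * (q / 2) = 1 by field_simp, ENNReal.rpow_one,
          ENNReal.ofReal_rpow_of_nonneg (by positivity) (by positivity), ← Real.rpow_mul hρ.le,
          show -(2 * ε / q) * (q / 2) = -ε by field_simp]
        ring

end Pool.Agent.DEC
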