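import Pool.Agent.DEC.RecP

/-!
# [DEC] Row REC: the recursion, in the form of the skeleton.
-/

set_option autoImplicit false

namespace Pool.Agent.DEC

open scoped ENNReal Real

theorem rec_abs (P : ℝ → ℝ≥0∞ → Prop) (hmono : ∀ ρ D D', D ≤ D' → P ρ D → P ρ D') (a : ℝ)
    (ha : 0 ≤ a) (htriv : ∃ C : ℝ≥0∞, C ≠ ⊤ ∧ ∀ ρ : ℝ, 0 < ρ → ρ ≤ 1 →
      P ρ (C * ENNReal.ofReal (ρ ^ (-a))))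
    (hstep : ∀ ε : ℝ, 0 < ε → ∃ (C : ℝ≥0∞) (σ0 : ℝ) (L : ℕ), C ≠ ⊤ ∧ 0 < σ0 ∧ 1 ≤ L ∧
      ∀ σ : ℝ, 0 < σ → σ ≤ σ0 → ∃ Cσ : ℝ≥0∞, Cσ ≠ ⊤ ∧ ∀ ρ : ℝ, 0 < ρ → ρ ≤ σ ^ L →
        ∀ D D' : ℝ≥0∞, P (ρ / σ) D → P (ρ / σ ^ L) D' →
          P ρ (C * ENNReal.ofReal (σ ^ (-ε)) * (D + D') + Cσ * ENNReal.ofReal (ρ ^ (-ε))))
    (ε : ℝ) (hε : 0 < ε) : ∃ C : ℝ≥0∞, C ≠ ⊤ ∧ ∀ ρ : ℝ, 0 < ρ → ρ ≤ 1 →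
      P ρ (C * ENNReal.ofReal (ρ ^ (-ε))) := by
  obtain ⟨B, hB, hBP⟩ := htriv
  refine rec_dec hmono (fun ρ₀ hρ₀ => ⟨B * ENNReal.ofReal (ρ₀ ^ (-a)), by finiteness,
    fun ρ h1 h2 => ?_⟩) (fun ε hε => ?_) ε hε
  · have hρ : 0 < ρ := hρ₀.trans_le h1
    refine hmono ρ _ _ ?_ (hBP ρ hρ h2)
    refine mul_le_mul' le_rfl (ENNReal.ofReal_le_ofReal ?_)
    exact Real.rpow_le_rpow_of_nonpos hρ₀ h1 (by linarith)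
  · obtain ⟨C, σ₀, L, hC, hσ₀, hL, h⟩ := hstep ε hε
    refine ⟨C.toReal, σ₀, hσ₀, fun σ hσ hσσ hσ1 => ?_⟩
    obtain ⟨A, hA, h⟩ := h σ hσ hσσ
    refine ⟨σ ^ L, by positivity, pow_le_of_le_one hσ.le hσ1.le (by omega), A, hA,
      fun ρ hρ hρτ D₁ D₂ h1 h2 => ?_⟩
    have h3 := h ρ hρ hρτ D₁ D₂ h1 h2
    rwa [ENNReal.ofReal_mul ENNReal.toReal_nonneg, ENNReal.ofReal_toReal hC]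

end Pool.Agent.DEC
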