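import Mathlib

/-!
Recursions on scales: bookkeeping.
-/

set_option autoImplicit false

namespace Pool.Agent.DEC

open scoped ENNReal Real

/-- **Broad/narrow recursion**: `D(R) ≤ A R^ε + B K^ε D(R/K)` for all large `K` (`B` independent of
`K`) gives `D(R) ≤ C R^ε`. -/
theorem rec_eps {D : ℝ → ℝ} (hD0 : ∀ R, 1 ≤ R → 0 ≤ D R)
    (hloc : ∀ K : ℝ, ∃ B : ℝ, ∀ R : ℝ, 1 ≤ R → R ≤ K → D R ≤ B)
    (hrec : ∀ ε : ℝ, 0 < ε → ∃ (B K₀ : ℝ), ∀ K : ℝ, K₀ ≤ K → 1 ≤ K → ∃ A : ℝ, ∀ R : ℝ, K ≤ R →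
      D R ≤ A * R ^ ε + B * K ^ ε * D (R / K)) :
    ∀ ε : ℝ, 0 < ε → ∃ C : ℝ, 0 ≤ C ∧ ∀ R : ℝ, 1 ≤ R → D R ≤ C * R ^ ε := by
  intro ε hε
  obtain ⟨B, K₀, h1⟩ := hrec (ε / 2) (by positivity)
  set B' : ℝ := max B 0 with hB'
  have hB0 : 0 ≤ B' := le_max_right _ _
  set K : ℝ := max (max K₀ 2) ((2 * B') ^ (2 / ε)) with hK
  have hK0 : K₀ ≤ K := (le_max_left _ _).trans (le_max_left _ _)
  have hK2 : 2 ≤ K := (le_max_right _ _).trans (le_max_left _ _)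
  have hK3 : (2 * B') ^ (2 / ε) ≤ K := le_max_right _ _
  have hKp : 0 < K := by linarith
  have hK4 : 2 * B' ≤ K ^ (ε / 2) := by
    have h2 : ((2 * B') ^ (2 / ε)) ^ (ε / 2) ≤ K ^ (ε / 2) :=
      Real.rpow_le_rpow (by positivity) hK3 (by positivity)
    rwa [← Real.rpow_mul (by positivity), show 2 / ε * (ε / 2) = 1 by field_simp, Real.rpow_one] at h2
  obtain ⟨A, hA⟩ := h1 K hK0 (by linarith)
  obtain ⟨B₀, hB₀⟩ := hloc K
  set A' : ℝ := max A 0 with hA'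
  have hA0 : 0 ≤ A' := le_max_right _ _
  set C : ℝ := max (max B₀ 0) (2 * A') with hC
  have hC0 : 0 ≤ C := (le_max_right _ _).trans (le_max_left _ _)
  have hCB : B₀ ≤ C := (le_max_left _ _).trans (le_max_left _ _)
  have hCA : 2 * A' ≤ C := le_max_right _ _
  refine ⟨C, hC0, ?_⟩
  have key : ∀ j : ℕ, ∀ R : ℝ, 1 ≤ R → R ≤ K ^ (j + 1) → D R ≤ C * R ^ ε := by
    intro j
    induction j with
    | zero =>
      intro R hR1 hR2
      rw [zero_add, pow_one] at hR2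
      refine (hB₀ R hR1 hR2).trans (hCB.trans ?_)
      exact le_mul_of_one_le_right hC0 (Real.one_le_rpow hR1 hε.le)
    | succ j ih =>
      intro R hR1 hR2
      rcases le_total R K with hRK | hRK
      · refine (hB₀ R hR1 hRK).trans (hCB.trans ?_)
        exact le_mul_of_one_le_right hC0 (Real.one_le_rpow hR1 hε.le)
      · have h3 : 1 ≤ R / K := by rwa [le_div_iff₀ hKp, one_mul]
        have h4 : R / K ≤ K ^ (j + 1) := by
          rw [div_le_iff₀ hKp]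
          rwa [pow_succ] at hR2
        have h5 := ih (R / K) h3 h4
        have h5' : 0 ≤ C * (R / K) ^ ε := mul_nonneg hC0 (Real.rpow_nonneg (by linarith) _)
        have hRε : 1 ≤ R ^ (ε / 2) := Real.one_le_rpow hR1 (by positivity)
        have h6 : R ^ (ε / 2) ≤ R ^ ε := Real.rpow_le_rpow_of_exponent_le hR1 (by linarith)
        have h7 : A * R ^ (ε / 2) ≤ A' * R ^ ε :=
          mul_le_mul (le_max_left _ _) h6 (by positivity) hA0
        have h8 : B * K ^ (ε / 2) * D (R / K) ≤ B' * K ^ (ε / 2) * (C * (R / K) ^ ε) := by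
          refine mul_le_mul ?_ h5 (hD0 _ h3) (by positivity)
          exact mul_le_mul_of_nonneg_right (le_max_left _ _) (by positivity)
        have h9 : B' * K ^ (ε / 2) * (C * (R / K) ^ ε) ≤ C / 2 * R ^ ε := by
          rw [Real.div_rpow (by linarith) hKp.le]
          have h10 : K ^ ε = K ^ (ε / 2) * K ^ (ε / 2) := by
            rw [← Real.rpow_add hKp]
            congr 1
            ring
          have h11 : 0 < K ^ (ε / 2) := by positivity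
          rw [h10]
          have h12 : B' * K ^ (ε / 2) * (C * (R ^ ε / (K ^ (ε / 2) * K ^ (ε / 2)))) =
              B' * C * R ^ ε / K ^ (ε / 2) := by
            field_simp
          rw [h12, div_le_iff₀ h11]
          have h13 : 0 ≤ C * R ^ ε := by positivity
          nlinarith
        have h14 : A' * R ^ ε ≤ C / 2 * R ^ ε := by
          have : 0 ≤ R ^ ε := by positivity
          nlinarith
        have := hA R hRK
        linarith
  intro R hR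
  obtain ⟨j, hj⟩ := pow_unbounded_of_one_lt R (by linarith : 1 < K)
  exact key j R hR (hj.le.trans (pow_le_pow_right₀ (by linarith) (by omega)))

/-- The same for constants in `[0, ∞]`. -/
theorem rec_eps_ennreal {D : ℝ → ℝ≥0∞}
    (hloc : ∀ K : ℝ, ∃ B : ℝ≥0∞, B ≠ ⊤ ∧ ∀ R : ℝ, 1 ≤ R → R ≤ K → D R ≤ B)
    (hrec : ∀ ε : ℝ, 0 < ε → ∃ (B K₀ : ℝ), 0 ≤ B ∧ ∀ K : ℝ, K₀ ≤ K → 1 ≤ K → ∃ A : ℝ≥0∞, A ≠ ⊤ ∧
      ∀ R : ℝ, K ≤ R → D R ≤ A * ENNReal.ofReal (R ^ ε) + ENNReal.ofReal (B * K ^ ε) * D (R / K)) :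
    ∀ ε : ℝ, 0 < ε → ∃ C : ℝ≥0∞, C ≠ ⊤ ∧ ∀ R : ℝ, 1 ≤ R → D R ≤ C * ENNReal.ofReal (R ^ ε) := by
  intro ε hε
  have hfin : ∀ R : ℝ, 1 ≤ R → D R ≠ ⊤ := fun R hR => by
    obtain ⟨B, hB, h⟩ := hloc R
    exact ne_top_of_le_ne_top hB (h R hR le_rfl)
  have h := rec_eps (D := fun R => (D R).toReal) (fun R _ => ENNReal.toReal_nonneg) (fun K => by
    obtain ⟨B, hB, h⟩ := hloc K
    exact ⟨B.toReal, fun R h1 h2 => ENNReal.toReal_mono hB (h R h1 h2)⟩) (fun ε hε => by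
    obtain ⟨B, K₀, hB, h⟩ := hrec ε hε
    refine ⟨B, max K₀ 1, fun K hK hK1 => ?_⟩
    obtain ⟨A, hA, h⟩ := h K ((le_max_left _ _).trans hK) hK1
    refine ⟨A.toReal, fun R hR => ?_⟩
    have hKp : 0 < K := by linarith
    have hR1 : 1 ≤ R := hK1.trans hR
    have h3 : 1 ≤ R / K := by rwa [le_div_iff₀ hKp, one_mul]
    have hf := hfin (R / K) h3
    have h4 := ENNReal.toReal_mono (by finiteness) (h R hR)
    rw [ENNReal.toReal_add (by finiteness) (by finiteness), ENNReal.toReal_mul, ENNReal.toReal_mul,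
      ENNReal.toReal_ofReal (by positivity), ENNReal.toReal_ofReal (by positivity)] at h4
    exact h4) ε hε
  obtain ⟨C, hC, h⟩ := h
  refine ⟨ENNReal.ofReal C, ENNReal.ofReal_ne_top, fun R hR => ?_⟩
  rw [← ENNReal.ofReal_toReal (hfin R hR), ← ENNReal.ofReal_mul hC]
  exact ENNReal.ofReal_le_ofReal (h R hR)

/-- **Broad/narrow recursion with two narrow terms**: `D(R) ≤ A R^ε + B K^ε (D(R/K) + D(R/K²))`
for all large `K` (`B` independent of `K`) and `R ≥ K²` gives `D(R) ≤ C R^ε`. -/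
theorem rec_eps2 {D : ℝ → ℝ} (hD0 : ∀ R, 1 ≤ R → 0 ≤ D R)
    (hloc : ∀ K : ℝ, ∃ B : ℝ, ∀ R : ℝ, 1 ≤ R → R ≤ K → D R ≤ B)
    (hrec : ∀ ε : ℝ, 0 < ε → ∃ (B K₀ : ℝ), ∀ K : ℝ, K₀ ≤ K → 1 ≤ K → ∃ A : ℝ, ∀ R : ℝ, K ^ 2 ≤ R →
      D R ≤ A * R ^ ε + B * K ^ ε * (D (R / K) + D (R / K ^ 2))) :
    ∀ ε : ℝ, 0 < ε → ∃ C : ℝ, 0 ≤ C ∧ ∀ R : ℝ, 1 ≤ R → D R ≤ C * R ^ ε := by
  intro ε hε
  obtain ⟨B, K₀, h1⟩ := hrec (ε / 2) (by positivity)
  set B' : ℝ := max B 0 with hB'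
  have hB0 : 0 ≤ B' := le_max_right _ _
  set K : ℝ := max (max K₀ 2) ((4 * B') ^ (2 / ε)) with hK
  have hK0 : K₀ ≤ K := (le_max_left _ _).trans (le_max_left _ _)
  have hK2 : 2 ≤ K := (le_max_right _ _).trans (le_max_left _ _)
  have hK3 : (4 * B') ^ (2 / ε) ≤ K := le_max_right _ _
  have hKp : 0 < K := by linarith
  have hK4 : 4 * B' ≤ K ^ (ε / 2) := by
    have h2 : ((4 * B') ^ (2 / ε)) ^ (ε / 2) ≤ K ^ (ε / 2) :=
      Real.rpow_le_rpow (by positivity) hK3 (by positivity)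
    rwa [← Real.rpow_mul (by positivity), show 2 / ε * (ε / 2) = 1 by field_simp, Real.rpow_one] at h2
  obtain ⟨A, hA⟩ := h1 K hK0 (by linarith)
  obtain ⟨B₀, hB₀⟩ := hloc (K ^ 2)
  set A' : ℝ := max A 0 with hA'
  have hA0 : 0 ≤ A' := le_max_right _ _
  set C : ℝ := max (max B₀ 0) (2 * A') with hC
  have hC0 : 0 ≤ C := (le_max_right _ _).trans (le_max_left _ _)
  have hCB : B₀ ≤ C := (le_max_left _ _).trans (le_max_left _ _)
  have hCA : 2 * A' ≤ C := le_max_right _ _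
  refine ⟨C, hC0, ?_⟩
  have key : ∀ j : ℕ, ∀ R : ℝ, 1 ≤ R → R ≤ K ^ (j + 2) → D R ≤ C * R ^ ε := by
    intro j
    induction j with
    | zero =>
      intro R hR1 hR2
      rw [zero_add] at hR2
      refine (hB₀ R hR1 hR2).trans (hCB.trans ?_)
      exact le_mul_of_one_le_right hC0 (Real.one_le_rpow hR1 hε.le)
    | succ j ih =>
      intro R hR1 hR2
      rcases le_total R (K ^ 2) with hRK | hRK
      · refine (hB₀ R hR1 hRK).trans (hCB.trans ?_)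
        exact le_mul_of_one_le_right hC0 (Real.one_le_rpow hR1 hε.le)
      · have h3' : 1 ≤ R / K ^ 2 := by rwa [le_div_iff₀ (by positivity), one_mul]
        have h34 : R / K ^ 2 ≤ R / K := by
          refine div_le_div_of_nonneg_left (by linarith) hKp ?_
          nlinarith
        have h3 : 1 ≤ R / K := h3'.trans h34
        have h4 : R / K ≤ K ^ (j + 2) := by
          rw [div_le_iff₀ hKp, ← pow_succ]
          exact hR2
        have h5 := ih (R / K) h3 h4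
        have h5b : D (R / K ^ 2) ≤ C * (R / K) ^ ε := by
          refine (ih (R / K ^ 2) h3' (h34.trans h4)).trans ?_
          exact mul_le_mul_of_nonneg_left (Real.rpow_le_rpow (by linarith) h34 hε.le) hC0
        have h5' : 0 ≤ C * (R / K) ^ ε := mul_nonneg hC0 (Real.rpow_nonneg (by linarith) _)
        have hRε : 1 ≤ R ^ (ε / 2) := Real.one_le_rpow hR1 (by positivity)
        have h6 : R ^ (ε / 2) ≤ R ^ ε := Real.rpow_le_rpow_of_exponent_le hR1 (by linarith)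
        have h7 : A * R ^ (ε / 2) ≤ A' * R ^ ε :=
          mul_le_mul (le_max_left _ _) h6 (by positivity) hA0
        have h8 : B * K ^ (ε / 2) * (D (R / K) + D (R / K ^ 2)) ≤
            B' * K ^ (ε / 2) * (2 * (C * (R / K) ^ ε)) := by
          refine mul_le_mul ?_ (by linarith) (add_nonneg (hD0 _ h3) (hD0 _ h3')) (by positivity)
          exact mul_le_mul_of_nonneg_right (le_max_left _ _) (by positivity)
        have h9 : B' * K ^ (ε / 2) * (2 * (C * (R / K) ^ ε)) ≤ C / 2 * R ^ ε := by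
          rw [Real.div_rpow (by linarith) hKp.le]
          have h10 : K ^ ε = K ^ (ε / 2) * K ^ (ε / 2) := by
            rw [← Real.rpow_add hKp]
            congr 1
            ring
          have h11 : 0 < K ^ (ε / 2) := by positivity
          rw [h10]
          have h12 : B' * K ^ (ε / 2) * (2 * (C * (R ^ ε / (K ^ (ε / 2) * K ^ (ε / 2))))) =
              2 * B' * C * R ^ ε / K ^ (ε / 2) := by
            field_simp
          rw [h12, div_le_iff₀ h11]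
          have h13 : 0 ≤ C * R ^ ε := by positivity
          nlinarith
        have h14 : A' * R ^ ε ≤ C / 2 * R ^ ε := by
          have : 0 ≤ R ^ ε := by positivity
          nlinarith
        have := hA R hRK
        linarith
  intro R hR
  obtain ⟨j, hj⟩ := pow_unbounded_of_one_lt R (by linarith : 1 < K)
  exact key j R hR (hj.le.trans (pow_le_pow_right₀ (by linarith) (by omega)))

/-- The same for constants in `[0, ∞]`. -/
theorem rec_eps2_ennreal {D : ℝ → ℝ≥0∞}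
    (hloc : ∀ K : ℝ, ∃ B : ℝ≥0∞, B ≠ ⊤ ∧ ∀ R : ℝ, 1 ≤ R → R ≤ K → D R ≤ B)
    (hrec : ∀ ε : ℝ, 0 < ε → ∃ (B K₀ : ℝ), 0 ≤ B ∧ ∀ K : ℝ, K₀ ≤ K → 1 ≤ K → ∃ A : ℝ≥0∞, A ≠ ⊤ ∧
      ∀ R : ℝ, K ^ 2 ≤ R → D R ≤ A * ENNReal.ofReal (R ^ ε) +
        ENNReal.ofReal (B * K ^ ε) * (D (R / K) + D (R / K ^ 2))) :
    ∀ ε : ℝ, 0 < ε → ∃ C : ℝ≥0∞, C ≠ ⊤ ∧ ∀ R : ℝ, 1 ≤ R → D R ≤ C * ENNReal.ofReal (R ^ ε) := by
  intro ε hε
  have hfin : ∀ R : ℝ, 1 ≤ R → D R ≠ ⊤ := fun R hR => by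
    obtain ⟨B, hB, h⟩ := hloc R
    exact ne_top_of_le_ne_top hB (h R hR le_rfl)
  have h := rec_eps2 (D := fun R => (D R).toReal) (fun R _ => ENNReal.toReal_nonneg) (fun K => by
    obtain ⟨B, hB, h⟩ := hloc K
    exact ⟨B.toReal, fun R h1 h2 => ENNReal.toReal_mono hB (h R h1 h2)⟩) (fun ε hε => by
    obtain ⟨B, K₀, hB, h⟩ := hrec ε hε
    refine ⟨B, max K₀ 1, fun K hK hK1 => ?_⟩
    obtain ⟨A, hA, h⟩ := h K ((le_max_left _ _).trans hK) hK1
    refine ⟨A.toReal, fun R hR => ?_⟩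
    have hKp : 0 < K := by linarith
    have hR1 : 1 ≤ R := (one_le_pow₀ hK1).trans hR
    have h3' : 1 ≤ R / K ^ 2 := by rwa [le_div_iff₀ (by positivity), one_mul]
    have h3 : 1 ≤ R / K := by
      refine h3'.trans (div_le_div_of_nonneg_left (by linarith) hKp ?_)
      nlinarith
    have hf := hfin (R / K) h3
    have hf' := hfin (R / K ^ 2) h3'
    have h4 := ENNReal.toReal_mono (by finiteness) (h R hR)
    rw [ENNReal.toReal_add (by finiteness) (by finiteness), ENNReal.toReal_mul, ENNReal.toReal_mul,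
      ENNReal.toReal_add hf hf',
      ENNReal.toReal_ofReal (by positivity), ENNReal.toReal_ofReal (by positivity)] at h4
    exact h4) ε hε
  obtain ⟨C, hC, h⟩ := h
  refine ⟨ENNReal.ofReal C, ENNReal.ofReal_ne_top, fun R hR => ?_⟩
  rw [← ENNReal.ofReal_toReal (hfin R hR), ← ENNReal.ofReal_mul hC]
  exact ENNReal.ofReal_le_ofReal (h R hR)

/-- **Iteration**: `M(R) ≤ C M(δR)` for all small `δ` (`C` independent of `δ`) gives `M(R) ≤ C' R^ε`. -/
theorem rec_delta {M : ℝ → ℝ} (hM0 : ∀ R, 1 ≤ R → 0 ≤ M R)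
    (hloc : ∀ K : ℝ, ∃ B : ℝ, ∀ R : ℝ, 1 ≤ R → R ≤ K → M R ≤ B) {C : ℝ}
    (hrec : ∀ K : ℝ, ∃ K₁ : ℝ, K ≤ K₁ ∧ ∀ R : ℝ, K₁ ≤ R → 1 ≤ R → M R ≤ C * M (R / K₁)) :
    ∀ ε : ℝ, 0 < ε → ∃ C' : ℝ, 0 ≤ C' ∧ ∀ R : ℝ, 1 ≤ R → M R ≤ C' * R ^ ε := by
  intro ε hε
  set C₀ : ℝ := max C 1 with hC₀
  have hC1 : 1 ≤ C₀ := le_max_right _ _
  obtain ⟨K, hK1, hK⟩ := hrec (max 2 (C₀ ^ (1 / ε)))
  have hK2 : 2 ≤ K := (le_max_left _ _).trans hK1
  have hKp : 0 < K := by linarith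
  have hKC : C₀ ≤ K ^ ε := by
    have h2 : (C₀ ^ (1 / ε)) ^ ε ≤ K ^ ε :=
      Real.rpow_le_rpow (by positivity) ((le_max_right _ _).trans hK1) hε.le
    rwa [← Real.rpow_mul (by linarith), show 1 / ε * ε = 1 by field_simp, Real.rpow_one] at h2
  obtain ⟨B₀, hB₀⟩ := hloc K
  set B : ℝ := max B₀ 0 with hB
  have hB0 : 0 ≤ B := le_max_right _ _
  refine ⟨B, hB0, ?_⟩
  have key : ∀ j : ℕ, ∀ R : ℝ, 1 ≤ R → R ≤ K ^ (j + 1) → M R ≤ B * R ^ ε := by
    intro j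
    induction j with
    | zero =>
      intro R hR1 hR2
      rw [zero_add, pow_one] at hR2
      refine (hB₀ R hR1 hR2).trans ((le_max_left B₀ 0).trans ?_)
      exact le_mul_of_one_le_right hB0 (Real.one_le_rpow hR1 hε.le)
    | succ j ih =>
      intro R hR1 hR2
      rcases le_total R K with hRK | hRK
      · refine (hB₀ R hR1 hRK).trans ((le_max_left B₀ 0).trans ?_)
        exact le_mul_of_one_le_right hB0 (Real.one_le_rpow hR1 hε.le)
      · have h3 : 1 ≤ R / K := by rwa [le_div_iff₀ hKp, one_mul]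
        have h4 : R / K ≤ K ^ (j + 1) := by
          rw [div_le_iff₀ hKp]
          rwa [pow_succ] at hR2
        have h5 := ih (R / K) h3 h4
        have h6 : C * M (R / K) ≤ C₀ * (B * (R / K) ^ ε) := by
          refine mul_le_mul (le_max_left _ _) h5 (hM0 _ h3) (by linarith)
        have h7 : C₀ * (B * (R / K) ^ ε) ≤ B * R ^ ε := by
          rw [Real.div_rpow (by linarith) hKp.le]
          have h8 : 0 < K ^ ε := by positivity
          have h9 : C₀ * (B * (R ^ ε / K ^ ε)) = C₀ * (B * R ^ ε) / K ^ ε := by ring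
          rw [h9, div_le_iff₀ h8]
          have h10 : 0 ≤ B * R ^ ε := by positivity
          nlinarith
        exact (hK R hRK hR1).trans (h6.trans h7)
  intro R hR
  obtain ⟨j, hj⟩ := pow_unbounded_of_one_lt R (by linarith : 1 < K)
  exact key j R hR (hj.le.trans (pow_le_pow_right₀ (by linarith) (by omega)))

/-- The same for constants in `[0, ∞]`. -/
theorem rec_delta_ennreal {M : ℝ → ℝ≥0∞}
    (hloc : ∀ K : ℝ, ∃ B : ℝ≥0∞, B ≠ ⊤ ∧ ∀ R : ℝ, 1 ≤ R → R ≤ K → M R ≤ B) {C : ℝ≥0∞} (hC : C ≠ ⊤)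
    (hrec : ∀ K : ℝ, ∃ K₁ : ℝ, K ≤ K₁ ∧ ∀ R : ℝ, K₁ ≤ R → 1 ≤ R → M R ≤ C * M (R / K₁)) :
    ∀ ε : ℝ, 0 < ε → ∃ C' : ℝ≥0∞, C' ≠ ⊤ ∧ ∀ R : ℝ, 1 ≤ R → M R ≤ C' * ENNReal.ofReal (R ^ ε) := by
  intro ε hε
  have hfin : ∀ R : ℝ, 1 ≤ R → M R ≠ ⊤ := fun R hR => by
    obtain ⟨B, hB, h⟩ := hloc R
    exact ne_top_of_le_ne_top hB (h R hR le_rfl)
  obtain ⟨C', hC', h⟩ := rec_delta (M := fun R => (M R).toReal) (C := C.toReal)
    (fun R _ => ENNReal.toReal_nonneg) (fun K => by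
      obtain ⟨B, hB, h⟩ := hloc K
      exact ⟨B.toReal, fun R h1 h2 => ENNReal.toReal_mono hB (h R h1 h2)⟩) (fun K => by
      obtain ⟨K₁, h1, h2⟩ := hrec (max K 1)
      have hK1 : 1 ≤ K₁ := (le_max_right _ _).trans h1
      refine ⟨K₁, (le_max_left _ _).trans h1, fun R hR hR1 => ?_⟩
      have h3 : 1 ≤ R / K₁ := by rwa [le_div_iff₀ (by linarith), one_mul]
      have hf := hfin _ h3
      rw [← ENNReal.toReal_mul]
      exact ENNReal.toReal_mono (by finiteness) (h2 R hR hR1)) ε hε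
  refine ⟨ENNReal.ofReal C', ENNReal.ofReal_ne_top, fun R hR => ?_⟩
  rw [← ENNReal.ofReal_toReal (hfin R hR), ← ENNReal.ofReal_mul hC']
  exact ENNReal.ofReal_le_ofReal (h R hR)

/-- **Square roots** (change of surface in `log log` steps): `D(R) ≤ A R^ε D(√R)` for every `ε` gives
`D(R) ≤ C R^ε`. -/
theorem rec_sqrt {D : ℝ → ℝ} (hD0 : ∀ R, 1 ≤ R → 0 ≤ D R)
    (hloc : ∀ K : ℝ, ∃ B : ℝ, ∀ R : ℝ, 1 ≤ R → R ≤ K → D R ≤ B)
    (hrec : ∀ ε : ℝ, 0 < ε → ∃ A K : ℝ, ∀ R : ℝ, K ≤ R → 1 ≤ R → D R ≤ A * R ^ ε * D (√R)) :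
    ∀ ε : ℝ, 0 < ε → ∃ C : ℝ, 0 ≤ C ∧ ∀ R : ℝ, 1 ≤ R → D R ≤ C * R ^ ε := by
  intro ε hε
  obtain ⟨A, K₀, hA⟩ := hrec (ε / 4) (by positivity)
  set A' : ℝ := max A 0 with hA'
  have hA0 : 0 ≤ A' := le_max_right _ _
  set K : ℝ := max (max K₀ 2) (A' ^ (4 / ε)) with hK
  have hK0 : K₀ ≤ K := (le_max_left _ _).trans (le_max_left _ _)
  have hK2 : 2 ≤ K := (le_max_right _ _).trans (le_max_left _ _)
  have hK3 : A' ^ (4 / ε) ≤ K := le_max_right _ _
  obtain ⟨B₀, hB₀⟩ := hloc K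
  set B : ℝ := max B₀ 0 with hB
  have hB0 : 0 ≤ B := le_max_right _ _
  refine ⟨B, hB0, ?_⟩
  have key : ∀ j : ℕ, ∀ R : ℝ, 1 ≤ R → R ≤ K ^ (2 ^ j) → D R ≤ B * R ^ ε := by
    intro j
    induction j with
    | zero =>
      intro R hR1 hR2
      rw [pow_zero, pow_one] at hR2
      refine (hB₀ R hR1 hR2).trans ((le_max_left B₀ 0).trans ?_)
      exact le_mul_of_one_le_right hB0 (Real.one_le_rpow hR1 hε.le)
    | succ j ih =>
      intro R hR1 hR2
      rcases le_total R K with hRK | hRK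
      · refine (hB₀ R hR1 hRK).trans ((le_max_left B₀ 0).trans ?_)
        exact le_mul_of_one_le_right hB0 (Real.one_le_rpow hR1 hε.le)
      · have hRp : 0 < R := by linarith
        have h3 : 1 ≤ √R := Real.one_le_sqrt.2 hR1
        have h4 : √R ≤ K ^ (2 ^ j) := by
          rw [Real.sqrt_le_left (by positivity), ← pow_mul, ← pow_succ]
          exact hR2
        have h5 := ih _ h3 h4
        have h5' : (√R) ^ ε = R ^ (ε / 2) := by
          rw [Real.sqrt_eq_rpow, ← Real.rpow_mul hRp.le]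
          congr 1
          ring
        rw [h5'] at h5
        have h6 : A' ≤ R ^ (ε / 4) := by
          have h2 : (A' ^ (4 / ε)) ^ (ε / 4) ≤ R ^ (ε / 4) :=
            Real.rpow_le_rpow (by positivity) (hK3.trans hRK) (by positivity)
          rwa [← Real.rpow_mul hA0, show 4 / ε * (ε / 4) = 1 by field_simp, Real.rpow_one] at h2
        have h7 : 0 < R ^ (ε / 4) := by positivity
        have h8 : R ^ ε = R ^ (ε / 4) * R ^ (ε / 4) * R ^ (ε / 2) := by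
          rw [← Real.rpow_add hRp, ← Real.rpow_add hRp]
          congr 1
          ring
        calc D R ≤ A * R ^ (ε / 4) * D (√R) := hA R (hK0.trans hRK) hR1
          _ ≤ A' * R ^ (ε / 4) * (B * R ^ (ε / 2)) :=
            mul_le_mul (mul_le_mul_of_nonneg_right (le_max_left _ _) h7.le) h5 (hD0 _ h3)
              (by positivity)
          _ ≤ R ^ (ε / 4) * R ^ (ε / 4) * (B * R ^ (ε / 2)) := by gcongr
          _ = B * R ^ ε := by
            rw [h8]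
            ring
  intro R hR
  obtain ⟨j, hj⟩ := pow_unbounded_of_one_lt R (by linarith : 1 < K)
  exact key j R hR (hj.le.trans (pow_le_pow_right₀ (by linarith) Nat.lt_two_pow_self.le))

/-- The same for constants in `[0, ∞]`. -/
theorem rec_sqrt_ennreal {D : ℝ → ℝ≥0∞}
    (hloc : ∀ K : ℝ, ∃ B : ℝ≥0∞, B ≠ ⊤ ∧ ∀ R : ℝ, 1 ≤ R → R ≤ K → D R ≤ B)
    (hrec : ∀ ε : ℝ, 0 < ε → ∃ (A : ℝ≥0∞) (K : ℝ), A ≠ ⊤ ∧ ∀ R : ℝ, K ≤ R → 1 ≤ R →
      D R ≤ A * ENNReal.ofReal (R ^ ε) * D (√R)) :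
    ∀ ε : ℝ, 0 < ε → ∃ C : ℝ≥0∞, C ≠ ⊤ ∧ ∀ R : ℝ, 1 ≤ R → D R ≤ C * ENNReal.ofReal (R ^ ε) := by
  intro ε hε
  have hfin : ∀ R : ℝ, 1 ≤ R → D R ≠ ⊤ := fun R hR => by
    obtain ⟨B, hB, h⟩ := hloc R
    exact ne_top_of_le_ne_top hB (h R hR le_rfl)
  obtain ⟨C', hC', h⟩ := rec_sqrt (D := fun R => (D R).toReal)
    (fun R _ => ENNReal.toReal_nonneg) (fun K => by
      obtain ⟨B, hB, h⟩ := hloc K
      exact ⟨B.toReal, fun R h1 h2 => ENNReal.toReal_mono hB (h R h1 h2)⟩) (fun ε hε => by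
      obtain ⟨A, K, hA, h⟩ := hrec ε hε
      refine ⟨A.toReal, K, fun R hR hR1 => ?_⟩
      have hf := hfin _ (Real.one_le_sqrt.2 hR1)
      have h4 := ENNReal.toReal_mono (by finiteness) (h R hR hR1)
      rw [ENNReal.toReal_mul, ENNReal.toReal_mul, ENNReal.toReal_ofReal (by positivity)] at h4
      exact h4) ε hε
  refine ⟨ENNReal.ofReal C', ENNReal.ofReal_ne_top, fun R hR => ?_⟩
  rw [← ENNReal.ofReal_toReal (hfin R hR), ← ENNReal.ofReal_mul hC']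
  exact ENNReal.ofReal_le_ofReal (h R hR)

end Pool.Agent.DEC
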