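import Pool.Agent.VANn.DMN
import Pool.Agent.GNP.N5Cov

/-!
[DEC] row SPH, geometry: the caps of the sphere as pieces of a neighbourhood of the paraboloid.
-/

set_option autoImplicit false

namespace Pool.Agent.DEC.SPH

open MeasureTheory Set Pool.Agent.MP_6cbfb8_an Pool.Agent.GNP
open scoped ENNReal Real RealInnerProductSpace

variable {d : ℕ}

/-- The height over the paraboloid. -/
theorem height {ξ : E d} {τ b s : ℝ} (hτ : 0 ≤ τ) (hb : b ≤ 1) (hξ : ‖ξ‖ ≤ s)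
    (h : |‖join ξ τ‖ - 1| ≤ b) : |2 * (1 - τ) - ‖ξ‖ ^ 2| ≤ 3 * b + (3 * b + s ^ 2) ^ 2 := by
  set m : ℝ := ‖join ξ τ‖ with hm
  have hm0 : 0 ≤ m := norm_nonneg _
  have hb0 : 0 ≤ b := (abs_nonneg _).trans h
  have e1 : m ^ 2 = ‖ξ‖ ^ 2 + τ ^ 2 := j5_norm_sq ξ τ
  have h1 := abs_le.1 h
  have h2 : |m ^ 2 - 1| ≤ 3 * b := by
    have e : m ^ 2 - 1 = (m - 1) * (m + 1) := by ring
    rw [e, abs_mul, abs_of_nonneg (by linarith : 0 ≤ m + 1)]
    calc |m - 1| * (m + 1) ≤ b * 3 := by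
          refine mul_le_mul h (by linarith) (by linarith) hb0
      _ = 3 * b := by ring
  have h3 : ‖ξ‖ ^ 2 ≤ s ^ 2 := pow_le_pow_left₀ (norm_nonneg _) hξ 2
  have h4 : |1 - τ| ≤ 3 * b + s ^ 2 := by
    have e : (1 - τ) * (1 + τ) = ‖ξ‖ ^ 2 - (m ^ 2 - 1) := by rw [e1]; ring
    have h5 : |1 - τ| ≤ |(1 - τ) * (1 + τ)| := by
      rw [abs_mul, abs_of_nonneg (by linarith : 0 ≤ 1 + τ)]
      nlinarith [abs_nonneg (1 - τ)]
    refine h5.trans ?_
    rw [e]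
    refine (abs_sub _ _).trans ?_
    rw [abs_of_nonneg (sq_nonneg ‖ξ‖)]
    linarith
  have e2 : 2 * (1 - τ) - ‖ξ‖ ^ 2 = (1 - τ) ^ 2 - (m ^ 2 - 1) := by rw [e1]; ring
  rw [e2]
  refine (abs_sub _ _).trans ?_
  have h6 : |(1 - τ) ^ 2| ≤ (3 * b + s ^ 2) ^ 2 := by
    rw [abs_pow]
    exact pow_le_pow_left₀ (abs_nonneg _) h4 2
  linarith

/-! ### The chart -/

/-- The frequencies of the `r`-cap about the image of the pole under `R`. -/
noncomputable def Xi (R : E (d + 1) ≃ₗᵢ[ℝ] E (d + 1)) (r : ℝ) (x : E (d + 1)) : E d × ℝ :=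
  (r⁻¹ • ((joinL d).symm (R.symm x)).1, 2 * (r ^ 2)⁻¹ * (1 - ((joinL d).symm (R.symm x)).2))

/-- The positions. -/
noncomputable def Psi (R : E (d + 1) ≃ₗᵢ[ℝ] E (d + 1)) (r : ℝ) (q : E d × ℝ) : E (d + 1) :=
  R (join (r⁻¹ • q.1) (-(2 * (r ^ 2)⁻¹) * q.2))

theorem Xi_continuous (R : E (d + 1) ≃ₗᵢ[ℝ] E (d + 1)) (r : ℝ) : Continuous (Xi R r) := by
  unfold Xi
  fun_prop

theorem join_symm (y : E (d + 1)) :
    join ((joinL d).symm y).1 ((joinL d).symm y).2 = y := by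
  rw [← joinL_apply]
  simp

theorem inner_Psi (R : E (d + 1) ≃ₗᵢ[ℝ] E (d + 1)) (r : ℝ) (q : E d × ℝ) (x : E (d + 1)) :
    ⟪Psi R r q, x⟫ = ⟪q.1, (Xi R r x).1⟫ + q.2 * (Xi R r x).2 + -(2 * (r ^ 2)⁻¹ * q.2) := by
  have h1 : ⟪Psi R r q, x⟫ = ⟪join (r⁻¹ • q.1) (-(2 * (r ^ 2)⁻¹) * q.2), R.symm x⟫ := by
    unfold Psi
    rw [← R.inner_map_map _ (R.symm x), R.apply_symm_apply]
  rw [h1]
  conv_lhs => rw [← join_symm (R.symm x)]
  rw [j5_inner]
  unfold Xi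
  simp only [inner_smul_left, inner_smul_right]
  simp
  ring

/-- Dilations of `R^d × R`. -/
theorem map_dil2 {a b : ℝ} (ha : a ≠ 0) (hb : b ≠ 0) :
    Measure.map (fun k : E d × ℝ => (a • k.1, b * k.2)) volume =
      ENNReal.ofReal (|(a ^ d)⁻¹| * |b⁻¹|) • (volume : Measure (E d × ℝ)) := by
  have h1 : Measure.map (fun x : E d => a • x) volume =
      ENNReal.ofReal |(a ^ d)⁻¹| • (volume : Measure (E d)) := by
    have h := Measure.map_addHaar_smul (volume : Measure (E d)) ha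
    rwa [finrank_euclideanSpace_fin] at h
  have h2 : Measure.map (fun x : ℝ => b * x) volume =
      ENNReal.ofReal |b⁻¹| • (volume : Measure ℝ) := Real.map_volume_mul_left hb
  have h3 := Measure.map_prod_map (volume : Measure (E d)) (volume : Measure ℝ)
    (f := fun x : E d => a • x) (g := fun x : ℝ => b * x) (by fun_prop) (by fun_prop)
  rw [h1, h2, Measure.prod_smul_left, Measure.prod_smul_right, smul_smul,
    ← ENNReal.ofReal_mul (by positivity), ← Measure.volume_eq_prod] at h3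
  rw [show (fun k : E d × ℝ => (a • k.1, b * k.2)) =
    Prod.map (fun x : E d => a • x) (fun x : ℝ => b * x) from rfl, ← h3]

/-- The map of the positions as a homeomorphism of `R^d × R`. -/
noncomputable def dilH {a b : ℝ} (ha : a ≠ 0) (hb : b ≠ 0) : E d × ℝ ≃ₜ E d × ℝ where
  toFun k := (a • k.1, b * k.2)
  invFun k := (a⁻¹ • k.1, b⁻¹ * k.2)
  left_inv k := by
    ext1
    · simp [smul_smul, ha]
    · simp [hb]
  right_inv k := by
    ext1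
    · simp [smul_smul, ha]
    · simp [hb]
  continuous_toFun := by fun_prop
  continuous_invFun := by fun_prop

/-- The change of variables. -/
theorem lintegral_Psi (R : E (d + 1) ≃ₗᵢ[ℝ] E (d + 1)) {r : ℝ} (hr : 0 < r) :
    ∃ c : ℝ≥0∞, c ≠ 0 ∧ c ≠ ⊤ ∧ ∀ f : E (d + 1) → ℝ≥0∞,
      ∫⁻ y, f y = c * ∫⁻ q : E d × ℝ, f (Psi R r q) := by
  have ha : r⁻¹ ≠ 0 := by positivity
  have hb : -(2 * (r ^ 2)⁻¹) ≠ 0 := neg_ne_zero.2 (by positivity)
  set c0 : ℝ := |(r⁻¹ ^ d)⁻¹| * |(-(2 * (r ^ 2)⁻¹))⁻¹| with hc0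
  have hc0p : 0 < c0 := by
    rw [hc0]
    have : (r⁻¹ ^ d)⁻¹ ≠ 0 := by positivity
    have h2 : (-(2 * (r ^ 2)⁻¹))⁻¹ ≠ 0 := inv_ne_zero hb
    positivity
  refine ⟨(ENNReal.ofReal c0)⁻¹, ?_, ?_, fun f => ?_⟩
  · exact ENNReal.inv_ne_zero.2 ENNReal.ofReal_ne_top
  · exact ENNReal.inv_ne_top.2 (by simpa using hc0p)
  have h1 : ∫⁻ y, f y = ∫⁻ y, f (R y) :=
    (R.measurePreserving.lintegral_comp_emb R.toHomeomorph.measurableEmbedding f).symm
  have h2 : ∫⁻ y, f (R y) = ∫⁻ k : E d × ℝ, f (R (join k.1 k.2)) :=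
    ((mp_join d).lintegral_comp_emb (joinL d).toHomeomorph.measurableEmbedding
      fun y => f (R y)).symm
  have h3 : ∫⁻ q : E d × ℝ, f (Psi R r q) =
      ENNReal.ofReal c0 * ∫⁻ k : E d × ℝ, f (R (join k.1 k.2)) := by
    have h4 := (dilH (d := d) ha hb).measurableEmbedding.lintegral_map
      (μ := volume) (fun k : E d × ℝ => f (R (join k.1 k.2)))
    have h5 : Measure.map (dilH (d := d) ha hb) volume =
        ENNReal.ofReal c0 • (volume : Measure (E d × ℝ)) := map_dil2 ha hb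
    rw [h5, lintegral_smul_measure, smul_eq_mul] at h4
    rw [h4]
    rfl
  rw [h1, h2, h3, ← mul_assoc, ENNReal.inv_mul_cancel (by simpa using hc0p)
    ENNReal.ofReal_ne_top, one_mul]

theorem norm_fst_le' (y : E (d + 1)) : ‖((joinL d).symm y).1‖ ≤ ‖y‖ ∧
    |((joinL d).symm y).2| ≤ ‖y‖ := by
  have h := j5_norm_sq ((joinL d).symm y).1 ((joinL d).symm y).2
  rw [join_symm] at h
  constructor
  · refine abs_le_of_sq_le_sq' ?_ (norm_nonneg _) |>.2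
    nlinarith [sq_nonneg ((joinL d).symm y).2]
  · refine abs_le_of_sq_le_sq ?_ (norm_nonneg _)
    nlinarith [sq_nonneg ‖((joinL d).symm y).1‖]

theorem Xi_sub (R : E (d + 1) ≃ₗᵢ[ℝ] E (d + 1)) (r : ℝ) (x y : E (d + 1)) :
    (Xi R r x).1 - (Xi R r y).1 = r⁻¹ • ((joinL d).symm (R.symm (x - y))).1 := by
  unfold Xi
  simp only [map_sub, Prod.fst_sub, smul_sub]

theorem Xi_lip (R : E (d + 1) ≃ₗᵢ[ℝ] E (d + 1)) {r : ℝ} (hr : 0 < r) (x y : E (d + 1)) :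
    ‖(Xi R r x).1 - (Xi R r y).1‖ ≤ ‖x - y‖ / r := by
  rw [Xi_sub, norm_smul, norm_inv, Real.norm_of_nonneg hr.le, div_eq_inv_mul]
  refine mul_le_mul_of_nonneg_left ?_ (by positivity)
  refine (norm_fst_le' _).1.trans (le_of_eq ?_)
  rw [R.symm.norm_map]

theorem symm_pole : (joinL d).symm (wbe d) = (0, 1) := by
  have h : wbe d = joinL d ((0 : E d), (1 : ℝ)) := rfl
  rw [h, ContinuousLinearEquiv.symm_apply_apply]

theorem Xi_norm (R : E (d + 1) ≃ₗᵢ[ℝ] E (d + 1)) {r : ℝ} (hr : 0 < r) (x : E (d + 1)) :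
    ‖(Xi R r x).1‖ ≤ ‖x - R (wbe d)‖ / r := by
  have h := Xi_lip R hr x (R (wbe d))
  have h0 : (Xi R r (R (wbe d))).1 = 0 := by
    unfold Xi
    simp [symm_pole]
  rwa [h0, sub_zero] at h

/-- The neighbourhood of the sphere lies in a neighbourhood of the paraboloid. -/
theorem Xi_height (R : E (d + 1) ≃ₗᵢ[ℝ] E (d + 1)) {r : ℝ} (hr : 0 < r) {x : E (d + 1)}
    {b s : ℝ} (hb : b ≤ 1) (h : |‖x‖ - 1| ≤ b) (hs : ‖x - R (wbe d)‖ ≤ s) (hs1 : s ≤ 1) :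
    |(Xi R r x).2 - ‖(Xi R r x).1‖ ^ 2| ≤ (3 * b + (3 * b + s ^ 2) ^ 2) / r ^ 2 := by
  set ξ := ((joinL d).symm (R.symm x)).1 with hξ
  set τ := ((joinL d).symm (R.symm x)).2 with hτ
  have e0 : join ξ τ = R.symm x := join_symm _
  have h1 : (joinL d).symm (R.symm (x - R (wbe d))) = (ξ, τ - 1) := by
    rw [map_sub, map_sub, R.symm_apply_apply, symm_pole]
    ext1
    · simp [hξ]
    · simp [hτ]
  have h2 := norm_fst_le' (R.symm (x - R (wbe d)))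
  rw [h1, R.symm.norm_map] at h2
  simp only at h2
  have h3 : 0 ≤ τ := by
    have := (abs_le.1 (h2.2.trans (hs.trans hs1))).1
    linarith
  have h4 := height h3 hb (h2.1.trans hs) (by rwa [e0, R.symm.norm_map])
  have e1 : (Xi R r x).2 - ‖(Xi R r x).1‖ ^ 2 = (2 * (1 - τ) - ‖ξ‖ ^ 2) / r ^ 2 := by
    unfold Xi
    simp only
    rw [← hξ, ← hτ, norm_smul, norm_inv, Real.norm_of_nonneg hr.le]
    field_simp
  rw [e1, abs_div, abs_of_pos (by positivity : 0 < r ^ 2)]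
  exact div_le_div_of_nonneg_right h4 (by positivity)

/-- Near the pole the chart is bi-Lipschitz on the sphere. -/
theorem Xi_lower (R : E (d + 1) ≃ₗᵢ[ℝ] E (d + 1)) {r : ℝ} (hr : 0 < r) {x y : E (d + 1)}
    (hx : ‖x‖ = 1) (hy : ‖y‖ = 1) (hxs : ‖x - R (wbe d)‖ ≤ 1 / 2)
    (hys : ‖y - R (wbe d)‖ ≤ 1 / 2) :
    ‖x - y‖ ≤ 3 * r * ‖(Xi R r x).1 - (Xi R r y).1‖ := by
  set ξ := ((joinL d).symm (R.symm x)).1 with hξ
  set τ := ((joinL d).symm (R.symm x)).2 with hτ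
  set ξ' := ((joinL d).symm (R.symm y)).1 with hξ'
  set τ' := ((joinL d).symm (R.symm y)).2 with hτ'
  have e0 : join ξ τ = R.symm x := join_symm _
  have e0' : join ξ' τ' = R.symm y := join_symm _
  have near : ∀ z : E (d + 1), ‖z - R (wbe d)‖ ≤ 1 / 2 →
      ‖((joinL d).symm (R.symm z)).1‖ ≤ 1 / 2 ∧ 1 / 2 ≤ ((joinL d).symm (R.symm z)).2 := by
    intro z hz
    have h1 : (joinL d).symm (R.symm (z - R (wbe d))) =
        (((joinL d).symm (R.symm z)).1, ((joinL d).symm (R.symm z)).2 - 1) := by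
      rw [map_sub, map_sub, R.symm_apply_apply, symm_pole]
      ext1
      · simp
      · simp
    have h2 := norm_fst_le' (R.symm (z - R (wbe d)))
    rw [h1, R.symm.norm_map] at h2
    simp only at h2
    refine ⟨h2.1.trans hz, ?_⟩
    have := (abs_le.1 (h2.2.trans hz)).1
    linarith
  obtain ⟨a1, a2⟩ := near x hxs
  obtain ⟨b1, b2⟩ := near y hys
  rw [← hξ] at a1
  rw [← hτ] at a2
  rw [← hξ'] at b1
  rw [← hτ'] at b2
  have n1 : ‖ξ‖ ^ 2 + τ ^ 2 = 1 := by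
    rw [← j5_norm_sq, e0, R.symm.norm_map, hx, one_pow]
  have n2 : ‖ξ'‖ ^ 2 + τ' ^ 2 = 1 := by
    rw [← j5_norm_sq, e0', R.symm.norm_map, hy, one_pow]
  set D : ℝ := ‖ξ - ξ'‖ with hD
  have hD0 : 0 ≤ D := norm_nonneg _
  have h3 : |‖ξ‖ - ‖ξ'‖| ≤ D := abs_norm_sub_norm_le ξ ξ'
  have h4 : |τ - τ'| ≤ D := by
    have e : (τ - τ') * (τ + τ') = (‖ξ'‖ - ‖ξ‖) * (‖ξ'‖ + ‖ξ‖) := by nlinarith
    have h5 : |τ - τ'| * (τ + τ') = |‖ξ‖ - ‖ξ'‖| * (‖ξ'‖ + ‖ξ‖) := by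
      have := congrArg abs e
      rw [abs_mul, abs_mul, abs_of_nonneg (by linarith : 0 ≤ τ + τ'),
        abs_of_nonneg (by positivity : 0 ≤ ‖ξ'‖ + ‖ξ‖), abs_sub_comm ‖ξ'‖ ‖ξ‖] at this
      exact this
    have h6 : |τ - τ'| * 1 ≤ |τ - τ'| * (τ + τ') :=
      mul_le_mul_of_nonneg_left (by linarith) (abs_nonneg _)
    have h7 : |‖ξ‖ - ‖ξ'‖| * (‖ξ'‖ + ‖ξ‖) ≤ D * 1 :=
      mul_le_mul h3 (by linarith) (by positivity) hD0
    linarith
  have h5 : ‖x - y‖ ^ 2 = D ^ 2 + (τ - τ') ^ 2 := by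
    have e : R.symm (x - y) = join (ξ - ξ') (τ - τ') := by
      rw [map_sub, ← e0, ← e0']
      ext i
      refine Fin.lastCases ?_ (fun j => ?_) i <;> simp
    rw [← R.symm.norm_map (x - y), e, j5_norm_sq]
  have h6 : ‖x - y‖ ≤ 3 * D := by
    refine abs_le_of_sq_le_sq' ?_ (by positivity) |>.2
    rw [h5]
    have : (τ - τ') ^ 2 ≤ D ^ 2 := by
      rw [← sq_abs]
      exact pow_le_pow_left₀ (abs_nonneg _) h4 2
    nlinarith
  have e2 : ‖(Xi R r x).1 - (Xi R r y).1‖ = D / r := by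
    unfold Xi
    simp only
    rw [← hξ, ← hξ', ← smul_sub, norm_smul, norm_inv, Real.norm_of_nonneg hr.le]
    field_simp
    rfl
  rw [e2]
  have : 3 * r * (D / r) = 3 * D := by field_simp
  rw [this]
  exact h6

end Pool.Agent.DEC.SPH
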