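import Pool.Agent.VANn.DMN

/-!
[DEC] row SPH: nets of the sphere and the number of the centres in a ball.
-/

set_option autoImplicit false

namespace Pool.Agent.DEC.SPH

open MeasureTheory Set Pool.Agent.MP_6cbfb8_an Pool.Agent.GNP
open scoped ENNReal Real

/-- A maximal separated set of directions. -/
theorem net_sep (n : ℕ) (hn : 2 ≤ n) (α : ℝ) (hα : 0 < α) (hα2 : α ≤ 2) : ∃ U : Finset (E n),
    (∀ u ∈ U, ‖u‖ = 1) ∧ (∀ u ∈ U, ∀ v ∈ U, u ≠ v → α ≤ dist u v) ∧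
    ∀ x, ‖x‖ = 1 → ∃ u ∈ U, dist x u < α := by
  obtain ⟨C, hC, h⟩ := VANn.DM.card_sep n hn
  obtain ⟨a, ha⟩ : ∃ a : E n, ‖a‖ = 1 :=
    ⟨EuclideanSpace.single ⟨0, by omega⟩ 1, by simp⟩
  classical
  have hd : ∀ z : E n, ‖z‖ = 1 → dist z a ≤ 2 := fun z hz => by
    refine (dist_le_norm_add_norm z a).trans ?_
    rw [hz, ha]
    norm_num
  set P : Finset (E n) → Prop := fun Z => (∀ z ∈ Z, ‖z‖ = 1) ∧
    (∀ z ∈ Z, ∀ w ∈ Z, z ≠ w → α ≤ dist z w) with hP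
  set N : ℕ := ⌊C * (2 / α) ^ (n - 1)⌋₊ with hN
  have hcard : ∀ Z, P Z → Z.card ≤ N := fun Z hZ =>
    Nat.le_floor (h a 2 α ha hα hα2 Z (fun z hz => ⟨hZ.1 z hz, hd z (hZ.1 z hz)⟩) hZ.2)
  have hex : ∃ Z, P Z ∧ ∀ Z', P Z' → Z'.card ≤ Z.card := by
    set T : Set ℕ := {k | ∃ Z, P Z ∧ Z.card = k} with hT
    have hne : T.Nonempty := ⟨0, ∅, ⟨by simp, by simp⟩, by simp⟩
    have hbd : BddAbove T := ⟨N, by rintro k ⟨Z, hZ, rfl⟩; exact hcard Z hZ⟩
    obtain ⟨Z, hZ, hZk⟩ := Nat.sSup_mem hne hbd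
    exact ⟨Z, hZ, fun Z' hZ' => hZk ▸ le_csSup hbd ⟨Z', hZ', rfl⟩⟩
  obtain ⟨Z, hZ, hmax⟩ := hex
  refine ⟨Z, hZ.1, hZ.2, fun x hx => ?_⟩
  by_contra hcon
  push Not at hcon
  have hxZ : x ∉ Z := fun hx' => by
    have := hcon x hx'
    rw [dist_self] at this
    linarith
  have hP' : P (insert x Z) := by
    refine ⟨fun z hz => ?_, fun z hz w hw hzw => ?_⟩
    · rcases Finset.mem_insert.1 hz with rfl | hz
      · exact hx
      · exact hZ.1 z hz
    · rcases Finset.mem_insert.1 hz with hz1 | hz1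
      · rcases Finset.mem_insert.1 hw with hw1 | hw1
        · exact absurd (hz1.trans hw1.symm) hzw
        · rw [hz1]; exact hcon w hw1
      · rcases Finset.mem_insert.1 hw with hw1 | hw1
        · rw [hw1, dist_comm]; exact hcon z hz1
        · exact hZ.2 z hz1 w hw1 hzw
  have := hmax _ hP'
  rw [Finset.card_insert_of_notMem hxZ] at this
  omega

/-- The points of a separated set of directions near a point. -/
theorem card_near (n : ℕ) (hn : 2 ≤ n) : ∃ C : ℝ, 0 < C ∧ ∀ (U : Finset (E n)) (α K : ℝ)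
    (y : E n), 0 < α → 1 ≤ K → (∀ u ∈ U, ‖u‖ = 1) →
    (∀ u ∈ U, ∀ v ∈ U, u ≠ v → α ≤ dist u v) →
    ((U.filter fun u => dist u y ≤ K * α).card : ℝ) ≤ C * K ^ (n - 1) := by
  obtain ⟨C, hC, h⟩ := VANn.DM.card_sep n hn
  refine ⟨C * 2 ^ (n - 1), by positivity, fun U α K y hα hK hU hs => ?_⟩
  rcases (U.filter fun u => dist u y ≤ K * α).eq_empty_or_nonempty with he | ⟨u0, hu0⟩
  · rw [he]
    simp only [Finset.card_empty, Nat.cast_zero]
    positivity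
  rw [Finset.mem_filter] at hu0
  have h1 := h u0 (2 * K * α) α (hU u0 hu0.1) hα (by nlinarith)
    (U.filter fun u => dist u y ≤ K * α) (fun z hz => ?_) (fun z hz w hw => ?_)
  · refine h1.trans (le_of_eq ?_)
    have : 2 * K * α / α = 2 * K := by field_simp
    rw [this, mul_pow]
    ring
  · rw [Finset.mem_filter] at hz
    refine ⟨hU z hz.1, ?_⟩
    have := dist_triangle z y u0
    rw [dist_comm y u0] at this
    linarith [hz.2, hu0.2]
  · exact hs z (Finset.mem_filter.1 hz).1 w (Finset.mem_filter.1 hw).1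

/-- The number of the centres in a larger ball. -/
theorem card_big (n : ℕ) (hn : 2 ≤ n) (M : ℕ) (L : ℝ) (hL : 1 ≤ L) : ∃ M' : ℕ, ∀ (ι : Type)
    [Fintype ι] (x : ι → E n) (ρ : ℝ), 0 < ρ → (∀ i, ‖x i‖ = 1) →
    (∀ y, {i | ‖x i - y‖ ≤ ρ}.encard ≤ M) → ∀ y, {i | ‖x i - y‖ ≤ L * ρ}.encard ≤ M' := by
  obtain ⟨C, hC, h⟩ := VANn.DM.nets n hn
  refine ⟨⌈C * (2 * L) ^ (n - 1) * M⌉₊, fun ι _ x ρ hρ hx hM y => ?_⟩
  classical
  rcases Set.eq_empty_or_nonempty {i | ‖x i - y‖ ≤ L * ρ} with he | ⟨i0, hi0⟩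
  · rw [he, Set.encard_empty]
    exact bot_le
  obtain ⟨Z, hZ1, hZ2, hZ3⟩ := h (x i0) (2 * L * ρ) ρ (hx i0) hρ (by nlinarith)
  have hfin : ∀ (s : ℝ) (z : E n), {i | ‖x i - z‖ ≤ s} =
      (((Finset.univ : Finset ι).filter fun i => ‖x i - z‖ ≤ s : Finset ι) : Set ι) := by
    intro s z
    ext i
    simp
  have h1 : ((Finset.univ : Finset ι).filter fun i => ‖x i - y‖ ≤ L * ρ) ⊆
      Z.biUnion fun z => (Finset.univ : Finset ι).filter fun i => ‖x i - z‖ ≤ ρ := by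
    intro i hi
    rw [Finset.mem_filter] at hi
    obtain ⟨z, hz, hz'⟩ := hZ3 (x i) (hx i) (by
      have := dist_triangle (x i) y (x i0)
      rw [dist_eq_norm (x i) y, dist_comm y, dist_eq_norm (x i0) y] at this
      have h5 : ‖x i0 - y‖ ≤ L * ρ := hi0
      linarith [hi.2])
    refine Finset.mem_biUnion.2 ⟨z, hz, ?_⟩
    rw [Finset.mem_filter]
    refine ⟨Finset.mem_univ _, ?_⟩
    rw [← dist_eq_norm]
    exact hz'.le
  have h2 : ∀ z ∈ Z, ((Finset.univ : Finset ι).filter fun i => ‖x i - z‖ ≤ ρ).card ≤ M := by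
    intro z _
    have h3 := hM z
    rw [hfin, Set.encard_coe_eq_coe_finsetCard] at h3
    exact_mod_cast h3
  have h3 := (Finset.card_le_card h1).trans (Finset.card_biUnion_le_card_mul _ _ _ h2)
  rw [hfin, Set.encard_coe_eq_coe_finsetCard]
  have h4 : (((Finset.univ : Finset ι).filter fun i => ‖x i - y‖ ≤ L * ρ).card : ℝ) ≤
      C * (2 * L) ^ (n - 1) * M := by
    calc (((Finset.univ : Finset ι).filter fun i => ‖x i - y‖ ≤ L * ρ).card : ℝ)
        ≤ Z.card * M := by exact_mod_cast h3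
      _ ≤ (C * (2 * L * ρ / ρ) ^ (n - 1)) * M :=
          mul_le_mul_of_nonneg_right hZ1 (Nat.cast_nonneg _)
      _ = _ := by rw [mul_div_assoc, div_self hρ.ne', mul_one]
  have h5 : (((Finset.univ : Finset ι).filter fun i => ‖x i - y‖ ≤ L * ρ).card : ℕ) ≤
      ⌈C * (2 * L) ^ (n - 1) * M⌉₊ := by
    have := h4.trans (Nat.le_ceil _)
    exact_mod_cast this
  exact_mod_cast h5

end Pool.Agent.DEC.SPH
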