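import Pool.Agent.DEC.DSK0
import Pool.Agent.DEC.SPG
import Pool.Agent.DEC.SPN
import Pool.Agent.DEC.Rec

/-!
[DEC] row SPH: from the paraboloid to the sphere.
-/

set_option autoImplicit false

namespace Pool.Agent.DEC

open MeasureTheory Set Pool.Agent.MP_6cbfb8_an Pool.Agent.GNP
open scoped ENNReal Real RealInnerProductSpace

namespace SPH

/-- Decoupling for pieces with separated centres. -/
def DecA {Y : Type} [MetricSpace Y] {n : ℕ} (p s : ℝ) (adm : Set Y) (A : Y → Set (E n))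
    (D : ℝ≥0∞) : Prop :=
  ∀ (ι : Type) [Fintype ι] (c : ι → Y) (F : ι → E n → ℂ), (∀ i, c i ∈ adm) →
    (∀ i j, i ≠ j → s ≤ dist (c i) (c j)) → (∀ i, Sp (A (c i)) (F i)) →
    Lq p (fun ξ => ∑ i, F i ξ) ≤ D * ∑ i, Lq p (F i)

/-- The same for finite sets of indices. -/
theorem DecA.finset {Y : Type} [MetricSpace Y] {n : ℕ} {p s : ℝ} {adm : Set Y}
    {A : Y → Set (E n)} {D : ℝ≥0∞} (h : DecA p s adm A D) {ι : Type} (I : Finset ι)
    (c : ι → Y) (F : ι → E n → ℂ) (h1 : ∀ i ∈ I, c i ∈ adm)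
    (h2 : ∀ i ∈ I, ∀ j ∈ I, i ≠ j → s ≤ dist (c i) (c j)) (h3 : ∀ i ∈ I, Sp (A (c i)) (F i)) :
    Lq p (fun ξ => ∑ i ∈ I, F i ξ) ≤ D * ∑ i ∈ I, Lq p (F i) := by
  have H := h {i // i ∈ I} (fun k => c k) (fun k => F k) (fun k => h1 _ k.2)
    (fun i j hij => h2 _ i.2 _ j.2 fun h0 => hij (Subtype.ext h0)) (fun k => h3 _ k.2)
  have e1 : ∀ ξ, ∑ k : {i // i ∈ I}, F k ξ = ∑ i ∈ I, F i ξ := fun ξ =>
    Finset.sum_coe_sort I fun i => F i ξ
  have e2 : ∑ k : {i // i ∈ I}, Lq p (F k) = ∑ i ∈ I, Lq p (F i) :=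
    Finset.sum_coe_sort I fun i => Lq p (F i)
  simp only [e1, e2] at H
  exact H

/-- A maximal separated subset. -/
theorem max_sep {Y : Type} [MetricSpace Y] {ι : Type} (I : Finset ι) (c : ι → Y) {s : ℝ}
    (hs : 0 < s) : ∃ V ⊆ I, (∀ i ∈ V, ∀ j ∈ V, i ≠ j → s ≤ dist (c i) (c j)) ∧
      ∀ i ∈ I, ∃ j ∈ V, dist (c i) (c j) < s := by
  classical
  set T : Finset (Finset ι) := I.powerset.filter fun V =>
    ∀ i ∈ V, ∀ j ∈ V, i ≠ j → s ≤ dist (c i) (c j) with hT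
  have hne : T.Nonempty := ⟨∅, by simp [hT]⟩
  obtain ⟨V, hV, hmax⟩ := Finset.exists_max_image T Finset.card hne
  rw [hT, Finset.mem_filter, Finset.mem_powerset] at hV
  refine ⟨V, hV.1, hV.2, fun i hi => ?_⟩
  by_contra hcon
  push Not at hcon
  have hiV : i ∉ V := fun h => by
    have := hcon i h
    rw [dist_self] at this
    linarith
  have h1 : insert i V ∈ T := by
    rw [hT, Finset.mem_filter, Finset.mem_powerset]
    refine ⟨Finset.insert_subset hi hV.1, fun a ha b hb hab => ?_⟩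
    rcases Finset.mem_insert.1 ha with ha' | ha'
    · rcases Finset.mem_insert.1 hb with hb' | hb'
      · exact absurd (ha'.trans hb'.symm) hab
      · rw [ha']
        exact hcon b hb'
    · rcases Finset.mem_insert.1 hb with hb' | hb'
      · rw [hb', dist_comm]
        exact hcon a ha'
      · exact hV.2 a ha' b hb' hab
  have h2 := hmax _ h1
  rw [Finset.card_insert_of_notMem hiV] at h2
  omega

/-- Grouping: decoupling at a larger scale and inside the groups. -/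
theorem DecA.group {Y : Type} [MetricSpace Y] {n : ℕ} {p s : ℝ} {adm : Set Y}
    {A : Y → Set (E n)} {D Q : ℝ≥0∞} (h : DecA p s adm A D) (hs : 0 < s) {ι : Type}
    (I : Finset ι) (c : ι → Y) (F : ι → E n → ℂ) (h1 : ∀ i ∈ I, c i ∈ adm)
    (h3 : ∀ i ∈ I, ∀ j ∈ I, dist (c i) (c j) < s → Sp (A (c j)) (F i))
    (hQ : ∀ j ∈ I, ∀ J ⊆ I, (∀ i ∈ J, dist (c i) (c j) < s) →
      Lq p (fun ξ => ∑ i ∈ J, F i ξ) ≤ Q * ∑ i ∈ J, Lq p (F i)) :
    Lq p (fun ξ => ∑ i ∈ I, F i ξ) ≤ D * Q * ∑ i ∈ I, Lq p (F i) := by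
  classical
  obtain ⟨V, hVI, hV1, hV2⟩ := max_sep I c hs
  have hV3 : ∀ i : ι, ∃ j, i ∈ I → j ∈ V ∧ dist (c i) (c j) < s := by
    intro i
    by_cases hi : i ∈ I
    · obtain ⟨j, hj, hj'⟩ := hV2 i hi
      exact ⟨j, fun _ => ⟨hj, hj'⟩⟩
    · exact ⟨i, fun h0 => absurd h0 hi⟩
  choose g hg using hV3
  have H := h.finset V c (fun v ξ => ∑ i ∈ I.filter fun i => g i = v, F i ξ)
    (fun v hv => h1 v (hVI hv)) hV1 (fun v hv => Sp.sum _ fun i hi => ?_)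
  · have e1 : ∀ ξ, ∑ v ∈ V, ∑ i ∈ I.filter (fun i => g i = v), F i ξ = ∑ i ∈ I, F i ξ :=
      fun ξ => Finset.sum_fiberwise_of_maps_to (fun i hi => (hg i hi).1) _
    simp only [e1] at H
    refine H.trans ?_
    rw [mul_assoc]
    refine mul_le_mul_right ?_ _
    rw [← Finset.sum_fiberwise_of_maps_to (fun i hi => (hg i hi).1) (fun i => Lq p (F i)),
      Finset.mul_sum]
    refine Finset.sum_le_sum fun v hv => ?_
    refine hQ v (hVI hv) _ (Finset.filter_subset _ _) fun i hi => ?_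
    rw [Finset.mem_filter] at hi
    rw [← hi.2]
    exact (hg i hi.1).2
  · rw [Finset.mem_filter] at hi
    refine h3 i hi.1 v (hVI hv) ?_
    rw [← hi.2]
    exact (hg i hi.1).2

/-- Minkowski and Cauchy-Schwarz. -/
theorem Lq_sum {n : ℕ} {p : ℝ} (hp : 1 ≤ p) {ι : Type} (I : Finset ι) (F : ι → E n → ℂ)
    (hF : ∀ i ∈ I, Continuous (F i)) :
    Lq p (fun ξ => ∑ i ∈ I, F i ξ) ≤ I.card * ∑ i ∈ I, Lq p (F i) := by
  have hp0 : 0 < p := by linarith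
  have hpe : ENNReal.ofReal p ≠ 0 := by simpa using hp0
  have e : ∀ G : E n → ℂ, Lq p G = eLpNorm G (ENNReal.ofReal p) volume ^ (2 : ℝ) := by
    intro G
    rw [eLpNorm_eq_lintegral_rpow_enorm_toReal hpe ENNReal.ofReal_ne_top,
      ENNReal.toReal_ofReal hp0.le, ← ENNReal.rpow_mul]
    unfold Lq
    congr 1
    field_simp
  have h1 : eLpNorm (fun ξ => ∑ i ∈ I, F i ξ) (ENNReal.ofReal p) volume ≤
      ∑ i ∈ I, eLpNorm (F i) (ENNReal.ofReal p) volume := by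
    have h2 := eLpNorm_sum_le (s := I) (f := F) (p := ENNReal.ofReal p) (μ := volume)
      (fun i hi => (hF i hi).aestronglyMeasurable) (by
        rw [← ENNReal.ofReal_one]
        exact ENNReal.ofReal_le_ofReal hp)
    have e2 : (∑ i ∈ I, F i) = fun ξ => ∑ i ∈ I, F i ξ := by
      funext ξ
      rw [Finset.sum_apply]
    rwa [e2] at h2
  rw [e]
  simp only [e]
  refine (ENNReal.rpow_le_rpow h1 (by norm_num)).trans ?_
  refine (ENNReal.rpow_sum_le_const_mul_sum_rpow I _ (by norm_num)).trans (le_of_eq ?_)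
  norm_num

/-! ### The chart and the class `Sp` -/

variable {d : ℕ}

/-- The frequencies in the coordinates of the chart. -/
noncomputable def Xi2 (R : E (d + 1) ≃ₗᵢ[ℝ] E (d + 1)) (r : ℝ) (x : E (d + 1)) : E (d + 1) :=
  join (Xi R r x).1 (Xi R r x).2

/-- The positions. -/
noncomputable def Psi2 (R : E (d + 1) ≃ₗᵢ[ℝ] E (d + 1)) (r : ℝ) (q : E (d + 1)) : E (d + 1) :=
  Psi R r ((joinL d).symm q)

theorem Xi2_continuous (R : E (d + 1) ≃ₗᵢ[ℝ] E (d + 1)) (r : ℝ) : Continuous (Xi2 R r) :=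
  (joinL d).continuous.comp (Xi_continuous R r)

theorem inner_Psi2 (R : E (d + 1) ≃ₗᵢ[ℝ] E (d + 1)) (r : ℝ) (q x : E (d + 1)) :
    (inner ℝ x (Psi2 R r q) : ℝ) = inner ℝ (join (0 : E d) (-(2 * (r ^ 2)⁻¹))) q +
      inner ℝ (Xi2 R r x) q := by
  rw [real_inner_comm]
  unfold Psi2
  rw [inner_Psi]
  conv_rhs => rw [← join_symm q]
  unfold Xi2
  rw [j5_inner, j5_inner, inner_zero_left, real_inner_comm]
  ring

theorem Sp_chart {A : Set (E (d + 1))} {F : E (d + 1) → ℂ} (h : Sp A F)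
    (R : E (d + 1) ≃ₗᵢ[ℝ] E (d + 1)) (r : ℝ) : ∃ H : E (d + 1) → ℂ, Sp (Xi2 R r '' A) H ∧
      ∀ q, F (Psi2 R r q) = chr (join (0 : E d) (-(2 * (r ^ 2)⁻¹))) q * H q := by
  obtain ⟨Ω, i, ν, X, a, h1, h2, h3, h4, h5⟩ := h
  refine ⟨fun q => ∫ ω, a ω * chr (Xi2 R r (X ω)) q ∂ν,
    ⟨Ω, i, ν, fun ω => Xi2 R r (X ω), a, h1, (Xi2_continuous R r).measurable.comp h2, h3,
      fun ω hω => mem_image_of_mem _ (h4 ω hω), fun ξ => rfl⟩, fun q => ?_⟩
  rw [h5, ← integral_const_mul]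
  refine integral_congr_ae (Filter.Eventually.of_forall fun ω => ?_)
  simp only
  have e : chr (X ω) (Psi2 R r q) =
      chr (join (0 : E d) (-(2 * (r ^ 2)⁻¹))) q * chr (Xi2 R r (X ω)) q := by
    unfold chr
    rw [← Complex.exp_add, inner_Psi2]
    congr 1
    push_cast
    ring
  show a ω * chr (X ω) (Psi2 R r q) = _
  rw [e]
  ring

theorem lintegral_Psi2 (R : E (d + 1) ≃ₗᵢ[ℝ] E (d + 1)) {r : ℝ} (hr : 0 < r) :
    ∃ c : ℝ≥0∞, c ≠ 0 ∧ c ≠ ⊤ ∧ ∀ f : E (d + 1) → ℝ≥0∞,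
      ∫⁻ y, f y = c * ∫⁻ q, f (Psi2 R r q) := by
  obtain ⟨c, h0, h1, h⟩ := lintegral_Psi R hr
  refine ⟨c, h0, h1, fun f => ?_⟩
  rw [h f]
  congr 1
  have h2 := (mp_join d).lintegral_comp_emb (joinL d).toHomeomorph.measurableEmbedding
    fun q => f (Psi2 R r q)
  rw [← h2]
  refine lintegral_congr fun k => ?_
  unfold Psi2
  rw [← joinL_apply, ContinuousLinearEquiv.symm_apply_apply]

/-- Decoupling for the sphere. -/
def DecS (d : ℕ) (p s : ℝ) (D : ℝ≥0∞) : Prop :=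
  DecA p s (Metric.sphere (0 : E (d + 1)) 1)
    (fun x => {y : E (d + 1) | ‖y - x‖ ≤ 2 * s ∧ |‖y‖ - 1| ≤ 2 * s ^ 2}) D

/-- Decoupling for the paraboloid. -/
def DecP (d : ℕ) (p s : ℝ) (D : ℝ≥0∞) : Prop :=
  DecA p s (Metric.closedBall (0 : E d) 1) (fun c => Np c (2 * s) (2 * s ^ 2)) D

/-- One cap of the sphere. -/
theorem cell (hd : 1 ≤ d) {p : ℝ} (hp : 1 ≤ p) : ∃ M : ℝ≥0∞, M ≠ 0 ∧ M ≠ ⊤ ∧
    ∀ (r : ℝ) (D : ℝ≥0∞), 0 < r → r ≤ 1 / 4 → DecP d p (3 * r) D → ∀ (ι : Type) (I : Finset ι)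
      (x : ι → E (d + 1)) (F : ι → E (d + 1) → ℂ) (u : E (d + 1)), ‖u‖ = 1 →
      (∀ i ∈ I, ‖x i‖ = 1) → (∀ i ∈ I, ‖x i - u‖ ≤ r) →
      (∀ i ∈ I, ∀ j ∈ I, i ≠ j → r ^ 2 ≤ dist (x i) (x j)) →
      (∀ i ∈ I, Sp {y | ‖y - x i‖ ≤ 2 * r ^ 2 ∧ |‖y‖ - 1| ≤ 2 * (r ^ 2) ^ 2} (F i)) →
      Lq p (fun ξ => ∑ i ∈ I, F i ξ) ≤ D * M * ∑ i ∈ I, Lq p (F i) := by
  obtain ⟨C, hC, hcard⟩ := VANn.DM.card_sep (d + 1) (by omega)
  set M0 : ℕ := ⌈C * 9 ^ d⌉₊ with hM0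
  have hM0p : 0 < M0 := Nat.ceil_pos.2 (by positivity)
  refine ⟨(M0 : ℝ≥0∞), by exact_mod_cast hM0p.ne', ENNReal.natCast_ne_top M0, ?_⟩
  intro r D hr hr4 hP ι I x F u hu hx hxu hsep hF
  have hp0 : 0 < p := by linarith
  obtain ⟨R, hR⟩ := wb_exists_rot u hu
  obtain ⟨c, hc0, hct, hc⟩ := lintegral_Psi2 R hr
  have hH : ∀ i : ι, ∃ H : E (d + 1) → ℂ, i ∈ I → Sp (Xi2 R r ''
      {y | ‖y - x i‖ ≤ 2 * r ^ 2 ∧ |‖y‖ - 1| ≤ 2 * (r ^ 2) ^ 2}) H ∧
      ∀ q, F i (Psi2 R r q) = chr (join (0 : E d) (-(2 * (r ^ 2)⁻¹))) q * H q := by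
    intro i
    by_cases hi : i ∈ I
    · obtain ⟨H, h1, h2⟩ := Sp_chart (hF i hi) R r
      exact ⟨H, fun _ => ⟨h1, h2⟩⟩
    · exact ⟨0, fun h0 => absurd h0 hi⟩
  choose H hH using hH
  -- the norms
  have hn : ∀ J ⊆ I, Lq p (fun ξ => ∑ i ∈ J, F i ξ) =
      c ^ (2 / p) * Lq p (fun ξ => ∑ i ∈ J, H i ξ) := by
    intro J hJ
    unfold Lq
    rw [hc, ENNReal.mul_rpow_of_nonneg _ _ (by positivity)]
    congr 2
    refine lintegral_congr fun q => ?_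
    have e : ∑ i ∈ J, F i (Psi2 R r q) =
        chr (join (0 : E d) (-(2 * (r ^ 2)⁻¹))) q * ∑ i ∈ J, H i q := by
      rw [Finset.mul_sum]
      exact Finset.sum_congr rfl fun i hi => (hH i (hJ hi)).2 q
    show ‖∑ i ∈ J, F i (Psi2 R r q)‖ₑ ^ p = ‖∑ i ∈ J, H i q‖ₑ ^ p
    rw [e, enorm_mul, ← ofReal_norm, norm_chr, ENNReal.ofReal_one, one_mul]
  have hn1 : ∀ i ∈ I, Lq p (F i) = c ^ (2 / p) * Lq p (H i) := by
    intro i hi
    have := hn {i} (by simpa using hi)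
    simpa using this
  -- the centres
  set ce : ι → E d := fun i => (Xi R r (x i)).1 with hce
  have hpole : R (wbe d) = u := hR
  have hce1 : ∀ i ∈ I, ce i ∈ Metric.closedBall (0 : E d) 1 := by
    intro i hi
    rw [mem_closedBall_zero_iff]
    refine (Xi_norm R hr (x i)).trans ?_
    rw [hpole, div_le_one hr]
    exact hxu i hi
  have hset : ∀ i ∈ I, ∀ j, dist (ce i) (ce j) < 3 * r → Xi2 R r ''
      {y | ‖y - x i‖ ≤ 2 * r ^ 2 ∧ |‖y‖ - 1| ≤ 2 * (r ^ 2) ^ 2} ⊆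
        Np (ce j) (2 * (3 * r)) (2 * (3 * r) ^ 2) := by
    rintro i hi j hij _ ⟨y, ⟨hy1, hy2⟩, rfl⟩
    refine ⟨(Xi R r y).1, (Xi R r y).2, rfl, ?_, ?_⟩
    · have h1 : ‖(Xi R r y).1 - ce i‖ ≤ 2 * r := by
        refine (Xi_lip R hr y (x i)).trans ?_
        rw [div_le_iff₀ hr]
        nlinarith
      rw [dist_eq_norm] at hij
      have h2 : (Xi R r y).1 - ce j = ((Xi R r y).1 - ce i) + (ce i - ce j) := by abel
      rw [h2]
      refine (norm_add_le _ _).trans ?_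
      linarith
    · have h1 : ‖y - R (wbe d)‖ ≤ 3 / 2 * r := by
        rw [hpole]
        have h2 : y - u = (y - x i) + (x i - u) := by abel
        rw [h2]
        refine (norm_add_le _ _).trans ?_
        have := hxu i hi
        nlinarith
      have hr4' : (r ^ 2) ^ 2 = r ^ 4 := by ring
      have hb : 2 * (r ^ 2) ^ 2 ≤ 1 := by
        have : r ^ 2 ≤ 1 / 16 := by nlinarith
        nlinarith [sq_nonneg r]
      refine (Xi_height R hr hb hy2 h1 (by linarith)).trans ?_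
      rw [div_le_iff₀ (by positivity)]
      have h2 : r ^ 2 ≤ 1 / 16 := by nlinarith
      have h3 : 3 * (2 * (r ^ 2) ^ 2) + (3 / 2 * r) ^ 2 ≤ 21 / 8 * r ^ 2 := by nlinarith [sq_nonneg r]
      have h4 : 0 ≤ 3 * (2 * (r ^ 2) ^ 2) + (3 / 2 * r) ^ 2 := by positivity
      have h5 : (3 * (2 * (r ^ 2) ^ 2) + (3 / 2 * r) ^ 2) ^ 2 ≤ (21 / 8 * r ^ 2) ^ 2 :=
        pow_le_pow_left₀ h4 h3 2
      have h6 : 0 ≤ (r ^ 2) ^ 2 := by positivity
      nlinarith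
  have main := DecA.group hP (by positivity : (0 : ℝ) < 3 * r) I ce H hce1
    (fun i hi j hj hij => (hH i hi).1.mono (hset i hi j hij)) (Q := (M0 : ℝ≥0∞)) (by
      intro j hj J hJ hJd
      refine (Lq_sum hp J H fun i hi => (hH i (hJ hi)).1.continuous).trans ?_
      refine mul_le_mul_left ?_ _
      have h1 : ∀ i ∈ J, ‖x i - x j‖ ≤ 9 * r ^ 2 := by
        intro i hi
        have h2 := Xi_lower R hr (hx i (hJ hi)) (hx j hj)
          (by rw [hpole]; linarith [hxu i (hJ hi)]) (by rw [hpole]; linarith [hxu j hj])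
        refine h2.trans ?_
        have h3 := hJd i hi
        rw [dist_eq_norm] at h3
        have h4 : 3 * r * ‖ce i - ce j‖ ≤ 3 * r * (3 * r) :=
          mul_le_mul_of_nonneg_left h3.le (by positivity)
        refine h4.trans (le_of_eq ?_)
        ring
      -- the number of the points
      classical
      have hinj : Set.InjOn x J := by
        intro i hi k hk hik
        by_contra hne
        have := hsep i (hJ hi) k (hJ hk) hne
        rw [hik, dist_self] at this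
        have : 0 < r ^ 2 := by positivity
        linarith
      have h2 := hcard (x j) (9 * r ^ 2) (r ^ 2) (hx j hj) (by positivity) (by nlinarith)
        (J.image x) (fun z hz => ?_) (fun z hz w hw hzw => ?_)
      · rw [Finset.card_image_of_injOn hinj] at h2
        have h3 : (9 * r ^ 2 / r ^ 2) = 9 := by field_simp
        rw [h3, show d + 1 - 1 = d by omega] at h2
        have h4 : J.card ≤ M0 := by
          have := h2.trans (Nat.le_ceil (C * 9 ^ d))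
          rw [hM0]
          exact Nat.cast_le.1 this
        exact_mod_cast h4
      · obtain ⟨i, hi, rfl⟩ := Finset.mem_image.1 hz
        exact ⟨hx i (hJ hi), by rw [dist_eq_norm]; exact h1 i hi⟩
      · obtain ⟨i, hi, rfl⟩ := Finset.mem_image.1 hz
        obtain ⟨k, hk, rfl⟩ := Finset.mem_image.1 hw
        exact hsep i (hJ hi) k (hJ hk) fun h0 => hzw (by rw [h0]))
  rw [hn I subset_rfl, Finset.sum_congr rfl hn1, ← Finset.mul_sum]
  calc c ^ (2 / p) * Lq p (fun ξ => ∑ i ∈ I, H i ξ)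
      ≤ c ^ (2 / p) * (D * (M0 : ℝ≥0∞) * ∑ i ∈ I, Lq p (H i)) := mul_le_mul_right main _
    _ = _ := by ring

/-- From the scale `r` to the scale `r ^ 2`. -/
theorem step (hd : 1 ≤ d) {p : ℝ} (hp : 1 ≤ p) : ∃ M : ℝ≥0∞, M ≠ 0 ∧ M ≠ ⊤ ∧
    ∀ (r : ℝ) (D D' : ℝ≥0∞), 0 < r → r ≤ 1 / 4 → DecP d p (3 * r) D' → DecS d p r D →
      DecS d p (r ^ 2) (D * (D' * M)) := by
  obtain ⟨M, hM0, hMt, hcell⟩ := cell hd hp
  refine ⟨M, hM0, hMt, fun r D D' hr hr4 hP hS ι _ x F hx hsep hF => ?_⟩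
  have hx1 : ∀ i, ‖x i‖ = 1 := fun i => mem_sphere_zero_iff_norm.1 (hx i)
  refine DecA.group hS hr Finset.univ x F (fun i _ => hx i) (fun i _ j _ hij => ?_)
    (fun j _ J _ hJ => ?_)
  · refine (hF i).mono ?_
    rintro y ⟨hy1, hy2⟩
    rw [dist_eq_norm] at hij
    constructor
    · have h2 : y - x j = (y - x i) + (x i - x j) := by abel
      rw [h2]
      refine (norm_add_le _ _).trans ?_
      nlinarith
    · refine hy2.trans ?_
      have h2 : r ^ 2 ≤ 1 := by nlinarith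
      nlinarith [sq_nonneg r]
  · exact hcell r D' hr hr4 hP _ J x F (x j) (hx1 j) (fun i _ => hx1 i)
      (fun i hi => by rw [← dist_eq_norm]; exact (hJ i hi).le) (fun i _ k _ hik => hsep i k hik)
      fun i _ => hF i

/-- The trivial bound. -/
theorem trivial_bound (hd : 1 ≤ d) {p : ℝ} (hp : 1 ≤ p) (K : ℝ) : ∃ B : ℝ≥0∞, B ≠ ⊤ ∧
    ∀ R : ℝ, 1 ≤ R → R ≤ K → DecS d p (1 / R) B := by
  obtain ⟨C, hC, hcard⟩ := VANn.DM.card_sep (d + 1) (by omega)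
  refine ⟨ENNReal.ofReal (C * (2 * K) ^ d), ENNReal.ofReal_ne_top, fun R hR hRK ι _ x F hx hsep hF =>
    ?_⟩
  have hR0 : 0 < R := by linarith
  have hx1 : ∀ i, ‖x i‖ = 1 := fun i => mem_sphere_zero_iff_norm.1 (hx i)
  refine (Lq_sum hp Finset.univ F fun i _ => (hF i).continuous).trans (mul_le_mul_left ?_ _)
  rw [Finset.card_univ]
  rcases isEmpty_or_nonempty ι with h0 | ⟨⟨i0⟩⟩
  · simp
  classical
  have hinj : Function.Injective x := by
    intro i k hik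
    by_contra hne
    have := hsep i k hne
    rw [hik, dist_self] at this
    have : 0 < 1 / R := by positivity
    linarith
  have h2 := hcard (x i0) 2 (1 / R) (hx1 i0) (by positivity) (by
    rw [div_le_iff₀ hR0]; linarith) (Finset.univ.image x) (fun z hz => ?_) (fun z hz w hw hzw => ?_)
  · rw [Finset.card_image_of_injective _ hinj, Finset.card_univ,
      show d + 1 - 1 = d by omega] at h2
    have h3 : C * (2 / (1 / R)) ^ d ≤ C * (2 * K) ^ d := by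
      refine mul_le_mul_of_nonneg_left (pow_le_pow_left₀ (by positivity) ?_ d) hC.le
      rw [div_div_eq_mul_div, div_one]
      linarith
    rw [← ENNReal.ofReal_natCast]
    exact ENNReal.ofReal_le_ofReal (h2.trans h3)
  · obtain ⟨i, -, rfl⟩ := Finset.mem_image.1 hz
    refine ⟨hx1 i, (dist_le_norm_add_norm _ _).trans ?_⟩
    rw [hx1, hx1]
    norm_num
  · obtain ⟨i, -, rfl⟩ := Finset.mem_image.1 hz
    obtain ⟨k, -, rfl⟩ := Finset.mem_image.1 hw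
    exact hsep i k fun h0 => hzw (by rw [h0])

theorem DecA.mono {Y : Type} [MetricSpace Y] {n : ℕ} {p s : ℝ} {adm : Set Y}
    {A : Y → Set (E n)} {D D' : ℝ≥0∞} (h : DecA p s adm A D) (hD : D ≤ D') :
    DecA p s adm A D' := fun ι _ c F h1 h2 h3 =>
  (h ι c F h1 h2 h3).trans (mul_le_mul_left hD _)

/-- The best constant for the sphere. -/
noncomputable def DS (d : ℕ) (p R : ℝ) : ℝ≥0∞ := sInf {D | DecS d p (1 / R) D}

theorem rec_step (hd : 1 ≤ d) {p : ℝ} (hp : 1 ≤ p)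
    (hP : ∀ ε : ℝ, 0 < ε → ∃ C : ℝ≥0∞, C ≠ ⊤ ∧ ∀ ρ : ℝ, 0 < ρ → ρ ≤ 1 →
      DecP d p ρ (C * ENNReal.ofReal (ρ ^ (-ε)))) (ε : ℝ) (hε : 0 < ε) :
    ∃ (A : ℝ≥0∞) (K : ℝ), A ≠ ⊤ ∧ ∀ R : ℝ, K ≤ R → 1 ≤ R →
      DS d p R ≤ A * ENNReal.ofReal (R ^ ε) * DS d p (√R) := by
  obtain ⟨M, hM0, hMt, hstep⟩ := step hd hp
  obtain ⟨C, hC, h⟩ := hP (2 * ε) (by positivity)
  refine ⟨(C + 1) * M, 16, ENNReal.mul_ne_top (by simpa using hC) hMt, fun R hR hR1 => ?_⟩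
  have hR0 : 0 < R := by linarith
  have hs0 : 0 < √R := Real.sqrt_pos.2 hR0
  have hs4 : 4 ≤ √R := Real.le_sqrt_of_sq_le (by linarith)
  set r : ℝ := 1 / √R with hr
  have hr0 : 0 < r := by positivity
  have hr4 : r ≤ 1 / 4 := one_div_le_one_div_of_le (by norm_num) hs4
  have hr2 : r ^ 2 = 1 / R := by
    rw [hr, div_pow, one_pow, Real.sq_sqrt hR0.le]
  have h1 : DecP d p (3 * r) ((C + 1) * ENNReal.ofReal (R ^ ε)) := by
    refine DecA.mono (h (3 * r) (by positivity) (by linarith)) ?_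
    refine mul_le_mul' le_self_add (ENNReal.ofReal_le_ofReal ?_)
    have e1 : R ^ ε = r ^ (-(2 * ε)) := by
      rw [hr, one_div, Real.inv_rpow hs0.le, Real.rpow_neg hs0.le, inv_inv, Real.sqrt_eq_rpow,
        ← Real.rpow_mul hR0.le]
      congr 1
      ring
    rw [e1]
    exact Real.rpow_le_rpow_of_nonpos hr0 (by linarith) (by linarith)
  have hB0 : (C + 1) * ENNReal.ofReal (R ^ ε) * M ≠ 0 := by
    refine mul_ne_zero (mul_ne_zero (by simp) ?_) hM0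
    have : 0 < R ^ ε := Real.rpow_pos_of_pos hR0 _
    simpa using this
  have hBt : (C + 1) * ENNReal.ofReal (R ^ ε) * M ≠ ⊤ :=
    ENNReal.mul_ne_top (ENNReal.mul_ne_top (by simpa using hC) ENNReal.ofReal_ne_top) hMt
  have h2 : DS d p R / ((C + 1) * ENNReal.ofReal (R ^ ε) * M) ≤ DS d p (√R) := by
    refine le_sInf fun D hD => ?_
    rw [ENNReal.div_le_iff hB0 hBt]
    refine sInf_le ?_
    show DecS d p (1 / R) _
    rw [← hr2]
    exact hstep r D _ hr0 hr4 h1 hD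
  rw [ENNReal.div_le_iff hB0 hBt] at h2
  refine h2.trans (le_of_eq ?_)
  ring

/-- **Decoupling for the sphere.** -/
theorem sph (hd : 1 ≤ d) {p : ℝ} (hp : 1 ≤ p)
    (hP : ∀ ε : ℝ, 0 < ε → ∃ C : ℝ≥0∞, C ≠ ⊤ ∧ ∀ ρ : ℝ, 0 < ρ → ρ ≤ 1 →
      DecP d p ρ (C * ENNReal.ofReal (ρ ^ (-ε)))) (ε : ℝ) (hε : 0 < ε) :
    ∃ C : ℝ≥0∞, C ≠ ⊤ ∧ ∀ ρ : ℝ, 0 < ρ → ρ ≤ 1 →
      DecS d p ρ (C * ENNReal.ofReal (ρ ^ (-ε))) := by
  obtain ⟨C, hC, h⟩ := rec_sqrt_ennreal (D := DS d p) (fun K => by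
    obtain ⟨B, hB, h⟩ := trivial_bound (d := d) hd hp K
    exact ⟨B, hB, fun R h1 h2 => sInf_le (h R h1 h2)⟩) (rec_step hd hp hP) ε hε
  refine ⟨C + 1, by simpa using hC, fun ρ hρ hρ1 => ?_⟩
  have h1 := h (1 / ρ) ((one_le_div hρ).2 hρ1)
  have e1 : (1 / ρ) ^ ε = ρ ^ (-ε) := by
    rw [one_div, Real.inv_rpow hρ.le, Real.rpow_neg hρ.le]
  rw [e1] at h1
  have h2 : 1 ≤ ρ ^ (-ε) := Real.one_le_rpow_of_pos_of_le_one_of_nonpos hρ hρ1 (by linarith)
  have h3 : C * ENNReal.ofReal (ρ ^ (-ε)) < (C + 1) * ENNReal.ofReal (ρ ^ (-ε)) := by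
    rw [add_mul, one_mul]
    refine ENNReal.lt_add_right (ENNReal.mul_ne_top hC ENNReal.ofReal_ne_top) ?_
    have : 0 < ρ ^ (-ε) := by linarith
    simpa using this
  obtain ⟨D, hD, hD'⟩ := sInf_lt_iff.1 (h1.trans_lt h3)
  have hD2 : DecS d p (1 / (1 / ρ)) D := hD
  rw [one_div_one_div] at hD2
  exact DecA.mono hD2 hD'.le

/-- The number of the centres in a larger ball, with the overlap in open balls. -/
theorem card_big' (n : ℕ) (hn : 2 ≤ n) (M : ℕ) (L : ℝ) (hL : 1 ≤ L) : ∃ M' : ℕ, ∀ (ι : Type)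
    [Fintype ι] (x : ι → E n) (ρ : ℝ), 0 < ρ → (∀ i, ‖x i‖ = 1) →
    (∀ z, {i | ‖z - x i‖ < ρ}.encard ≤ M) → ∀ y (J : Finset ι),
      (∀ i ∈ J, ‖x i - y‖ ≤ L * ρ) → J.card ≤ M' := by
  obtain ⟨M', h⟩ := card_big n hn M (2 * L) (by linarith)
  refine ⟨M', fun ι _ x ρ hρ hx hM y J hJ => ?_⟩
  have h1 := h ι x (ρ / 2) (by positivity) hx (fun z => by
    refine le_trans (Set.encard_le_encard ?_) (hM z)
    intro i hi
    have h2 : ‖x i - z‖ ≤ ρ / 2 := hi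
    show ‖z - x i‖ < ρ
    rw [norm_sub_rev]
    linarith) y
  have h2 : (J : Set ι).encard ≤ M' := by
    refine le_trans (Set.encard_le_encard ?_) h1
    intro i hi
    show ‖x i - y‖ ≤ 2 * L * (ρ / 2)
    have := hJ i hi
    linarith
  rw [Set.encard_coe_eq_coe_finsetCard] at h2
  exact_mod_cast h2

end SPH

/-- **Row SPH**: from the paraboloid to the sphere. -/
theorem dec_sphere (d : ℕ) (hd : 1 ≤ d) (p : ℝ) (hp : 2 ≤ p) (h : DecAll d p) :
    DecSph (d + 1) p := by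
  intro A M ε hA hε
  have hP : ∀ ε : ℝ, 0 < ε → ∃ C : ℝ≥0∞, C ≠ ⊤ ∧ ∀ ρ : ℝ, 0 < ρ → ρ ≤ 1 →
      SPH.DecP d p ρ (C * ENNReal.ofReal (ρ ^ (-ε))) := by
    intro ε hε
    obtain ⟨C, hC, h1⟩ := h ε hε
    refine ⟨C, hC, fun ρ hρ hρ1 ι _ c F h2 h3 h4 => ?_⟩
    refine h1 ρ hρ hρ1 ι c F (fun i => mem_closedBall_zero_iff.1 (h2 i)) (fun i j hij => ?_) h4
    rw [← dist_eq_norm]
    exact h3 i j hij
  obtain ⟨C, hC, hS⟩ := SPH.sph hd (by linarith : (1 : ℝ) ≤ p) hP ε hε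
  obtain ⟨M1, hM1⟩ := SPH.card_big' (d + 1) (by omega) M (8 * A) (by linarith)
  refine ⟨(C + 1) * M1, ENNReal.mul_ne_top (by simpa using hC) (ENNReal.natCast_ne_top _),
    fun ρ hρ hρ1 ι _ x F hx hM hF => ?_⟩
  have hA0 : 0 < A := by linarith
  have e1 : 1 ≤ ENNReal.ofReal (ρ ^ (-ε)) := by
    rw [← ENNReal.ofReal_one]
    exact ENNReal.ofReal_le_ofReal
      (Real.one_le_rpow_of_pos_of_le_one_of_nonpos hρ hρ1 (by linarith))
  rcases le_or_gt (2 * A * ρ) 1 with hs | hs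
  · have h1 := SPH.DecA.group (hS (2 * A * ρ) (by positivity) hs) (by positivity) Finset.univ x F
      (fun i _ => mem_sphere_zero_iff_norm.2 (hx i)) (Q := (M1 : ℝ≥0∞))
      (fun i _ j _ hij => (hF i).mono ?_) (fun j _ J _ hJ => ?_)
    · refine h1.trans (mul_le_mul_left ?_ _)
      have e2 : ENNReal.ofReal ((2 * A * ρ) ^ (-ε)) ≤ ENNReal.ofReal (ρ ^ (-ε)) :=
        ENNReal.ofReal_le_ofReal (Real.rpow_le_rpow_of_nonpos hρ (by nlinarith) (by linarith))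
      calc C * ENNReal.ofReal ((2 * A * ρ) ^ (-ε)) * (M1 : ℝ≥0∞)
          ≤ (C + 1) * ENNReal.ofReal (ρ ^ (-ε)) * (M1 : ℝ≥0∞) :=
            mul_le_mul_left (mul_le_mul' le_self_add e2) _
        _ = _ := by ring
    · rintro y ⟨hy1, hy2⟩
      rw [dist_eq_norm] at hij
      constructor
      · have h2 : y - x j = (y - x i) + (x i - x j) := by abel
        rw [h2]
        refine (norm_add_le _ _).trans ?_
        have h3 : 0 < A * ρ := by positivity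
        linarith
      · refine hy2.trans ?_
        have h3 : 0 ≤ ρ ^ 2 := by positivity
        have h4 : A * ρ ^ 2 ≤ A ^ 2 * ρ ^ 2 := mul_le_mul_of_nonneg_right (by nlinarith) h3
        nlinarith
    · refine (SPH.Lq_sum (by linarith : (1 : ℝ) ≤ p) J F fun i _ => (hF i).continuous).trans
        (mul_le_mul_left ?_ _)
      have h2 := hM1 ι x ρ hρ hx hM (x j) J fun i hi => by
        have := hJ i hi
        rw [dist_eq_norm] at this
        nlinarith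
      exact_mod_cast h2
  · refine (SPH.Lq_sum (by linarith : (1 : ℝ) ≤ p) Finset.univ F
      fun i _ => (hF i).continuous).trans (mul_le_mul_left ?_ _)
    have h2 : (Finset.univ : Finset ι).card ≤ M1 := by
      rcases isEmpty_or_nonempty ι with h0 | ⟨⟨i0⟩⟩
      · simp
      refine hM1 ι x ρ hρ hx hM (x i0) _ fun i _ => ?_
      refine (norm_sub_le _ _).trans ?_
      rw [hx, hx]
      nlinarith
    calc ((Finset.univ : Finset ι).card : ℝ≥0∞) ≤ 1 * (M1 : ℝ≥0∞) * 1 := by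
          rw [one_mul, mul_one]
          exact_mod_cast h2
      _ ≤ (C + 1) * (M1 : ℝ≥0∞) * ENNReal.ofReal (ρ ^ (-ε)) :=
          mul_le_mul' (mul_le_mul_left (by simp) _) e1

end Pool.Agent.DEC
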