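import Pool.Agent.DEC.DSK0

/-!
[DEC] Separated nets and the number of separated points in a ball.
-/

set_option autoImplicit false

namespace Pool.Agent.DEC

open MeasureTheory Set Filter Topology Pool.Agent.MP_6cbfb8_an
open scoped ENNReal Real RealInnerProductSpace SchwartzMap

theorem net {V : Type} [NormedAddCommGroup V] {ι : Type} [Fintype ι] (c : ι → V) {θ : ℝ}
    (hθ : 0 < θ) : ∃ (T : Finset ι) (g : ι → ι), (∀ i, g i ∈ T ∧ ‖c i - c (g i)‖ < θ) ∧
      ∀ i ∈ T, ∀ j ∈ T, i ≠ j → θ ≤ ‖c i - c j‖ := by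
  classical
  let P : Finset (Finset ι) := Finset.univ.filter fun T : Finset ι =>
    ∀ i ∈ T, ∀ j ∈ T, i ≠ j → θ ≤ ‖c i - c j‖
  have hP : P.Nonempty := ⟨∅, by simp [P]⟩
  obtain ⟨T, hT, hmax⟩ := P.exists_max_image Finset.card hP
  have hT' : ∀ i ∈ T, ∀ j ∈ T, i ≠ j → θ ≤ ‖c i - c j‖ := (Finset.mem_filter.1 hT).2
  have h : ∀ i, ∃ j ∈ T, ‖c i - c j‖ < θ := by
    intro i
    by_contra hcon
    push Not at hcon
    have hi : i ∉ T := fun hi => by
      have := hcon i hi
      rw [sub_self, norm_zero] at this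
      linarith
    have h1 : insert i T ∈ P := by
      refine Finset.mem_filter.2 ⟨Finset.mem_univ _, ?_⟩
      intro a ha b hb hab
      rcases Finset.mem_insert.1 ha with h1 | h1 <;> rcases Finset.mem_insert.1 hb with h2 | h2
      · exact absurd (h1.trans h2.symm) hab
      · rw [h1]
        exact hcon b h2
      · rw [h2, norm_sub_rev]
        exact hcon a h1
      · exact hT' a h1 b h2 hab
    have h2 := hmax _ h1
    rw [Finset.card_insert_of_notMem hi] at h2
    omega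
  choose g hg1 hg2 using h
  exact ⟨T, g, fun i => ⟨hg1 i, hg2 i⟩, hT'⟩

theorem card_sep (n : ℕ) (A : ℝ) (hA : 0 ≤ A) : ∃ C : ℝ, 0 < C ∧ ∀ (ι : Type) [Fintype ι]
    (c : ι → E n) (z : E n) (θ : ℝ), 0 < θ → θ ≤ 1 → (∀ i, ‖c i - z‖ ≤ A) →
      (∀ i j, i ≠ j → θ ≤ ‖c i - c j‖) → (Fintype.card ι : ℝ) ≤ C * (θ ^ n)⁻¹ := by
  refine ⟨(2 * (A + 1)) ^ n, by positivity, ?_⟩
  intro ι _ c z θ hθ hθ1 hc hsep
  have hd : ((Finset.univ : Finset ι) : Set ι).PairwiseDisjoint
      fun i => Metric.ball (c i) (θ / 2) := by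
    intro i _ j _ hij
    refine Metric.ball_disjoint_ball ?_
    rw [dist_eq_norm]
    linarith [hsep i j hij]
  have hsub : (⋃ i ∈ (Finset.univ : Finset ι), Metric.ball (c i) (θ / 2)) ⊆
      Metric.ball z (A + 1) := by
    intro x hx
    simp only [Finset.mem_univ, iUnion_true, mem_iUnion, Metric.mem_ball, dist_eq_norm] at hx
    obtain ⟨i, hi⟩ := hx
    rw [Metric.mem_ball, dist_eq_norm]
    calc ‖x - z‖ ≤ ‖x - c i‖ + ‖c i - z‖ := norm_sub_le_norm_sub_add_norm_sub _ _ _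
      _ < A + 1 := by linarith [hc i]
  have h1 : ∑ _i : ι, volume (Metric.ball (0 : E n) (θ / 2)) ≤
      volume (Metric.ball z (A + 1)) := by
    calc ∑ i : ι, volume (Metric.ball (0 : E n) (θ / 2))
        = ∑ i : ι, volume (Metric.ball (c i) (θ / 2)) :=
          Finset.sum_congr rfl fun i _ => (Measure.addHaar_ball_center _ _ _).symm
      _ = volume (⋃ i ∈ (Finset.univ : Finset ι), Metric.ball (c i) (θ / 2)) :=
          (measure_biUnion_finset hd fun i _ => measurableSet_ball).symm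
      _ ≤ _ := measure_mono hsub
  rw [Finset.sum_const, Finset.card_univ, nsmul_eq_mul,
    Measure.addHaar_ball_of_pos _ _ (by positivity : 0 < θ / 2),
    Measure.addHaar_ball_of_pos _ _ (by positivity : 0 < A + 1), finrank_euclideanSpace_fin,
    ← mul_assoc] at h1
  have hv0 : volume (Metric.ball (0 : E n) 1) ≠ 0 := (Metric.measure_ball_pos _ _ one_pos).ne'
  have hv1 : volume (Metric.ball (0 : E n) 1) ≠ ⊤ := measure_ball_lt_top.ne
  rw [ENNReal.mul_le_mul_iff_left hv0 hv1, ← ENNReal.ofReal_natCast,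
    ← ENNReal.ofReal_mul (by positivity), ENNReal.ofReal_le_ofReal_iff (by positivity)] at h1
  rw [← div_eq_mul_inv, le_div_iff₀ (by positivity)]
  calc (Fintype.card ι : ℝ) * θ ^ n = ((Fintype.card ι : ℝ) * (θ / 2) ^ n) * 2 ^ n := by
        rw [div_pow]
        field_simp
    _ ≤ (A + 1) ^ n * 2 ^ n := by gcongr
    _ = (2 * (A + 1)) ^ n := by rw [mul_pow]; ring

end Pool.Agent.DEC
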