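import Pool.Agent.MP_6cbfb8_an.Defs

/-!
# Functions with given spectrum: transforms of finite measures.
-/

set_option autoImplicit false

namespace Pool.Agent.DEC

open MeasureTheory Set Filter Topology Pool.Agent.MP_6cbfb8_an
open scoped ENNReal Real RealInnerProductSpace Pointwise

section general

variable {V : Type} [NormedAddCommGroup V] [InnerProductSpace ℝ V]

/-- The character `exp (-2 π i ⟨x, ξ⟩)`. -/
noncomputable def chr (x ξ : V) : ℂ :=
  Complex.exp (((-(2 * π * inner ℝ x ξ) : ℝ) : ℂ) * Complex.I)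

theorem norm_chr (x ξ : V) : ‖chr x ξ‖ = 1 := Complex.norm_exp_ofReal_mul_I _

theorem chr_add_left (x y ξ : V) : chr (x + y) ξ = chr x ξ * chr y ξ := by
  unfold chr
  rw [← Complex.exp_add, inner_add_left]
  congr 1
  push_cast
  ring

theorem chr_add_right (x ξ v : V) : chr x (ξ + v) = chr x ξ * chr x v := by
  unfold chr
  rw [← Complex.exp_add, inner_add_right]
  congr 1
  push_cast
  ring

theorem continuous_chr : Continuous fun q : V × V => chr q.1 q.2 := by
  unfold chr
  fun_prop

variable [MeasurableSpace V]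

/-- `F` is the transform of a finite complex measure which is carried by `A`. -/
def Sp (A : Set V) (F : V → ℂ) : Prop :=
  ∃ (Ω : Type) (_ : MeasurableSpace Ω) (ν : Measure Ω) (X : Ω → V) (a : Ω → ℂ),
    IsFiniteMeasure ν ∧ Measurable X ∧ Integrable a ν ∧ (∀ ω, a ω ≠ 0 → X ω ∈ A) ∧
      ∀ ξ, F ξ = ∫ ω, a ω * chr (X ω) ξ ∂ν

variable [BorelSpace V] [SecondCountableTopology V]

omit [SecondCountableTopology V] in
theorem measurable_chr {Ω : Type} [MeasurableSpace Ω] {X : Ω → V} (hX : Measurable X) (ξ : V) :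
    Measurable fun ω => chr (X ω) ξ :=
  (continuous_chr.comp (continuous_id.prodMk continuous_const)).measurable.comp hX

theorem integrable_chr {Ω : Type} [MeasurableSpace Ω] {ν : Measure Ω} {X : Ω → V} {a : Ω → ℂ}
    (hX : Measurable X) (ha : Integrable a ν) (ξ : V) :
    Integrable (fun ω => a ω * chr (X ω) ξ) ν := by
  refine ha.norm.mono' (ha.1.mul (measurable_chr hX ξ).aestronglyMeasurable)
    (Eventually.of_forall fun ω => ?_)
  rw [norm_mul, norm_chr, mul_one]

omit [BorelSpace V] [SecondCountableTopology V] in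
theorem Sp.mono {A B : Set V} {F : V → ℂ} (h : Sp A F) (hAB : A ⊆ B) : Sp B F := by
  obtain ⟨Ω, i, ν, X, a, h1, h2, h3, h4, h5⟩ := h
  exact ⟨Ω, i, ν, X, a, h1, h2, h3, fun ω hω => hAB (h4 ω hω), h5⟩

omit [BorelSpace V] [SecondCountableTopology V] in
theorem Sp.congr {A : Set V} {F G : V → ℂ} (h : Sp A F) (hG : ∀ ξ, G ξ = F ξ) : Sp A G := by
  obtain ⟨Ω, i, ν, X, a, h1, h2, h3, h4, h5⟩ := h
  exact ⟨Ω, i, ν, X, a, h1, h2, h3, h4, fun ξ => (hG ξ).trans (h5 ξ)⟩

omit [BorelSpace V] [SecondCountableTopology V] in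
theorem Sp.zero (A : Set V) : Sp A fun _ => (0 : ℂ) :=
  ⟨PUnit, inferInstance, 0, fun _ => 0, fun _ => 0, inferInstance, measurable_const,
    integrable_zero _ _ _, fun _ h => absurd rfl h, fun ξ => by simp⟩

omit [BorelSpace V] [SecondCountableTopology V] in
theorem Sp.const_mul {A : Set V} {F : V → ℂ} (h : Sp A F) (c : ℂ) : Sp A fun ξ => c * F ξ := by
  obtain ⟨Ω, i, ν, X, a, h1, h2, h3, h4, h5⟩ := h
  refine ⟨Ω, i, ν, X, fun ω => c * a ω, h1, h2, h3.const_mul c, fun ω hω => h4 ω ?_, fun ξ => ?_⟩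
  · intro h0
    exact hω (by simp [h0])
  · show c * F ξ = _
    rw [h5, ← integral_const_mul]
    congr 1
    funext ω
    ring

theorem Sp.add {A : Set V} {F G : V → ℂ} (hF : Sp A F) (hG : Sp A G) :
    Sp A fun ξ => F ξ + G ξ := by
  obtain ⟨Ω, i, ν, X, a, h1, h2, h3, h4, h5⟩ := hF
  obtain ⟨Ω', i', ν', X', a', h1', h2', h3', h4', h5'⟩ := hG
  have e1 : MeasurableEmbedding (Sum.inl : Ω → Ω ⊕ Ω') :=
    ⟨Sum.inl_injective, measurable_inl, fun _ hs => MeasurableSet.inl_image hs⟩
  have e2 : MeasurableEmbedding (Sum.inr : Ω' → Ω ⊕ Ω') :=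
    ⟨Sum.inr_injective, measurable_inr, fun _ hs => MeasurableSet.inr_image hs⟩
  refine ⟨Ω ⊕ Ω', inferInstance, ν.map Sum.inl + ν'.map Sum.inr, Sum.elim X X', Sum.elim a a',
    inferInstance, h2.sumElim h2', ?_, ?_, fun ξ => ?_⟩
  · refine Integrable.add_measure ?_ ?_
    · rw [e1.integrable_map_iff]
      exact h3
    · rw [e2.integrable_map_iff]
      exact h3'
  · rintro (ω | ω) hω
    · exact h4 ω hω
    · exact h4' ω hω
  · show F ξ + G ξ = _
    rw [integral_add_measure, e1.integral_map, e2.integral_map, h5, h5']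
    · rfl
    · rw [e1.integrable_map_iff]
      exact integrable_chr h2 h3 ξ
    · rw [e2.integrable_map_iff]
      exact integrable_chr h2' h3' ξ

theorem Sp.sum {ι : Type*} (s : Finset ι) {A : Set V} {F : ι → V → ℂ}
    (h : ∀ i ∈ s, Sp A (F i)) : Sp A fun ξ => ∑ i ∈ s, F i ξ := by
  classical
  induction s using Finset.induction_on with
  | empty => exact (Sp.zero A).congr fun ξ => by simp
  | insert j s hj ih =>
    refine ((h j (Finset.mem_insert_self j s)).add
      (ih fun i hi => h i (Finset.mem_insert_of_mem hi))).congr fun ξ => ?_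
    rw [Finset.sum_insert hj]

/-- Products: the spectra are added. -/
theorem Sp.mul {A B : Set V} {F G : V → ℂ} (hF : Sp A F) (hG : Sp B G) :
    Sp (A + B) fun ξ => F ξ * G ξ := by
  obtain ⟨Ω, i, ν, X, a, h1, h2, h3, h4, h5⟩ := hF
  obtain ⟨Ω', i', ν', X', a', h1', h2', h3', h4', h5'⟩ := hG
  refine ⟨Ω × Ω', inferInstance, ν.prod ν', fun q => X q.1 + X' q.2, fun q => a q.1 * a' q.2,
    inferInstance, (h2.comp measurable_fst).add (h2'.comp measurable_snd), h3.mul_prod h3',
    fun q hq => ?_, fun ξ => ?_⟩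
  · exact add_mem_add (h4 _ fun h0 => hq (by simp [h0])) (h4' _ fun h0 => hq (by simp [h0]))
  · show F ξ * G ξ = _
    rw [h5, h5', ← integral_prod_mul]
    refine integral_congr_ae (Eventually.of_forall fun q => ?_)
    simp only
    rw [chr_add_left]
    ring

/-- Translations. -/
theorem Sp.translate {A : Set V} {F : V → ℂ} (h : Sp A F) (v : V) : Sp A fun ξ => F (ξ + v) := by
  obtain ⟨Ω, i, ν, X, a, h1, h2, h3, h4, h5⟩ := h
  refine ⟨Ω, i, ν, X, fun ω => a ω * chr (X ω) v, h1, h2, integrable_chr h2 h3 v,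
    fun ω hω => h4 ω fun h0 => hω (by simp [h0]), fun ξ => ?_⟩
  show F (ξ + v) = _
  rw [h5]
  refine integral_congr_ae (Eventually.of_forall fun ω => ?_)
  simp only
  rw [chr_add_right]
  ring

omit [SecondCountableTopology V] in
/-- Modulations: the spectrum is translated. -/
theorem Sp.modulate {A : Set V} {F : V → ℂ} (h : Sp A F) (c : V) :
    Sp ((fun x => x + c) '' A) fun ξ => F ξ * chr c ξ := by
  obtain ⟨Ω, i, ν, X, a, h1, h2, h3, h4, h5⟩ := h
  refine ⟨Ω, i, ν, fun ω => X ω + c, a, h1, h2.add_const c, h3,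
    fun ω hω => mem_image_of_mem _ (h4 ω hω), fun ξ => ?_⟩
  show F ξ * chr c ξ = _
  rw [h5, ← integral_mul_const]
  refine integral_congr_ae (Eventually.of_forall fun ω => ?_)
  simp only
  rw [chr_add_left]
  ring

theorem Sp.continuous {A : Set V} {F : V → ℂ} (h : Sp A F) : Continuous F := by
  obtain ⟨Ω, i, ν, X, a, h1, h2, h3, h4, h5⟩ := h
  have e : F = fun ξ => ∫ ω, a ω * chr (X ω) ξ ∂ν := funext h5
  rw [e]
  refine continuous_of_dominated (bound := fun ω => ‖a ω‖)
    (fun ξ => (integrable_chr h2 h3 ξ).1) (fun ξ => Eventually.of_forall fun ω => ?_) h3.norm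
    (Eventually.of_forall fun ω => ?_)
  · rw [norm_mul, norm_chr, mul_one]
  · exact continuous_const.mul (continuous_chr.comp (continuous_const.prodMk continuous_id))

omit [BorelSpace V] [SecondCountableTopology V] in
theorem Sp.bounded {A : Set V} {F : V → ℂ} (h : Sp A F) : ∃ C : ℝ, ∀ ξ, ‖F ξ‖ ≤ C := by
  obtain ⟨Ω, i, ν, X, a, h1, h2, h3, h4, h5⟩ := h
  refine ⟨∫ ω, ‖a ω‖ ∂ν, fun ξ => ?_⟩
  rw [h5]
  refine (norm_integral_le_integral_norm _).trans (le_of_eq ?_)
  congr 1
  funext ω
  rw [norm_mul, norm_chr, mul_one]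

/-- The transform of a density. -/
theorem Sp.of_density {A : Set V} {μ : Measure V} [SigmaFinite μ] {g : V → ℂ}
    (hg : Integrable g μ) (hA : ∀ x, g x ≠ 0 → x ∈ A) :
    Sp A fun ξ => ∫ x, g x * chr x ξ ∂μ := by
  -- a finite measure equivalent to `μ`
  obtain ⟨w, hw0, hwm, hwi⟩ := exists_pos_lintegral_lt_of_sigmaFinite μ (one_ne_zero (α := ℝ≥0∞))
  set w' : V → ℝ≥0∞ := fun x => (w x : ℝ≥0∞) with hw'
  have hw'm : Measurable w' := hwm.coe_nnreal_ennreal
  refine ⟨V, inferInstance, μ.withDensity w', id, fun x => ((w x : ℝ) : ℂ)⁻¹ * g x, ?_,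
    measurable_id, ?_, ?_, fun ξ => ?_⟩
  · exact isFiniteMeasure_withDensity (by
      have : (∫⁻ x, (w x : ℝ≥0∞) ∂μ) < 1 := hwi
      exact (this.trans ENNReal.one_lt_top).ne)
  · rw [integrable_withDensity_iff_integrable_smul₀ hwm.aemeasurable]
    refine hg.congr (Eventually.of_forall fun x => ?_)
    simp only
    rw [NNReal.smul_def, Complex.real_smul, ← mul_assoc, mul_inv_cancel₀, one_mul]
    exact_mod_cast (hw0 x).ne'
  · intro x hx
    exact hA x fun h0 => hx (by simp [h0])
  · rw [integral_withDensity_eq_integral_smul hwm]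
    refine integral_congr_ae (Eventually.of_forall fun x => ?_)
    simp only [id]
    rw [NNReal.smul_def, Complex.real_smul, ← mul_assoc, ← mul_assoc, mul_inv_cancel₀, one_mul]
    exact_mod_cast (hw0 x).ne'

/-- Composition with a linear map. -/
theorem Sp.comp {W : Type} [NormedAddCommGroup W] [InnerProductSpace ℝ W] [MeasurableSpace W]
    [BorelSpace W] [CompleteSpace V] [CompleteSpace W] {A : Set V} {F : V → ℂ} (h : Sp A F)
    (T : W →L[ℝ] V) : Sp (ContinuousLinearMap.adjoint T '' A) fun ξ => F (T ξ) := by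
  obtain ⟨Ω, i, ν, X, a, h1, h2, h3, h4, h5⟩ := h
  refine ⟨Ω, i, ν, fun ω => ContinuousLinearMap.adjoint T (X ω), a, h1,
    (ContinuousLinearMap.adjoint T).continuous.measurable.comp h2, h3,
    fun ω hω => mem_image_of_mem _ (h4 ω hω), fun ξ => ?_⟩
  show F (T ξ) = _
  rw [h5]
  refine integral_congr_ae (Eventually.of_forall fun ω => ?_)
  simp only [chr, ContinuousLinearMap.adjoint_inner_left]

/-- Slices: `ξ ↦ F (T ξ + v)`. -/
theorem Sp.slice {W : Type} [NormedAddCommGroup W] [InnerProductSpace ℝ W] [MeasurableSpace W]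
    [BorelSpace W] [CompleteSpace V] [CompleteSpace W] {A : Set V} {F : V → ℂ} (h : Sp A F)
    (T : W →L[ℝ] V) (v : V) : Sp (ContinuousLinearMap.adjoint T '' A) fun ξ => F (T ξ + v) :=
  (h.translate v).comp T

end general

/-- The transform of a function on the unit sphere which vanishes off a cap. -/
theorem Sp.extn {n : ℕ} {g : E n → ℂ} (hg : ContinuousOn g (Metric.sphere 0 1)) {x0 : E n}
    {ρ : ℝ} (h0 : ∀ y, ‖y‖ = 1 → ρ < ‖y - x0‖ → g y = 0) :
    Sp {y : E n | ‖y‖ = 1 ∧ ‖y - x0‖ ≤ ρ} (extn g) := by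
  refine ⟨S n, inferInstance, sm n, fun x => (x : E n), fun x => g x, inferInstance,
    measurable_subtype_coe, ?_, fun x hx => ⟨mem_sphere_zero_iff_norm.1 x.2, ?_⟩, fun ξ => rfl⟩
  · have h2 : Continuous fun x : S n => g (x : E n) :=
      continuousOn_iff_continuous_domRestrict.1 hg
    exact h2.integrable_of_hasCompactSupport (HasCompactSupport.of_compactSpace _)
  · by_contra hc
    exact hx (h0 _ (mem_sphere_zero_iff_norm.1 x.2) (not_le.1 hc))

section dens

variable {V : Type} [NormedAddCommGroup V] [InnerProductSpace ℝ V] [FiniteDimensional ℝ V]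
  [MeasurableSpace V] [BorelSpace V]

/-- The product with the transform of a function `h` has a density. -/
theorem Sp.dens {A B : Set V} {F : V → ℂ} (hF : Sp A F) {h : V → ℂ} (hc : Continuous h)
    (hi : Integrable h) {C : ℝ} (hb : ∀ z, ‖h z‖ ≤ C) (hB : ∀ z, h z ≠ 0 → z ∈ B) :
    ∃ g : V → ℂ, Continuous g ∧ Integrable g ∧ (∃ C' : ℝ, ∀ x, ‖g x‖ ≤ C') ∧
      (∀ x, g x ≠ 0 → x ∈ A + B) ∧
      ∀ ξ, F ξ * ∫ z, h z * chr z ξ = ∫ x, g x * chr x ξ := by
  obtain ⟨Ω, i, ν, X, a, h1, h2, h3, h4, h5⟩ := hF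
  set g : V → ℂ := fun x => ∫ ω, a ω * h (x - X ω) ∂ν with hg
  have hm : Measurable fun q : V × Ω => h (q.1 - X q.2) :=
    hc.measurable.comp (measurable_fst.sub (h2.comp measurable_snd))
  have hAE : AEStronglyMeasurable (fun q : V × Ω => a q.2 * h (q.1 - X q.2))
      (volume.prod ν) := (h3.1.comp_snd).mul hm.aestronglyMeasurable
  have hI : Integrable (fun q : V × Ω => a q.2 * h (q.1 - X q.2)) (volume.prod ν) := by
    rw [integrable_prod_iff' hAE]
    refine ⟨Eventually.of_forall fun ω => ?_, ?_⟩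
    · exact (hi.comp_sub_right (X ω)).const_mul (a ω)
    · have e : ∀ ω, ∫ x, ‖a ω * h (x - X ω)‖ = ‖a ω‖ * ∫ x, ‖h x‖ := by
        intro ω
        simp only [norm_mul]
        rw [integral_const_mul]
        congr 1
        exact integral_sub_right_eq_self (fun x => ‖h x‖) (X ω)
      simp only [e]
      exact h3.norm.mul_const _
  refine ⟨g, ?_, hI.integral_prod_left, ⟨∫ ω, ‖a ω‖ * C ∂ν, fun x => ?_⟩, fun x hx => ?_,
    fun ξ => ?_⟩
  · refine continuous_of_dominated (bound := fun ω => ‖a ω‖ * C) (fun x => ?_)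
      (fun x => Eventually.of_forall fun ω => ?_) (h3.norm.mul_const C)
      (Eventually.of_forall fun ω => ?_)
    · exact h3.1.mul (hm.comp (measurable_const.prodMk measurable_id)).aestronglyMeasurable
    · rw [norm_mul]
      exact mul_le_mul_of_nonneg_left (hb _) (norm_nonneg _)
    · exact continuous_const.mul (hc.comp (continuous_id.sub continuous_const))
  · refine (norm_integral_le_integral_norm _).trans (integral_mono_of_nonneg
      (Eventually.of_forall fun ω => norm_nonneg _) (h3.norm.mul_const C)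
      (Eventually.of_forall fun ω => ?_))
    simp only
    rw [norm_mul]
    exact mul_le_mul_of_nonneg_left (hb _) (norm_nonneg _)
  · by_contra hn
    refine hx ?_
    rw [hg]
    simp only
    rw [integral_eq_zero_of_ae]
    refine Eventually.of_forall fun ω => ?_
    simp only [Pi.zero_apply, mul_eq_zero]
    by_contra h0
    rw [not_or] at h0
    exact hn ⟨X ω, h4 ω h0.1, x - X ω, hB _ h0.2, by simp⟩
  · have hI2 : Integrable (fun q : V × Ω => a q.2 * h (q.1 - X q.2) * chr q.1 ξ)
        (volume.prod ν) := by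
      refine hI.norm.mono' (hI.1.mul ?_) (Eventually.of_forall fun q => ?_)
      · exact ((continuous_chr.comp (continuous_id.prodMk continuous_const)).measurable.comp
          measurable_fst).aestronglyMeasurable
      · rw [norm_mul, norm_chr, mul_one]
    have e1 : ∀ x, g x * chr x ξ = ∫ ω, a ω * h (x - X ω) * chr x ξ ∂ν := by
      intro x
      rw [integral_mul_const]
    simp only [e1]
    rw [integral_integral_swap hI2, h5, ← integral_mul_const]
    refine integral_congr_ae (Eventually.of_forall fun ω => ?_)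
    simp only
    have e2 : ∀ x, a ω * h (x - X ω) * chr x ξ =
        (a ω * chr (X ω) ξ) * (h (x - X ω) * chr (x - X ω) ξ) := by
      intro x
      have e3 : chr x ξ = chr (X ω) ξ * chr (x - X ω) ξ := by
        rw [← chr_add_left]
        congr 1
        abel
      rw [e3]
      ring
    simp only [e2]
    rw [integral_const_mul]
    congr 1
    exact (integral_sub_right_eq_self (fun z => h z * chr z ξ) (X ω)).symm

end dens

end Pool.Agent.DEC
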