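import Pool.Agent.DEC.DSK0
import Pool.Agent.DEC.NET
import Pool.Agent.DEC.SP

/-!
# [DEC] Row TRIV.
-/

set_option autoImplicit false

namespace Pool.Agent.DEC

open MeasureTheory Set Filter Topology Pool.Agent.MP_6cbfb8_an
open scoped ENNReal Real RealInnerProductSpace

theorem Lq_eq {n : ℕ} {p : ℝ} (hp : 1 ≤ p) (F : E n → ℂ) :
    Lq p F = eLpNorm F (ENNReal.ofReal p) volume ^ (2 : ℝ) := by
  have hp0 : 0 < p := by linarith
  rw [eLpNorm_eq_lintegral_rpow_enorm_toReal (by simpa using hp0) ENNReal.ofReal_ne_top,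
    ENNReal.toReal_ofReal hp0.le, ← ENNReal.rpow_mul]
  unfold Lq
  congr 1
  ring

/-- Cauchy-Schwarz for the number of the pieces. -/
theorem Lq_sum {n : ℕ} {ι : Type} (s : Finset ι) (p : ℝ) (hp : 1 ≤ p) (F : ι → E n → ℂ)
    (hF : ∀ i ∈ s, Continuous (F i)) :
    Lq p (fun ξ => ∑ i ∈ s, F i ξ) ≤ (s.card : ℝ≥0∞) * ∑ i ∈ s, Lq p (F i) := by
  rw [Lq_eq hp]
  have h1 : (fun ξ => ∑ i ∈ s, F i ξ) = ∑ i ∈ s, F i := by
    funext ξ
    rw [Finset.sum_apply]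
  have h2 : eLpNorm (∑ i ∈ s, F i) (ENNReal.ofReal p) volume ≤
      ∑ i ∈ s, eLpNorm (F i) (ENNReal.ofReal p) volume := by
    refine eLpNorm_sum_le (fun i hi => (hF i hi).aestronglyMeasurable) ?_
    rw [← ENNReal.ofReal_one]
    exact ENNReal.ofReal_le_ofReal hp
  rw [h1]
  calc eLpNorm (∑ i ∈ s, F i) (ENNReal.ofReal p) volume ^ (2 : ℝ)
      ≤ (∑ i ∈ s, eLpNorm (F i) (ENNReal.ofReal p) volume) ^ (2 : ℝ) := by gcongr
    _ ≤ (s.card : ℝ≥0∞) ^ ((2 : ℝ) - 1) *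
          ∑ i ∈ s, eLpNorm (F i) (ENNReal.ofReal p) volume ^ (2 : ℝ) :=
        ENNReal.rpow_sum_le_const_mul_sum_rpow _ _ (by norm_num)
    _ = (s.card : ℝ≥0∞) * ∑ i ∈ s, Lq p (F i) := by
        rw [show (2 : ℝ) - 1 = 1 by norm_num, ENNReal.rpow_one]
        congr 1
        exact Finset.sum_congr rfl fun i _ => (Lq_eq hp _).symm

/-- Minkowski in `L^(p/2)`, finite sums. -/
theorem mink {X : Type} [MeasurableSpace X] (μ : Measure X) {ι : Type} (s : Finset ι) (p : ℝ)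
    (hp : 2 ≤ p) (f : ι → X → ℝ≥0∞) (hf : ∀ i ∈ s, AEMeasurable (f i) μ) :
    (∫⁻ x, (∑ i ∈ s, f i x) ^ (p / 2) ∂μ) ^ (2 / p) ≤
      ∑ i ∈ s, (∫⁻ x, f i x ^ (p / 2) ∂μ) ^ (2 / p) := by
  classical
  have hp2 : 1 ≤ p / 2 := by linarith
  have e : 2 / p = 1 / (p / 2) := by
    rw [one_div_div]
  rw [e]
  induction s using Finset.induction_on with
  | empty =>
    simp only [Finset.sum_empty]
    rw [ENNReal.zero_rpow_of_pos (by linarith), lintegral_zero,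
      ENNReal.zero_rpow_of_pos (by positivity)]
  | insert a s ha ih =>
    rw [Finset.sum_insert ha]
    have h1 : AEMeasurable (fun x => ∑ i ∈ s, f i x) μ :=
      Finset.aemeasurable_fun_sum s fun i hi => hf i (Finset.mem_insert_of_mem hi)
    have h2 := ENNReal.lintegral_Lp_add_le (hf a (Finset.mem_insert_self a s)) h1 hp2
    have h3 : ∀ x, ∑ i ∈ insert a s, f i x = (f a + fun x => ∑ i ∈ s, f i x) x := by
      intro x
      rw [Finset.sum_insert ha]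
      rfl
    simp_rw [h3]
    refine h2.trans ?_
    gcongr
    exact ih fun i hi => hf i (Finset.mem_insert_of_mem hi)

theorem dec_triv (d : ℕ) (p : ℝ) (hp : 1 ≤ p) : ∃ C : ℝ≥0∞, C ≠ ⊤ ∧ ∀ ρ : ℝ, 0 < ρ → ρ ≤ 1 →
    Dec d p ρ (C * ENNReal.ofReal (ρ ^ (-(d : ℝ)))) := by
  obtain ⟨C, hC, h⟩ := card_sep d 1 zero_le_one
  refine ⟨ENNReal.ofReal C, ENNReal.ofReal_ne_top, fun ρ hρ hρ1 ι _ c F hc hsep hF => ?_⟩
  have h1 := h ι c 0 ρ hρ hρ1 (fun i => by simpa using hc i) hsep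
  refine (Lq_sum Finset.univ p hp F fun i _ => (hF i).continuous).trans ?_
  gcongr
  rw [Finset.card_univ, ← ENNReal.ofReal_mul hC.le, Real.rpow_neg hρ.le, Real.rpow_natCast,
    ← ENNReal.ofReal_natCast]
  exact ENNReal.ofReal_le_ofReal h1

/-- The base of the induction: `E 0` is a point. -/
theorem dec_zero (p : ℝ) (hp : 1 ≤ p) : DecAll 0 p := by
  intro ε hε
  refine ⟨1, ENNReal.one_ne_top, fun ρ hρ hρ1 ι _ c F _ hsep _ => ?_⟩
  have hsub : Subsingleton ι := by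
    refine ⟨fun i j => ?_⟩
    by_contra hij
    have h1 := hsep i j hij
    rw [Subsingleton.elim (c i) (c j), sub_self, norm_zero] at h1
    linarith
  have hone : (1 : ℝ≥0∞) ≤ 1 * ENNReal.ofReal (ρ ^ (-ε)) := by
    rw [one_mul, ← ENNReal.ofReal_one]
    exact ENNReal.ofReal_le_ofReal (Real.one_le_rpow_of_pos_of_le_one_of_nonpos hρ hρ1 (by linarith))
  rcases isEmpty_or_nonempty ι with h | ⟨⟨i⟩⟩
  · simp only [Finset.univ_eq_empty, Finset.sum_empty]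
    unfold Lq
    simp only [enorm_zero]
    rw [ENNReal.zero_rpow_of_pos (by linarith), lintegral_zero,
      ENNReal.zero_rpow_of_pos (by positivity)]
    exact bot_le
  · have h1 : ∀ ξ, ∑ j, F j ξ = F i ξ := fun ξ => Fintype.sum_subsingleton _ i
    have h2 : ∑ j, Lq p (F j) = Lq p (F i) := Fintype.sum_subsingleton _ i
    simp_rw [h1]
    rw [h2]
    calc Lq p (F i) = 1 * Lq p (F i) := (one_mul _).symm
      _ ≤ _ := by gcongr

end Pool.Agent.DEC
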