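import Pool.Agent.DEC.STEP
import Pool.Agent.DEC.LOC
import Pool.Agent.DEC.RecA
import Pool.Agent.DEC.TRIV
import Pool.Agent.DEC.SPH
import Pool.Agent.GNP.TMD3

/-!
# [DEC] `ℓ²`-decoupling of the paraboloid and of the sphere for `2 ≤ p ≤ 2n/(n-1)`, and its
consequence for the phases with singularities.
-/

set_option autoImplicit false

namespace Pool.Agent.DEC

open MeasureTheory Set Filter Topology Pool.Agent.MP_6cbfb8_an
open scoped ENNReal Real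

theorem Dec.mono {d : ℕ} {p ρ : ℝ} {D D' : ℝ≥0∞} (hD : D ≤ D') (h : Dec d p ρ D) :
    Dec d p ρ D' := by
  intro ι _ c F h1 h2 h3
  exact (h ι c F h1 h2 h3).trans (by gcongr)

/-- `ℓ²`-decoupling of the paraboloid over `E d`, `2 ≤ p ≤ 2(d+1)/d`. -/
theorem dec_all (d : ℕ) : ∀ p : ℝ, 2 ≤ p → p * d ≤ 2 * (d + 1) → DecAll d p := by
  induction d with
  | zero => exact fun p hp _ => dec_zero p (by linarith)
  | succ d ih =>
    intro p hp hpd
    push_cast at hpd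
    have hd0 : (0 : ℝ) ≤ d := Nat.cast_nonneg d
    have h1 : p * d ≤ 2 * (d + 1) := by nlinarith
    have h := ih p hp h1
    intro ε hε
    refine rec_abs (fun ρ D => Dec (d + 1) p ρ D) (fun ρ D D' hD => Dec.mono hD) ((d + 1 : ℕ) : ℝ)
      (Nat.cast_nonneg _) (dec_triv (d + 1) p (by linarith)) (fun ε' hε' => ?_) ε hε
    exact step' d p hp (by linarith) h ε' hε'

/-- `ℓ²`-decoupling of the unit sphere of `E n` at the exponent `2n/(n-1)`, on balls. -/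
theorem loc_dec (n : ℕ) (hn : 2 ≤ n) : GNP.TM.LocDec n (2 * (n : ℝ) / (n - 1)) := by
  obtain ⟨d, rfl⟩ : ∃ d, n = d + 1 := ⟨n - 1, by omega⟩
  have hd : 1 ≤ d := by omega
  have hd0 : (0 : ℝ) < d := by exact_mod_cast hd
  have e1 : 2 * (((d + 1 : ℕ)) : ℝ) / (((d + 1 : ℕ) : ℝ) - 1) = 2 * ((d : ℝ) + 1) / d := by
    push_cast
    congr 1
    ring
  rw [e1]
  have hq : (2 : ℝ) ≤ 2 * ((d : ℝ) + 1) / d := by
    rw [le_div_iff₀ hd0]
    linarith
  refine loc_of_sphere' (d + 1) _ hq (dec_sphere d hd _ hq (dec_all d _ hq ?_))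
  rw [div_mul_cancel₀ _ hd0.ne']

/-- Phases with singularities: the range of the decoupling theorem. -/
theorem tame_final (n : ℕ) (hn : 3 ≤ n) (p κ : ℝ) (hp : 2 * (n : ℝ) / (n - 1) < p) (hκ : 0 ≤ κ)
    (hexp : κ * (p - n / (n - 1)) < (n - 1) * p - (n + 1)) (A : ℕ) (V ε : ℝ) (hV : 0 ≤ V)
    (hε : 0 < ε) : ∃ (k : ℕ) (C : ℝ≥0∞), C ≠ ⊤ ∧
    ∀ (Sig : Set (E n)) (lam : ℝ) (ψ : E n → ℝ) (a : E n → ℂ),
      0 ≤ lam → GNP.TM.Cov V κ Sig → GNP.TM.PhsF k A lam Sig ψ → GNP.TM.AmsF k Sig a →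
      ∫⁻ ξ, ‖extn (fun x => a x * Complex.exp (((ψ x : ℝ) : ℂ) * Complex.I)) ξ‖ₑ ^ p ≤
        C * ENNReal.ofReal ((1 + lam) ^ ε) :=
  GNP.TM.tame_dec_all n hn p κ hp hκ hexp (loc_dec n (by omega)) A V ε hV hε

end Pool.Agent.DEC
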