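import Pool.Agent.DEC.ETA
import Pool.Agent.DEC.TRIV
import Pool.Agent.DEC.NET

/-!
# [DEC] Row BBIG: the trivial estimate of the broad part.
-/

set_option autoImplicit false

namespace Pool.Agent.DEC

open MeasureTheory Set Filter Topology Pool.Agent.MP_6cbfb8_an
open scoped ENNReal Real RealInnerProductSpace SchwartzMap

/-- One function: the integral over the positions of the bump. -/
theorem bbig_one {n : ℕ} {η : E n → ℂ} (hη : IsEta η) {p : ℝ} (hp : 1 ≤ p) {K : ℝ} (hK : 0 < K) :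
    ∃ C : ℝ≥0∞, C ≠ ⊤ ∧ ∀ G : E n → ℂ, Continuous G →
      (Measurable fun b => ∫⁻ ξ, ‖bump η b K ξ * G ξ‖ₑ ^ p) ∧
      ∫⁻ b, ∫⁻ ξ, ‖bump η b K ξ * G ξ‖ₑ ^ p = C * ∫⁻ ξ, ‖G ξ‖ₑ ^ p := by
  obtain ⟨C, hC, h⟩ := bump_int hη p hp
  refine ⟨C * ENNReal.ofReal (K ^ n), ENNReal.mul_ne_top hC ENNReal.ofReal_ne_top, ?_⟩
  intro G hG
  have hηc := eta_continuous hη
  have hm : Measurable fun q : E n × E n => ‖bump η q.1 K q.2 * G q.2‖ₑ ^ p := by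
    have h1 : Continuous fun q : E n × E n => bump η q.1 K q.2 * G q.2 := by
      unfold bump
      fun_prop
    exact h1.measurable.enorm.pow_const p
  refine ⟨hm.lintegral_prod_right', ?_⟩
  rw [lintegral_lintegral_swap (f := fun b ξ => ‖bump η b K ξ * G ξ‖ₑ ^ p) hm.aemeasurable]
  have h2 : ∀ ξ, ∫⁻ b, ‖bump η b K ξ * G ξ‖ₑ ^ p = C * ENNReal.ofReal (K ^ n) * ‖G ξ‖ₑ ^ p := by
    intro ξ
    have h3 : ∀ b, ‖bump η b K ξ * G ξ‖ₑ ^ p = ‖bump η b K ξ‖ₑ ^ p * ‖G ξ‖ₑ ^ p := fun b => by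
      rw [enorm_mul, ENNReal.mul_rpow_of_nonneg _ _ (by linarith)]
    simp_rw [h3]
    rw [lintegral_mul_const, h K ξ hK]
    have h4 : Continuous fun b => bump η b K ξ := by
      unfold bump
      fun_prop
    exact h4.measurable.enorm.pow_const p
  simp_rw [h2]
  rw [lintegral_const_mul _ (hG.measurable.enorm.pow_const p)]

/-- The trivial estimate of the broad part. -/
theorem broad_big (d : ℕ) (hd : 1 ≤ d) (p : ℝ) (hp : 2 ≤ p) (η : E (d + 1) → ℂ) (hη : IsEta η)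
    (K : ℝ) (hK : 1 ≤ K) : ∃ C : ℝ≥0∞, C ≠ ⊤ ∧ ∀ ρ : ℝ, 0 < ρ → ρ ≤ 1 →
    ∀ (ι : Type) [Fintype ι] (c : ι → E d) (F : ι → E (d + 1) → ℂ)
      (S : Fin (d + 1) → Finset ι), (∀ i, ‖c i‖ ≤ 1) → (∀ i j, i ≠ j → ρ ≤ ‖c i - c j‖) →
      (∀ i, Sp (Np (c i) (2 * ρ) (2 * ρ ^ 2)) (F i)) →
      ∫⁻ b, ∏ j, (∫⁻ ξ, ‖bump η b K ξ * ∑ i ∈ S j, F i ξ‖ₑ ^ p) ^ (1 / ((d : ℝ) + 1)) ≤
        C * ENNReal.ofReal (ρ ^ (-((d : ℝ) * p / 2))) * (∑ i, Lq p (F i)) ^ (p / 2) := by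
  have hp0 : 0 < p := by linarith
  obtain ⟨C1, hC1, h1⟩ := bbig_one hη (show 1 ≤ p by linarith) (show 0 < K by linarith)
  obtain ⟨C2, hC2, hcard⟩ := card_sep d 1 zero_le_one
  refine ⟨C1 * ENNReal.ofReal C2 ^ (p / 2), ENNReal.mul_ne_top hC1
    (ENNReal.rpow_ne_top_of_nonneg (by positivity) ENNReal.ofReal_ne_top), ?_⟩
  intro ρ hρ hρ1 ι _ c F S hc hsep hF
  set X : ℝ≥0∞ := ENNReal.ofReal (C2 * (ρ ^ d)⁻¹) * ∑ i, Lq p (F i) with hX
  have hG : ∀ j, Continuous fun ξ => ∑ i ∈ S j, F i ξ := fun j =>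
    continuous_finsetSum _ fun i _ => (hF i).continuous
  have h2 : ∀ j, ∫⁻ b, ∫⁻ ξ, ‖bump η b K ξ * ∑ i ∈ S j, F i ξ‖ₑ ^ p ≤ C1 * X ^ (p / 2) := by
    intro j
    rw [(h1 (fun ξ => ∑ i ∈ S j, F i ξ) (hG j)).2]
    gcongr
    have h3 : ∫⁻ ξ, ‖∑ i ∈ S j, F i ξ‖ₑ ^ p = Lq p (fun ξ => ∑ i ∈ S j, F i ξ) ^ (p / 2) := by
      unfold Lq
      rw [← ENNReal.rpow_mul]
      have h4 : 2 / p * (p / 2) = 1 := by field_simp
      rw [h4, ENNReal.rpow_one]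
    rw [h3]
    refine ENNReal.rpow_le_rpow ?_ (by positivity)
    refine (Lq_sum (S j) p (by linarith) F fun i _ => (hF i).continuous).trans ?_
    rw [hX]
    gcongr
    · have h5 := hcard ι c 0 ρ hρ hρ1 (fun i => by rw [sub_zero]; exact hc i) hsep
      rw [← ENNReal.ofReal_natCast]
      refine ENNReal.ofReal_le_ofReal (le_trans ?_ h5)
      exact_mod_cast Finset.card_le_univ _
    · exact Finset.subset_univ _
  have hd1 : (0 : ℝ) < (d : ℝ) + 1 := by positivity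
  calc ∫⁻ b, ∏ j, (∫⁻ ξ, ‖bump η b K ξ * ∑ i ∈ S j, F i ξ‖ₑ ^ p) ^ (1 / ((d : ℝ) + 1)) ≤
        ∏ j : Fin (d + 1), (∫⁻ b, ∫⁻ ξ, ‖bump η b K ξ * ∑ i ∈ S j, F i ξ‖ₑ ^ p) ^
          (1 / ((d : ℝ) + 1)) := by
        refine ENNReal.lintegral_prod_norm_pow_le Finset.univ (fun j _ =>
          ((h1 (fun ξ => ∑ i ∈ S j, F i ξ) (hG j)).1).aemeasurable) ?_ fun j _ => by positivity
        rw [Finset.sum_const, Finset.card_univ, Fintype.card_fin, nsmul_eq_mul]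
        push_cast
        field_simp
    _ ≤ ∏ _j : Fin (d + 1), (C1 * X ^ (p / 2)) ^ (1 / ((d : ℝ) + 1)) := by
        refine Finset.prod_le_prod' fun j _ => ?_
        exact ENNReal.rpow_le_rpow (h2 j) (by positivity)
    _ = C1 * X ^ (p / 2) := by
        rw [Finset.prod_const, Finset.card_univ, Fintype.card_fin, ← ENNReal.rpow_natCast,
          ← ENNReal.rpow_mul]
        have h4 : 1 / ((d : ℝ) + 1) * ((d + 1 : ℕ) : ℝ) = 1 := by
          push_cast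
          field_simp
        rw [h4, ENNReal.rpow_one]
    _ = C1 * ENNReal.ofReal C2 ^ (p / 2) * ENNReal.ofReal (ρ ^ (-((d : ℝ) * p / 2))) *
          (∑ i, Lq p (F i)) ^ (p / 2) := by
        have h5 : ENNReal.ofReal (ρ ^ (-((d : ℝ) * p / 2))) =
            ENNReal.ofReal ((ρ ^ d)⁻¹) ^ (p / 2) := by
          rw [ENNReal.ofReal_rpow_of_nonneg (by positivity) (by positivity)]
          congr 1
          rw [← Real.rpow_natCast, ← Real.rpow_neg hρ.le, ← Real.rpow_mul hρ.le]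
          congr 1
          ring
        rw [h5, hX, ENNReal.ofReal_mul hC2.le, ENNReal.mul_rpow_of_nonneg _ _ (by positivity),
          ENNReal.mul_rpow_of_nonneg _ _ (by positivity)]
        ring

end Pool.Agent.DEC
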