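import Pool.Agent.DEC.BStart
import Pool.Agent.GNP.TMO

/-!
The end of the broad case: almost orthogonality in the weighted `L²` and Jensen's inequality.
-/

set_option autoImplicit false

namespace Pool.Agent.DEC

open MeasureTheory Set Filter Topology Metric Pool.Agent.MP_6cbfb8_an SchwartzMap
open scoped ENNReal Real RealInnerProductSpace Pointwise

namespace BEnd

theorem peetre (n M : ℕ) (u v : E n) :
    ((1 + ‖v‖ ^ 2) ^ M)⁻¹ ≤ (2 * (1 + ‖u - v‖ ^ 2)) ^ M * ((1 + ‖u‖ ^ 2) ^ M)⁻¹ := by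
  have h1 : 1 + ‖u‖ ^ 2 ≤ 2 * (1 + ‖u - v‖ ^ 2) * (1 + ‖v‖ ^ 2) := by
    have h2 : ‖u‖ ≤ ‖u - v‖ + ‖v‖ := by
      have := norm_add_le (u - v) v
      simpa using this
    have h3 : ‖u‖ ^ 2 ≤ (‖u - v‖ + ‖v‖) ^ 2 := pow_le_pow_left₀ (norm_nonneg _) h2 2
    nlinarith [sq_nonneg (‖u - v‖ - ‖v‖), sq_nonneg (‖u - v‖ * ‖v‖), sq_nonneg ‖u - v‖,
      sq_nonneg ‖v‖]
  have h4 : (1 + ‖u‖ ^ 2) ^ M ≤ (2 * (1 + ‖u - v‖ ^ 2)) ^ M * (1 + ‖v‖ ^ 2) ^ M := by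
    rw [← mul_pow]
    exact pow_le_pow_left₀ (by positivity) h1 M
  rw [inv_le_iff_one_le_mul₀ (by positivity), mul_assoc, mul_comm, mul_assoc,
    inv_mul_eq_div, le_div_iff₀ (by positivity), one_mul, mul_comm]
  exact h4

theorem pw_eq {n M : ℕ} {r : ℝ} (hr : 0 < r) (y ξ : E n) :
    pw M r y ξ = ENNReal.ofReal (((1 + ‖r⁻¹ • (ξ - y)‖ ^ 2) ^ M)⁻¹) := by
  unfold pw
  rw [norm_smul, norm_inv, Real.norm_eq_abs, abs_of_pos hr, mul_pow, inv_pow, inv_mul_eq_div]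

theorem w_meas (n M : ℕ) : Measurable fun u : E n => ENNReal.ofReal (((1 + ‖u‖ ^ 2) ^ M)⁻¹) := by
  fun_prop

theorem scale {n M : ℕ} {r : ℝ} (hr : 0 < r) :
    ∫⁻ u : E n, ENNReal.ofReal (((1 + ‖r⁻¹ • u‖ ^ 2) ^ M)⁻¹) =
      ENNReal.ofReal (r ^ n) * ∫⁻ u : E n, ENNReal.ofReal (((1 + ‖u‖ ^ 2) ^ M)⁻¹) := by
  have h1 : ∫⁻ u : E n, ENNReal.ofReal (((1 + ‖r⁻¹ • u‖ ^ 2) ^ M)⁻¹) =
      ∫⁻ x, ENNReal.ofReal (((1 + ‖x‖ ^ 2) ^ M)⁻¹)
        ∂(Measure.map (fun u : E n => r⁻¹ • u) volume) :=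
    (lintegral_map (w_meas n M) (measurable_const_smul r⁻¹)).symm
  rw [h1, Measure.map_addHaar_smul _ (inv_pos.2 hr).ne', lintegral_smul_measure,
    finrank_euclideanSpace_fin, smul_eq_mul, inv_pow, inv_inv, abs_of_pos (by positivity)]

/-- The weight is at most a mean of translates of the compactly supported weight. -/
theorem w_le (n M : ℕ) {t : E n → ℝ} (ht : ∀ ξ : E n, ‖ξ‖ ≤ 1 → 1 / 4 ≤ t ξ) :
    ∃ C : ℝ≥0∞, C ≠ ∞ ∧ ∀ u : E n, ENNReal.ofReal (((1 + ‖u‖ ^ 2) ^ M)⁻¹) ≤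
      C * ∫⁻ v, ENNReal.ofReal (((1 + ‖v‖ ^ 2) ^ M)⁻¹) * ENNReal.ofReal (t (u - v)) := by
  set β : ℝ≥0∞ := volume (closedBall (0 : E n) 1) with hβ
  have hβ0 : β ≠ 0 := (measure_closedBall_pos volume (0 : E n) one_pos).ne'
  have hβt : β ≠ ∞ := (isCompact_closedBall (0 : E n) 1).measure_lt_top.ne
  refine ⟨ENNReal.ofReal (4 * 4 ^ M) * β⁻¹, ENNReal.mul_ne_top ENNReal.ofReal_ne_top
    (ENNReal.inv_ne_top.2 hβ0), fun u => ?_⟩
  have h1 : ∫⁻ _v in closedBall u 1, ENNReal.ofReal ((4 * 4 ^ M)⁻¹ * ((1 + ‖u‖ ^ 2) ^ M)⁻¹) ≤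
      ∫⁻ v, ENNReal.ofReal (((1 + ‖v‖ ^ 2) ^ M)⁻¹) * ENNReal.ofReal (t (u - v)) := by
    refine le_trans ?_ (setLIntegral_le_lintegral (closedBall u 1) _)
    refine setLIntegral_mono_ae' measurableSet_closedBall (Eventually.of_forall fun v hv => ?_)
    have h2 : ‖u - v‖ ≤ 1 := by
      rw [mem_closedBall, dist_eq_norm, norm_sub_rev] at hv
      exact hv
    have h3 := ht _ h2
    rw [← ENNReal.ofReal_mul (by positivity)]
    refine ENNReal.ofReal_le_ofReal ?_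
    have h4 := peetre n M v u
    have h5 : (2 * (1 + ‖v - u‖ ^ 2)) ^ M ≤ 4 ^ M := by
      refine pow_le_pow_left₀ (by positivity) ?_ M
      rw [norm_sub_rev v u]
      have : ‖u - v‖ ^ 2 ≤ 1 := by
        have := pow_le_pow_left₀ (norm_nonneg _) h2 2
        simpa using this
      linarith
    have h6 : ((1 + ‖u‖ ^ 2) ^ M)⁻¹ ≤ 4 ^ M * ((1 + ‖v‖ ^ 2) ^ M)⁻¹ :=
      h4.trans (mul_le_mul_of_nonneg_right h5 (by positivity))
    have h7 : (4 * 4 ^ M)⁻¹ * ((1 + ‖u‖ ^ 2) ^ M)⁻¹ ≤ ((1 + ‖v‖ ^ 2) ^ M)⁻¹ * (1 / 4) := by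
      have h8 : (0 : ℝ) < 4 ^ M := by positivity
      rw [mul_inv, mul_assoc, inv_mul_eq_div, inv_mul_eq_div, div_le_iff₀ (by norm_num),
        div_le_iff₀ h8]
      linarith
    exact h7.trans (mul_le_mul_of_nonneg_left h3 (by positivity))
  rw [setLIntegral_const, Measure.addHaar_closedBall_center] at h1
  calc ENNReal.ofReal (((1 + ‖u‖ ^ 2) ^ M)⁻¹)
      = ENNReal.ofReal (4 * 4 ^ M) * β⁻¹ *
        (ENNReal.ofReal ((4 * 4 ^ M)⁻¹ * ((1 + ‖u‖ ^ 2) ^ M)⁻¹) * β) := by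
        rw [ENNReal.ofReal_mul (p := (4 * 4 ^ M)⁻¹) (by positivity)]
        have h9 : ENNReal.ofReal (4 * 4 ^ M) * ENNReal.ofReal ((4 * 4 ^ M)⁻¹) = 1 := by
          rw [← ENNReal.ofReal_mul (by positivity), mul_inv_cancel₀ (by positivity),
            ENNReal.ofReal_one]
        calc _ = 1 * ENNReal.ofReal (((1 + ‖u‖ ^ 2) ^ M)⁻¹) * 1 := by rw [one_mul, mul_one]
          _ = (ENNReal.ofReal (4 * 4 ^ M) * ENNReal.ofReal ((4 * 4 ^ M)⁻¹)) *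
              ENNReal.ofReal (((1 + ‖u‖ ^ 2) ^ M)⁻¹) * (β⁻¹ * β) := by
              rw [h9, ENNReal.inv_mul_cancel hβ0 hβt]
          _ = _ := by ring
    _ ≤ _ := mul_le_mul_right h1 _

/-- The mean is at most the weight. -/
theorem le_w (n M : ℕ) (T : 𝓢(E n, ℂ)) {t : E n → ℝ} (hTt : ∀ ξ, T ξ = t ξ)
    (ht : ∀ ξ, 0 ≤ t ξ) :
    ∃ C : ℝ≥0∞, C ≠ ∞ ∧ ∀ u : E n,
      ∫⁻ v, ENNReal.ofReal (((1 + ‖v‖ ^ 2) ^ M)⁻¹) * ENNReal.ofReal (t (u - v)) ≤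
        C * ENNReal.ofReal (((1 + ‖u‖ ^ 2) ^ M)⁻¹) := by
  obtain ⟨A, hA0, hA⟩ := GNP.TMR.schwartz_decay T (2 * M + (n + 1))
  have hint : Integrable fun z : E n => ((1 + ‖z‖) ^ (n + 1))⁻¹ := by
    have h1 : Integrable fun z : E n => (1 + ‖z‖) ^ (-((n + 1 : ℕ) : ℝ)) := by
      refine integrable_one_add_norm ?_
      rw [finrank_euclideanSpace_fin]
      push_cast
      linarith
    refine h1.congr (Eventually.of_forall fun z => ?_)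
    simp only
    rw [Real.rpow_neg (by positivity), Real.rpow_natCast]
  have hI : ∫⁻ z : E n, ENNReal.ofReal (((1 + ‖z‖) ^ (n + 1))⁻¹) ≠ ∞ := hint.lintegral_lt_top.ne
  refine ⟨ENNReal.ofReal (2 ^ M * A) * ∫⁻ z : E n, ENNReal.ofReal (((1 + ‖z‖) ^ (n + 1))⁻¹),
    ENNReal.mul_ne_top ENNReal.ofReal_ne_top hI, fun u => ?_⟩
  have h1 : ∀ v, ENNReal.ofReal (((1 + ‖v‖ ^ 2) ^ M)⁻¹) * ENNReal.ofReal (t (u - v)) ≤
      ENNReal.ofReal (2 ^ M * A) * ENNReal.ofReal (((1 + ‖u‖ ^ 2) ^ M)⁻¹) *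
        ENNReal.ofReal (((1 + ‖u - v‖) ^ (n + 1))⁻¹) := by
    intro v
    rw [← ENNReal.ofReal_mul (by positivity), ← ENNReal.ofReal_mul (by positivity),
      ← ENNReal.ofReal_mul (by positivity)]
    refine ENNReal.ofReal_le_ofReal ?_
    have h2 := peetre n M u v
    have h3 : t (u - v) ≤ A * ((1 + ‖u - v‖) ^ (2 * M + (n + 1)))⁻¹ := by
      have h4 := hA (u - v)
      rw [hTt, Complex.norm_real, Real.norm_eq_abs, abs_of_nonneg (ht _)] at h4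
      exact h4
    have h5 : (2 * (1 + ‖u - v‖ ^ 2)) ^ M ≤ 2 ^ M * (1 + ‖u - v‖) ^ (2 * M) := by
      rw [mul_pow, pow_mul]
      refine mul_le_mul_of_nonneg_left (pow_le_pow_left₀ (by positivity) ?_ M) (by positivity)
      nlinarith [norm_nonneg (u - v)]
    calc ((1 + ‖v‖ ^ 2) ^ M)⁻¹ * t (u - v)
        ≤ (2 ^ M * (1 + ‖u - v‖) ^ (2 * M) * ((1 + ‖u‖ ^ 2) ^ M)⁻¹) *
          (A * ((1 + ‖u - v‖) ^ (2 * M + (n + 1)))⁻¹) := by
          refine mul_le_mul (h2.trans (mul_le_mul_of_nonneg_right h5 (by positivity))) h3 (ht _)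
            (by positivity)
      _ = 2 ^ M * A * ((1 + ‖u‖ ^ 2) ^ M)⁻¹ * ((1 + ‖u - v‖) ^ (n + 1))⁻¹ := by
          rw [pow_add]
          field_simp
  calc ∫⁻ v, ENNReal.ofReal (((1 + ‖v‖ ^ 2) ^ M)⁻¹) * ENNReal.ofReal (t (u - v))
      ≤ ∫⁻ v, ENNReal.ofReal (2 ^ M * A) * ENNReal.ofReal (((1 + ‖u‖ ^ 2) ^ M)⁻¹) *
        ENNReal.ofReal (((1 + ‖u - v‖) ^ (n + 1))⁻¹) := lintegral_mono h1
    _ = ENNReal.ofReal (2 ^ M * A) * ENNReal.ofReal (((1 + ‖u‖ ^ 2) ^ M)⁻¹) *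
        ∫⁻ v, ENNReal.ofReal (((1 + ‖u - v‖) ^ (n + 1))⁻¹) :=
        lintegral_const_mul _ (by fun_prop)
    _ = ENNReal.ofReal (2 ^ M * A) * ENNReal.ofReal (((1 + ‖u‖ ^ 2) ^ M)⁻¹) *
        ∫⁻ z : E n, ENNReal.ofReal (((1 + ‖z‖) ^ (n + 1))⁻¹) := by
        rw [lintegral_sub_left_eq_self (fun z : E n => ENNReal.ofReal (((1 + ‖z‖) ^ (n + 1))⁻¹)) u]
    _ = _ := by ring

/-- Almost orthogonality for the compactly supported weight, `ℝ≥0∞` form. -/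
theorem orth_t {n : ℕ} (T : 𝓢(E n, ℂ)) {t : E n → ℝ} (hTt : ∀ ξ, T ξ = t ξ)
    (ht : ∀ ξ, 0 ≤ t ξ) (hT : ∀ x : E n, 1 / 4 ≤ ‖x‖ →
      ∫ ξ, T ξ * Complex.exp (((2 * π * ⟪ξ, x⟫ : ℝ) : ℂ) * Complex.I) = 0)
    {ι : Type} [DecidableEq ι] (s : Finset ι) (c : ι → E n) (F : ι → E n → ℂ) {ρ : ℝ}
    (hρ : 0 < ρ) (hF : ∀ i, GNP.TMR.Spec (c i) ρ (F i)) (Q : ℕ)
    (hQ : ∀ i ∈ s, (s.filter fun j => ‖c i - c j‖ ≤ 3 * ρ).card ≤ Q) (ξ0 : E n) :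
    ∫⁻ ξ, ‖∑ i ∈ s, F i ξ‖ₑ ^ 2 * ENNReal.ofReal (t (ρ • (ξ - ξ0))) ≤
      Q * ∑ i ∈ s, ∫⁻ ξ, ‖F i ξ‖ₑ ^ 2 * ENNReal.ofReal (t (ρ • (ξ - ξ0))) := by
  have h1 := GNP.TMR.l2_orth hTt ht hT s c F hρ hF Q hQ ξ0
  have key : ∀ G : E n → ℂ, Continuous G → (∃ B : ℝ, ∀ ξ, ‖G ξ‖ ≤ B) →
      ∫⁻ ξ, ‖G ξ‖ₑ ^ 2 * ENNReal.ofReal (t (ρ • (ξ - ξ0))) =
        ENNReal.ofReal (∫ ξ, t (ρ • (ξ - ξ0)) * ‖G ξ‖ ^ 2) := by
    intro G hG hB
    obtain ⟨B, hB⟩ := hB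
    have hi : Integrable fun ξ : E n => t (ρ • (ξ - ξ0)) * ‖G ξ‖ ^ 2 := by
      have h2 : Integrable fun ξ : E n => T (ρ • (ξ - ξ0)) * ((‖G ξ‖ ^ 2 : ℝ) : ℂ) := by
        refine GNP.TMR.weight_integrable T hρ ξ0 ?_ (B := B ^ 2) fun ξ => ?_
        · exact Complex.continuous_ofReal.comp (hG.norm.pow 2)
        · rw [Complex.norm_real, Real.norm_eq_abs, abs_of_nonneg (by positivity)]
          exact pow_le_pow_left₀ (norm_nonneg _) (hB ξ) 2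
      refine h2.re.congr (Eventually.of_forall fun ξ => ?_)
      simp only [hTt]
      rw [← Complex.ofReal_mul]
      rfl
    rw [ofReal_integral_eq_lintegral_ofReal hi (Eventually.of_forall fun ξ =>
      mul_nonneg (ht _) (by positivity))]
    refine lintegral_congr fun ξ => ?_
    rw [ENNReal.ofReal_mul (ht _), mul_comm, ← ofReal_norm, ENNReal.ofReal_pow (norm_nonneg _)]
  have hc : ∀ i, Continuous (F i) := fun i => (hF i).cont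
  have hb : ∀ i, ∃ B : ℝ, ∀ ξ, ‖F i ξ‖ ≤ B := fun i => by
    obtain ⟨B, -, hB⟩ := (hF i).bdd
    exact ⟨B, hB⟩
  rw [key (fun ξ => ∑ i ∈ s, F i ξ) (continuous_finsetSum _ fun i _ => hc i) ?_]
  · have h2 : (Q : ℝ≥0∞) * ∑ i ∈ s, ∫⁻ ξ, ‖F i ξ‖ₑ ^ 2 * ENNReal.ofReal (t (ρ • (ξ - ξ0))) =
        ENNReal.ofReal (Q * ∑ i ∈ s, ∫ ξ, t (ρ • (ξ - ξ0)) * ‖F i ξ‖ ^ 2) := by
      rw [ENNReal.ofReal_mul (Nat.cast_nonneg _), ENNReal.ofReal_natCast,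
        ENNReal.ofReal_sum_of_nonneg fun i _ => integral_nonneg fun ξ =>
          mul_nonneg (ht _) (by positivity)]
      congr 1
      exact Finset.sum_congr rfl fun i _ => key _ (hc i) (hb i)
    rw [h2]
    exact ENNReal.ofReal_le_ofReal h1
  · choose B hB using hb
    refine ⟨∑ i ∈ s, B i, fun ξ => (norm_sum_le _ _).trans (Finset.sum_le_sum fun i _ => hB i ξ)⟩

end BEnd

open BEnd in
/-- END, first half: almost orthogonality of the means. -/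
theorem P_orth (n M : ℕ) : ∃ C : ℝ≥0∞, C ≠ ∞ ∧ ∀ (r : ℝ), 0 < r → ∀ (ι : Type) [DecidableEq ι]
    (s : Finset ι) (c : ι → E n) (F : ι → E n → ℂ) (Q : ℕ),
    (∀ i ∈ s, Sp (closedBall (c i) r⁻¹) (F i)) →
    (∀ i ∈ s, (s.filter fun j => ‖c i - c j‖ ≤ 3 * r⁻¹).card ≤ Q) → ∀ y,
      P M r (fun ξ => ∑ i ∈ s, F i ξ) y ≤ C * Q * ∑ i ∈ s, P M r (F i) y := by
  obtain ⟨T, t, hTt, ht, ht1, hT⟩ := GNP.TMR.exists_weight n
  obtain ⟨C1, hC1, h1⟩ := w_le n M ht1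
  obtain ⟨C2, hC2, h2⟩ := le_w n M T hTt ht
  refine ⟨C1 * C2, ENNReal.mul_ne_top hC1 hC2, fun r hr ι _ s c F Q hF hQ y => ?_⟩
  set ρ : ℝ := r⁻¹ with hρd
  have hρ : 0 < ρ := inv_pos.2 hr
  -- the family which is zero off `s`
  set G : ι → E n → ℂ := fun i => if i ∈ s then F i else 0 with hG
  have hGs : ∀ i ∈ s, G i = F i := fun i hi => if_pos hi
  have hGF : ∀ i, GNP.TMR.Spec (c i) ρ (G i) := by
    intro i
    by_cases hi : i ∈ s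
    · rw [hGs i hi]
      exact sp_spec (hF i hi) (subset_refl _)
    · have h3 : G i = 0 := if_neg hi
      rw [h3]
      exact sp_spec (Sp.zero (A := closedBall (c i) ρ)) (subset_refl _)
  have hsum : (fun ξ => ∑ i ∈ s, F i ξ) = fun ξ => ∑ i ∈ s, G i ξ :=
    funext fun ξ => Finset.sum_congr rfl fun i hi => by rw [hGs i hi]
  have hmt : Measurable t := by
    have h3 : t = fun ξ => (T ξ).re := funext fun ξ => by rw [hTt, Complex.ofReal_re]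
    rw [h3]
    exact Complex.measurable_re.comp T.continuous.measurable
  -- the weight as a mean
  have hW : ∀ (H : E n → ℂ), Measurable H →
      ∫⁻ ξ, ‖H ξ‖ₑ ^ 2 * pw M r y ξ ≤ C1 * ∫⁻ v, ENNReal.ofReal (((1 + ‖v‖ ^ 2) ^ M)⁻¹) *
        ∫⁻ ξ, ‖H ξ‖ₑ ^ 2 * ENNReal.ofReal (t (ρ • (ξ - (y + r • v)))) := by
    intro H hH
    have e0 : ∀ ξ v, ρ • (ξ - (y + r • v)) = r⁻¹ • (ξ - y) - v := by
      intro ξ v
      rw [hρd, sub_add_eq_sub_sub, smul_sub _ (ξ - y), smul_smul, inv_mul_cancel₀ hr.ne', one_smul]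
    calc ∫⁻ ξ, ‖H ξ‖ₑ ^ 2 * pw M r y ξ
        ≤ ∫⁻ ξ, ‖H ξ‖ₑ ^ 2 * (C1 * ∫⁻ v, ENNReal.ofReal (((1 + ‖v‖ ^ 2) ^ M)⁻¹) *
          ENNReal.ofReal (t (r⁻¹ • (ξ - y) - v))) := by
          refine lintegral_mono fun ξ => ?_
          rw [pw_eq hr]
          exact mul_le_mul_right (h1 _) _
      _ = C1 * ∫⁻ ξ, ∫⁻ v, ‖H ξ‖ₑ ^ 2 * (ENNReal.ofReal (((1 + ‖v‖ ^ 2) ^ M)⁻¹) *
          ENNReal.ofReal (t (r⁻¹ • (ξ - y) - v))) := by
          rw [← lintegral_const_mul _ (by fun_prop)]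
          refine lintegral_congr fun ξ => ?_
          rw [lintegral_const_mul _ (by fun_prop)]
          ring
      _ = C1 * ∫⁻ v, ∫⁻ ξ, ‖H ξ‖ₑ ^ 2 * (ENNReal.ofReal (((1 + ‖v‖ ^ 2) ^ M)⁻¹) *
          ENNReal.ofReal (t (r⁻¹ • (ξ - y) - v))) := by
          rw [lintegral_lintegral_swap]
          fun_prop
      _ = _ := by
          congr 1
          refine lintegral_congr fun v => ?_
          rw [← lintegral_const_mul _ (by fun_prop)]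
          refine lintegral_congr fun ξ => ?_
          rw [e0]
          ring
  have hW2 : ∀ (H : E n → ℂ), Measurable H →
      ∫⁻ v, ENNReal.ofReal (((1 + ‖v‖ ^ 2) ^ M)⁻¹) *
        ∫⁻ ξ, ‖H ξ‖ₑ ^ 2 * ENNReal.ofReal (t (ρ • (ξ - (y + r • v)))) ≤
          C2 * ∫⁻ ξ, ‖H ξ‖ₑ ^ 2 * pw M r y ξ := by
    intro H hH
    have e0 : ∀ ξ v, ρ • (ξ - (y + r • v)) = r⁻¹ • (ξ - y) - v := by
      intro ξ v
      rw [hρd, sub_add_eq_sub_sub, smul_sub _ (ξ - y), smul_smul, inv_mul_cancel₀ hr.ne', one_smul]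
    calc ∫⁻ v, ENNReal.ofReal (((1 + ‖v‖ ^ 2) ^ M)⁻¹) *
        ∫⁻ ξ, ‖H ξ‖ₑ ^ 2 * ENNReal.ofReal (t (ρ • (ξ - (y + r • v))))
        = ∫⁻ v, ∫⁻ ξ, ‖H ξ‖ₑ ^ 2 * (ENNReal.ofReal (((1 + ‖v‖ ^ 2) ^ M)⁻¹) *
          ENNReal.ofReal (t (r⁻¹ • (ξ - y) - v))) := by
          refine lintegral_congr fun v => ?_
          rw [← lintegral_const_mul _ (by fun_prop)]
          refine lintegral_congr fun ξ => ?_
          rw [e0]
          ring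
      _ = ∫⁻ ξ, ∫⁻ v, ‖H ξ‖ₑ ^ 2 * (ENNReal.ofReal (((1 + ‖v‖ ^ 2) ^ M)⁻¹) *
          ENNReal.ofReal (t (r⁻¹ • (ξ - y) - v))) := by
          rw [lintegral_lintegral_swap]
          fun_prop
      _ = ∫⁻ ξ, ‖H ξ‖ₑ ^ 2 * ∫⁻ v, ENNReal.ofReal (((1 + ‖v‖ ^ 2) ^ M)⁻¹) *
          ENNReal.ofReal (t (r⁻¹ • (ξ - y) - v)) := by
          refine lintegral_congr fun ξ => ?_
          rw [lintegral_const_mul _ (by fun_prop)]
      _ ≤ ∫⁻ ξ, ‖H ξ‖ₑ ^ 2 * (C2 * pw M r y ξ) := by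
          refine lintegral_mono fun ξ => ?_
          rw [pw_eq hr]
          exact mul_le_mul_right (h2 _) _
      _ = _ := by
          have hmw : Measurable fun ξ => pw M r y ξ := by
            unfold pw
            fun_prop
          rw [← lintegral_const_mul _ (by fun_prop)]
          refine lintegral_congr fun ξ => ?_
          ring
  have hGm : ∀ i, Measurable (G i) := fun i => (hGF i).cont.measurable
  have hSm : Measurable fun ξ => ∑ i ∈ s, G i ξ := Finset.measurable_fun_sum _ fun i _ => hGm i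
  have hfin : ∫⁻ ξ, ‖∑ i ∈ s, G i ξ‖ₑ ^ 2 * pw M r y ξ ≤
      C1 * C2 * Q * ∑ i ∈ s, ∫⁻ ξ, ‖G i ξ‖ₑ ^ 2 * pw M r y ξ := by
    calc ∫⁻ ξ, ‖∑ i ∈ s, G i ξ‖ₑ ^ 2 * pw M r y ξ
        ≤ C1 * ∫⁻ v, ENNReal.ofReal (((1 + ‖v‖ ^ 2) ^ M)⁻¹) *
          ∫⁻ ξ, ‖∑ i ∈ s, G i ξ‖ₑ ^ 2 * ENNReal.ofReal (t (ρ • (ξ - (y + r • v)))) := hW _ hSm
      _ ≤ C1 * ∫⁻ v, ENNReal.ofReal (((1 + ‖v‖ ^ 2) ^ M)⁻¹) * (Q * ∑ i ∈ s,
          ∫⁻ ξ, ‖G i ξ‖ₑ ^ 2 * ENNReal.ofReal (t (ρ • (ξ - (y + r • v))))) := by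
          refine mul_le_mul_right (lintegral_mono fun v => mul_le_mul_right ?_ _) _
          exact orth_t T hTt ht hT s c G hρ hGF Q hQ (y + r • v)
      _ = C1 * (Q * ∑ i ∈ s, ∫⁻ v, ENNReal.ofReal (((1 + ‖v‖ ^ 2) ^ M)⁻¹) *
          ∫⁻ ξ, ‖G i ξ‖ₑ ^ 2 * ENNReal.ofReal (t (ρ • (ξ - (y + r • v))))) := by
          congr 1
          have hmi : ∀ i, Measurable fun v : E n => ∫⁻ ξ, ‖G i ξ‖ₑ ^ 2 *
              ENNReal.ofReal (t (ρ • (ξ - (y + r • v)))) := by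
            intro i
            have h3 := hGm i
            have h4 : Measurable fun q : E n × E n => ‖G i q.2‖ₑ ^ 2 *
                ENNReal.ofReal (t (ρ • (q.2 - (y + r • q.1)))) := by fun_prop
            exact h4.lintegral_prod_right'
          rw [← lintegral_finsetSum _ fun i _ => by have := hmi i; fun_prop,
            ← lintegral_const_mul _ (Finset.measurable_fun_sum _ fun i _ => by
              have := hmi i; fun_prop)]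
          refine lintegral_congr fun v => ?_
          rw [Finset.mul_sum, Finset.mul_sum, Finset.mul_sum]
          refine Finset.sum_congr rfl fun i _ => ?_
          ring
      _ ≤ C1 * (Q * ∑ i ∈ s, C2 * ∫⁻ ξ, ‖G i ξ‖ₑ ^ 2 * pw M r y ξ) := by
          refine mul_le_mul_right (mul_le_mul_right (Finset.sum_le_sum fun i _ => ?_) _) _
          exact hW2 _ (hGm i)
      _ = _ := by
          rw [← Finset.mul_sum]
          ring
  unfold P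
  rw [hsum]
  calc ENNReal.ofReal (r ^ n)⁻¹ * ∫⁻ ξ, ‖∑ i ∈ s, G i ξ‖ₑ ^ 2 * pw M r y ξ
      ≤ ENNReal.ofReal (r ^ n)⁻¹ * (C1 * C2 * Q * ∑ i ∈ s, ∫⁻ ξ, ‖G i ξ‖ₑ ^ 2 * pw M r y ξ) :=
        mul_le_mul_right hfin _
    _ = C1 * C2 * Q * ∑ i ∈ s, ENNReal.ofReal (r ^ n)⁻¹ * ∫⁻ ξ, ‖G i ξ‖ₑ ^ 2 * pw M r y ξ := by
        rw [← Finset.mul_sum]
        ring
    _ = _ := by
        congr 1
        exact Finset.sum_congr rfl fun i hi => by rw [hGs i hi]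

namespace BEnd

theorem P_scale_le {n M : ℕ} {r : ℝ} (hr : 0 < r) (F : E n → ℂ) (hF : Measurable F) (y : E n) :
    P M r F y ≤ ENNReal.ofReal (9 ^ M) * P M (r / 3) F y := by
  have h1 : ∀ ξ, pw M r y ξ ≤ ENNReal.ofReal (9 ^ M) * pw M (r / 3) y ξ := by
    intro ξ
    unfold pw
    rw [← ENNReal.ofReal_mul (by positivity)]
    refine ENNReal.ofReal_le_ofReal ?_
    have h2 : (1 + ‖ξ - y‖ ^ 2 / (r / 3) ^ 2) ^ M ≤ 9 ^ M * (1 + ‖ξ - y‖ ^ 2 / r ^ 2) ^ M := by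
      rw [← mul_pow]
      refine pow_le_pow_left₀ (by positivity) ?_ M
      have h3 : ‖ξ - y‖ ^ 2 / (r / 3) ^ 2 = 9 * (‖ξ - y‖ ^ 2 / r ^ 2) := by
        field_simp
        ring
      rw [h3]
      linarith
    rw [inv_le_iff_one_le_mul₀ (by positivity), mul_assoc, mul_comm, mul_assoc, inv_mul_eq_div,
      le_div_iff₀ (by positivity), one_mul, mul_comm]
    exact h2
  have hmw : Measurable fun ξ => pw M (r / 3) y ξ := by
    unfold pw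
    fun_prop
  unfold P
  have h4 : ENNReal.ofReal (r ^ n)⁻¹ ≤ ENNReal.ofReal ((r / 3) ^ n)⁻¹ := by
    refine ENNReal.ofReal_le_ofReal (inv_anti₀ (by positivity)
      (pow_le_pow_left₀ (by positivity) (by linarith) n))
  calc ENNReal.ofReal (r ^ n)⁻¹ * ∫⁻ ξ, ‖F ξ‖ₑ ^ 2 * pw M r y ξ
      ≤ ENNReal.ofReal ((r / 3) ^ n)⁻¹ *
        ∫⁻ ξ, ENNReal.ofReal (9 ^ M) * (‖F ξ‖ₑ ^ 2 * pw M (r / 3) y ξ) := by
        refine mul_le_mul' h4 (lintegral_mono fun ξ => ?_)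
        calc ‖F ξ‖ₑ ^ 2 * pw M r y ξ ≤ ‖F ξ‖ₑ ^ 2 * (ENNReal.ofReal (9 ^ M) * pw M (r / 3) y ξ) :=
              mul_le_mul_right (h1 ξ) _
          _ = _ := by ring
    _ = _ := by
        rw [lintegral_const_mul _ (by fun_prop)]
        ring

theorem P_le_scale {n M : ℕ} {r : ℝ} (hr : 0 < r) (F : E n → ℂ) (y : E n) :
    P M (r / 3) F y ≤ ENNReal.ofReal (3 ^ n) * P M r F y := by
  unfold P
  have h4 : ENNReal.ofReal ((r / 3) ^ n)⁻¹ = ENNReal.ofReal (3 ^ n) * ENNReal.ofReal (r ^ n)⁻¹ := by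
    rw [← ENNReal.ofReal_mul (by positivity)]
    congr 1
    rw [div_pow, inv_div]
    ring
  rw [h4, mul_assoc]
  refine mul_le_mul_right (mul_le_mul_right (lintegral_mono fun ξ => mul_le_mul_right ?_ _) _) _
  unfold pw
  refine ENNReal.ofReal_le_ofReal (inv_anti₀ (by positivity)
    (pow_le_pow_left₀ (by positivity) ?_ M))
  have h3 : ‖ξ - y‖ ^ 2 / (r / 3) ^ 2 = 9 * (‖ξ - y‖ ^ 2 / r ^ 2) := by
    field_simp
    ring
  rw [h3]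
  have : 0 ≤ ‖ξ - y‖ ^ 2 / r ^ 2 := by positivity
  linarith

end BEnd

open BEnd in
/-- END: almost orthogonality, in the form of the broad row. -/
theorem p_orth (n M : ℕ) : ∃ C : ℝ, 0 < C ∧ ∀ (Q : ℕ) (r : ℝ) (ι : Type) (s : Finset ι)
    (c : ι → E n) (F : ι → E n → ℂ), 0 < r →
    (∀ i ∈ s, Sp (Metric.closedBall (c i) (3 / r)) (F i)) →
    (∀ i ∈ s, {j | j ∈ s ∧ ‖c i - c j‖ ≤ 10 / r}.encard ≤ Q) → ∀ y,
      P M r (fun ξ => ∑ i ∈ s, F i ξ) y ≤ ENNReal.ofReal (C * Q) * ∑ i ∈ s, P M r (F i) y := by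
  classical
  obtain ⟨C, hC, h⟩ := P_orth n M
  refine ⟨9 ^ M * C.toReal * 3 ^ n + 1, by positivity, fun Q r ι s c F hr hF hQ y => ?_⟩
  have hr3 : (0 : ℝ) < r / 3 := by positivity
  have e1 : (r / 3)⁻¹ = 3 / r := inv_div _ _
  have h1 := h (r / 3) hr3 ι s c F Q (by rw [e1]; exact hF) (fun i hi => ?_) y
  · have hm : Measurable fun ξ => ∑ i ∈ s, F i ξ :=
      Finset.measurable_fun_sum _ fun i hi => (hF i hi).continuous.measurable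
    calc P M r (fun ξ => ∑ i ∈ s, F i ξ) y
        ≤ ENNReal.ofReal (9 ^ M) * P M (r / 3) (fun ξ => ∑ i ∈ s, F i ξ) y := P_scale_le hr _ hm y
      _ ≤ ENNReal.ofReal (9 ^ M) * (C * Q * ∑ i ∈ s, P M (r / 3) (F i) y) :=
          mul_le_mul_right h1 _
      _ ≤ ENNReal.ofReal (9 ^ M) * (C * Q * ∑ i ∈ s, ENNReal.ofReal (3 ^ n) * P M r (F i) y) := by
          refine mul_le_mul_right (mul_le_mul_right (Finset.sum_le_sum fun i _ => ?_) _) _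
          exact P_le_scale hr _ _
      _ = ENNReal.ofReal (9 ^ M * C.toReal * 3 ^ n * Q) * ∑ i ∈ s, P M r (F i) y := by
          rw [← Finset.mul_sum, ENNReal.ofReal_mul (by positivity),
            ENNReal.ofReal_mul (by positivity), ENNReal.ofReal_mul (by positivity),
            ENNReal.ofReal_toReal hC, ENNReal.ofReal_natCast]
          ring
      _ ≤ _ := by
          refine mul_le_mul_left (ENNReal.ofReal_le_ofReal ?_) _
          refine mul_le_mul_of_nonneg_right (by linarith) (Nat.cast_nonneg _)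
  · have h2 := hQ i hi
    have h3 : ((s.filter fun j => ‖c i - c j‖ ≤ 3 * (r / 3)⁻¹ : Finset ι) : Set ι) ⊆
        {j | j ∈ s ∧ ‖c i - c j‖ ≤ 10 / r} := by
      intro j hj
      simp only [Finset.coe_filter, mem_ofPred_eq] at hj ⊢
      refine ⟨hj.1, hj.2.trans ?_⟩
      rw [e1]
      have h4 : 3 * (3 / r) = 9 / r := by ring
      rw [h4]
      gcongr
      norm_num
    have h5 := (encard_le_encard h3).trans h2
    rw [encard_coe_eq_coe_finsetCard] at h5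
    exact_mod_cast h5

open BEnd in
/-- END, second half: Jensen's inequality. -/
theorem P_jensen (n M : ℕ) (hM : n < 2 * M) (p : ℝ) (hp : 2 ≤ p) : ∃ C : ℝ≥0∞, C ≠ ∞ ∧
    ∀ (r : ℝ), 0 < r → ∀ (F : E n → ℂ), Measurable F → ∀ y,
      P M r F y ≤ C * (ENNReal.ofReal (r ^ n)⁻¹ * ∫⁻ ξ, ‖F ξ‖ₑ ^ p * pw M r y ξ) ^ (2 / p) := by
  have hp0 : 0 < p := by linarith
  set m : ℝ≥0∞ := ∫⁻ u : E n, ENNReal.ofReal (((1 + ‖u‖ ^ 2) ^ M)⁻¹) with hm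
  have hmt : m ≠ ∞ := by
    have h1 : Integrable fun u : E n => (1 + ‖u‖ ^ 2) ^ (-((2 * M : ℕ) : ℝ) / 2) := by
      refine integrable_rpow_neg_one_add_norm_sq ?_
      rw [finrank_euclideanSpace_fin]
      exact_mod_cast hM
    have h2 : Integrable fun u : E n => ((1 + ‖u‖ ^ 2) ^ M)⁻¹ := by
      refine h1.congr (Eventually.of_forall fun u => ?_)
      simp only
      rw [show -((2 * M : ℕ) : ℝ) / 2 = -((M : ℕ) : ℝ) by push_cast; ring,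
        Real.rpow_neg (by positivity), Real.rpow_natCast]
    exact h2.lintegral_lt_top.ne
  refine ⟨m ^ (1 - 2 / p), ENNReal.rpow_ne_top_of_nonneg (by
    rw [sub_nonneg, div_le_one hp0]; exact hp) hmt, fun r hr F hF y => ?_⟩
  have hmw : Measurable fun ξ => pw M r y ξ := by
    unfold pw
    fun_prop
  set μ : Measure (E n) := volume.withDensity fun ξ => ENNReal.ofReal (r ^ n)⁻¹ * pw M r y ξ
    with hμ
  have hdm : Measurable fun ξ => ENNReal.ofReal (r ^ n)⁻¹ * pw M r y ξ := hmw.const_mul _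
  have e1 : ∀ q : ℝ, ∫⁻ ξ, ‖F ξ‖ₑ ^ q ∂μ =
      ENNReal.ofReal (r ^ n)⁻¹ * ∫⁻ ξ, ‖F ξ‖ₑ ^ q * pw M r y ξ := by
    intro q
    rw [hμ, lintegral_withDensity_eq_lintegral_mul _ hdm (by fun_prop),
      ← lintegral_const_mul _ (by fun_prop)]
    refine lintegral_congr fun ξ => ?_
    simp only [Pi.mul_apply]
    ring
  have e2 : μ univ = m := by
    rw [hμ, withDensity_apply _ MeasurableSet.univ, setLIntegral_univ,
      lintegral_const_mul _ hmw]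
    have h3 : ∫⁻ ξ, pw M r y ξ = ENNReal.ofReal (r ^ n) * m := by
      have h4 : ∀ ξ, pw M r y ξ = (fun u : E n => ENNReal.ofReal (((1 + ‖r⁻¹ • u‖ ^ 2) ^ M)⁻¹))
          (ξ - y) := fun ξ => pw_eq hr y ξ
      simp_rw [h4]
      rw [lintegral_sub_right_eq_self (fun u : E n =>
        ENNReal.ofReal (((1 + ‖r⁻¹ • u‖ ^ 2) ^ M)⁻¹)) y]
      exact scale hr
    rw [h3, ← mul_assoc, ← ENNReal.ofReal_mul (by positivity),
      inv_mul_cancel₀ (by positivity), ENNReal.ofReal_one, one_mul]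
  have e3 : P M r F y = ∫⁻ ξ, ‖F ξ‖ₑ ^ (2 : ℝ) ∂μ := by
    rw [e1]
    unfold P
    congr 1
    refine lintegral_congr fun ξ => ?_
    rw [ENNReal.rpow_ofNat]
  rw [e3, ← e1 p]
  -- Hoelder
  rcases eq_or_lt_of_le hp with h2 | h2
  · rw [← h2]
    simp
  have hq : (p / 2).HolderConjugate (p / (p - 2)) := by
    rw [Real.holderConjugate_iff]
    constructor
    · linarith
    · have : p - 2 ≠ 0 := by linarith
      field_simp
      ring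
  have h4 := ENNReal.lintegral_mul_le_Lp_mul_Lq μ hq (f := fun ξ => ‖F ξ‖ₑ ^ (2 : ℝ))
    (g := fun _ => 1) (by fun_prop) (by fun_prop)
  simp only [Pi.mul_apply, mul_one, ENNReal.one_rpow, lintegral_const, one_mul, e2] at h4
  have h5 : ∫⁻ ξ, (‖F ξ‖ₑ ^ (2 : ℝ)) ^ (p / 2) ∂μ = ∫⁻ ξ, ‖F ξ‖ₑ ^ p ∂μ := by
    refine lintegral_congr fun ξ => ?_
    rw [← ENNReal.rpow_mul]
    congr 1
    ring
  rw [h5] at h4
  refine h4.trans (le_of_eq ?_)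
  rw [mul_comm]
  congr 2
  · field_simp
  · field_simp

end Pool.Agent.DEC
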