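import Pool.Agent.DEC.DSK0

/-!
# [DEC] Row ETA: the bumps.
-/

set_option autoImplicit false

namespace Pool.Agent.DEC

open MeasureTheory Set Filter Topology Pool.Agent.MP_6cbfb8_an
open scoped ENNReal Real RealInnerProductSpace SchwartzMap ContDiff FourierTransform

theorem exists_eta (n : ℕ) : ∃ η : E n → ℂ, IsEta η := by
  let χ : ContDiffBump (0 : E n) := ⟨1 / 16, 1 / 8, by norm_num, by norm_num⟩
  have hI : 0 < ∫ x, χ x := χ.integral_pos
  set c : ℝ := 2 / ∫ x, χ x with hc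
  have hc0 : 0 < c := by positivity
  have hcI : c * ∫ x, χ x = 2 := by rw [hc]; field_simp
  have k1 : HasCompactSupport fun x : E n => ((c * χ x : ℝ) : ℂ) :=
    (χ.hasCompactSupport.comp_left (g := fun r : ℝ => ((c * r : ℝ) : ℂ)) (by simp))
  have k2 : ContDiff ℝ ∞ fun x : E n => ((c * χ x : ℝ) : ℂ) :=
    Complex.ofRealCLM.contDiff.comp (contDiff_const.mul χ.contDiff)
  have hsupp : ∀ x : E n, χ x ≠ 0 → ‖x‖ < 1 / 8 := by
    intro x hx
    have h1 : x ∈ Function.support χ := hx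
    rw [χ.support_eq, Metric.mem_ball, dist_zero_right] at h1
    exact h1
  refine ⟨fun ξ => ∫ x, (k1.toSchwartzMap k2) x * chr x ξ,
    ⟨k1.toSchwartzMap k2, fun x hx => ?_, fun ξ => rfl⟩, fun ξ hξ => ?_⟩
  · have h1 : ((c * χ x : ℝ) : ℂ) ≠ 0 := hx
    have h2 : χ x ≠ 0 := fun h0 => h1 (by rw [h0]; simp)
    have := hsupp x h2
    linarith
  · have hint : Integrable fun x : E n => (k1.toSchwartzMap k2) x * chr x ξ :=
      integrable_chr measurable_id (k1.toSchwartzMap k2).integrable ξ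
    have hχ : Integrable fun x : E n => χ x :=
      χ.continuous.integrable_of_hasCompactSupport χ.hasCompactSupport
    have h3 : ∀ x : E n, 1 / 2 * (c * χ x) ≤ ((k1.toSchwartzMap k2) x * chr x ξ).re := by
      intro x
      have e : ((k1.toSchwartzMap k2) x * chr x ξ).re = c * χ x * Real.cos (2 * π * inner ℝ x ξ) := by
        show (((c * χ x : ℝ) : ℂ) * chr x ξ).re = _
        rw [Complex.re_ofReal_mul]
        unfold chr
        rw [Complex.exp_ofReal_mul_I_re, Real.cos_neg]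
      rw [e]
      have h0 : 0 ≤ c * χ x := mul_nonneg hc0.le χ.nonneg
      by_cases hx : χ x = 0
      · simp [hx]
      · have h4 := hsupp x hx
        have h5 : |(inner ℝ x ξ : ℝ)| ≤ 1 / 8 := by
          refine (abs_real_inner_le_norm x ξ).trans ?_
          nlinarith [norm_nonneg x, norm_nonneg ξ]
        have h6 : 1 / 2 ≤ Real.cos (2 * π * inner ℝ x ξ) := by
          have h7 := Real.one_sub_sq_div_two_le_cos (x := 2 * π * inner ℝ x ξ)
          have h8 : (2 * π * (inner ℝ x ξ : ℝ)) ^ 2 ≤ 1 := by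
            have h9 : |2 * π * (inner ℝ x ξ : ℝ)| ≤ 1 := by
              rw [abs_mul, abs_of_pos (by positivity : (0 : ℝ) < 2 * π)]
              have := Real.pi_lt_four
              nlinarith [Real.pi_pos, abs_nonneg (inner ℝ x ξ : ℝ)]
            rw [← sq_abs]
            nlinarith [abs_nonneg (2 * π * (inner ℝ x ξ : ℝ))]
          linarith
        nlinarith
    have h4 : (1 : ℝ) ≤ (∫ x, (k1.toSchwartzMap k2) x * chr x ξ).re := by
      have h5 : (∫ x, (k1.toSchwartzMap k2) x * chr x ξ).re =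
          ∫ x, ((k1.toSchwartzMap k2) x * chr x ξ).re := by
        have := integral_re hint
        simpa using this.symm
      rw [h5]
      calc (1 : ℝ) = ∫ x, 1 / 2 * (c * χ x) := by
            rw [integral_const_mul, integral_const_mul, hcI]; norm_num
        _ ≤ _ := integral_mono ((hχ.const_mul c).const_mul (1 / 2)) hint.re h3
    exact h4.trans ((Complex.re_le_norm _))

/-- The transform of a Schwartz function is the Schwartz function `𝓕 h`. -/
theorem eta_eq_fourier {n : ℕ} (h : 𝓢(E n, ℂ)) (ξ : E n) :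
    ∫ x, h x * chr x ξ = (𝓕 h : 𝓢(E n, ℂ)) ξ := by
  rw [SchwartzMap.fourier_coe, Real.fourier_eq']
  refine integral_congr_ae (Eventually.of_forall fun x => ?_)
  simp only [chr, smul_eq_mul]
  rw [mul_comm]
  congr 3
  push_cast
  ring

theorem eta_decay {n : ℕ} {η : E n → ℂ} (hη : IsEta η) (L : ℕ) :
    ∃ C : ℝ, 0 < C ∧ ∀ ξ, ‖η ξ‖ ≤ C * ((1 + ‖ξ‖) ^ L)⁻¹ := by
  obtain ⟨⟨h, -, hh⟩, -⟩ := hη
  set S : ℝ := 2 ^ L * (Finset.Iic (L, 0)).sup (fun m : ℕ × ℕ => SchwartzMap.seminorm ℝ m.1 m.2)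
    (𝓕 h : 𝓢(E n, ℂ)) with hS
  have hS0 : 0 ≤ S := by positivity
  refine ⟨S + 1, by linarith, fun ξ => ?_⟩
  have h1 := SchwartzMap.one_add_le_sup_seminorm_apply (𝕜 := ℝ) (m := (L, 0)) (k := L) (n := 0)
    le_rfl le_rfl (𝓕 h : 𝓢(E n, ℂ)) ξ
  rw [norm_iteratedFDeriv_zero, ← eta_eq_fourier, ← hh] at h1
  have h2 : 0 < (1 + ‖ξ‖) ^ L := by positivity
  rw [← div_eq_mul_inv, le_div_iff₀ h2]
  calc ‖η ξ‖ * (1 + ‖ξ‖) ^ L = (1 + ‖ξ‖) ^ L * ‖η ξ‖ := by ring
    _ ≤ S := h1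
    _ ≤ S + 1 := by linarith

theorem eta_continuous {n : ℕ} {η : E n → ℂ} (hη : IsEta η) : Continuous η := by
  obtain ⟨⟨h, -, hh⟩, -⟩ := hη
  have : η = fun ξ => (𝓕 h : 𝓢(E n, ℂ)) ξ := by
    funext ξ
    rw [hh, eta_eq_fourier]
  rw [this]
  exact (𝓕 h : 𝓢(E n, ℂ)).continuous

/-- The integral of a power of a bump is finite. -/
theorem eta_lint {n : ℕ} {η : E n → ℂ} (hη : IsEta η) (p : ℝ) (hp : 1 ≤ p) :
    ∫⁻ ξ, ‖η ξ‖ₑ ^ p ≠ ⊤ := by
  obtain ⟨C, hC, hd⟩ := eta_decay hη (n + 1)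
  have h1 : ∀ ξ : E n, ‖η ξ‖ₑ ^ p ≤
      ENNReal.ofReal (C ^ p) * ENNReal.ofReal ((1 + ‖ξ‖) ^ (-((n : ℝ) + 1))) := by
    intro ξ
    have hb : (1 : ℝ) ≤ 1 + ‖ξ‖ := by linarith [norm_nonneg ξ]
    have hb0 : (0 : ℝ) < 1 + ‖ξ‖ := by linarith
    rw [← ENNReal.ofReal_mul (by positivity), ← ofReal_norm,
      ENNReal.ofReal_rpow_of_nonneg (norm_nonneg _) (by linarith)]
    refine ENNReal.ofReal_le_ofReal ?_
    calc ‖η ξ‖ ^ p ≤ (C * ((1 + ‖ξ‖) ^ (n + 1))⁻¹) ^ p :=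
          Real.rpow_le_rpow (norm_nonneg _) (hd ξ) (by linarith)
      _ = C ^ p * (((1 + ‖ξ‖) ^ (n + 1))⁻¹) ^ p := Real.mul_rpow hC.le (by positivity)
      _ ≤ C ^ p * (((1 + ‖ξ‖) ^ (n + 1))⁻¹) ^ (1 : ℝ) := by
          refine mul_le_mul_of_nonneg_left ?_ (by positivity)
          refine Real.rpow_le_rpow_of_exponent_ge (by positivity) ?_ hp
          exact inv_le_one_of_one_le₀ (one_le_pow₀ hb)
      _ = C ^ p * (1 + ‖ξ‖) ^ (-((n : ℝ) + 1)) := by
          rw [Real.rpow_one, Real.rpow_neg hb0.le]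
          congr 2
          rw [← Real.rpow_natCast]
          push_cast
          rfl
  have h2 := finite_integral_one_add_norm (E := E n) (μ := volume) (r := (n : ℝ) + 1)
    (by simp)
  refine ne_of_lt (lt_of_le_of_lt (lintegral_mono h1) ?_)
  rw [lintegral_const_mul' _ _ ENNReal.ofReal_ne_top]
  exact ENNReal.mul_lt_top ENNReal.ofReal_lt_top h2

/-- Substitution in an integral over `E n`. -/
theorem lint_comp_smul_sub {n : ℕ} {g : E n → ℝ≥0∞} (hg : Measurable g) {r : ℝ} (hr : 0 < r)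
    (ξ : E n) : ∫⁻ b, g (r⁻¹ • (ξ - b)) = (∫⁻ x, g x) * ENNReal.ofReal (r ^ n) := by
  rw [lintegral_sub_left_eq_self (fun b => g (r⁻¹ • b)) ξ]
  have h1 : ∫⁻ b, g (r⁻¹ • b) = ∫⁻ x, g x ∂(Measure.map (r⁻¹ • ·) (volume : Measure (E n))) :=
    (lintegral_map hg (measurable_const_smul _)).symm
  rw [h1, Measure.map_addHaar_smul _ (inv_ne_zero hr.ne'), lintegral_smul_measure, smul_eq_mul,
    mul_comm]
  congr 2
  rw [finrank_euclideanSpace_fin, inv_pow, inv_inv, abs_of_pos (by positivity)]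

/-- Sum over all positions of a bump: `∫_b |η_b|^p = r^n |η|_p^p`. -/
theorem bump_int {n : ℕ} {η : E n → ℂ} (hη : IsEta η) (p : ℝ) (hp : 1 ≤ p) :
    ∃ C : ℝ≥0∞, C ≠ ⊤ ∧ ∀ (r : ℝ) (ξ : E n), 0 < r →
      ∫⁻ b, ‖bump η b r ξ‖ₑ ^ p = C * ENNReal.ofReal (r ^ n) := by
  refine ⟨∫⁻ ξ, ‖η ξ‖ₑ ^ p, eta_lint hη p hp, fun r ξ hr => ?_⟩
  exact lint_comp_smul_sub (g := fun x => ‖η x‖ₑ ^ p)
    ((eta_continuous hη).measurable.enorm.pow_const p) hr ξ

theorem Sp.bump {n : ℕ} {η : E n → ℂ} (hη : IsEta η) (b : E n) {r : ℝ} (hr : 0 < r) :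
    Sp (Metric.closedBall (0 : E n) r⁻¹) (bump η b r) := by
  obtain ⟨⟨h, h1, hh⟩, -⟩ := hη
  have s1 : Sp (Metric.closedBall (0 : E n) 1) η := by
    refine (Sp.of_density (μ := (volume : Measure (E n))) h.integrable (fun x hx => ?_)).congr hh
    simpa using h1 x hx
  -- scale, then translate
  have s2 := s1.comp (r⁻¹ • ContinuousLinearMap.id ℝ (E n))
  have s3 := s2.translate (-b)
  refine (s3.mono ?_).congr fun ξ => ?_
  · rintro _ ⟨x, hx, rfl⟩
    have e : (ContinuousLinearMap.adjoint (r⁻¹ • ContinuousLinearMap.id ℝ (E n))) x = r⁻¹ • x := by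
      refine ext_inner_right ℝ fun y => ?_
      rw [ContinuousLinearMap.adjoint_inner_left]
      simp [real_inner_smul_left, real_inner_smul_right]
    rw [e]
    simp only [Metric.mem_closedBall, dist_zero_right] at hx ⊢
    rw [norm_smul, Real.norm_of_nonneg (inv_nonneg.2 hr.le)]
    exact mul_le_of_le_one_right (inv_nonneg.2 hr.le) hx
  · simp [DEC.bump, sub_eq_add_neg]

end Pool.Agent.DEC
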