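import Pool.Agent.DEC.DSK0
import Pool.Agent.DEC.ETA
import Pool.Agent.DEC.NET

/-!
# [DEC] Row BG: the split of Bourgain and Guth at one ball.
-/

set_option autoImplicit false

namespace Pool.Agent.DEC

open MeasureTheory
open scoped ENNReal

/-- Pigeonhole: either all the numbers are controlled by a transversal product, or those away from
a good set are negligible. -/
theorem bgn_numbers (n : ℕ) (hn : 0 < n) {T : Type*} [Fintype T] [Nonempty T]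
    (Trans : (Fin n → T) → Prop) (Good : (T → Prop) → Prop)
    (hdich : ∀ sig : T → Prop, (∃ s : Fin n → T, (∀ i, sig (s i)) ∧ Trans s) ∨
      ∃ P, Good P ∧ ∀ t, sig t → P t)
    (a : T → ℝ) (ha : ∀ t, 0 ≤ a t) (θ : ℝ) (hθ : 0 < θ) :
    (∃ s : Fin n → T, Trans s ∧
      ∑ t, a t ≤ (Fintype.card T : ℝ) ^ 2 * θ⁻¹ * ∏ i, a (s i) ^ (1 / (n : ℝ))) ∨
    (∃ (P : T → Prop) (t0 : T), Good P ∧ (∀ t, a t ≤ a t0) ∧
      ∀ t, ¬ P t → a t ≤ θ * a t0 / Fintype.card T) := by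
  classical
  obtain ⟨t0, -, ht0⟩ := Finset.exists_max_image (Finset.univ : Finset T) a Finset.univ_nonempty
  have hmax : ∀ t, a t ≤ a t0 := fun t => ht0 t (Finset.mem_univ t)
  have hcard : (0 : ℝ) < Fintype.card T := by exact_mod_cast Fintype.card_pos
  rcases hdich (fun t => θ * a t0 / Fintype.card T < a t) with ⟨s, hs, hT⟩ | ⟨P, hP, h⟩
  · left
    refine ⟨s, hT, ?_⟩
    have hn' : (0 : ℝ) < n := by exact_mod_cast hn
    have h0 : 0 ≤ θ * a t0 / Fintype.card T := div_nonneg (mul_nonneg hθ.le (ha t0)) hcard.le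
    have h1 : θ * a t0 / Fintype.card T ≤ ∏ i, a (s i) ^ (1 / (n : ℝ)) := by
      calc θ * a t0 / Fintype.card T =
            ∏ _i : Fin n, (θ * a t0 / Fintype.card T) ^ (1 / (n : ℝ)) := by
            rw [Finset.prod_const, Finset.card_univ, Fintype.card_fin, ← Real.rpow_natCast,
              ← Real.rpow_mul h0, one_div, inv_mul_cancel₀ hn'.ne', Real.rpow_one]
        _ ≤ _ := Finset.prod_le_prod (fun _ _ => Real.rpow_nonneg h0 _)
            (fun i _ => Real.rpow_le_rpow h0 (hs i).le (by positivity))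
    have h2 : ∑ t, a t ≤ Fintype.card T * a t0 := by
      calc ∑ t, a t ≤ ∑ _t : T, a t0 := Finset.sum_le_sum (fun t _ => hmax t)
        _ = _ := by rw [Finset.sum_const, Finset.card_univ, nsmul_eq_mul]
    calc ∑ t, a t ≤ Fintype.card T * a t0 := h2
      _ = (Fintype.card T : ℝ) ^ 2 * θ⁻¹ * (θ * a t0 / Fintype.card T) := by field_simp
      _ ≤ _ := mul_le_mul_of_nonneg_left h1 (by positivity)
  · right
    refine ⟨P, t0, hP, hmax, ?_⟩
    intro t ht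
    by_contra hc
    exact ht (h t (not_le.mp hc))

/-- **Broad or narrow, for functions.** -/
theorem bgn_norms (n : ℕ) (hn : 0 < n) {T S : Type*} [Fintype T] [Nonempty T] [Fintype S]
    [DecidableEq S] (σ : T → S) (Trans : (Fin n → T) → Prop) (Good : (T → Prop) → Prop)
    (hdich : ∀ sig : T → Prop, (∃ s : Fin n → T, (∀ i, sig (s i)) ∧ Trans s) ∨
      ∃ P, Good P ∧ ∀ t, sig t → P t)
    {V : Type*} [AddCommGroup V]
    (nB nw : V → ℝ) (hBadd : ∀ f g, nB (f + g) ≤ nB f + nB g) (hBw : ∀ f, nB f ≤ nw f)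
    (hw0 : ∀ f, 0 ≤ nw f) (hwz : nw 0 = 0) (hwadd : ∀ f g, nw (f + g) ≤ nw f + nw g)
    (hwneg : ∀ f, nw (-f) = nw f) (F : T → V) (D : ℝ) (hD0 : 0 ≤ D)
    (hD : ∀ P : T → Prop, Good P → ∀ [DecidablePred P],
      nB (∑ t, if P t then F t else 0) ≤
        D * Real.sqrt (∑ s, nw (∑ t, if σ t = s ∧ P t then F t else 0) ^ 2)) :
    (∃ s : Fin n → T, Trans s ∧
      nB (∑ t, F t) ≤ (Fintype.card T : ℝ) ^ 2 * (D + 1) * ∏ i, nw (F (s i)) ^ (1 / (n : ℝ))) ∨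
    (∃ t0 : T, nB (∑ t, F t) ≤
      D * Real.sqrt (∑ s, nw (∑ t, if σ t = s then F t else 0) ^ 2) + nw (F t0)) := by
  classical
  have hsum : ∀ (A : Finset T) (G : T → V), nw (∑ t ∈ A, G t) ≤ ∑ t ∈ A, nw (G t) := by
    intro A G
    induction A using Finset.induction_on with
    | empty => simp [hwz]
    | insert a A ha ih =>
      rw [Finset.sum_insert ha, Finset.sum_insert ha]
      exact (hwadd _ _).trans (by linarith)
  have hD1 : 0 < D + 1 := by linarith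
  rcases bgn_numbers n hn Trans Good hdich (fun t => nw (F t)) (fun t => hw0 _) (D + 1)⁻¹
    (inv_pos.mpr hD1) with ⟨s, hT, hs⟩ | ⟨P, t0, hP, hmax, hsmall⟩
  · left
    rw [inv_inv] at hs
    exact ⟨s, hT, ((hBw _).trans (hsum Finset.univ F)).trans hs⟩
  · right
    refine ⟨t0, ?_⟩
    have hcard : (0 : ℝ) < Fintype.card T := by exact_mod_cast Fintype.card_pos
    set m := (D + 1)⁻¹ * nw (F t0) with hm
    have hm0 : 0 ≤ m := mul_nonneg (inv_nonneg.mpr hD1.le) (hw0 _)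
    have hm1 : (D + 1) * m = nw (F t0) := by
      rw [hm, ← mul_assoc, mul_inv_cancel₀ hD1.ne', one_mul]
    -- the rest
    have hrest : ∀ A : Finset T, (∀ t ∈ A, ¬ P t) →
        nw (∑ t ∈ A, F t) ≤ (A.card : ℝ) * (m / Fintype.card T) := by
      intro A hA
      refine (hsum A F).trans ?_
      rw [← nsmul_eq_mul, ← Finset.sum_const]
      exact Finset.sum_le_sum (fun t ht => hsmall t (hA t ht))
    have hsplit : ∑ t, F t = (∑ t, if P t then F t else 0) +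
        ∑ t ∈ Finset.univ.filter (fun t => ¬ P t), F t := by
      rw [Finset.sum_filter, ← Finset.sum_add_distrib]
      apply Finset.sum_congr rfl
      intro t _
      by_cases h : P t <;> simp [h]
    have h1 : nB (∑ t, F t) ≤ nB (∑ t, if P t then F t else 0) + m := by
      rw [hsplit]
      refine (hBadd _ _).trans (add_le_add le_rfl ((hBw _).trans ?_))
      refine (hrest _ (fun t ht => (Finset.mem_filter.mp ht).2)).trans ?_
      have : ((Finset.univ.filter (fun t => ¬ P t)).card : ℝ) ≤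
          Fintype.card T := by exact_mod_cast Finset.card_le_univ _
      calc _ ≤ (Fintype.card T : ℝ) * (m / Fintype.card T) :=
            mul_le_mul_of_nonneg_right this (by positivity)
        _ = m := by field_simp
    -- the pieces of the larger caps
    let c : S → ℝ := fun s =>
      ((Finset.univ.filter (fun t => σ t = s ∧ ¬ P t)).card : ℝ) *
        (m / Fintype.card T)
    have hc0 : ∀ s, 0 ≤ c s := fun s => by positivity
    have h2 : ∀ s, nw (∑ t, if σ t = s ∧ P t then F t else 0) ≤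
        nw (∑ t, if σ t = s then F t else 0) + c s := by
      intro s
      have h3 : (∑ t, if σ t = s ∧ P t then F t else 0) =
          (∑ t, if σ t = s then F t else 0) +
            -(∑ t ∈ Finset.univ.filter (fun t => σ t = s ∧ ¬ P t), F t) := by
        rw [Finset.sum_filter, ← sub_eq_add_neg, ← Finset.sum_sub_distrib]
        apply Finset.sum_congr rfl
        intro t _
        by_cases h : P t <;> by_cases h' : σ t = s <;> simp [h, h']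
      rw [h3]
      refine (hwadd _ _).trans (add_le_add le_rfl ?_)
      rw [hwneg]
      exact hrest _ (fun t ht => (Finset.mem_filter.mp ht).2.2)
    have h4 : Real.sqrt (∑ s, nw (∑ t, if σ t = s ∧ P t then F t else 0) ^ 2) ≤
        Real.sqrt (∑ s, nw (∑ t, if σ t = s then F t else 0) ^ 2) + Real.sqrt (∑ s, c s ^ 2) := by
      let X : EuclideanSpace ℝ S :=
        WithLp.toLp 2 (fun s => nw (∑ t, if σ t = s then F t else 0))
      let Y : EuclideanSpace ℝ S := WithLp.toLp 2 c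
      have e1 := norm_add_le X Y
      rw [EuclideanSpace.norm_eq, EuclideanSpace.norm_eq, EuclideanSpace.norm_eq] at e1
      simp only [X, Y, PiLp.add_apply, Real.norm_eq_abs, sq_abs] at e1
      refine le_trans (Real.sqrt_le_sqrt ?_) e1
      exact Finset.sum_le_sum (fun s _ => pow_le_pow_left₀ (hw0 _) (h2 s) 2)
    have h5 : Real.sqrt (∑ s, c s ^ 2) ≤ m := by
      rw [Real.sqrt_le_left hm0]
      have h6 : ∑ s, c s ≤ m := by
        simp only [c]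
        rw [← Finset.sum_mul]
        have h7 : ∑ s, ((Finset.univ.filter
            (fun t => σ t = s ∧ ¬ P t)).card : ℝ) ≤ Fintype.card T := by
          norm_cast
          have h8 : ∀ s, (Finset.univ.filter (fun t => σ t = s ∧ ¬ P t)).card ≤
              (Finset.univ.filter (fun t => σ t = s)).card := by
            intro s
            apply Finset.card_le_card
            intro t ht
            rw [Finset.mem_filter] at ht ⊢
            exact ⟨ht.1, ht.2.1⟩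
          refine (Finset.sum_le_sum (fun s _ => h8 s)).trans (le_of_eq ?_)
          exact (Finset.card_eq_sum_card_fiberwise (fun t _ => Finset.mem_univ (σ t))).symm
        calc _ ≤ (Fintype.card T : ℝ) * (m / Fintype.card T) :=
              mul_le_mul_of_nonneg_right h7 (by positivity)
          _ = m := by field_simp
      calc ∑ s, c s ^ 2 ≤ (∑ s, c s) ^ 2 :=
            Finset.sum_sq_le_sq_sum_of_nonneg (fun s _ => hc0 s)
        _ ≤ m ^ 2 := pow_le_pow_left₀ (Finset.sum_nonneg (fun s _ => hc0 s)) h6 2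
    calc nB (∑ t, F t) ≤ nB (∑ t, if P t then F t else 0) + m := h1
      _ ≤ D * Real.sqrt (∑ s, nw (∑ t, if σ t = s ∧ P t then F t else 0) ^ 2)
          + m := by linarith [hD P hP]
      _ ≤ D * (Real.sqrt (∑ s, nw (∑ t, if σ t = s then F t else 0) ^ 2) + m) + m := by
          have := mul_le_mul_of_nonneg_left (h4.trans (add_le_add le_rfl h5)) hD0
          linarith
      _ = D * Real.sqrt (∑ s, nw (∑ t, if σ t = s then F t else 0) ^ 2) + (D + 1) * m := by ring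
      _ = _ := by rw [hm1]

end Pool.Agent.DEC

namespace Pool.Agent.DEC

open MeasureTheory
open scoped ENNReal

/-- Bounded measurable functions. -/
def BddMeas (α : Type*) [MeasurableSpace α] : AddSubgroup (α → ℂ) where
  carrier := {f | Measurable f ∧ ∃ C : ℝ, ∀ x, ‖f x‖ ≤ C}
  zero_mem' := ⟨measurable_const, 0, fun x => by simp⟩
  add_mem' := by
    rintro f g ⟨hf, C, hC⟩ ⟨hg, C', hC'⟩
    exact ⟨hf.add hg, C + C', fun x => (norm_add_le _ _).trans (add_le_add (hC x) (hC' x))⟩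
  neg_mem' := by
    rintro f ⟨hf, C, hC⟩
    exact ⟨hf.neg, C, fun x => by rw [Pi.neg_apply, norm_neg]; exact hC x⟩

theorem bgn_fin {α : Type*} [MeasurableSpace α] (μ : Measure α) (p : ℝ) (hp : 0 ≤ p) (η : α → ℂ)
    (hη : ∫⁻ x, ‖η x‖ₑ ^ p ∂μ ≠ ⊤) (f : α → ℂ) (hf : f ∈ BddMeas α) :
    ∫⁻ x, ‖η x * f x‖ₑ ^ p ∂μ ≠ ⊤ := by
  obtain ⟨-, C, hC⟩ := hf
  have h1 : ∫⁻ x, ‖η x * f x‖ₑ ^ p ∂μ ≤ ∫⁻ x, (ENNReal.ofReal C) ^ p * ‖η x‖ₑ ^ p ∂μ := by
    apply lintegral_mono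
    intro x
    simp only
    rw [enorm_mul, ENNReal.mul_rpow_of_nonneg _ _ hp, mul_comm]
    gcongr
    rw [← ofReal_norm]
    exact ENNReal.ofReal_le_ofReal (hC x)
  refine ne_top_of_le_ne_top ?_ h1
  rw [lintegral_const_mul' _ _ (ENNReal.rpow_ne_top_of_nonneg hp ENNReal.ofReal_ne_top)]
  exact ENNReal.mul_ne_top (ENNReal.rpow_ne_top_of_nonneg hp ENNReal.ofReal_ne_top) hη

theorem sq_add_le (a b : ℝ≥0∞) : (a + b) ^ (2 : ℝ) ≤ 2 * a ^ (2 : ℝ) + 2 * b ^ (2 : ℝ) := by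
  have h := ENNReal.rpow_add_le_mul_rpow_add_rpow a b (p := 2) (by norm_num)
  have h1 : (2 : ℝ≥0∞) ^ ((2 : ℝ) - 1) = 2 := by
    rw [show (2 : ℝ) - 1 = 1 by norm_num, ENNReal.rpow_one]
  rwa [h1, mul_add] at h

/-- **Broad or narrow in `L^p`**, with squares of the norms. -/
theorem bgn_lp (n : ℕ) (hn : 0 < n) {T S : Type*} [Fintype T] [Nonempty T] [Fintype S]
    [DecidableEq S] (σ : T → S) (Trans : (Fin n → T) → Prop) (Good : (T → Prop) → Prop)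
    (hdich : ∀ sig : T → Prop, (∃ s : Fin n → T, (∀ i, sig (s i)) ∧ Trans s) ∨
      ∃ P, Good P ∧ ∀ t, sig t → P t) {α : Type*}
    [MeasurableSpace α] (μ : Measure α) (p : ℝ) (hp : 1 ≤ p) (B : Set α) (hB : MeasurableSet B)
    (η : α → ℂ) (hηm : Measurable η) (hη : ∫⁻ x, ‖η x‖ₑ ^ p ∂μ ≠ ⊤) (hη1 : ∀ x ∈ B, 1 ≤ ‖η x‖)
    (F : T → α → ℂ) (hF : ∀ t, F t ∈ BddMeas α) (D : ℝ≥0∞) (hDt : D ≠ ⊤)
    (hD : ∀ P : T → Prop, Good P → ∀ [DecidablePred P],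
      (∫⁻ x in B, ‖∑ t, if P t then F t x else 0‖ₑ ^ p ∂μ) ^ (2 / p) ≤
        D * ∑ s, (∫⁻ x, ‖η x * ∑ t, if σ t = s ∧ P t then F t x else 0‖ₑ ^ p ∂μ) ^ (2 / p)) :
    (∃ s : Fin n → T, Trans s ∧
      (∫⁻ x in B, ‖∑ t, F t x‖ₑ ^ p ∂μ) ^ (2 / p) ≤
        (Fintype.card T : ℝ≥0∞) ^ 4 * (2 * D + 2) *
        (∏ i, (∫⁻ x, ‖η x * F (s i) x‖ₑ ^ p ∂μ) ^ (1 / (n : ℝ))) ^ (2 / p)) ∨
    (∃ t0 : T, (∫⁻ x in B, ‖∑ t, F t x‖ₑ ^ p ∂μ) ^ (2 / p) ≤
      2 * D * ∑ s, (∫⁻ x, ‖η x * ∑ t, if σ t = s then F t x else 0‖ₑ ^ p ∂μ) ^ (2 / p) +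
        2 * (∫⁻ x, ‖η x * F t0 x‖ₑ ^ p ∂μ) ^ (2 / p)) := by
  classical
  have hp0 : 0 < p := by linarith
  have hp1 : 0 ≤ 1 / p := by positivity
  have hpp : ∀ x : ℝ≥0∞, (x ^ (1 / p)) ^ (2 : ℝ) = x ^ (2 / p) := by
    intro x
    rw [← ENNReal.rpow_mul]
    congr 1
    ring
  have hpp' : ∀ x : ℝ≥0∞, (x ^ (1 / p)) ^ 2 = x ^ (2 / p) := by
    intro x
    rw [← hpp, ← ENNReal.rpow_natCast]
    norm_num
  let V := BddMeas α
  let NW : (α → ℂ) → ℝ≥0∞ := fun f => (∫⁻ x, ‖η x * f x‖ₑ ^ p ∂μ) ^ (1 / p)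
  let NB : (α → ℂ) → ℝ≥0∞ := fun f => (∫⁻ x in B, ‖f x‖ₑ ^ p ∂μ) ^ (1 / p)
  have hNWt : ∀ f : V, NW f ≠ ⊤ := fun f =>
    ENNReal.rpow_ne_top_of_nonneg hp1 (bgn_fin μ p hp0.le η hη f f.2)
  have hBW : ∀ f : V, NB f ≤ NW f := by
    intro f
    apply ENNReal.rpow_le_rpow _ hp1
    refine le_trans ?_ (setLIntegral_le_lintegral B _)
    apply setLIntegral_mono' hB
    intro x hx
    apply ENNReal.rpow_le_rpow _ hp0.le
    rw [enorm_mul]
    have : (1 : ℝ≥0∞) ≤ ‖η x‖ₑ := by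
      rw [← ofReal_norm]
      exact ENNReal.one_le_ofReal.mpr (hη1 x hx)
    calc ‖(f : α → ℂ) x‖ₑ = 1 * ‖(f : α → ℂ) x‖ₑ := (one_mul _).symm
      _ ≤ _ := by gcongr
  have hNBt : ∀ f : V, NB f ≠ ⊤ := fun f => ne_top_of_le_ne_top (hNWt f) (hBW f)
  have hBadd : ∀ f g : V, NB ((f + g : V) : α → ℂ) ≤ NB f + NB g := by
    intro f g
    have h1 := ENNReal.lintegral_Lp_add_le (μ := μ.restrict B)
      (f := fun x => ‖(f : α → ℂ) x‖ₑ) (g := fun x => ‖(g : α → ℂ) x‖ₑ)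
      (f.2.1.enorm.aemeasurable) (g.2.1.enorm.aemeasurable) hp
    refine le_trans ?_ h1
    apply ENNReal.rpow_le_rpow _ hp1
    apply lintegral_mono
    intro x
    apply ENNReal.rpow_le_rpow _ hp0.le
    exact enorm_add_le _ _
  have hWadd : ∀ f g : V, NW ((f + g : V) : α → ℂ) ≤ NW f + NW g := by
    intro f g
    have h1 := ENNReal.lintegral_Lp_add_le (μ := μ)
      (f := fun x => ‖η x * (f : α → ℂ) x‖ₑ) (g := fun x => ‖η x * (g : α → ℂ) x‖ₑ)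
      ((hηm.mul f.2.1).enorm.aemeasurable) ((hηm.mul g.2.1).enorm.aemeasurable) hp
    refine le_trans ?_ h1
    apply ENNReal.rpow_le_rpow _ hp1
    apply lintegral_mono
    intro x
    apply ENNReal.rpow_le_rpow _ hp0.le
    simp only [AddSubgroup.coe_add, Pi.add_apply, mul_add]
    exact enorm_add_le _ _
  have hWneg : ∀ f : V, NW ((-f : V) : α → ℂ) = NW f := by
    intro f
    simp only [NW, AddSubgroup.coe_neg, Pi.neg_apply, mul_neg, enorm_neg]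
  have hWz : NW ((0 : V) : α → ℂ) = 0 := by
    simp only [NW, AddSubgroup.coe_zero, Pi.zero_apply, mul_zero, enorm_zero]
    rw [ENNReal.zero_rpow_of_pos hp0, lintegral_zero, ENNReal.zero_rpow_of_pos (by positivity)]
  let F' : T → V := fun t => ⟨F t, hF t⟩
  have hcoe : ∀ (P : T → Prop) [DecidablePred P],
      ((∑ t, if P t then F' t else 0 : V) : α → ℂ) = fun x => ∑ t, if P t then F t x else 0 := by
    intro P _
    ext x
    rw [AddSubgroup.val_finsetSum, Finset.sum_apply]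
    apply Finset.sum_congr rfl
    intro t _
    split_ifs <;> simp [F']
  have hcoe' : ((∑ t, F' t : V) : α → ℂ) = fun x => ∑ t, F t x := by
    ext x
    rw [AddSubgroup.val_finsetSum, Finset.sum_apply]
  let D1 : ℝ≥0∞ := D ^ (1 / (2 : ℝ))
  have hD1t : D1 ≠ ⊤ := ENNReal.rpow_ne_top_of_nonneg (by positivity) hDt
  have hD1 : D1 ^ (2 : ℝ) = D := by
    simp only [D1]
    rw [← ENNReal.rpow_mul]
    norm_num
  have hsq : ∀ G : S → V, D1.toReal * Real.sqrt (∑ s, (NW (G s)).toReal ^ 2) =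
      (D1 * (∑ s, NW (G s) ^ 2) ^ (1 / (2 : ℝ))).toReal := by
    intro G
    rw [ENNReal.toReal_mul, ← ENNReal.toReal_rpow (∑ s, NW (G s) ^ 2) (1 / 2), ENNReal.toReal_sum
      (fun s _ => ENNReal.pow_ne_top (hNWt (G s))), Real.sqrt_eq_rpow]
    simp only [ENNReal.toReal_pow]
  have hsqt : ∀ G : S → V, D1 * (∑ s, NW (G s) ^ 2) ^ (1 / (2 : ℝ)) ≠ ⊤ := by
    intro G
    apply ENNReal.mul_ne_top hD1t
    apply ENNReal.rpow_ne_top_of_nonneg (by positivity)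
    exact (ENNReal.sum_lt_top.mpr (fun s _ => (ENNReal.pow_ne_top (hNWt (G s))).lt_top)).ne
  have hsq2 : ∀ G : S → V, (D1 * (∑ s, NW (G s) ^ 2) ^ (1 / (2 : ℝ))) ^ (2 : ℝ) =
      D * ∑ s, NW (G s) ^ 2 := by
    intro G
    rw [ENNReal.mul_rpow_of_nonneg _ _ (by norm_num), hD1, ← ENNReal.rpow_mul]
    norm_num
  have hmain := bgn_norms n hn σ Trans Good hdich (V := V) (fun f => (NB f).toReal)
    (fun f => (NW f).toReal)
    (fun f g => by
      rw [← ENNReal.toReal_add (hNBt f) (hNBt g)]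
      exact ENNReal.toReal_mono (ENNReal.add_ne_top.mpr ⟨hNBt f, hNBt g⟩) (hBadd f g))
    (fun f => ENNReal.toReal_mono (hNWt f) (hBW f))
    (fun f => ENNReal.toReal_nonneg)
    (by simp only [hWz, ENNReal.toReal_zero])
    (fun f g => by
      rw [← ENNReal.toReal_add (hNWt f) (hNWt g)]
      exact ENNReal.toReal_mono (ENNReal.add_ne_top.mpr ⟨hNWt f, hNWt g⟩) (hWadd f g))
    (fun f => by simp only [hWneg])
    F' D1.toReal ENNReal.toReal_nonneg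
    (by
      intro P hP _
      rw [hsq (fun s => ∑ t, if σ t = s ∧ P t then F' t else 0)]
      apply ENNReal.toReal_mono (hsqt _)
      have h1 := ENNReal.rpow_le_rpow (hD P hP) (show (0 : ℝ) ≤ 1 / 2 by norm_num)
      rw [← ENNReal.rpow_mul, show 2 / p * (1 / 2) = 1 / p by field_simp,
        ENNReal.mul_rpow_of_nonneg _ _ (show (0 : ℝ) ≤ 1 / 2 by norm_num)] at h1
      simp only [NB, NW, hcoe, hpp']
      exact h1)
  rcases hmain with ⟨s, hT, h⟩ | ⟨t0, h⟩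
  · left
    refine ⟨s, hT, ?_⟩
    have hpr : (Fintype.card T : ℝ) ^ 2 * (D1.toReal + 1) *
          ∏ i, (NW (F' (s i))).toReal ^ (1 / (n : ℝ)) =
        ((Fintype.card T : ℝ≥0∞) ^ 2 * (D1 + 1) * ∏ i, NW (F' (s i)) ^ (1 / (n : ℝ))).toReal := by
      rw [ENNReal.toReal_mul, ENNReal.toReal_mul, ENNReal.toReal_pow, ENNReal.toReal_natCast,
        ENNReal.toReal_prod, ENNReal.toReal_add hD1t ENNReal.one_ne_top, ENNReal.toReal_one]
      simp only [ENNReal.toReal_rpow]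
    have hprt : (Fintype.card T : ℝ≥0∞) ^ 2 * (D1 + 1) *
        ∏ i, NW (F' (s i)) ^ (1 / (n : ℝ)) ≠ ⊤ :=
      ENNReal.mul_ne_top (ENNReal.mul_ne_top (ENNReal.pow_ne_top (ENNReal.natCast_ne_top _))
        (ENNReal.add_ne_top.mpr ⟨hD1t, ENNReal.one_ne_top⟩))
        (ENNReal.prod_ne_top (fun i _ => ENNReal.rpow_ne_top_of_nonneg (by positivity) (hNWt _)))
    rw [hpr, ENNReal.toReal_le_toReal (hNBt _) hprt] at h
    have h2 := ENNReal.rpow_le_rpow h (show (0 : ℝ) ≤ 2 by norm_num)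
    simp only [NB, hcoe'] at h2
    rw [hpp, ENNReal.mul_rpow_of_nonneg _ _ (by norm_num),
      ENNReal.mul_rpow_of_nonneg _ _ (by norm_num), ← ENNReal.prod_rpow_of_nonneg (by norm_num)]
      at h2
    refine h2.trans ?_
    gcongr ?_ * ?_ * ?_
    · rw [← ENNReal.rpow_natCast, ← ENNReal.rpow_mul, ← ENNReal.rpow_natCast]
      norm_num
    · refine (sq_add_le D1 1).trans (le_of_eq ?_)
      rw [hD1, ENNReal.one_rpow, mul_one]
    · rw [← ENNReal.prod_rpow_of_nonneg (by positivity)]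
      apply le_of_eq
      apply Finset.prod_congr rfl
      intro i _
      simp only [NW, F']
      rw [← ENNReal.rpow_mul, ← ENNReal.rpow_mul, ← ENNReal.rpow_mul]
      congr 1
      ring
  · right
    refine ⟨t0, ?_⟩
    have hr : D1.toReal * Real.sqrt (∑ s, (NW ((∑ t, if σ t = s then F' t else 0 : V))).toReal ^ 2)
        + (NW (F' t0)).toReal =
        (D1 * (∑ s, NW ((∑ t, if σ t = s then F' t else 0 : V)) ^ 2) ^ (1 / (2 : ℝ)) +
          NW (F' t0)).toReal := by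
      rw [hsq (fun s => ∑ t, if σ t = s then F' t else 0),
        ENNReal.toReal_add (hsqt _) (hNWt _)]
    have hrt : D1 * (∑ s, NW ((∑ t, if σ t = s then F' t else 0 : V)) ^ 2) ^ (1 / (2 : ℝ)) +
          NW (F' t0) ≠ ⊤ := ENNReal.add_ne_top.mpr ⟨hsqt _, hNWt _⟩
    rw [hr, ENNReal.toReal_le_toReal (hNBt _) hrt] at h
    have h2 := ENNReal.rpow_le_rpow h (show (0 : ℝ) ≤ 2 by norm_num)
    have h3 := h2.trans (sq_add_le _ _)
    rw [hsq2 (fun s => ∑ t, if σ t = s then F' t else 0)] at h3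
    simp only [NB, NW, hcoe', hcoe, hpp, hpp', F'] at h3
    refine h3.trans (le_of_eq ?_)
    rw [mul_assoc]

end Pool.Agent.DEC

namespace Pool.Agent.DEC

open MeasureTheory Set Filter Topology Pool.Agent.MP_6cbfb8_an
open scoped ENNReal Real RealInnerProductSpace Pointwise

theorem bgl_join {m : ℕ} (y : E (m + 1)) :
    ∃ (η : E m) (τ : ℝ), y = join η τ ∧ ‖η‖ ≤ ‖y‖ ∧ |τ| ≤ ‖y‖ := by
  have h1 : join ((GNP.joinL m).symm y).1 ((GNP.joinL m).symm y).2 = y := by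
    have := (GNP.joinL m).apply_symm_apply y
    rwa [GNP.joinL_apply] at this
  have h2 := GNP.j5_le_norm ((GNP.joinL m).symm y)
  rw [h1] at h2
  refine ⟨_, _, h1.symm, (norm_fst_le _).trans h2, ?_⟩
  rw [← Real.norm_eq_abs]
  exact (norm_snd_le _).trans h2

theorem bgl_add {m : ℕ} (u η : E m) (v τ : ℝ) :
    join (u + η) (v + τ) = join u v + join η τ := by
  have h := map_add (GNP.joinL m) (u, v) (η, τ)
  rw [Prod.mk_add_mk, GNP.joinL_apply, GNP.joinL_apply, GNP.joinL_apply] at h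
  exact h

/-- The product with a bump: the caps become slightly larger. -/
theorem bgl_sumset {d : ℕ} (z w : E d) {σ C : ℝ} (hσ : 0 < σ) (hσ1 : σ ≤ 1) (hz : ‖z‖ ≤ 1)
    (hzw : ‖z - w‖ ≤ σ) (a : E d) (b : ℝ) (ha : ‖a‖ = 1) (hab : |⟪a, z⟫ - b| ≤ C * σ ^ 2) (A : ℝ)
    (hA : 12 ≤ A) (hA' : C + 4 ≤ A) :
    Metric.closedBall (0 : E (d + 1)) (σ ^ 2) + Np z (3 * σ ^ 2) (2 * σ ^ 2) ⊆ Ns a b w A σ := by
  rintro _ ⟨y, hy, _, ⟨η, τ, rfl, h1, h2⟩, rfl⟩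
  obtain ⟨u, v, rfl, hu, hv⟩ := bgl_join y
  rw [mem_closedBall_zero_iff] at hy
  have hu' := hu.trans hy
  have hv' := hv.trans hy
  have hσ2 : σ ^ 2 ≤ σ := by nlinarith
  have hσ20 : 0 ≤ σ ^ 2 := sq_nonneg σ
  have hzη : ‖η‖ ≤ ‖η - z‖ + ‖z‖ := by
    calc ‖η‖ = ‖(η - z) + z‖ := by rw [sub_add_cancel]
      _ ≤ _ := norm_add_le _ _
  refine ⟨u + η, v + τ, (bgl_add u η v τ).symm, ?_, ?_, ?_⟩
  · calc ‖u + η - w‖ = ‖u + (η - z) + (z - w)‖ := by congr 1; abel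
      _ ≤ ‖u‖ + ‖η - z‖ + ‖z - w‖ := norm_add₃_le
      _ ≤ σ ^ 2 + 3 * σ ^ 2 + σ := by gcongr
      _ ≤ A * σ := by nlinarith
  · have hη : ‖η‖ ≤ 4 := by nlinarith
    have h3 : |‖η‖ ^ 2 - ‖u + η‖ ^ 2| ≤ 9 * σ ^ 2 := by
      have e1 : ‖η‖ ^ 2 - ‖u + η‖ ^ 2 = (‖η‖ - ‖u + η‖) * (‖η‖ + ‖u + η‖) := by ring
      rw [e1, abs_mul]
      have e2 : |‖η‖ - ‖u + η‖| ≤ ‖u‖ := by
        refine (abs_norm_sub_norm_le η (u + η)).trans (le_of_eq ?_)
        rw [show η - (u + η) = -u by abel, norm_neg]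
      have e3 : |‖η‖ + ‖u + η‖| ≤ 9 := by
        rw [abs_of_nonneg (by positivity)]
        have := norm_add_le u η
        nlinarith
      calc |‖η‖ - ‖u + η‖| * |‖η‖ + ‖u + η‖| ≤ σ ^ 2 * 9 :=
            mul_le_mul (e2.trans hu') e3 (abs_nonneg _) hσ20
        _ = 9 * σ ^ 2 := by ring
    have h4 : v + τ - ‖u + η‖ ^ 2 = v + ((τ - ‖η‖ ^ 2) + (‖η‖ ^ 2 - ‖u + η‖ ^ 2)) := by ring
    rw [h4]
    calc |v + ((τ - ‖η‖ ^ 2) + (‖η‖ ^ 2 - ‖u + η‖ ^ 2))| ≤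
          |v| + |(τ - ‖η‖ ^ 2) + (‖η‖ ^ 2 - ‖u + η‖ ^ 2)| := abs_add_le _ _
      _ ≤ |v| + (|τ - ‖η‖ ^ 2| + |‖η‖ ^ 2 - ‖u + η‖ ^ 2|) := by
          gcongr
          exact abs_add_le _ _
      _ ≤ σ ^ 2 + (2 * σ ^ 2 + 9 * σ ^ 2) := by gcongr
      _ ≤ A * σ ^ 2 := by nlinarith
  · have h4 : ⟪a, u + η⟫ - b = ⟪a, u + (η - z)⟫ + (⟪a, z⟫ - b) := by
      rw [show u + η = (u + (η - z)) + z by abel, inner_add_right a (u + (η - z)) z]
      ring
    rw [h4]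
    have h5 : |⟪a, u + (η - z)⟫| ≤ σ ^ 2 + 3 * σ ^ 2 := by
      refine (abs_real_inner_le_norm _ _).trans ?_
      rw [ha, one_mul]
      exact (norm_add_le _ _).trans (add_le_add hu' h1)
    calc |⟪a, u + (η - z)⟫ + (⟪a, z⟫ - b)| ≤ |⟪a, u + (η - z)⟫| + |⟪a, z⟫ - b| := abs_add_le _ _
      _ ≤ (σ ^ 2 + 3 * σ ^ 2) + C * σ ^ 2 := add_le_add h5 hab
      _ ≤ A * σ ^ 2 := by nlinarith

/-- The overlap of the `σ`-caps. -/
theorem bgl_count (n : ℕ) : ∃ M : ℕ, ∀ (A : Type) [Fintype A] (w : A → E n) (σ : ℝ), 0 < σ →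
    (∀ i j, i ≠ j → σ / 2 ≤ ‖w i - w j‖) → ∀ z, {i | ‖z - w i‖ < σ}.encard ≤ M := by
  obtain ⟨C, hC, h⟩ := card_sep n 1 zero_le_one
  refine ⟨⌈C * (((1 : ℝ) / 2) ^ n)⁻¹⌉₊, fun A _ w σ hσ hw z => ?_⟩
  classical
  have h1 := h {i : A // ‖z - w i‖ < σ} (fun i => σ⁻¹ • w i.1) (σ⁻¹ • z) (1 / 2) (by norm_num)
    (by norm_num) ?_ ?_
  · have h2 : Fintype.card {i : A // ‖z - w i‖ < σ} ≤ ⌈C * (((1 : ℝ) / 2) ^ n)⁻¹⌉₊ := by
      have := h1.trans (Nat.le_ceil _)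
      exact_mod_cast this
    have h3 : {i : A | ‖z - w i‖ < σ}.encard = Fintype.card {i : A // ‖z - w i‖ < σ} := by
      rw [← Set.coe_fintypeCard]
      rfl
    rw [h3]
    exact_mod_cast h2
  · intro i
    rw [← smul_sub, norm_smul, norm_inv, Real.norm_of_nonneg hσ.le, norm_sub_rev,
      inv_mul_le_iff₀ hσ, mul_one]
    exact i.2.le
  · intro i j hij
    rw [← smul_sub, norm_smul, norm_inv, Real.norm_of_nonneg hσ.le, le_inv_mul_iff₀ hσ]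
    have := hw i.1 j.1 (fun h => hij (Subtype.ext h))
    linarith

/-- **The split of Bourgain and Guth at one ball.** -/
theorem bg_loc_of (d : ℕ) (p : ℝ) (hp : 2 ≤ p)
    (hnarrow : ∀ (A : ℝ), 1 ≤ A → ∀ (M : ℕ) (ε : ℝ), 0 < ε → ∃ C : ℝ≥0∞, C ≠ ⊤ ∧
      ∀ σ : ℝ, 0 < σ → σ ≤ 1 → ∀ (ι : Type) [Fintype ι] (a : E (d + 1)) (b : ℝ)
      (w : ι → E (d + 1)) (G : ι → E (d + 2) → ℂ), ‖a‖ = 1 → |b| ≤ A → (∀ i, ‖w i‖ ≤ A) →
      (∀ z, {i | ‖z - w i‖ < σ}.encard ≤ M) → (∀ i, Sp (Ns a b (w i) A σ) (G i)) →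
      Lq p (fun ξ => ∑ i, G i ξ) ≤ C * ENNReal.ofReal (σ ^ (-ε)) * ∑ i, Lq p (G i))
    (hgeo : ∃ c C : ℝ, 0 < c ∧ 0 < C ∧ ∀ (κ : ℝ) (S : Set (E (d + 1))),
      0 < κ → κ ≤ c → (∀ z ∈ S, ‖z‖ ≤ 1) →
      (∃ z : Fin (d + 2) → E (d + 1), (∀ j, z j ∈ S) ∧
        c * κ ^ (d + 2) ≤ |dt fun j => Nrm (z j)|) ∨
      ∃ (a : E (d + 1)) (b : ℝ), ‖a‖ = 1 ∧ |b| ≤ 2 ∧ ∀ z ∈ S, |⟪a, z⟫ - b| ≤ C * κ)
    (η : E (d + 2) → ℂ) (hη : IsEta η) (ε : ℝ) (hε : 0 < ε) : ∃ (C : ℝ≥0∞) (σ0 κ0 : ℝ), C ≠ ⊤ ∧ 0 < σ0 ∧ 0 < κ0 ∧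
    ∀ (σ : ℝ) (m : ℕ), 0 < σ → σ ≤ σ0 → ∃ Cσ : ℝ≥0∞, Cσ ≠ ⊤ ∧
    ∀ (T A : Type) [Fintype T] [Fintype A] [DecidableEq A] (z : T → E (d + 1))
      (w : A → E (d + 1)) (g : T → A) (F : T → E (d + 2) → ℂ), Fintype.card T ≤ m →
      (∀ τ, ‖z τ‖ ≤ 1) → (∀ α, ‖w α‖ ≤ 1) → (∀ i j, i ≠ j → σ / 2 ≤ ‖w i - w j‖) →
      (∀ τ, ‖z τ - w (g τ)‖ ≤ σ) → (∀ τ, Sp (Np (z τ) (3 * σ ^ 2) (2 * σ ^ 2)) (F τ)) →
      ∀ b : E (d + 2), (∫⁻ ξ in Metric.closedBall b (σ ^ 2)⁻¹, ‖∑ τ, F τ ξ‖ₑ ^ p) ^ (2 / p) ≤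
        C * ENNReal.ofReal (σ ^ (-ε)) * (∑ α, Lq p (fun ξ => bump η b (σ ^ 2)⁻¹ ξ *
          ∑ τ with g τ = α, F τ ξ) + ∑ τ, Lq p (fun ξ => bump η b (σ ^ 2)⁻¹ ξ * F τ ξ)) +
        Cσ * ∑ s : Fin (d + 2) → T with κ0 * σ ^ (2 * (d + 2)) ≤ |dt fun j => Nrm (z (s j))|,
          (∏ j, (∫⁻ ξ, ‖bump η b (σ ^ 2)⁻¹ ξ * F (s j) ξ‖ₑ ^ p) ^ (1 / ((d : ℝ) + 2))) ^
            (2 / p) := by
  have hp0 : 0 < p := by linarith
  obtain ⟨c, Cg, hc, hCg, hgeom⟩ := hgeo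
  obtain ⟨M, hM⟩ := bgl_count (d + 1)
  set K : ℝ := max 12 (Cg + 4) with hK
  have hK12 : (12 : ℝ) ≤ K := le_max_left _ _
  have hKC : Cg + 4 ≤ K := le_max_right _ _
  obtain ⟨C', hC', hnar⟩ := hnarrow K (by linarith) M ε hε
  obtain ⟨Cb, hCb, hbi⟩ := bump_int hη p (by linarith)
  refine ⟨2 * C' + 2, min 1 c, c, ?_, lt_min one_pos hc, hc, fun σ m hσ hσ0 => ?_⟩
  · exact ENNReal.add_ne_top.mpr ⟨ENNReal.mul_ne_top ENNReal.ofNat_ne_top hC',
      ENNReal.ofNat_ne_top⟩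
  have hσ1 : σ ≤ 1 := hσ0.trans (min_le_left _ _)
  have hσc : σ ^ 2 ≤ c := by
    have : σ ≤ c := hσ0.trans (min_le_right _ _)
    nlinarith
  set D : ℝ≥0∞ := C' * ENNReal.ofReal (σ ^ (-ε)) with hD
  have hDt : D ≠ ⊤ := ENNReal.mul_ne_top hC' ENNReal.ofReal_ne_top
  refine ⟨(m : ℝ≥0∞) ^ 4 * (2 * D + 2), ?_, fun T A _ _ _ z w g F hTm hz hw hsep hzw hF b => ?_⟩
  · exact ENNReal.mul_ne_top (ENNReal.pow_ne_top (ENNReal.natCast_ne_top _))
      (ENNReal.add_ne_top.mpr ⟨ENNReal.mul_ne_top ENNReal.ofNat_ne_top hDt,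
        ENNReal.ofNat_ne_top⟩)
  rcases isEmpty_or_nonempty T with hT | hT
  · have h0 : (∫⁻ ξ in Metric.closedBall b (σ ^ 2)⁻¹, ‖∑ τ, F τ ξ‖ₑ ^ p) ^ (2 / p) = 0 := by
      simp only [Finset.univ_eq_empty, Finset.sum_empty, enorm_zero]
      rw [ENNReal.zero_rpow_of_pos hp0, lintegral_zero, ENNReal.zero_rpow_of_pos (by positivity)]
    rw [h0]
    exact zero_le
  have hr : 0 < (σ ^ 2)⁻¹ := by positivity
  have hbSp := Sp.bump hη b hr
  rw [inv_inv] at hbSp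
  have hbc : Continuous (bump η b (σ ^ 2)⁻¹) := hbSp.continuous
  have hbt : ∫⁻ ξ, ‖bump η b (σ ^ 2)⁻¹ ξ‖ₑ ^ p ≠ ⊤ := by
    have h1 := hbi (σ ^ 2)⁻¹ 0 hr
    have h2 : ∫⁻ ξ, ‖bump η b (σ ^ 2)⁻¹ ξ‖ₑ ^ p = ∫⁻ b, ‖bump η b (σ ^ 2)⁻¹ 0‖ₑ ^ p := by
      unfold bump
      rw [lintegral_sub_right_eq_self (fun x => ‖η (((σ ^ 2)⁻¹)⁻¹ • x)‖ₑ ^ p) b,
        lintegral_sub_left_eq_self (fun x => ‖η (((σ ^ 2)⁻¹)⁻¹ • x)‖ₑ ^ p) 0]
    rw [h2, h1]
    exact ENNReal.mul_ne_top hCb ENNReal.ofReal_ne_top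
  have hb1 : ∀ x ∈ Metric.closedBall b (σ ^ 2)⁻¹, 1 ≤ ‖bump η b (σ ^ 2)⁻¹ x‖ := by
    intro x hx
    apply hη.2
    rw [mem_closedBall_iff_norm] at hx
    rw [inv_inv, norm_smul, Real.norm_of_nonneg (sq_nonneg σ)]
    calc σ ^ 2 * ‖x - b‖ ≤ σ ^ 2 * (σ ^ 2)⁻¹ := by gcongr
      _ = 1 := mul_inv_cancel₀ (by positivity)
  have hFV : ∀ t, F t ∈ BddMeas (E (d + 2)) := fun t =>
    ⟨(hF t).continuous.measurable, (hF t).bounded⟩
  let Trans : (Fin (d + 2) → T) → Prop := fun s =>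
    c * σ ^ (2 * (d + 2)) ≤ |dt fun j => Nrm (z (s j))|
  let Good : (T → Prop) → Prop := fun P => ∃ (a : E (d + 1)) (b : ℝ), ‖a‖ = 1 ∧ |b| ≤ 2 ∧
    ∀ t, P t → |⟪a, z t⟫ - b| ≤ Cg * σ ^ 2
  have hdich : ∀ sig : T → Prop, (∃ s : Fin (d + 2) → T, (∀ i, sig (s i)) ∧ Trans s) ∨
      ∃ P, Good P ∧ ∀ t, sig t → P t := by
    intro sig
    rcases hgeom (σ ^ 2) {x | ∃ t, sig t ∧ z t = x} (by positivity) hσc
      (by rintro x ⟨t, -, rfl⟩; exact hz t) with ⟨y, hy, hdet⟩ | ⟨a, b', ha, hb, hab⟩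
    · left
      choose s hs1 hs2 using hy
      refine ⟨s, hs1, ?_⟩
      have e : (fun j => Nrm (z (s j))) = fun j => Nrm (y j) := funext fun j => by rw [hs2]
      show c * σ ^ (2 * (d + 2)) ≤ |dt fun j => Nrm (z (s j))|
      rw [pow_mul]
      refine hdet.trans (le_of_eq ?_)
      exact congrArg (fun v => |dt v|) e.symm
    · right
      exact ⟨sig, ⟨a, b', ha, hb, fun t ht => hab _ ⟨t, ht, rfl⟩⟩, fun t ht => ht⟩
  have hDD : ∀ P : T → Prop, Good P → ∀ [DecidablePred P],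
      (∫⁻ x in Metric.closedBall b (σ ^ 2)⁻¹, ‖∑ t, if P t then F t x else 0‖ₑ ^ p) ^ (2 / p) ≤
        D * ∑ α, (∫⁻ x, ‖bump η b (σ ^ 2)⁻¹ x *
          ∑ t, if g t = α ∧ P t then F t x else 0‖ₑ ^ p) ^ (2 / p) := by
    rintro P ⟨a, b', ha, hb', hab⟩ _
    let G : A → E (d + 2) → ℂ := fun α x =>
      bump η b (σ ^ 2)⁻¹ x * ∑ t, if g t = α ∧ P t then F t x else 0
    have hG : ∀ α, Sp (Ns a b' (w α) K σ) (G α) := by
      intro α
      have h1 : ∀ t ∈ Finset.univ.filter (fun t => g t = α ∧ P t),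
          Sp (Ns a b' (w α) K σ) (fun x => bump η b (σ ^ 2)⁻¹ x * F t x) := by
        intro t ht
        rw [Finset.mem_filter] at ht
        refine (hbSp.mul (hF t)).mono ?_
        refine bgl_sumset (z t) (w α) hσ hσ1 (hz t) ?_ a b' ha (hab t ht.2.2) K hK12 hKC
        rw [← ht.2.1]
        exact hzw t
      refine (Sp.sum _ h1).congr fun x => ?_
      simp only [G]
      rw [Finset.mul_sum, Finset.sum_filter]
      apply Finset.sum_congr rfl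
      intro t _
      split_ifs <;> simp
    have h2 := hnar σ hσ hσ1 A a b' w G ha (hb'.trans (by linarith))
      (fun i => (hw i).trans (by linarith)) (hM A w σ hσ hsep) hG
    simp only [Lq] at h2
    refine le_trans (ENNReal.rpow_le_rpow ?_ (by positivity)) h2
    refine le_trans ?_ (setLIntegral_le_lintegral (Metric.closedBall b (σ ^ 2)⁻¹) _)
    apply setLIntegral_mono' measurableSet_closedBall
    intro x hx
    apply ENNReal.rpow_le_rpow _ hp0.le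
    have e1 : ∑ α, G α x = bump η b (σ ^ 2)⁻¹ x * ∑ t, if P t then F t x else 0 := by
      simp only [G]
      rw [← Finset.mul_sum, Finset.sum_comm]
      congr 1
      apply Finset.sum_congr rfl
      intro t _
      by_cases hP : P t <;> simp [hP]
    rw [e1, enorm_mul]
    have h3 : (1 : ℝ≥0∞) ≤ ‖bump η b (σ ^ 2)⁻¹ x‖ₑ := by
      rw [← ofReal_norm]
      exact ENNReal.one_le_ofReal.mpr (hb1 x hx)
    exact le_mul_of_one_le_left zero_le h3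
  rcases bgn_lp (d + 2) (by omega) g Trans Good hdich volume p (by linarith)
    (Metric.closedBall b (σ ^ 2)⁻¹) measurableSet_closedBall (bump η b (σ ^ 2)⁻¹) hbc.measurable
    hbt hb1 F hFV D hDt hDD with ⟨s, hs, h1⟩ | ⟨t0, h1⟩
  · refine h1.trans (le_trans ?_ le_add_self)
    have e : (1 : ℝ) / ((d + 2 : ℕ) : ℝ) = 1 / ((d : ℝ) + 2) := by
      push_cast
      ring
    rw [e]
    have hm : ((Fintype.card T : ℕ) : ℝ≥0∞) ≤ m := by exact_mod_cast hTm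
    refine mul_le_mul' (mul_le_mul' (pow_le_pow_left' hm 4) le_rfl) ?_
    exact Finset.single_le_sum (f := fun s : Fin (d + 2) → T =>
      (∏ j, (∫⁻ ξ, ‖bump η b (σ ^ 2)⁻¹ ξ * F (s j) ξ‖ₑ ^ p) ^ (1 / ((d : ℝ) + 2))) ^ (2 / p))
      (fun _ _ => zero_le) (Finset.mem_filter.mpr ⟨Finset.mem_univ s, hs⟩)
  · refine h1.trans (le_trans ?_ le_self_add)
    have h1le : (1 : ℝ≥0∞) ≤ ENNReal.ofReal (σ ^ (-ε)) := by
      rw [ENNReal.one_le_ofReal]
      exact Real.one_le_rpow_of_pos_of_le_one_of_nonpos hσ hσ1 (by linarith)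
    set R : ℝ≥0∞ := ENNReal.ofReal (σ ^ (-ε)) with hR
    have hX : ∑ s, (∫⁻ x, ‖bump η b (σ ^ 2)⁻¹ x * ∑ t, if g t = s then F t x else 0‖ₑ ^ p) ^
        (2 / p) = ∑ α, Lq p (fun ξ => bump η b (σ ^ 2)⁻¹ ξ * ∑ τ with g τ = α, F τ ξ) := by
      simp only [Lq, Finset.sum_filter]
    have hY : (∫⁻ x, ‖bump η b (σ ^ 2)⁻¹ x * F t0 x‖ₑ ^ p) ^ (2 / p) ≤
        ∑ τ, Lq p (fun ξ => bump η b (σ ^ 2)⁻¹ ξ * F τ ξ) :=
      Finset.single_le_sum (f := fun τ => Lq p (fun ξ => bump η b (σ ^ 2)⁻¹ ξ * F τ ξ))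
        (fun _ _ => zero_le) (Finset.mem_univ t0)
    rw [hX]
    set X := ∑ α, Lq p (fun ξ => bump η b (σ ^ 2)⁻¹ ξ * ∑ τ with g τ = α, F τ ξ)
    set Y := ∑ τ, Lq p (fun ξ => bump η b (σ ^ 2)⁻¹ ξ * F τ ξ)
    calc 2 * D * X + 2 * (∫⁻ x, ‖bump η b (σ ^ 2)⁻¹ x * F t0 x‖ₑ ^ p) ^ (2 / p) ≤
          2 * D * X + 2 * (R * Y) := by
          gcongr
          exact hY.trans (le_mul_of_one_le_left zero_le h1le)
      _ ≤ 2 * D * X + 2 * (R * Y) + (2 * C' * R * Y + 2 * R * X) := le_self_add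
      _ = (2 * C' + 2) * R * (X + Y) := by
          rw [hD]
          ring

end Pool.Agent.DEC
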