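import Pool.Agent.DEC.DSK0

/-!
# [DEC] Row GEOM, second half: stability of the determinant.
-/

set_option autoImplicit false

namespace Pool.Agent.DEC

open MeasureTheory Set Filter Topology Pool.Agent.MP_6cbfb8_an Pool.Agent.GNP
open scoped ENNReal Real RealInnerProductSpace SchwartzMap

/-- Stability of the determinant. -/
theorem dt_stable (d : ℕ) : ∃ C : ℝ, 0 < C ∧ ∀ (z z' : Fin (d + 1) → E d) (r : ℝ),
    (∀ j, ‖z j‖ ≤ 1) → (∀ j, ‖z' j‖ ≤ 1) → (∀ j, ‖z j - z' j‖ ≤ r) →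
      |(dt fun j => Nrm (z j)) - dt fun j => Nrm (z' j)| ≤ C * r := by
  set f : ContinuousMultilinearMap ℝ (fun _ : Fin (d + 1) => Fin (d + 1) → ℝ) ℝ :=
    { toMultilinearMap := (Matrix.detRowAlternating (n := Fin (d + 1)) (R := ℝ)).toMultilinearMap
      cont := by
        have h : Continuous fun v : Fin (d + 1) → Fin (d + 1) → ℝ =>
            (Matrix.of v : Matrix (Fin (d + 1)) (Fin (d + 1)) ℝ).det := by
          apply Continuous.matrix_det
          fun_prop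
        exact h } with hf
  have hdt : ∀ v : Fin (d + 1) → E (d + 1), dt v = f fun j i => v j i := fun v => rfl
  have hn : ∀ (c : E d), ‖c‖ ≤ 1 → ‖(fun i => Nrm c i : Fin (d + 1) → ℝ)‖ ≤ 3 := by
    intro c hc
    rw [pi_norm_le_iff_of_nonneg (by norm_num)]
    intro i
    refine Fin.lastCases ?_ (fun j => ?_) i
    · unfold Nrm
      rw [j5_last]
      norm_num
    · unfold Nrm
      rw [j5_castSucc, PiLp.smul_apply, norm_smul]
      have h1 := PiLp.norm_apply_le c j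
      norm_num
      have h2 : |c j| ≤ ‖c‖ := by simpa using h1
      linarith
  have hd : ∀ (c c' : E d) (r : ℝ), ‖c - c'‖ ≤ r →
      ‖(fun i => Nrm c i : Fin (d + 1) → ℝ) - fun i => Nrm c' i‖ ≤ 2 * r := by
    intro c c' r hc
    have hr : 0 ≤ r := (norm_nonneg _).trans hc
    rw [pi_norm_le_iff_of_nonneg (by positivity)]
    intro i
    rw [Pi.sub_apply]
    refine Fin.lastCases ?_ (fun j => ?_) i
    · unfold Nrm
      rw [j5_last, j5_last, sub_self, norm_zero]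
      positivity
    · unfold Nrm
      rw [j5_castSucc, j5_castSucc, PiLp.smul_apply, PiLp.smul_apply, ← smul_sub, norm_smul]
      have h1 := PiLp.norm_apply_le (c - c') j
      rw [PiLp.sub_apply] at h1
      have h2 : ‖(-2 : ℝ)‖ = 2 := by norm_num
      rw [h2]
      linarith
  refine ⟨(‖f‖ + 1) * (d + 1) * 3 ^ d * 2, by positivity, fun z z' r hz hz' hzz => ?_⟩
  have hr : 0 ≤ r := (norm_nonneg _).trans (hzz 0)
  rw [hdt, hdt, ← Real.norm_eq_abs]
  refine (f.norm_image_sub_le _ _).trans ?_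
  rw [Fintype.card_fin]
  have h1 : ‖(fun j i => Nrm (z j) i : Fin (d + 1) → Fin (d + 1) → ℝ) -
      fun j i => Nrm (z' j) i‖ ≤ 2 * r := by
    rw [pi_norm_le_iff_of_nonneg (by positivity)]
    exact fun j => hd _ _ _ (hzz j)
  have h2 : max ‖(fun j i => Nrm (z j) i : Fin (d + 1) → Fin (d + 1) → ℝ)‖
      ‖(fun j i => Nrm (z' j) i : Fin (d + 1) → Fin (d + 1) → ℝ)‖ ≤ 3 := by
    refine max_le ?_ ?_
    · rw [pi_norm_le_iff_of_nonneg (by norm_num)]
      exact fun j => hn _ (hz j)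
    · rw [pi_norm_le_iff_of_nonneg (by norm_num)]
      exact fun j => hn _ (hz' j)
  have h3 : 0 ≤ max ‖(fun j i => Nrm (z j) i : Fin (d + 1) → Fin (d + 1) → ℝ)‖
      ‖(fun j i => Nrm (z' j) i : Fin (d + 1) → Fin (d + 1) → ℝ)‖ :=
    le_max_of_le_left (norm_nonneg _)
  have h4 : ‖f‖ * ((d + 1 : ℕ) : ℝ) ≤ (‖f‖ + 1) * (d + 1) := by
    push_cast
    nlinarith [norm_nonneg f, (Nat.cast_nonneg d : (0 : ℝ) ≤ d)]
  have h5 : d + 1 - 1 = d := by omega
  rw [h5]
  calc ‖f‖ * ((d + 1 : ℕ) : ℝ) * max ‖(fun j i => Nrm (z j) i : Fin (d + 1) → Fin (d + 1) → ℝ)‖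
        ‖(fun j i => Nrm (z' j) i : Fin (d + 1) → Fin (d + 1) → ℝ)‖ ^ d *
        ‖(fun j i => Nrm (z j) i : Fin (d + 1) → Fin (d + 1) → ℝ) -
      fun j i => Nrm (z' j) i‖
      ≤ (‖f‖ + 1) * (d + 1) * 3 ^ d * (2 * r) := by gcongr
    _ = _ := by ring

end Pool.Agent.DEC
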