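import Pool.Agent.DEC.DSK0
import Pool.Agent.DEC.DTS

/-!
# [DEC] Row GEOM: transversal normals, or all the points lie near a hyperplane.

`geom_greedy`, `geom_det`, `geom_split` are helper99's.
-/

set_option autoImplicit false

namespace Pool.Agent.DEC

open Pool.Agent.MP_6cbfb8_an


theorem geom_greedy (n : ℕ) {T : Type*} (N : T → E n) (sig : T → Prop) (κ : ℝ) (hκ : 0 < κ)
    (j : ℕ) (hj : j ≤ n) :
    (∃ (s : Fin j → T) (e : Fin j → E n), Orthonormal ℝ e ∧ (∀ i, sig (s i)) ∧
      (∀ i, κ < |inner ℝ (e i) (N (s i))|) ∧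
      ∀ i v, (∀ k, k ≤ i → inner ℝ (e k) v = 0) → inner ℝ v (N (s i)) = 0) ∨
    (∃ v : E n, ‖v‖ = 1 ∧ ∀ t, sig t → |inner ℝ v (N t)| ≤ κ) := by
  classical
  induction j with
  | zero =>
    left
    refine ⟨Fin.elim0, Fin.elim0, ?_, fun i => i.elim0, fun i => i.elim0, fun i => i.elim0⟩
    rw [orthonormal_iff_ite]
    exact fun i => i.elim0
  | succ j ih =>
    rcases ih (by omega) with ⟨s, e, he, hs, hk, ht⟩ | h
    swap
    · exact Or.inr h
    have he' := orthonormal_iff_ite.mp he
    -- the part orthogonal to `e`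
    let W : E n → E n := fun x => x - ∑ k, inner ℝ (e k) x • e k
    have hW : ∀ x k, inner ℝ (e k) (W x) = 0 := by
      intro x k
      simp only [W]
      rw [inner_sub_right, inner_sum]
      simp only [inner_smul_right, he']
      simp
    have hdec : ∀ x v, (∀ k, inner ℝ (e k) v = 0) → inner ℝ v x = inner ℝ v (W x) := by
      intro x v hv
      simp only [W]
      rw [inner_sub_right, inner_sum]
      simp only [inner_smul_right]
      have : ∀ k, inner ℝ v (e k) = 0 := fun k => by rw [real_inner_comm]; exact hv k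
      simp [this]
    by_cases hex : ∃ t, sig t ∧ κ < ‖W (N t)‖
    · left
      obtain ⟨t, hst, hκt⟩ := hex
      have hpos : 0 < ‖W (N t)‖ := hκ.trans hκt
      let w : E n := (‖W (N t)‖)⁻¹ • W (N t)
      have hw1 : inner ℝ w w = 1 := by
        simp only [w]
        rw [inner_smul_left, inner_smul_right, real_inner_self_eq_norm_sq]
        simp only [RCLike.conj_to_real]
        field_simp
      have hw0 : ∀ k, inner ℝ (e k) w = 0 := by
        intro k
        simp only [w]
        rw [inner_smul_right, hW, mul_zero]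
      have hw0' : ∀ k, inner ℝ w (e k) = 0 := fun k => by rw [real_inner_comm]; exact hw0 k
      have hwN : inner ℝ w (N t) = ‖W (N t)‖ := by
        rw [hdec (N t) w hw0]
        simp only [w]
        rw [inner_smul_left, real_inner_self_eq_norm_sq]
        simp only [RCLike.conj_to_real]
        field_simp
      refine ⟨Fin.snoc s t, Fin.snoc e w, ?_, ?_, ?_, ?_⟩
      · rw [orthonormal_iff_ite]
        intro a b
        refine Fin.lastCases ?_ (fun a => ?_) a
        · refine Fin.lastCases ?_ (fun b => ?_) b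
          · simp only [Fin.snoc_last, if_true]
            exact hw1
          · have : ¬ (Fin.last j = b.castSucc) := fun h => (Fin.castSucc_lt_last b).ne h.symm
            simp [hw0', this]
        · refine Fin.lastCases ?_ (fun b => ?_) b
          · have : ¬ (a.castSucc = Fin.last j) := fun h => (Fin.castSucc_lt_last a).ne h
            simp [hw0, this]
          · simp only [Fin.snoc_castSucc, he', Fin.castSucc_inj]
      · intro i
        refine Fin.lastCases ?_ (fun i => ?_) i
        · simpa using hst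
        · simpa using hs i
      · intro i
        refine Fin.lastCases ?_ (fun i => ?_) i
        · simp only [Fin.snoc_last]
          rw [hwN, abs_of_pos hpos]
          exact hκt
        · simpa using hk i
      · intro i
        refine Fin.lastCases ?_ (fun i => ?_) i
        · intro v hv
          have hv1 : ∀ k, inner ℝ (e k) v = 0 := by
            intro k
            have := hv k.castSucc (Fin.le_last _)
            simpa using this
          have hv2 : inner ℝ w v = 0 := by
            have := hv (Fin.last j) le_rfl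
            simpa using this
          simp only [Fin.snoc_last]
          rw [hdec (N t) v hv1]
          have : W (N t) = ‖W (N t)‖ • w := by
            simp only [w]
            rw [smul_smul, mul_inv_cancel₀ hpos.ne', one_smul]
          rw [this, inner_smul_right, real_inner_comm, hv2, mul_zero]
        · intro v hv
          simp only [Fin.snoc_castSucc]
          apply ht i v
          intro k hki
          have := hv k.castSucc (by simpa using hki)
          simpa using this
    · right
      push Not at hex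
      -- a unit vector orthogonal to `e`
      have hlt : Module.finrank ℝ (Submodule.span ℝ (Set.range e)) < n := by
        have h1 := finrank_range_le_card (R := ℝ) e
        rw [Fintype.card_fin] at h1
        exact lt_of_le_of_lt h1 (by omega)
      have hne : (Submodule.span ℝ (Set.range e))ᗮ ≠ ⊥ := by
        intro h
        rw [Submodule.orthogonal_eq_bot_iff] at h
        rw [h, finrank_top, finrank_euclideanSpace_fin] at hlt
        exact lt_irrefl _ hlt
      obtain ⟨v, hv, hv0⟩ := Submodule.exists_mem_ne_zero_of_ne_bot hne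
      have hvp : 0 < ‖v‖ := norm_pos_iff.mpr hv0
      have hve : ∀ k, inner ℝ (e k) v = 0 := fun k =>
        (Submodule.mem_orthogonal _ v).mp hv (e k) (Submodule.subset_span (Set.mem_range_self k))
      refine ⟨(‖v‖)⁻¹ • v, ?_, ?_⟩
      · rw [norm_smul, norm_inv, norm_norm, inv_mul_cancel₀ hvp.ne']
      · intro t hst
        rw [hdec (N t) _ (fun k => by rw [inner_smul_right, hve, mul_zero])]
        refine (abs_real_inner_le_norm _ _).trans ?_
        rw [norm_smul, norm_inv, norm_norm, inv_mul_cancel₀ hvp.ne', one_mul]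
        exact hex t hst

theorem geom_det {n : ℕ} (κ : ℝ) (hκ : 0 < κ) (N : Fin n → E n) (e : Fin n → E n)
    (he : Orthonormal ℝ e) (hk : ∀ i, κ < |inner ℝ (e i) (N i)|)
    (ht : ∀ i v, (∀ k, k ≤ i → inner ℝ (e k) v = 0) → inner ℝ v (N i) = 0) :
    κ ^ n ≤ |(Matrix.of fun i j => N i j).det| := by
  classical
  have he' := orthonormal_iff_ite.mp he
  have htri : ∀ i k, i < k → inner ℝ (e k) (N i) = 0 := by
    intro i k hik
    apply ht i (e k)
    intro l hl
    rw [he', if_neg (by rintro rfl; exact absurd hl (not_le.mpr hik))]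
  -- the matrix of the basis
  let O : Matrix (Fin n) (Fin n) ℝ := Matrix.of fun k j => e k j
  let A : Matrix (Fin n) (Fin n) ℝ := Matrix.of fun i j => N i j
  have hOO : O * O.transpose = 1 := by
    ext a b
    rw [Matrix.mul_apply, Matrix.one_apply]
    have := he' a b
    rw [← this, PiLp.inner_apply]
    apply Finset.sum_congr rfl
    intro c _
    simp [O, Matrix.transpose_apply, mul_comm]
  have hO : |O.det| = 1 := by
    have h1 : O.det * O.det = 1 := by
      have := congrArg Matrix.det hOO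
      rwa [Matrix.det_mul, Matrix.det_transpose, Matrix.det_one] at this
    have h2 : |O.det| * |O.det| = 1 := by rw [← abs_mul, h1, abs_one]
    have h3 := abs_nonneg O.det
    nlinarith
  have hAO : ∀ i k, (A * O.transpose) i k = inner ℝ (e k) (N i) := by
    intro i k
    rw [Matrix.mul_apply, PiLp.inner_apply]
    apply Finset.sum_congr rfl
    intro c _
    simp [O, A, Matrix.transpose_apply]
  have hlow : (A * O.transpose).IsLowerTriangular := by
    intro i k hik
    rw [hAO]
    exact htri i k (by simpa using hik)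
  have hdet : (A * O.transpose).det = ∏ i, inner ℝ (e i) (N i) := by
    rw [Matrix.det_of_isLowerTriangular _ hlow]
    apply Finset.prod_congr rfl
    intro i _
    exact hAO i i
  rw [Matrix.det_mul, Matrix.det_transpose] at hdet
  have h4 : |A.det| = ∏ i, |inner ℝ (e i) (N i)| := by
    rw [← Finset.abs_prod, ← hdet, abs_mul, hO, mul_one]
  show κ ^ n ≤ |A.det|
  rw [h4]
  calc κ ^ n = ∏ _i : Fin n, κ := by simp
    _ ≤ _ := Finset.prod_le_prod (fun _ _ => hκ.le) (fun i _ => (hk i).le)

/-- **Broad or narrow.** -/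
theorem geom_split (n : ℕ) {T : Type*} (N : T → E n) (sig : T → Prop) (κ : ℝ) (hκ : 0 < κ) :
    (∃ s : Fin n → T, (∀ i, sig (s i)) ∧ κ ^ n ≤ |(Matrix.of fun i j => N (s i) j).det|) ∨
    (∃ v : E n, ‖v‖ = 1 ∧ ∀ t, sig t → |inner ℝ v (N t)| ≤ κ) := by
  rcases geom_greedy n N sig κ hκ n le_rfl with ⟨s, e, he, hs, hk, ht⟩ | h
  · exact Or.inl ⟨s, hs, geom_det κ hκ (fun i => N (s i)) e he hk ht⟩
  · exact Or.inr h


open MeasureTheory Set Filter Topology Pool.Agent.MP_6cbfb8_an
open scoped ENNReal Real RealInnerProductSpace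

/-- A direction which is almost orthogonal to all the normals gives a hyperplane. -/
theorem geom_plane {d : ℕ} (hd : 1 ≤ d) (κ : ℝ) (hκ : 0 < κ) (hκ1 : κ ≤ 1 / 10) (S : Set (E d))
    (hS : ∀ z ∈ S, ‖z‖ ≤ 1) (v : E (d + 1)) (hv : ‖v‖ = 1) (h : ∀ z ∈ S, |⟪v, Nrm z⟫| ≤ κ) :
    ∃ (a : E d) (b : ℝ), ‖a‖ = 1 ∧ |b| ≤ 2 ∧ ∀ z ∈ S, |⟪a, z⟫ - b| ≤ 3 / 2 * κ := by
  rcases S.eq_empty_or_nonempty with hE | ⟨z0, hz0⟩
  · subst hE
    have : NeZero d := ⟨by omega⟩
    refine ⟨EuclideanSpace.single 0 1, 0, by simp, by simp, ?_⟩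
    intro z hz
    exact absurd hz (Set.notMem_empty z)
  · obtain ⟨u, t, rfl⟩ : ∃ (u : E d) (t : ℝ), join u t = v :=
      ⟨((GNP.joinL d).symm v).1, ((GNP.joinL d).symm v).2, by
        have := (GNP.joinL d).apply_symm_apply v
        rwa [GNP.joinL_apply] at this⟩
    have hin : ∀ z : E d, ⟪join u t, Nrm z⟫ = t - 2 * ⟪u, z⟫ := by
      intro z
      unfold Nrm
      rw [GNP.j5_inner, inner_smul_right]
      ring
    have hnorm : ‖u‖ ^ 2 + t ^ 2 = 1 := by rw [← GNP.j5_norm_sq, hv, one_pow]
    have h1 : |t| ≤ κ + 2 * ‖u‖ := by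
      have h2 := h z0 hz0
      rw [hin] at h2
      have h3 : |⟪u, z0⟫| ≤ ‖u‖ := by
        refine (abs_real_inner_le_norm _ _).trans ?_
        have := mul_le_mul_of_nonneg_left (hS z0 hz0) (norm_nonneg u)
        linarith
      have h4 : |t| ≤ |t - 2 * ⟪u, z0⟫| + |2 * ⟪u, z0⟫| := by
        have := abs_add_le (t - 2 * ⟪u, z0⟫) (2 * ⟪u, z0⟫)
        rwa [sub_add_cancel] at this
      rw [abs_mul, abs_of_pos (two_pos : (0 : ℝ) < 2)] at h4
      linarith
    have hu0 := norm_nonneg u
    have hu : 1 / 3 ≤ ‖u‖ := by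
      by_contra hc
      push Not at hc
      have h2 : |t| ≤ 1 / 10 + 2 / 3 := by linarith
      have h3 : t ^ 2 ≤ (1 / 10 + 2 / 3) ^ 2 := by
        rw [← sq_abs]
        exact pow_le_pow_left₀ (abs_nonneg t) h2 2
      nlinarith
    have hupos : 0 < ‖u‖ := by linarith
    refine ⟨‖u‖⁻¹ • u, t / (2 * ‖u‖), ?_, ?_, ?_⟩
    · rw [norm_smul, norm_inv, norm_norm, inv_mul_cancel₀ hupos.ne']
    · rw [abs_div, abs_of_pos (by positivity : 0 < 2 * ‖u‖), div_le_iff₀ (by positivity)]
      nlinarith
    · intro z hz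
      have h2 := h z hz
      rw [hin] at h2
      have h3 : ⟪‖u‖⁻¹ • u, z⟫ - t / (2 * ‖u‖) = -((t - 2 * ⟪u, z⟫) / (2 * ‖u‖)) := by
        rw [inner_smul_left]
        simp only [conj_trivial]
        field_simp
        ring
      rw [h3, abs_neg, abs_div, abs_of_pos (by positivity : 0 < 2 * ‖u‖),
        div_le_iff₀ (by positivity)]
      nlinarith

/-- **Row GEOM.** -/
theorem geom (d : ℕ) (hd : 1 ≤ d) : ∃ c C : ℝ, 0 < c ∧ 0 < C ∧ ∀ (κ : ℝ) (S : Set (E d)),
    0 < κ → κ ≤ c → (∀ z ∈ S, ‖z‖ ≤ 1) →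
      (∃ z : Fin (d + 1) → E d, (∀ j, z j ∈ S) ∧ c * κ ^ (d + 1) ≤ |dt fun j => Nrm (z j)|) ∨
      ∃ (a : E d) (b : ℝ), ‖a‖ = 1 ∧ |b| ≤ 2 ∧ ∀ z ∈ S, |⟪a, z⟫ - b| ≤ C * κ := by
  refine ⟨1 / 10, 3 / 2, by norm_num, by norm_num, fun κ S hκ hκc hS => ?_⟩
  rcases geom_split (d + 1) (fun z : E d => Nrm z) (fun z => z ∈ S) κ hκ with ⟨s, hs, hdet⟩ | ⟨v, hv, h⟩
  · left
    refine ⟨s, hs, ?_⟩
    have h0 : (0 : ℝ) ≤ κ ^ (d + 1) := by positivity
    refine le_trans ?_ (show κ ^ (d + 1) ≤ |dt fun j => Nrm (s j)| from hdet)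
    linarith
  · right
    exact geom_plane hd κ hκ hκc S hS v hv h

end Pool.Agent.DEC
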