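import Mathlib

/-!
The cylinder argument: an `L^p` inequality between functions on `ℝ^d × ℝ` passes to
`ℝ^(d+1) × ℝ`, by slicing in one direction and Minkowski's inequality.
-/

set_option autoImplicit false

namespace Pool.Agent.DEC.CY

open MeasureTheory Set Filter Topology Complex
open scoped Real RealInnerProductSpace ENNReal

/-! ### Minkowski's inequality -/

theorem mink {α ι : Type*} [MeasurableSpace α] {μ : Measure α} {q : ℝ} (hq : 1 ≤ q)
    (s : Finset ι) (f : ι → α → ℝ≥0∞) (hf : ∀ i ∈ s, AEMeasurable (f i) μ) :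
    (∫⁻ a, (∑ i ∈ s, f i a) ^ q ∂μ) ^ (1 / q) ≤ ∑ i ∈ s, (∫⁻ a, f i a ^ q ∂μ) ^ (1 / q) := by
  classical
  have hq0 : 0 < q := lt_of_lt_of_le one_pos hq
  induction s using Finset.induction_on with
  | empty => simp [hq0]
  | insert i s his ih =>
    simp only [Finset.sum_insert his]
    have h1 : AEMeasurable (f i) μ := hf i (Finset.mem_insert_self i s)
    have h2 : AEMeasurable (fun a => ∑ j ∈ s, f j a) μ :=
      Finset.aemeasurable_fun_sum s fun j hj => hf j (Finset.mem_insert_of_mem hj)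
    refine (ENNReal.lintegral_Lp_add_le h1 h2 hq).trans ?_
    exact add_le_add le_rfl (ih fun j hj => hf j (Finset.mem_insert_of_mem hj))

theorem mink2 {α ι : Type*} [MeasurableSpace α] {μ : Measure α} {p : ℝ} (hp : 2 ≤ p)
    (s : Finset ι) (f : ι → α → ℝ≥0∞) (hf : ∀ i ∈ s, AEMeasurable (f i) μ) :
    ∫⁻ a, (∑ i ∈ s, f i a ^ (2 / p)) ^ (p / 2) ∂μ ≤
      (∑ i ∈ s, (∫⁻ a, f i a ∂μ) ^ (2 / p)) ^ (p / 2) := by
  have hp0 : 0 < p := by linarith
  have hq : 1 ≤ p / 2 := by linarith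
  have hq0 : 0 < p / 2 := by linarith
  have h := mink (μ := μ) hq s (fun i a => f i a ^ (2 / p)) fun i hi => (hf i hi).pow_const _
  have e : ∀ x : ℝ≥0∞, (x ^ (2 / p)) ^ (p / 2) = x := fun x => by
    rw [← ENNReal.rpow_mul, show 2 / p * (p / 2) = 1 by field_simp, ENNReal.rpow_one]
  have e2 : (1 : ℝ) / (p / 2) = 2 / p := by field_simp
  simp only [e, e2] at h
  have h2 := ENNReal.rpow_le_rpow h hq0.le
  rwa [← ENNReal.rpow_mul, show 2 / p * (p / 2) = 1 by field_simp, ENNReal.rpow_one] at h2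

/-! ### Splitting off a direction -/

variable {d : ℕ}

theorem exists_isom (v : EuclideanSpace ℝ (Fin (d + 1))) (hv : ‖v‖ = 1) :
    ∃ A : EuclideanSpace ℝ (Fin d) →ₗᵢ[ℝ] EuclideanSpace ℝ (Fin (d + 1)), ∀ x, ⟪A x, v⟫ = 0 := by
  have : Fact (Module.finrank ℝ (EuclideanSpace ℝ (Fin (d + 1))) = d + 1) :=
    ⟨finrank_euclideanSpace_fin⟩
  have hv0 : v ≠ 0 := by
    intro h
    rw [h, norm_zero] at hv
    exact zero_ne_one hv
  have h1 : Module.finrank ℝ (Submodule.span ℝ {v})ᗮ = d :=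
    Submodule.finrank_orthogonal_span_singleton hv0
  let e : EuclideanSpace ℝ (Fin d) ≃ₗᵢ[ℝ] (Submodule.span ℝ {v})ᗮ :=
    ((stdOrthonormalBasis ℝ (Submodule.span ℝ {v})ᗮ).reindex (finCongr h1)).repr.symm
  refine ⟨(Submodule.subtypeₗᵢ (Submodule.span ℝ {v})ᗮ).comp e.toLinearIsometry, fun x => ?_⟩
  have h3 := (e x).2
  rw [Submodule.mem_orthogonal_singleton_iff_inner_left] at h3
  exact h3

/-- The orthogonal splitting of the space. -/
noncomputable def spl (A : EuclideanSpace ℝ (Fin d) →ₗᵢ[ℝ] EuclideanSpace ℝ (Fin (d + 1)))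
    (v : EuclideanSpace ℝ (Fin (d + 1))) (q : EuclideanSpace ℝ (Fin d) × ℝ) :
    EuclideanSpace ℝ (Fin (d + 1)) := A q.1 + q.2 • v

theorem spl_mp (A : EuclideanSpace ℝ (Fin d) →ₗᵢ[ℝ] EuclideanSpace ℝ (Fin (d + 1)))
    (v : EuclideanSpace ℝ (Fin (d + 1))) (hv : ‖v‖ = 1) (hA : ∀ x, ⟪A x, v⟫ = 0) :
    MeasurePreserving (spl A v) volume volume := by
  let L : WithLp 2 (EuclideanSpace ℝ (Fin d) × ℝ) →ₗᵢ[ℝ] EuclideanSpace ℝ (Fin (d + 1)) :=
    { toFun := fun q => A q.fst + q.snd • v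
      map_add' := fun x y => by
        simp only [WithLp.add_fst, WithLp.add_snd, map_add, add_smul]
        abel
      map_smul' := fun c x => by
        simp only [WithLp.smul_fst, WithLp.smul_snd, map_smul, smul_add, smul_eq_mul,
          RingHom.id_apply, mul_smul]
      norm_map' := fun q => by
        have h1 : ‖A q.fst + q.snd • v‖ ^ 2 = ‖q‖ ^ 2 := by
          rw [norm_add_sq_real, real_inner_smul_right, hA, mul_zero, mul_zero, add_zero,
            A.norm_map, norm_smul, hv, mul_one, WithLp.prod_norm_sq_eq_of_L2]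
        exact (sq_eq_sq₀ (norm_nonneg _) (norm_nonneg _)).1 h1 }
  have hf : Module.finrank ℝ (WithLp 2 (EuclideanSpace ℝ (Fin d) × ℝ)) =
      Module.finrank ℝ (EuclideanSpace ℝ (Fin (d + 1))) := by
    have h := (WithLp.linearEquiv 2 ℝ (EuclideanSpace ℝ (Fin d) × ℝ)).finrank_eq
    rw [h]
    simp
  have h1 := (L.toLinearIsometryEquiv hf).measurePreserving
  have h2 := WithLp.volume_preserving_toLp (EuclideanSpace ℝ (Fin d)) ℝ
  exact h1.comp h2

/-- The splitting with a passive variable. -/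
noncomputable def spt (A : EuclideanSpace ℝ (Fin d) →ₗᵢ[ℝ] EuclideanSpace ℝ (Fin (d + 1)))
    (v : EuclideanSpace ℝ (Fin (d + 1))) (q : (EuclideanSpace ℝ (Fin d) × ℝ) × ℝ) :
    EuclideanSpace ℝ (Fin (d + 1)) × ℝ := (A q.1.1 + q.2 • v, q.1.2)

theorem spt_mp (A : EuclideanSpace ℝ (Fin d) →ₗᵢ[ℝ] EuclideanSpace ℝ (Fin (d + 1)))
    (v : EuclideanSpace ℝ (Fin (d + 1))) (hv : ‖v‖ = 1) (hA : ∀ x, ⟪A x, v⟫ = 0) :
    MeasurePreserving (spt A v) volume volume := by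
  have h1 : MeasurePreserving (fun q : (EuclideanSpace ℝ (Fin d) × ℝ) × ℝ =>
      (q.1.1, (q.1.2, q.2))) volume volume :=
    volume_preserving_prodAssoc (α₁ := EuclideanSpace ℝ (Fin d)) (β₁ := ℝ) (γ₁ := ℝ)
  have h2 : MeasurePreserving (fun q : EuclideanSpace ℝ (Fin d) × (ℝ × ℝ) =>
      (q.1, (q.2.2, q.2.1))) volume volume :=
    (MeasurePreserving.id (volume : Measure (EuclideanSpace ℝ (Fin d)))).prod
      (Measure.measurePreserving_swap (μ := (volume : Measure ℝ)) (ν := (volume : Measure ℝ)))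
  have h3 : MeasurePreserving (fun q : EuclideanSpace ℝ (Fin d) × (ℝ × ℝ) =>
      ((q.1, q.2.1), q.2.2)) volume volume :=
    (volume_preserving_prodAssoc (α₁ := EuclideanSpace ℝ (Fin d)) (β₁ := ℝ) (γ₁ := ℝ)).symm
  have h4 : MeasurePreserving (fun q : (EuclideanSpace ℝ (Fin d) × ℝ) × ℝ =>
      (spl A v q.1, q.2)) volume volume :=
    (spl_mp A v hv hA).prod (MeasurePreserving.id (volume : Measure ℝ))
  exact h4.comp (h3.comp (h2.comp h1))

/-! ### Slicing -/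

theorem slice_int {X S Y : Type*} [MeasurableSpace X] [MeasurableSpace S] [MeasurableSpace Y]
    {μ : Measure X} {ν : Measure S} {κ : Measure Y} [SFinite μ] [SFinite ν] {Ψ : X × S → Y}
    (hΨ : MeasurePreserving Ψ (μ.prod ν) κ) {g : Y → ℝ≥0∞} (hg : Measurable g) :
    ∫⁻ y, g y ∂κ = ∫⁻ s, ∫⁻ x, g (Ψ (x, s)) ∂μ ∂ν := by
  rw [← hΨ.lintegral_comp hg]
  exact lintegral_prod_symm' (fun q => g (Ψ q)) (hg.comp hΨ.measurable)

/-- An inequality for all slices gives the inequality (squares of the norms). -/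
theorem cyl_gen {X S Y ι : Type*} [MeasurableSpace X] [MeasurableSpace S] [MeasurableSpace Y]
    {μ : Measure X} {ν : Measure S} {κ : Measure Y} [SFinite μ] [SFinite ν] {Ψ : X × S → Y}
    (hΨ : MeasurePreserving Ψ (μ.prod ν) κ) {p : ℝ} (hp : 2 ≤ p) (t : Finset ι) {G : ι → Y → ℂ}
    (hG : ∀ i ∈ t, Measurable (G i)) (D : ℝ≥0∞)
    (H : ∀ s, (∫⁻ x, ‖∑ i ∈ t, G i (Ψ (x, s))‖ₑ ^ p ∂μ) ^ (2 / p) ≤
      D * ∑ i ∈ t, (∫⁻ x, ‖G i (Ψ (x, s))‖ₑ ^ p ∂μ) ^ (2 / p)) :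
    (∫⁻ y, ‖∑ i ∈ t, G i y‖ₑ ^ p ∂κ) ^ (2 / p) ≤
      D * ∑ i ∈ t, (∫⁻ y, ‖G i y‖ₑ ^ p ∂κ) ^ (2 / p) := by
  have hp0 : 0 < p := by linarith
  have e1 : ∀ x : ℝ≥0∞, (x ^ (2 / p)) ^ (p / 2) = x := fun x => by
    rw [← ENNReal.rpow_mul, show 2 / p * (p / 2) = 1 by field_simp, ENNReal.rpow_one]
  have e2 : ∀ x : ℝ≥0∞, (x ^ (p / 2)) ^ (2 / p) = x := fun x => by
    rw [← ENNReal.rpow_mul, show p / 2 * (2 / p) = 1 by field_simp, ENNReal.rpow_one]
  have hm : Measurable fun y => ‖∑ i ∈ t, G i y‖ₑ ^ p :=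
    (Finset.measurable_fun_sum t hG).enorm.pow_const p
  have hmi : ∀ i ∈ t, Measurable fun y => ‖G i y‖ₑ ^ p := fun i hi => (hG i hi).enorm.pow_const p
  have hmi2 : ∀ i ∈ t, Measurable fun s => ∫⁻ x, ‖G i (Ψ (x, s))‖ₑ ^ p ∂μ := fun i hi =>
    Measurable.lintegral_prod_left' (f := fun q : X × S => ‖G i (Ψ q)‖ₑ ^ p)
      ((hmi i hi).comp hΨ.measurable)
  have h1 : ∫⁻ y, ‖∑ i ∈ t, G i y‖ₑ ^ p ∂κ ≤
      D ^ (p / 2) * ∫⁻ s, (∑ i ∈ t, (∫⁻ x, ‖G i (Ψ (x, s))‖ₑ ^ p ∂μ) ^ (2 / p)) ^ (p / 2) ∂ν := by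
    rw [slice_int hΨ hm, ← lintegral_const_mul _ ((Finset.measurable_fun_sum t fun i hi =>
      (hmi2 i hi).pow_const _).pow_const _)]
    refine lintegral_mono fun s => ?_
    have h := ENNReal.rpow_le_rpow (H s) (by positivity : 0 ≤ p / 2)
    rwa [e1, ENNReal.mul_rpow_of_nonneg _ _ (by positivity : 0 ≤ p / 2)] at h
  have h2 := mink2 (μ := ν) hp t (fun i s => ∫⁻ x, ‖G i (Ψ (x, s))‖ₑ ^ p ∂μ)
    fun i hi => (hmi2 i hi).aemeasurable
  have h3 := ENNReal.rpow_le_rpow (h1.trans (mul_le_mul_right h2 _))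
    (by positivity : 0 ≤ 2 / p)
  rw [ENNReal.mul_rpow_of_nonneg _ _ (by positivity : 0 ≤ 2 / p), e2, e2] at h3
  refine h3.trans (le_of_eq ?_)
  congr 1
  refine Finset.sum_congr rfl fun i hi => ?_
  rw [slice_int hΨ (hmi i hi)]

end Pool.Agent.DEC.CY
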