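import Pool.Agent.DEC.REGROUP
import Pool.Agent.DEC.CYL

/-!
# [DEC] Row NARROW: slices of a strip, over the decoupling in the lower dimension.
-/

set_option autoImplicit false

namespace Pool.Agent.DEC

open MeasureTheory Set Filter Topology Pool.Agent.MP_6cbfb8_an Pool.Agent.GNP
open scoped ENNReal Real RealInnerProductSpace SchwartzMap

namespace NAR

theorem sp_empty {V : Type} [NormedAddCommGroup V] [InnerProductSpace ℝ V] [MeasurableSpace V]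
    {A : Set V} {F : V → ℂ} (h : Sp A F) (hA : ¬ A.Nonempty) (ξ : V) : F ξ = 0 := by
  obtain ⟨W, i, ν, X, a, h1, h2, h3, h4, h5⟩ := h
  rw [h5]
  have h0 : ∀ w, a w = 0 := fun w => by
    by_contra hw
    exact hA ⟨X w, h4 w hw⟩
  simp [h0]

/-- An isometry onto the orthogonal complement of a unit vector. -/
structure Orth {d : ℕ} (a : E (d + 1)) (A : E d →ₗᵢ[ℝ] E (d + 1)) : Prop where
  unit : ‖a‖ = 1
  orth : ∀ x, ⟪A x, a⟫ = 0

theorem Orth.exists {d : ℕ} {a : E (d + 1)} (ha : ‖a‖ = 1) :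
    ∃ A : E d →ₗᵢ[ℝ] E (d + 1), Orth a A := by
  obtain ⟨A, hA⟩ := CY.exists_isom a ha
  exact ⟨A, ha, hA⟩

theorem Orth.split {d : ℕ} {a : E (d + 1)} {A : E d →ₗᵢ[ℝ] E (d + 1)} (h : Orth a A)
    (η : E (d + 1)) : η = A (ContinuousLinearMap.adjoint A.toContinuousLinearMap η) +
      ⟪a, η⟫ • a := by
  have haa : ⟪a, a⟫ = 1 := by rw [real_inner_self_eq_norm_sq, h.unit, one_pow]
  let L : (E d × ℝ) →ₗ[ℝ] E (d + 1) :=
    { toFun := fun q => A q.1 + q.2 • a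
      map_add' := fun x y => by
        simp only [Prod.fst_add, Prod.snd_add, map_add, add_smul]
        abel
      map_smul' := fun c x => by
        simp only [Prod.smul_fst, Prod.smul_snd, map_smul, smul_add, smul_eq_mul,
          RingHom.id_apply, mul_smul] }
  have hinj : Function.Injective L := by
    rw [injective_iff_map_eq_zero]
    intro q hq
    have h1 : A q.1 + q.2 • a = 0 := hq
    have h2 : ⟪A q.1 + q.2 • a, a⟫ = 0 := by rw [h1, inner_zero_left]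
    rw [inner_add_left, h.orth, real_inner_smul_left, haa, mul_one, zero_add] at h2
    rw [h2, zero_smul, add_zero] at h1
    have h3 : q.1 = 0 := by
      have : ‖A q.1‖ = 0 := by rw [h1, norm_zero]
      rwa [A.norm_map, norm_eq_zero] at this
    exact Prod.ext h3 h2
  have hfr : Module.finrank ℝ (E d × ℝ) = Module.finrank ℝ (E (d + 1)) := by simp
  have hsurj : Function.Surjective L :=
    (LinearMap.injective_iff_surjective_of_finrank_eq_finrank hfr).1 hinj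
  obtain ⟨q, hq⟩ := hsurj η
  have hq' : A q.1 + q.2 • a = η := hq
  have h2 : ⟪a, η⟫ = q.2 := by
    rw [← hq', inner_add_right, real_inner_comm, h.orth, real_inner_smul_right, haa, mul_one,
      zero_add]
  have h3 : ContinuousLinearMap.adjoint A.toContinuousLinearMap η = q.1 := by
    refine ext_inner_right ℝ fun x => ?_
    rw [ContinuousLinearMap.adjoint_inner_left, ← hq']
    change ⟪A q.1 + q.2 • a, A x⟫ = _
    rw [inner_add_left, A.inner_map_map, real_inner_smul_left, real_inner_comm (A x) a, h.orth,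
      mul_zero, add_zero]
  rw [h2, h3, hq']

theorem Orth.norm_sq {d : ℕ} {a : E (d + 1)} {A : E d →ₗᵢ[ℝ] E (d + 1)} (h : Orth a A)
    (η : E (d + 1)) :
    ‖η‖ ^ 2 = ‖ContinuousLinearMap.adjoint A.toContinuousLinearMap η‖ ^ 2 + ⟪a, η⟫ ^ 2 := by
  set x := ContinuousLinearMap.adjoint A.toContinuousLinearMap η with hx
  have h1 := h.split η
  rw [← hx] at h1
  have h2 : ‖η‖ ^ 2 = ‖A x + ⟪a, η⟫ • a‖ ^ 2 := congrArg (fun z => ‖z‖ ^ 2) h1
  rw [h2, norm_add_sq_real, real_inner_smul_right, h.orth, mul_zero, mul_zero, add_zero,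
    A.norm_map, norm_smul, h.unit, mul_one, Real.norm_eq_abs, sq_abs]

/-- The isometry with the last variable added. -/
noncomputable def TT {d : ℕ} (A : E d →ₗᵢ[ℝ] E (d + 1)) : E (d + 1) →ₗᵢ[ℝ] E (d + 2) :=
  { toLinearMap := ((joinL (d + 1) : (E (d + 1) × ℝ) →L[ℝ] E (d + 2)).comp
      ((A.toContinuousLinearMap.prodMap (ContinuousLinearMap.id ℝ ℝ)).comp
        ((joinL d).symm : E (d + 1) →L[ℝ] E d × ℝ))).toLinearMap
    norm_map' := fun y => by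
      obtain ⟨z, rfl⟩ := (joinL d).surjective y
      have h1 : ‖join (A z.1) z.2‖ ^ 2 = ‖join z.1 z.2‖ ^ 2 := by
        rw [j5_norm_sq, j5_norm_sq, A.norm_map]
      have h2 := (sq_eq_sq₀ (norm_nonneg _) (norm_nonneg _)).1 h1
      change ‖(joinL (d + 1)) ((A.toContinuousLinearMap.prodMap (ContinuousLinearMap.id ℝ ℝ))
        ((joinL d).symm (joinL d z)))‖ = ‖joinL d z‖
      rw [ContinuousLinearEquiv.symm_apply_apply]
      exact h2 }

theorem TT_join {d : ℕ} (A : E d →ₗᵢ[ℝ] E (d + 1)) (ξ : E d) (s : ℝ) :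
    TT A (join ξ s) = join (A ξ) s := by
  have h : (joinL d).symm (join ξ s) = (ξ, s) := by
    rw [← joinL_apply (ξ, s), ContinuousLinearEquiv.symm_apply_apply]
  change (joinL (d + 1)) ((A.toContinuousLinearMap.prodMap (ContinuousLinearMap.id ℝ ℝ))
    ((joinL d).symm (join ξ s))) = _
  rw [h]
  rfl

theorem TT_adj {d : ℕ} (A : E d →ₗᵢ[ℝ] E (d + 1)) (η : E (d + 1)) (τ : ℝ) :
    ContinuousLinearMap.adjoint (TT A).toContinuousLinearMap (join η τ) =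
      join (ContinuousLinearMap.adjoint A.toContinuousLinearMap η) τ := by
  refine ext_inner_right ℝ fun y => ?_
  obtain ⟨z, rfl⟩ := (joinL d).surjective y
  rw [ContinuousLinearMap.adjoint_inner_left, joinL_apply]
  change ⟪join η τ, TT A (join z.1 z.2)⟫ = _
  rw [TT_join, j5_inner, j5_inner, ContinuousLinearMap.adjoint_inner_left]
  rfl

theorem adj_norm_le {d : ℕ} {a : E (d + 1)} {A : E d →ₗᵢ[ℝ] E (d + 1)} (h : Orth a A)
    (η : E (d + 1)) : ‖ContinuousLinearMap.adjoint A.toContinuousLinearMap η‖ ≤ ‖η‖ := by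
  refine (sq_le_sq₀ (norm_nonneg _) (norm_nonneg _)).1 ?_
  rw [h.norm_sq η]
  nlinarith [sq_nonneg ⟪a, η⟫]

/-- The spectrum of the slices. -/
theorem slice_spec {d : ℕ} {a : E (d + 1)} {A : E d →ₗᵢ[ℝ] E (d + 1)} (h : Orth a A) {b B σ : ℝ}
    {w : E (d + 1)} (hB : 1 ≤ B) (hb : |b| ≤ B) (hσ : 0 < σ) (hσ1 : σ ≤ 1) {G : E (d + 2) → ℂ}
    (hG : Sp (Ns a b w B σ) G) (s : ℝ) :
    Sp (Np (ContinuousLinearMap.adjoint A.toContinuousLinearMap w) ((B + 3 * B ^ 2) * σ)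
      ((B + 3 * B ^ 2) * σ ^ 2))
      (fun ξ => G (TT A ξ + s • join a 0) * chr (-join 0 (b ^ 2)) ξ) := by
  refine Sp.mono ((hG.slice (TT A).toContinuousLinearMap (s • join a 0)).modulate
    (-join 0 (b ^ 2))) ?_
  rintro y ⟨x, ⟨x', ⟨η, τ, rfl, h1, h2, h3⟩, rfl⟩, rfl⟩
  have hσ2 : σ ^ 2 ≤ 1 := by nlinarith
  refine ⟨ContinuousLinearMap.adjoint A.toContinuousLinearMap η, τ - b ^ 2, ?_, ?_, ?_⟩
  · simp only
    rw [TT_adj]
    ext i
    refine Fin.lastCases ?_ (fun j => ?_) i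
    · simp [sub_eq_add_neg]
    · simp
  · rw [← map_sub]
    refine (adj_norm_le h _).trans (h1.trans ?_)
    nlinarith [sq_nonneg B]
  · have e := h.norm_sq η
    have h4 : |⟪a, η⟫ ^ 2 - b ^ 2| ≤ 3 * B ^ 2 * σ ^ 2 := by
      have e2 : ⟪a, η⟫ ^ 2 - b ^ 2 = (⟪a, η⟫ - b) * (⟪a, η⟫ - b + 2 * b) := by ring
      rw [e2, abs_mul]
      have h5 : |⟪a, η⟫ - b + 2 * b| ≤ 3 * B := by
        refine (abs_add_le _ _).trans ?_
        rw [abs_mul, abs_two]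
        nlinarith
      have h6 : |⟪a, η⟫ - b| * |⟪a, η⟫ - b + 2 * b| ≤ (B * σ ^ 2) * (3 * B) :=
        mul_le_mul h3 h5 (abs_nonneg _) (by positivity)
      linarith
    have e3 : τ - b ^ 2 - ‖ContinuousLinearMap.adjoint A.toContinuousLinearMap η‖ ^ 2 =
        (τ - ‖η‖ ^ 2) + (⟪a, η⟫ ^ 2 - b ^ 2) := by
      rw [e]
      ring
    rw [e3]
    refine (abs_add_le _ _).trans ?_
    nlinarith

/-- The covering of a ball by unit balls. -/
theorem cover (n : ℕ) (R : ℝ) : ∃ Z : Finset (E n), ∀ y : E n, ‖y‖ ≤ R → ∃ z ∈ Z, ‖y - z‖ < 1 := by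
  obtain ⟨t, -, ht, hc⟩ := (isCompact_closedBall (0 : E n) R).finite_cover_balls one_pos
  refine ⟨ht.toFinset, fun y hy => ?_⟩
  have h1 : y ∈ Metric.closedBall (0 : E n) R := by simpa using hy
  have h2 := hc h1
  simp only [mem_iUnion, Metric.mem_ball, dist_eq_norm] at h2
  obtain ⟨z, hz, hz2⟩ := h2
  exact ⟨z, by simpa using hz, hz2⟩

/-- Overlap at a larger scale. -/
theorem overlap {n : ℕ} {R : ℝ} {Z : Finset (E n)} (hZ : ∀ y : E n, ‖y‖ ≤ R → ∃ z ∈ Z, ‖y - z‖ < 1)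
    {ι : Type} [Fintype ι] (w : ι → E n) {σ : ℝ} (hσ : 0 < σ) (M : ℕ)
    (hM : ∀ z, {i | ‖z - w i‖ < σ}.encard ≤ M) (S : Set ι) (z : E n)
    (hS : ∀ i ∈ S, ‖w i - z‖ ≤ R * σ) : S.encard ≤ (Z.card * M : ℕ) := by
  classical
  have hM' : ∀ z, (Finset.univ.filter fun i => ‖z - w i‖ < σ).card ≤ M := fun z => by
    have h := hM z
    have e : {i | ‖z - w i‖ < σ} = ((Finset.univ.filter fun i => ‖z - w i‖ < σ : Finset ι) :
        Set ι) := by
      ext i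
      simp
    rw [e, Set.encard_coe_eq_coe_finsetCard] at h
    exact_mod_cast h
  have h1 : S ⊆ ((Z.biUnion fun z0 => Finset.univ.filter fun i => ‖z + σ • z0 - w i‖ < σ :
      Finset ι) : Set ι) := by
    intro i hi
    obtain ⟨z0, hz0, hz1⟩ := hZ (σ⁻¹ • (w i - z)) (by
      rw [norm_smul, norm_inv, Real.norm_eq_abs, abs_of_pos hσ, inv_mul_le_iff₀ hσ, mul_comm]
      exact hS i hi)
    simp only [Finset.coe_biUnion, mem_iUnion, Finset.mem_coe, Finset.coe_filter,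
      Finset.mem_univ, true_and, mem_ofPred_eq]
    refine ⟨z0, hz0, ?_⟩
    have e : z + σ • z0 - w i = -(σ • (σ⁻¹ • (w i - z) - z0)) := by
      rw [smul_sub, smul_smul, mul_inv_cancel₀ hσ.ne', one_smul]
      abel
    rw [e, norm_neg, norm_smul, Real.norm_eq_abs, abs_of_pos hσ]
    nlinarith
  refine (Set.encard_le_encard h1).trans ?_
  rw [Set.encard_coe_eq_coe_finsetCard]
  have h2 : (Z.biUnion fun z0 => Finset.univ.filter fun i => ‖z + σ • z0 - w i‖ < σ).card ≤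
      Z.card * M := Finset.card_biUnion_le_card_mul _ _ _ fun z0 _ => hM' _
  exact_mod_cast h2

theorem join_zero_norm {d : ℕ} {a : E d} (ha : ‖a‖ = 1) : ‖join a 0‖ = 1 := by
  have h := j5_norm_sq a 0
  rw [ha] at h
  have h2 : ‖join a 0‖ ^ 2 = 1 ^ 2 := by rw [h]; norm_num
  exact (sq_eq_sq₀ (norm_nonneg _) (by norm_num)).1 h2

theorem TT_orth {d : ℕ} {a : E (d + 1)} {A : E d →ₗᵢ[ℝ] E (d + 1)} (h : Orth a A)
    (x : E (d + 1)) : ⟪TT A x, join a 0⟫ = 0 := by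
  obtain ⟨z, rfl⟩ := (joinL d).surjective x
  rw [joinL_apply, TT_join, j5_inner, h.orth]
  simp

theorem sum_drop {ι M : Type*} [Fintype ι] [AddCommMonoid M] (P : ι → Prop) [DecidablePred P]
    [Fintype {i // P i}] (f : ι → M) (h : ∀ i, ¬ P i → f i = 0) :
    ∑ i : {i // P i}, f i = ∑ i, f i := by
  rw [← Finset.sum_subtype (Finset.univ.filter P) (by simp) f, Finset.sum_filter]
  refine Finset.sum_congr rfl fun i _ => ?_
  split_ifs with hi
  · rfl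
  · exact (h i hi).symm

/-- The row, for a fixed index set without empty strips. -/
theorem narrow_aux (d : ℕ) (p : ℝ) (hp : 2 ≤ p) (B : ℝ) (hB : 1 ≤ B) (D : ℝ≥0∞) (σ : ℝ)
    (hσ : 0 < σ) (hσ1 : σ ≤ 1) (M : ℕ) {Z : Finset (E (d + 1))}
    (hZ : ∀ y : E (d + 1), ‖y‖ ≤ 1 + 2 * B → ∃ z ∈ Z, ‖y - z‖ < 1)
    (H : ∀ (ι : Type) [Fintype ι] (c : ι → E d) (F : ι → E (d + 1) → ℂ),
      (∀ i, ‖c i‖ ≤ B + 3 * B ^ 2) →
      (∀ z, {i | ‖z - c i‖ < σ}.encard ≤ (Z.card * M : ℕ)) →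
      (∀ i, Sp (Np (c i) ((B + 3 * B ^ 2) * σ) ((B + 3 * B ^ 2) * σ ^ 2)) (F i)) →
      Lq p (fun ξ => ∑ i, F i ξ) ≤ D * ∑ i, Lq p (F i))
    (ι : Type) [Fintype ι] (a : E (d + 1)) (b : ℝ) (w : ι → E (d + 1))
    (G : ι → E (d + 2) → ℂ) (ha : ‖a‖ = 1) (hb : |b| ≤ B) (hw : ∀ i, ‖w i‖ ≤ B)
    (hM : ∀ z, {i | ‖z - w i‖ < σ}.encard ≤ M) (hG : ∀ i, Sp (Ns a b (w i) B σ) (G i))
    (hne : ∀ i, (Ns a b (w i) B σ).Nonempty) :
    Lq p (fun ξ => ∑ i, G i ξ) ≤ D * ∑ i, Lq p (G i) := by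
  obtain ⟨A, hA⟩ := Orth.exists ha
  have hΨ := CY.spl_mp (TT A) (join a 0) (join_zero_norm ha) (TT_orth hA)
  refine CY.cyl_gen (μ := (volume : Measure (E (d + 1)))) (ν := (volume : Measure ℝ)) hΨ hp
    Finset.univ (fun i _ => (hG i).continuous.measurable) D fun s => ?_
  have h1 := H ι (fun i => ContinuousLinearMap.adjoint A.toContinuousLinearMap (w i))
    (fun i ξ => G i (TT A ξ + s • join a 0) * chr (-join 0 (b ^ 2)) ξ)
    (fun i => (adj_norm_le hA _).trans ((hw i).trans (by nlinarith))) ?_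
    (fun i => slice_spec hA hB hb hσ hσ1 (hG i) s)
  · unfold Lq at h1
    have e1 : ∀ ξ, ∑ i, G i (TT A ξ + s • join a 0) * chr (-join 0 (b ^ 2)) ξ =
        (∑ i, G i (TT A ξ + s • join a 0)) * chr (-join 0 (b ^ 2)) ξ := fun ξ =>
      (Finset.sum_mul _ _ _).symm
    have e2 : ∀ (c : ℂ) (ξ : E (d + 1)), ‖c * chr (-join 0 (b ^ 2)) ξ‖ₑ = ‖c‖ₑ := fun c ξ => by
      rw [enorm_mul]
      have : ‖chr (-join 0 (b ^ 2)) ξ‖ₑ = 1 := by
        rw [← ofReal_norm, norm_chr, ENNReal.ofReal_one]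
      rw [this, mul_one]
    simp only [e1, e2] at h1
    exact h1
  · intro z
    refine overlap hZ w hσ M hM _ (A z + b • a) fun i hi => ?_
    have hi' : ‖z - ContinuousLinearMap.adjoint A.toContinuousLinearMap (w i)‖ < σ := hi
    obtain ⟨x, η, τ, rfl, h2, h3, h4⟩ := hne i
    have h5 : |⟪a, w i⟫ - b| ≤ 2 * B * σ := by
      have e : ⟪a, w i⟫ - b = (⟪a, η⟫ - b) - ⟪a, η - w i⟫ := by
        rw [inner_sub_right]
        ring
      rw [e]
      refine (abs_sub _ _).trans ?_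
      have h6 : |⟪a, η - w i⟫| ≤ B * σ := by
        refine (abs_real_inner_le_norm _ _).trans ?_
        rw [ha, one_mul]
        exact h2
      have h7 : B * σ ^ 2 ≤ B * σ := by nlinarith [mul_pos (by linarith : 0 < B) hσ]
      linarith
    have e : w i - (A z + b • a) =
        A (ContinuousLinearMap.adjoint A.toContinuousLinearMap (w i) - z) +
          (⟪a, w i⟫ - b) • a := by
      conv_lhs => rw [hA.split (w i)]
      rw [map_sub, sub_smul]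
      abel
    rw [e]
    refine (norm_add_le _ _).trans ?_
    rw [A.norm_map, norm_smul, ha, mul_one, Real.norm_eq_abs, norm_sub_rev]
    nlinarith

end NAR

/-- Row NARROW over the statement of row REGROUP in dimension `d`. -/
theorem narrow_of (d : ℕ) (p : ℝ) (hp : 2 ≤ p)
    (hreg : ∀ (A : ℝ), 1 ≤ A → ∀ (M : ℕ) (ε : ℝ), 0 < ε → ∃ C : ℝ≥0∞, C ≠ ⊤ ∧
      ∀ ρ : ℝ, 0 < ρ → ρ ≤ 1 →
      ∀ (ι : Type) [Fintype ι] (c : ι → E d) (F : ι → E (d + 1) → ℂ), (∀ i, ‖c i‖ ≤ A) →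
        (∀ z, {i | ‖z - c i‖ < ρ}.encard ≤ M) →
        (∀ i, Sp (Np (c i) (A * ρ) (A * ρ ^ 2)) (F i)) →
        Lq p (fun ξ => ∑ i, F i ξ) ≤ C * ENNReal.ofReal (ρ ^ (-ε)) * ∑ i, Lq p (F i))
    (A : ℝ) (hA : 1 ≤ A) (M : ℕ)
    (ε : ℝ) (hε : 0 < ε) : ∃ C : ℝ≥0∞, C ≠ ⊤ ∧ ∀ σ : ℝ, 0 < σ → σ ≤ 1 →
    ∀ (ι : Type) [Fintype ι] (a : E (d + 1)) (b : ℝ) (w : ι → E (d + 1))
      (G : ι → E (d + 2) → ℂ), ‖a‖ = 1 → |b| ≤ A → (∀ i, ‖w i‖ ≤ A) →
      (∀ z, {i | ‖z - w i‖ < σ}.encard ≤ M) → (∀ i, Sp (Ns a b (w i) A σ) (G i)) →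
      Lq p (fun ξ => ∑ i, G i ξ) ≤ C * ENNReal.ofReal (σ ^ (-ε)) * ∑ i, Lq p (G i) := by
  classical
  obtain ⟨Z, hZ⟩ := NAR.cover (d + 1) (1 + 2 * A)
  obtain ⟨C, hC, H⟩ := hreg (A + 3 * A ^ 2) (by nlinarith) (Z.card * M) ε hε
  refine ⟨C, hC, fun σ hσ hσ1 ι _ a b w G ha hb hw hM hG => ?_⟩
  have h0 : ∀ i, ¬ (Ns a b (w i) A σ).Nonempty → ∀ ξ, G i ξ = 0 := fun i hi =>
    NAR.sp_empty (hG i) hi
  have h1 := NAR.narrow_aux d p hp A hA (C * ENNReal.ofReal (σ ^ (-ε))) σ hσ hσ1 M hZ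
    (H σ hσ hσ1) {i // (Ns a b (w i) A σ).Nonempty} a b (fun i => w i) (fun i => G i) ha hb
    (fun i => hw i) (fun z => ?_) (fun i => hG i) fun i => i.2
  · have e1 : ∀ ξ, ∑ i : {i // (Ns a b (w i) A σ).Nonempty}, G i ξ = ∑ i, G i ξ := fun ξ =>
      NAR.sum_drop (fun i => (Ns a b (w i) A σ).Nonempty) (fun i => G i ξ) fun i hi => h0 i hi ξ
    have e2 : ∑ i : {i // (Ns a b (w i) A σ).Nonempty}, Lq p (G i) = ∑ i, Lq p (G i) := by
      refine NAR.sum_drop (fun i => (Ns a b (w i) A σ).Nonempty) (fun i => Lq p (G i))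
        fun i hi => ?_
      have hp0 : 0 < p := by linarith
      simp [Lq, h0 i hi, hp0]
    simp only [e1] at h1
    rwa [e2] at h1
  · refine le_trans ?_ (hM z)
    have h2 : {i : {i // (Ns a b (w i) A σ).Nonempty} | ‖z - w i‖ < σ} =
        Subtype.val ⁻¹' {i | ‖z - w i‖ < σ} := rfl
    rw [h2, ← Subtype.val_injective.encard_image]
    exact Set.encard_le_encard (image_preimage_subset _ _)

theorem narrow (d : ℕ) (p : ℝ) (hp : 2 ≤ p) (h : DecAll d p) (A : ℝ) (hA : 1 ≤ A) (M : ℕ)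
    (ε : ℝ) (hε : 0 < ε) : ∃ C : ℝ≥0∞, C ≠ ⊤ ∧ ∀ σ : ℝ, 0 < σ → σ ≤ 1 →
    ∀ (ι : Type) [Fintype ι] (a : E (d + 1)) (b : ℝ) (w : ι → E (d + 1))
      (G : ι → E (d + 2) → ℂ), ‖a‖ = 1 → |b| ≤ A → (∀ i, ‖w i‖ ≤ A) →
      (∀ z, {i | ‖z - w i‖ < σ}.encard ≤ M) → (∀ i, Sp (Ns a b (w i) A σ) (G i)) →
      Lq p (fun ξ => ∑ i, G i ξ) ≤ C * ENNReal.ofReal (σ ^ (-ε)) * ∑ i, Lq p (G i) :=
  narrow_of d p hp (fun A hA M ε hε => regroup d p hp h A hA M ε hε) A hA M ε hε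

end Pool.Agent.DEC
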