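import Pool.Agent.DEC.INT
import Pool.Agent.DEC.BGL
import Pool.Agent.DEC.NARROW
import Pool.Agent.DEC.GEOM

/-!
# [DEC] Row INT: the Bourgain-Guth split, integrated over all balls.
-/

set_option autoImplicit false

namespace Pool.Agent.DEC

open MeasureTheory Set Filter Topology Pool.Agent.MP_6cbfb8_an
open scoped ENNReal Real RealInnerProductSpace SchwartzMap Pointwise

theorem bg_int (d : ℕ) (p : ℝ) (hp : 2 ≤ p) (h : DecAll d p) (η : E (d + 2) → ℂ) (hη : IsEta η)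
    (ε : ℝ) (hε : 0 < ε) : ∃ (C : ℝ≥0∞) (σ0 κ0 : ℝ), C ≠ ⊤ ∧ 0 < σ0 ∧ 0 < κ0 ∧
    ∀ (σ : ℝ) (m : ℕ), 0 < σ → σ ≤ σ0 → ∃ Cσ : ℝ≥0∞, Cσ ≠ ⊤ ∧
    ∀ (T A : Type) [Fintype T] [Fintype A] [DecidableEq A] (z : T → E (d + 1))
      (w : A → E (d + 1)) (g : T → A) (F : T → E (d + 2) → ℂ), Fintype.card T ≤ m →
      (∀ τ, ‖z τ‖ ≤ 1) → (∀ α, ‖w α‖ ≤ 1) → (∀ i j, i ≠ j → σ / 2 ≤ ‖w i - w j‖) →
      (∀ τ, ‖z τ - w (g τ)‖ ≤ σ) → (∀ τ, Sp (Np (z τ) (3 * σ ^ 2) (2 * σ ^ 2)) (F τ)) →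
      Lq p (fun ξ => ∑ τ, F τ ξ) ≤
        C * ENNReal.ofReal (σ ^ (-ε)) *
          (∑ α, Lq p (fun ξ => ∑ τ with g τ = α, F τ ξ) + ∑ τ, Lq p (F τ)) +
        Cσ * ∑ s : Fin (d + 2) → T with κ0 * σ ^ (2 * (d + 2)) ≤ |dt fun j => Nrm (z (s j))|,
          (∫⁻ b, ∏ j, (∫⁻ ξ, ‖bump η b (σ ^ 2)⁻¹ ξ * F (s j) ξ‖ₑ ^ p) ^
            (1 / ((d : ℝ) + 2))) ^ (2 / p) :=
  bg_int_of d p hp η hη ε (bg_loc_of d p hp (fun A hA M ε hε => narrow d p hp h A hA M ε hε)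
    (geom (d + 1) (by omega)) η hη ε hε)

end Pool.Agent.DEC
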