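import Pool.Agent.DEC.DSK0
import Pool.Agent.DEC.NET

/-!
Geometry of the caps in the broad case.
-/

set_option autoImplicit false

namespace Pool.Agent.DEC

open MeasureTheory Set Filter Topology Metric Pool.Agent.MP_6cbfb8_an
open scoped ENNReal Real RealInnerProductSpace Pointwise

theorem bj_sub {d : ℕ} (x y : E d) (s t : ℝ) : join x s - join y t = join (x - y) (s - t) := by
  ext i
  refine Fin.lastCases ?_ (fun j => ?_) i <;> simp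

theorem bj_norm_le {d : ℕ} {x : E d} {s a b t : ℝ} (hx : ‖x‖ ≤ a) (hs : |s| ≤ b)
    (h : a ^ 2 + b ^ 2 ≤ t ^ 2) (ht : 0 ≤ t) : ‖join x s‖ ≤ t := by
  have h1 := GNP.j5_norm_sq x s
  refine abs_le_of_sq_le_sq' ?_ ht |>.2
  rw [h1, ← sq_abs s]
  nlinarith [norm_nonneg x, abs_nonneg s]

theorem bj_fst_le {d : ℕ} (x : E d) (s : ℝ) : ‖x‖ ≤ ‖join x s‖ := by
  have h1 := GNP.j5_norm_sq x s
  refine abs_le_of_sq_le_sq' ?_ (norm_nonneg _) |>.2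
  rw [h1]
  nlinarith [sq_nonneg s]

theorem np_ball {d : ℕ} {c : E d} (hc : ‖c‖ ≤ 1) {ρ : ℝ} (hρ : 0 < ρ) (hρ1 : ρ ≤ 1) :
    Np c (2 * ρ) (2 * ρ ^ 2) ⊆ closedBall (join c (‖c‖ ^ 2)) (12 * ρ) := by
  rintro x ⟨η, τ, rfl, h1, h2⟩
  rw [mem_closedBall, dist_eq_norm, bj_sub]
  have h3 : ‖η‖ ≤ ‖c‖ + 2 * ρ := by
    have := norm_le_norm_add_norm_sub' η c
    linarith
  have h4 : |‖η‖ - ‖c‖| ≤ 2 * ρ := (abs_norm_sub_norm_le η c).trans h1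
  have h5 : |τ - ‖c‖ ^ 2| ≤ 10 * ρ := by
    have e1 : τ - ‖c‖ ^ 2 = (τ - ‖η‖ ^ 2) + (‖η‖ - ‖c‖) * (‖η‖ + ‖c‖) := by ring
    rw [e1]
    refine (abs_add_le _ _).trans ?_
    rw [abs_mul, abs_of_nonneg (by positivity : 0 ≤ ‖η‖ + ‖c‖)]
    have h6 : |‖η‖ - ‖c‖| * (‖η‖ + ‖c‖) ≤ 2 * ρ * 4 :=
      mul_le_mul h4 (by linarith) (by positivity) (by positivity)
    nlinarith
  refine bj_norm_le h1 h5 ?_ (by positivity)
  nlinarith [sq_nonneg ρ]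

theorem np_mono {d : ℕ} {c z : E d} {ρ δ b : ℝ} (h1 : ‖c - z‖ ≤ δ / 2) (h2 : 2 * ρ ≤ δ / 2) :
    Np c (2 * ρ) b ⊆ Np z δ b := by
  rintro x ⟨η, τ, rfl, h3, h4⟩
  refine ⟨η, τ, rfl, ?_, h4⟩
  calc ‖η - z‖ = ‖(η - c) + (c - z)‖ := by congr 1; abel
    _ ≤ ‖η - c‖ + ‖c - z‖ := norm_add_le _ _
    _ ≤ δ := by linarith

theorem np_H {d : ℕ} {z : E d} {δ ρ r : ℝ} (hr : 0 < r) (hρr : ρ ^ 2 * r ≤ δ)
    {x x' : E (d + 1)} (hx : x ∈ Np z δ (2 * ρ ^ 2)) (hx' : x' ∈ Np z δ (2 * ρ ^ 2))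
    (h : ‖x - x'‖ ≤ 1 / r) : |⟪x - x', Nrm z⟫| ≤ 6 * δ / r := by
  obtain ⟨η, τ, rfl, h1, h2⟩ := hx
  obtain ⟨η', τ', rfl, h1', h2'⟩ := hx'
  rw [bj_sub] at h ⊢
  have h3 : ‖η - η'‖ ≤ 1 / r := (bj_fst_le _ _).trans h
  rw [Nrm, GNP.j5_inner, mul_one, inner_smul_right]
  have e1 : -2 * ⟪η - η', z⟫ + (τ - τ') = ⟪η - η', (η - z) + (η' - z)⟫ + (τ - ‖η‖ ^ 2) -
      (τ' - ‖η'‖ ^ 2) := by
    have e2 : ⟪η - η', (η - z) + (η' - z)⟫ = ‖η‖ ^ 2 - ‖η'‖ ^ 2 - 2 * ⟪η - η', z⟫ := by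
      simp only [inner_add_right, inner_sub_left, inner_sub_right, real_inner_self_eq_norm_sq,
        real_inner_comm η η']
      ring
    rw [e2]
    ring
  rw [e1]
  have h4 : |⟪η - η', (η - z) + (η' - z)⟫| ≤ 1 / r * (2 * δ) := by
    refine (abs_real_inner_le_norm _ _).trans ?_
    refine mul_le_mul h3 ?_ (norm_nonneg _) (by positivity)
    refine (norm_add_le _ _).trans ?_
    linarith
  have h5 : 4 * ρ ^ 2 ≤ 4 * δ / r := by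
    rw [le_div_iff₀ hr]
    linarith
  have h6 := abs_le.1 h4
  have h7 := abs_le.1 h2
  have h8 := abs_le.1 h2'
  have e3 : 6 * δ / r = 1 / r * (2 * δ) + 4 * δ / r := by ring
  rw [e3, abs_le]
  constructor <;> linarith [h6.1, h6.2, h7.1, h7.2, h8.1, h8.2]

theorem nrm_one_le {d : ℕ} (z : E d) : 1 ≤ ‖Nrm z‖ := by
  have h1 := GNP.j5_norm_sq (-(2 : ℝ) • z) 1
  rw [Nrm]
  refine abs_le_of_sq_le_sq' ?_ (norm_nonneg _) |>.2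
  rw [h1]
  nlinarith [sq_nonneg ‖(-(2 : ℝ) • z)‖]

theorem nrm_le {d : ℕ} {z : E d} (hz : ‖z‖ ≤ 1) : ‖Nrm z‖ ≤ 6 := by
  refine bj_norm_le (a := 2) (b := 1) ?_ (by norm_num) (by norm_num) (by norm_num)
  rw [norm_smul]
  norm_num
  linarith

theorem card_cap (d : ℕ) : ∃ Q : ℕ, ∀ (ι : Type) [Fintype ι] (c : ι → E d) (ρ : ℝ) (s : Finset ι),
    0 < ρ → (∀ i j, i ≠ j → ρ ≤ ‖c i - c j‖) → ∀ i,
      {j | j ∈ s ∧ ‖join (c i) (‖c i‖ ^ 2) - join (c j) (‖c j‖ ^ 2)‖ ≤ 40 * ρ}.encard ≤ Q := by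
  classical
  obtain ⟨C, hC, h⟩ := card_sep d 1 zero_le_one
  refine ⟨⌈C * ((1 / 40 : ℝ) ^ d)⁻¹⌉₊, fun ι _ c ρ s hρ hsep i => ?_⟩
  set W : Finset ι := s.filter fun j =>
    ‖join (c i) (‖c i‖ ^ 2) - join (c j) (‖c j‖ ^ 2)‖ ≤ 40 * ρ with hW
  have e1 : {j | j ∈ s ∧ ‖join (c i) (‖c i‖ ^ 2) - join (c j) (‖c j‖ ^ 2)‖ ≤ 40 * ρ} =
      (W : Set ι) := by
    ext j
    simp [hW]
  rw [e1, Set.encard_coe_eq_coe_finsetCard]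
  have h1 := h {j // j ∈ W} (fun j => (40 * ρ)⁻¹ • c j.1) ((40 * ρ)⁻¹ • c i) (1 / 40) (by norm_num)
    (by norm_num) (fun j => ?_) (fun j k hjk => ?_)
  · rw [Fintype.card_coe] at h1
    exact_mod_cast h1.trans (Nat.le_ceil _)
  · have h2 : ‖join (c i) (‖c i‖ ^ 2) - join (c j.1) (‖c j.1‖ ^ 2)‖ ≤ 40 * ρ :=
      (Finset.mem_filter.1 j.2).2
    rw [bj_sub] at h2
    have h3 : ‖c i - c j.1‖ ≤ 40 * ρ := (bj_fst_le _ _).trans h2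
    rw [← smul_sub, norm_smul, norm_inv, Real.norm_eq_abs, abs_of_pos (by positivity),
      inv_mul_le_iff₀ (by positivity), norm_sub_rev]
    linarith
  · have h3 := hsep j.1 k.1 fun h0 => hjk (Subtype.ext h0)
    rw [← smul_sub, norm_smul, norm_inv, Real.norm_eq_abs, abs_of_pos (by positivity),
      le_inv_mul_iff₀ (by positivity)]
    linarith

end Pool.Agent.DEC
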