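import Pool.Agent.DEC.Mink
import Mathlib.MeasureTheory.Measure.Haar.InnerProductSpace
import Mathlib.MeasureTheory.Measure.Lebesgue.VolumeOfBalls

/-!
The Hölder and averaging part of the broad case.
-/

namespace Pool.Agent.DEC

open MeasureTheory Set Metric
open scoped ENNReal Real

/-- Averaging over balls. -/
theorem avg_ball {V : Type*} [NormedAddCommGroup V] [MeasurableSpace V] [BorelSpace V]
    [SecondCountableTopology V] (μ : Measure V) [SFinite μ] [μ.IsAddHaarMeasure]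
    (G : V → ℝ≥0∞) (hG : Measurable G) (R : ℝ) :
    ∫⁻ y0, ∫⁻ y in ball y0 R, G y ∂μ ∂μ = μ (ball 0 R) * ∫⁻ y, G y ∂μ := by
  have h1 : ∀ y0, ∫⁻ y in ball y0 R, G y ∂μ = ∫⁻ y, (ball y0 R).indicator G y ∂μ := fun y0 =>
    (lintegral_indicator measurableSet_ball _).symm
  simp_rw [h1]
  have hm : Measurable (Function.uncurry fun y0 y : V => (ball y0 R).indicator G y) := by
    have hs : MeasurableSet {q : V × V | dist q.2 q.1 < R} :=
      (isOpen_lt (by fun_prop) continuous_const).measurableSet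
    have : (Function.uncurry fun y0 y : V => (ball y0 R).indicator G y) =
        {q : V × V | dist q.2 q.1 < R}.indicator fun q => G q.2 := by
      funext q
      simp only [Function.uncurry, indicator, mem_ball, Set.mem_ofPred_eq]
    rw [this]
    exact (hG.comp measurable_snd).indicator hs
  rw [lintegral_lintegral_swap hm.aemeasurable]
  have h2 : ∀ y, ∫⁻ y0, (ball y0 R).indicator G y ∂μ = μ (ball 0 R) * G y := by
    intro y
    have h3 : ∀ y0, (ball y0 R).indicator G y = (ball y R).indicator (fun _ => G y) y0 := by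
      intro y0
      simp only [indicator, mem_ball, dist_comm]
    simp_rw [h3]
    rw [lintegral_indicator measurableSet_ball, setLIntegral_const, mul_comm]
    congr 1
    rw [← Measure.addHaar_ball_center μ y R]
  simp_rw [h2]
  rw [lintegral_const_mul _ hG]

/-- Jensen on a set, for a power at most one. -/
theorem jensen_le {Y : Type*} [MeasurableSpace Y] (μ : Measure Y) (G : Y → ℝ≥0∞)
    (hG : AEMeasurable G μ) {s : ℝ} (hs0 : 0 < s) (hs : s ≤ 1) :
    ∫⁻ y, G y ^ s ∂μ ≤ μ univ ^ (1 - s) * (∫⁻ y, G y ∂μ) ^ s := by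
  rcases hs.eq_or_lt with rfl | hs1
  · simp
  · have h := ENNReal.lintegral_mul_le_Lp_mul_Lq μ (p := 1 / s) (q := 1 / (1 - s))
      (by
        rw [Real.holderConjugate_iff]
        refine ⟨?_, ?_⟩
        · rw [lt_div_iff₀ hs0]
          linarith
        · simp) (f := fun y => G y ^ s) (g := fun _ => 1) (hG.pow_const _) aemeasurable_const
    simp only [Pi.mul_apply, mul_one] at h
    refine h.trans (le_of_eq ?_)
    have h1 : ∀ y, (G y ^ s) ^ (1 / s) = G y := fun y => by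
      rw [← ENNReal.rpow_mul, mul_one_div_cancel hs0.ne', ENNReal.rpow_one]
    simp_rw [h1]
    rw [ENNReal.one_rpow, lintegral_one, one_div_one_div, one_div_one_div, mul_comm]

/-- The broad case: from balls of radius `R` to the whole space, and from the critical exponent to
`p`. -/
theorem broad_core {n : ℕ} (hn : 2 ≤ n) {V : Type*} [NormedAddCommGroup V] [MeasurableSpace V]
    [BorelSpace V] [SecondCountableTopology V] (μ : Measure V) [SFinite μ] [μ.IsAddHaarMeasure]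
    {p : ℝ} (hp : 2 ≤ p) (hp2 : p ≤ 2 * n / (n - 1)) {ι : Type*} (S : Finset ι)
    (Q : Fin n → V → ℝ≥0∞) (hQ : ∀ j, Measurable (Q j)) (b : ι → V → ℝ≥0∞)
    (hb : ∀ i ∈ S, Measurable (b i)) (R : ℝ) (hR : 0 < R) (hfin : μ (ball 0 R) ≠ ∞)
    (C1 C2 : ℝ≥0∞)
    (h : ∀ y0, ∫⁻ y in ball y0 R, ∏ j, Q j y ^ (1 / ((n : ℝ) - 1)) ∂μ ≤
      C1 * ∏ _j : Fin n, (C2 * ∑ i ∈ S, b i y0 ^ (2 / p)) ^ (1 / ((n : ℝ) - 1))) :
    ∫⁻ y, ∏ j, Q j y ^ (p / (2 * n)) ∂μ ≤
      ((μ (ball 0 R))⁻¹ * C1) ^ (p * (n - 1) / (2 * n)) * C2 ^ (p / 2) *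
        (∑ i ∈ S, (∫⁻ y, b i y ∂μ) ^ (2 / p)) ^ (p / 2) := by
  have hn0 : (2 : ℝ) ≤ n := by exact_mod_cast hn
  have hn1 : (0 : ℝ) < n - 1 := by linarith
  have hp0 : 0 < p := by linarith
  set s : ℝ := p * (n - 1) / (2 * n) with hs
  have hs0 : 0 < s := by positivity
  have hs1 : s ≤ 1 := by
    rw [hs, div_le_one (by positivity)]
    rw [le_div_iff₀ hn1] at hp2
    exact hp2
  set v : ℝ≥0∞ := μ (ball 0 R) with hv
  have hv0 : v ≠ 0 := (measure_ball_pos μ 0 hR).ne'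
  have hm1 : ∀ c : ℝ, Measurable fun y => ∏ j, Q j y ^ c := fun c =>
    Finset.measurable_prod _ fun j _ => (hQ j).pow_const _
  -- one ball
  have hball : ∀ y0, ∫⁻ y in ball y0 R, ∏ j, Q j y ^ (p / (2 * n)) ∂μ ≤
      v ^ (1 - s) * (C1 ^ s * C2 ^ (p / 2)) * (∑ i ∈ S, b i y0 ^ (2 / p)) ^ (p / 2) := by
    intro y0
    have e1 : ∀ y, ∏ j, Q j y ^ (p / (2 * n)) = (∏ j, Q j y ^ (1 / ((n : ℝ) - 1))) ^ s := by
      intro y
      rw [← ENNReal.prod_rpow_of_nonneg hs0.le]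
      refine Finset.prod_congr rfl fun j _ => ?_
      rw [← ENNReal.rpow_mul]
      congr 1
      rw [hs]
      field_simp
    simp_rw [e1]
    refine (jensen_le _ _ (hm1 _).aemeasurable hs0 hs1).trans ?_
    rw [Measure.restrict_apply_univ, Measure.addHaar_ball_center μ y0 R, ← hv, mul_assoc]
    gcongr
    calc (∫⁻ y in ball y0 R, ∏ j, Q j y ^ (1 / ((n : ℝ) - 1)) ∂μ) ^ s
        ≤ (C1 * ∏ _j : Fin n, (C2 * ∑ i ∈ S, b i y0 ^ (2 / p)) ^ (1 / ((n : ℝ) - 1))) ^ s :=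
          ENNReal.rpow_le_rpow (h y0) hs0.le
      _ = C1 ^ s * C2 ^ (p / 2) * (∑ i ∈ S, b i y0 ^ (2 / p)) ^ (p / 2) := by
          rw [ENNReal.mul_rpow_of_nonneg _ _ hs0.le, Finset.prod_const, Finset.card_univ,
            Fintype.card_fin, ← ENNReal.rpow_natCast, ← ENNReal.rpow_mul, ← ENNReal.rpow_mul,
            show 1 / ((n : ℝ) - 1) * (n * s) = p / 2 by rw [hs]; field_simp,
            ENNReal.mul_rpow_of_nonneg _ _ (by positivity), mul_assoc]
  -- average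
  have havg := avg_ball μ (fun y => ∏ j, Q j y ^ (p / (2 * n))) (hm1 _) R
  rw [← hv] at havg
  have h5 : v * ∫⁻ y, ∏ j, Q j y ^ (p / (2 * n)) ∂μ ≤
      v ^ (1 - s) * (C1 ^ s * C2 ^ (p / 2)) *
        (∑ i ∈ S, (∫⁻ y, b i y ∂μ) ^ (2 / p)) ^ (p / 2) := by
    rw [← havg]
    refine (lintegral_mono hball).trans ?_
    rw [lintegral_const_mul _ ((Finset.measurable_sum _ fun i hi =>
      (hb i hi).pow_const _).pow_const _)]
    gcongr
    exact mink_b μ S b (fun i hi => (hb i hi).aemeasurable) hp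
  have h6 : ∫⁻ y, ∏ j, Q j y ^ (p / (2 * n)) ∂μ = v⁻¹ * (v * ∫⁻ y, ∏ j, Q j y ^ (p / (2 * n)) ∂μ) := by
    rw [← mul_assoc, ENNReal.inv_mul_cancel hv0 hfin, one_mul]
  rw [h6]
  refine (mul_le_mul_right h5 _).trans (le_of_eq ?_)
  rw [← mul_assoc, ← mul_assoc, ← mul_assoc]
  congr 2
  have h7 : v⁻¹ * v ^ (1 - s) = v⁻¹ ^ s := by
    rw [ENNReal.inv_rpow, ← ENNReal.rpow_neg, ← ENNReal.rpow_neg_one, ← ENNReal.rpow_add _ _ hv0 hfin]
    congr 1
    ring
  rw [h7, ENNReal.mul_rpow_of_nonneg _ _ hs0.le]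

end Pool.Agent.DEC
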