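import Pool.Agent.DEC.BStart
import Pool.Agent.DEC.BroadCore

/-!
Weighted means: Hölder, integration over the centre, comparison of scales.
-/

set_option autoImplicit false

namespace Pool.Agent.DEC

open MeasureTheory Set Filter Topology Metric Pool.Agent.MP_6cbfb8_an
open scoped ENNReal Real RealInnerProductSpace Pointwise

/-- The weighted mean of `|F|^p` at scale `r`. -/
noncomputable def PP {n : ℕ} (p : ℝ) (M : ℕ) (r : ℝ) (F : E n → ℂ) (y : E n) : ℝ≥0∞ :=
  ENNReal.ofReal (r ^ n)⁻¹ * ∫⁻ ξ, ‖F ξ‖ₑ ^ p * pw M r y ξ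

/-- The integral of the weight. -/
noncomputable def IM (n M : ℕ) : ℝ≥0∞ := ∫⁻ x : E n, ENNReal.ofReal (((1 + ‖x‖ ^ 2) ^ M)⁻¹)

theorem im_integrable {n M : ℕ} (hM : n < 2 * M) :
    Integrable fun x : E n => ((1 + ‖x‖ ^ 2) ^ M)⁻¹ := by
  have h := integrable_rpow_neg_one_add_norm_sq (E := E n) (μ := volume) (r := 2 * M)
    (by rw [finrank_euclideanSpace_fin]; exact_mod_cast hM)
  refine h.congr (Eventually.of_forall fun x => ?_)
  simp only
  rw [show -(2 * (M : ℝ)) / 2 = -(M : ℝ) by ring, Real.rpow_neg (by positivity), Real.rpow_natCast]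

theorem im_ne_top {n M : ℕ} (hM : n < 2 * M) : IM n M ≠ ∞ :=
  (im_integrable hM).lintegral_lt_top.ne

theorem pw_measurable {n : ℕ} (M : ℕ) (r : ℝ) :
    Measurable fun q : E n × E n => pw M r q.1 q.2 := by
  unfold pw
  fun_prop

theorem pw_meas {n : ℕ} (M : ℕ) (r : ℝ) (y : E n) : Measurable fun ξ => pw M r y ξ := by
  unfold pw
  fun_prop

theorem pw_meas' {n : ℕ} (M : ℕ) (r : ℝ) (ξ : E n) : Measurable fun y => pw M r y ξ := by
  unfold pw
  fun_prop

theorem pw_comm {n : ℕ} (M : ℕ) (r : ℝ) (y ξ : E n) : pw M r y ξ = pw M r ξ y := by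
  unfold pw
  rw [norm_sub_rev]

theorem pw_int {n M : ℕ} (hM : n < 2 * M) {r : ℝ} (hr : 0 < r) (y : E n) :
    ∫⁻ ξ, pw M r y ξ = ENNReal.ofReal (r ^ n) * IM n M := by
  have e6 := lintegral_sub_right_eq_self (μ := (volume : Measure (E n)))
    (fun z : E n => ENNReal.ofReal (((1 + ‖z‖ ^ 2 / r ^ 2) ^ M)⁻¹)) y
  have e7 : ∫⁻ ξ, pw M r y ξ = ∫⁻ z : E n, ENNReal.ofReal (((1 + ‖r⁻¹ • z‖ ^ 2) ^ M)⁻¹) := by
    unfold pw
    rw [e6]
    refine lintegral_congr fun z => ?_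
    rw [norm_smul, norm_inv, Real.norm_eq_abs, abs_of_pos hr, mul_pow, inv_pow]
    congr 4
    ring
  rw [e7, IM]
  have e8 : ∀ z : E n, 0 ≤ ((1 + ‖z‖ ^ 2) ^ M)⁻¹ := fun z => by positivity
  have e9 := Measure.integral_comp_smul (volume : Measure (E n))
    (fun z : E n => ((1 + ‖z‖ ^ 2) ^ M)⁻¹) r⁻¹
  rw [← ofReal_integral_eq_lintegral_ofReal ((im_integrable hM).comp_smul (inv_ne_zero hr.ne'))
      (Eventually.of_forall fun z => e8 _),
    ← ofReal_integral_eq_lintegral_ofReal (im_integrable hM) (Eventually.of_forall fun z => e8 _), e9,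
    ← ENNReal.ofReal_mul (by positivity), smul_eq_mul, finrank_euclideanSpace_fin]
  congr 2
  rw [inv_pow, inv_inv, abs_of_nonneg (by positivity)]

/-- Hölder. -/
theorem p_hoelder {n M : ℕ} (hM : n < 2 * M) {p : ℝ} (hp : 2 ≤ p) {r : ℝ} (hr : 0 < r)
    {F : E n → ℂ} (hF : Continuous F) (y : E n) :
    P M r F y ≤ IM n M ^ (1 - 2 / p) * PP p M r F y ^ (2 / p) := by
  have hp0 : 0 < p := by linarith
  set w : E n → ℝ≥0∞ := fun ξ => ENNReal.ofReal (r ^ n)⁻¹ * pw M r y ξ with hw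
  have hwm : Measurable w := (pw_meas M r y).const_mul _
  set μ : Measure (E n) := volume.withDensity w with hμ
  have hFm : Measurable fun ξ => ‖F ξ‖ₑ := hF.measurable.enorm
  have h1 : μ univ = IM n M := by
    rw [hμ, withDensity_apply _ MeasurableSet.univ, setLIntegral_univ]
    simp only [hw]
    rw [lintegral_const_mul _ (pw_meas M r y), pw_int hM hr y, ← mul_assoc,
      ← ENNReal.ofReal_mul (by positivity), inv_mul_cancel₀ (by positivity), ENNReal.ofReal_one,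
      one_mul]
  have h2 : ∀ q : ℝ, ∫⁻ ξ, ‖F ξ‖ₑ ^ q ∂μ = PP q M r F y := by
    intro q
    rw [hμ, lintegral_withDensity_eq_lintegral_mul _ hwm (hFm.pow_const _)]
    unfold PP
    have hmm : Measurable fun ξ => ‖F ξ‖ₑ ^ q * pw M r y ξ := (hFm.pow_const _).mul (pw_meas M r y)
    rw [← lintegral_const_mul _ hmm]
    refine lintegral_congr fun ξ => ?_
    simp only [Pi.mul_apply, hw]
    ring
  have h3 := jensen_le μ (fun ξ => ‖F ξ‖ₑ ^ p) (hFm.pow_const _).aemeasurable (s := 2 / p)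
    (by positivity) (by rw [div_le_one hp0]; exact hp)
  rw [h1, h2 p] at h3
  refine le_trans (le_of_eq ?_) h3
  have h4 : ∀ ξ, (‖F ξ‖ₑ ^ p) ^ (2 / p) = ‖F ξ‖ₑ ^ (2 : ℝ) := fun ξ => by
    rw [← ENNReal.rpow_mul]
    congr 1
    field_simp
  simp_rw [h4]
  rw [h2 2]
  unfold P PP
  congr 1
  refine lintegral_congr fun ξ => ?_
  congr 1
  exact_mod_cast (ENNReal.rpow_natCast ‖F ξ‖ₑ 2).symm

/-- Integration over the centre. -/
theorem pp_int {n M : ℕ} (hM : n < 2 * M) {p : ℝ} {r : ℝ} (hr : 0 < r) {F : E n → ℂ}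
    (hF : Continuous F) : ∫⁻ y, PP p M r F y = IM n M * ∫⁻ ξ, ‖F ξ‖ₑ ^ p := by
  have hFm : Measurable fun ξ => ‖F ξ‖ₑ := hF.measurable.enorm
  have hm : Measurable (Function.uncurry fun y ξ : E n => ‖F ξ‖ₑ ^ p * pw M r y ξ) :=
    ((hFm.comp measurable_snd).pow_const _).mul (pw_measurable M r)
  have hm2 : Measurable fun y => ∫⁻ ξ, ‖F ξ‖ₑ ^ p * pw M r y ξ := hm.lintegral_prod_right'
  unfold PP
  rw [lintegral_const_mul _ hm2, lintegral_lintegral_swap hm.aemeasurable]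
  have h1 : ∀ ξ, ∫⁻ y, ‖F ξ‖ₑ ^ p * pw M r y ξ = ‖F ξ‖ₑ ^ p * (ENNReal.ofReal (r ^ n) * IM n M) := by
    intro ξ
    rw [lintegral_const_mul _ (pw_meas' M r ξ)]
    congr 1
    rw [← pw_int hM hr ξ]
    exact lintegral_congr fun y => pw_comm M r y ξ
  simp_rw [h1]
  rw [lintegral_mul_const _ (hFm.pow_const _)]
  rw [show ∀ a b c e : ℝ≥0∞, a * (b * (c * e)) = (a * c) * (e * b) from fun a b c e => by ring,
    ← ENNReal.ofReal_mul (by positivity), inv_mul_cancel₀ (by positivity), ENNReal.ofReal_one,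
    one_mul]

theorem pp_measurable {n : ℕ} (p : ℝ) (M : ℕ) (r : ℝ) {F : E n → ℂ} (hF : Continuous F) :
    Measurable (PP p M r F) := by
  have hFm : Measurable fun ξ => ‖F ξ‖ₑ := hF.measurable.enorm
  have hm : Measurable (Function.uncurry fun y ξ : E n => ‖F ξ‖ₑ ^ p * pw M r y ξ) :=
    ((hFm.comp measurable_snd).pow_const _).mul (pw_measurable M r)
  exact hm.lintegral_prod_right'.const_mul _

/-- Comparison of scales. -/
theorem p_scale {n : ℕ} (M : ℕ) {r r' K : ℝ} (hr : 0 < r) (hrr : r ≤ r') (hK : r' ≤ K * r)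
    (F : E n → ℂ) (y : E n) : P M r F y ≤ ENNReal.ofReal (K ^ n) * P M r' F y := by
  have hr' : 0 < r' := by linarith
  have hK0 : 0 < K := by
    by_contra h
    push Not at h
    nlinarith
  unfold P
  rw [← mul_assoc, ← ENNReal.ofReal_mul (by positivity)]
  refine mul_le_mul' (ENNReal.ofReal_le_ofReal ?_) (lintegral_mono fun ξ => ?_)
  · rw [← inv_pow, ← inv_pow, ← mul_pow]
    refine pow_le_pow_left₀ (by positivity) ?_ _
    rw [← div_eq_mul_inv, le_div_iff₀ hr', inv_mul_le_iff₀ hr, mul_comm]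
    exact hK
  · refine mul_le_mul_right ?_ _
    unfold pw
    refine ENNReal.ofReal_le_ofReal (inv_anti₀ (by positivity) (pow_le_pow_left₀ (by positivity) ?_ _))
    gcongr

/-- The local norms are measurable. -/
theorem loc_measurable {n : ℕ} {η : E n → ℂ} (hη : Continuous η) (K p : ℝ) {F : E n → ℂ}
    (hF : Continuous F) : Measurable fun b => ∫⁻ ξ, ‖bump η b K ξ * F ξ‖ₑ ^ p := by
  have hc : Continuous fun q : E n × E n => bump η q.1 K q.2 * F q.2 := by
    unfold bump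
    fun_prop
  exact (hc.measurable.enorm.pow_const p).lintegral_prod_right'

end Pool.Agent.DEC
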