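import Pool.Agent.DEC.NET

/-!
[DEC] row BROAD: splitting of the sets of caps into small groups.
-/

set_option autoImplicit false

namespace Pool.Agent.DEC

open MeasureTheory Set Filter Topology Pool.Agent.MP_6cbfb8_an
open scoped ENNReal Real RealInnerProductSpace SchwartzMap

theorem bsplit_eta_cont {n : ℕ} {η : E n → ℂ} (hη : IsEta η) : Continuous η := by
  obtain ⟨⟨h, -, h2⟩, -⟩ := hη
  have h3 : Sp univ (fun ξ => ∫ x, h x * chr x ξ ∂(volume : Measure (E n))) :=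
    Sp.of_density h.integrable fun x _ => mem_univ x
  have h4 : η = fun ξ => ∫ x, h x * chr x ξ ∂(volume : Measure (E n)) := funext h2
  rw [h4]
  exact h3.continuous

namespace BSPLIT

/-- The local integral of a sum of pieces. -/
noncomputable def I0 {d : ℕ} (p : ℝ) (η : E (d + 1) → ℂ) (K : ℝ) {ι : Type}
    (F : ι → E (d + 1) → ℂ) (T : Finset ι) (b : E (d + 1)) : ℝ≥0∞ :=
  ∫⁻ ξ, ‖bump η b K ξ * ∑ i ∈ T, F i ξ‖ₑ ^ p

theorem cont {d : ℕ} {η : E (d + 1) → ℂ} (hη : Continuous η) (K : ℝ) {ι : Type}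
    {F : ι → E (d + 1) → ℂ} (hF : ∀ i, Continuous (F i)) (T : Finset ι) :
    Continuous fun q : E (d + 1) × E (d + 1) => bump η q.1 K q.2 * ∑ i ∈ T, F i q.2 := by
  refine Continuous.mul ?_ ?_
  · unfold bump
    exact hη.comp (by fun_prop)
  · exact continuous_finsetSum _ fun i _ => (hF i).comp continuous_snd

theorem meas {d : ℕ} (p : ℝ) {η : E (d + 1) → ℂ} (hη : Continuous η) (K : ℝ) {ι : Type}
    {F : ι → E (d + 1) → ℂ} (hF : ∀ i, Continuous (F i)) (T : Finset ι) :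
    Measurable (I0 p η K F T) := by
  unfold I0
  have h : Measurable fun q : E (d + 1) × E (d + 1) =>
      ‖bump η q.1 K q.2 * ∑ i ∈ T, F i q.2‖ₑ ^ p :=
    (cont hη K hF T).enorm.measurable.pow_const p
  exact h.lintegral_prod_right'

theorem empty {d : ℕ} {p : ℝ} (hp : 0 < p) (η : E (d + 1) → ℂ) (K : ℝ) {ι : Type}
    (F : ι → E (d + 1) → ℂ) (b : E (d + 1)) : I0 p η K F ∅ b = 0 := by
  unfold I0
  simp [ENNReal.zero_rpow_of_pos hp]

/-- Powers of finite sums, exponent at most one. -/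
theorem rpow_sum_le {ι : Type} (s : Finset ι) (f : ι → ℝ≥0∞) {a : ℝ} (ha : 0 < a) (ha1 : a ≤ 1) :
    (∑ i ∈ s, f i) ^ a ≤ ∑ i ∈ s, f i ^ a := by
  classical
  induction s using Finset.induction_on with
  | empty => simp [ENNReal.zero_rpow_of_pos ha]
  | insert j s hj ih =>
    rw [Finset.sum_insert hj, Finset.sum_insert hj]
    exact (ENNReal.rpow_add_le_add_rpow _ _ ha.le ha1).trans (add_le_add le_rfl ih)

/-- One factor. -/
theorem split {d : ℕ} {p : ℝ} (hp : 1 ≤ p) {η : E (d + 1) → ℂ} (hη : Continuous η) (K : ℝ)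
    {ι : Type} {F : ι → E (d + 1) → ℂ} (hF : ∀ i, Continuous (F i)) (S T : Finset ι) (g : ι → ι)
    [DecidableEq ι] (hg : ∀ i, g i ∈ T) {N : ℕ} (hN : T.card ≤ N) (b : E (d + 1)) :
    I0 p η K F S b ≤ (N : ℝ≥0∞) ^ (p - 1) * ∑ k ∈ T, I0 p η K F (S.filter fun i => g i = k) b := by
  have h1 : ∀ ξ, ‖bump η b K ξ * ∑ i ∈ S, F i ξ‖ₑ ^ p ≤ (N : ℝ≥0∞) ^ (p - 1) *
      ∑ k ∈ T, ‖bump η b K ξ * ∑ i ∈ S.filter (fun i => g i = k), F i ξ‖ₑ ^ p := by
    intro ξ
    have e : bump η b K ξ * ∑ i ∈ S, F i ξ =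
        ∑ k ∈ T, bump η b K ξ * ∑ i ∈ S.filter (fun i => g i = k), F i ξ := by
      rw [← Finset.mul_sum, Finset.sum_fiberwise_of_maps_to (fun i _ => hg i)]
    rw [e]
    refine (ENNReal.rpow_le_rpow (enorm_sum_le _ _) (by linarith)).trans ?_
    refine (ENNReal.rpow_sum_le_const_mul_sum_rpow T _ hp).trans ?_
    refine mul_le_mul_left (ENNReal.rpow_le_rpow ?_ (by linarith)) _
    exact_mod_cast hN
  unfold I0
  refine (lintegral_mono h1).trans ?_
  rw [lintegral_const_mul, lintegral_finsetSum]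
  · intro k _
    exact (((cont hη K hF (S.filter fun i => g i = k)).comp
      (continuous_const.prodMk continuous_id)).enorm.measurable.pow_const p)
  · refine Finset.measurable_fun_sum _ fun k _ => ?_
    exact (((cont hη K hF (S.filter fun i => g i = k)).comp
      (continuous_const.prodMk continuous_id)).enorm.measurable.pow_const p)

end BSPLIT

open BSPLIT in
/-- **Row BSPLIT.** -/
theorem broad_split (d : ℕ) (p : ℝ) (hp : 1 ≤ p) (δ : ℝ) (hδ : 0 < δ) (hδ1 : δ ≤ 1) :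
    ∃ C : ℝ≥0∞, C ≠ ⊤ ∧ ∀ (η : E (d + 1) → ℂ) (K : ℝ), Continuous η →
    ∀ (ι : Type) [Fintype ι] (c : ι → E d) (F : ι → E (d + 1) → ℂ) (S : Fin (d + 1) → Finset ι),
      (∀ i, ‖c i‖ ≤ 1) → (∀ i, Continuous (F i)) → ∀ A : ℝ≥0∞,
      (∀ (T : Fin (d + 1) → Finset ι) (z : Fin (d + 1) → ι), (∀ j, T j ⊆ S j) →
        (∀ j, z j ∈ T j) → (∀ j, ∀ i ∈ T j, ‖c i - c (z j)‖ ≤ δ) →
        ∫⁻ b, ∏ j, (∫⁻ ξ, ‖bump η b K ξ * ∑ i ∈ T j, F i ξ‖ₑ ^ p) ^ (1 / ((d : ℝ) + 1)) ≤ A) →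
      ∫⁻ b, ∏ j, (∫⁻ ξ, ‖bump η b K ξ * ∑ i ∈ S j, F i ξ‖ₑ ^ p) ^ (1 / ((d : ℝ) + 1)) ≤
        C * A := by
  classical
  obtain ⟨C0, hC0, hcard⟩ := card_sep d 1 zero_le_one
  set N : ℕ := ⌈C0 * ((δ / 2) ^ d)⁻¹⌉₊ with hN
  have ha : 0 < 1 / ((d : ℝ) + 1) := by positivity
  have ha1 : 1 / ((d : ℝ) + 1) ≤ 1 := by
    rw [div_le_one (by positivity)]
    have : (0 : ℝ) ≤ d := Nat.cast_nonneg d
    linarith
  set a : ℝ := 1 / ((d : ℝ) + 1) with hadef
  set Q : ℝ≥0∞ := ((N : ℝ≥0∞) ^ (p - 1)) ^ a with hQ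
  have hQt : Q ≠ ⊤ := ENNReal.rpow_ne_top_of_nonneg ha.le
    (ENNReal.rpow_ne_top_of_nonneg (by linarith) (ENNReal.natCast_ne_top N))
  refine ⟨Q ^ (d + 1) * ((N : ℝ≥0∞) ^ (d + 1)), ENNReal.mul_ne_top (ENNReal.pow_ne_top hQt)
    (ENNReal.pow_ne_top (ENNReal.natCast_ne_top N)), ?_⟩
  intro η K hη ι _ c F S hc hF A hA
  obtain ⟨T0, g, hg, hT⟩ := net c (by positivity : 0 < δ / 2)
  have hcT : T0.card ≤ N := by
    have h1 := hcard {i // i ∈ T0} (fun i => c i.1) 0 (δ / 2) (by positivity) (by linarith)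
      (fun i => by rw [sub_zero]; exact hc i.1)
      (fun i j hij => hT i.1 i.2 j.1 j.2 fun h => hij (Subtype.ext h))
    rw [Fintype.card_coe] at h1
    exact_mod_cast h1.trans (Nat.le_ceil _)
  set G : Fin (d + 1) → ι → Finset ι := fun j k => (S j).filter fun i => g i = k with hG
  -- one product
  have hpt : ∀ b, ∏ j, (I0 p η K F (S j) b) ^ a ≤
      Q ^ (d + 1) * ∑ κ ∈ Fintype.piFinset fun _ : Fin (d + 1) => T0,
        ∏ j, (I0 p η K F (G j (κ j)) b) ^ a := by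
    intro b
    calc ∏ j, (I0 p η K F (S j) b) ^ a
        ≤ ∏ j : Fin (d + 1), (Q * ∑ k ∈ T0, (I0 p η K F (G j k) b) ^ a) := by
          refine Finset.prod_le_prod' fun j _ => ?_
          refine (ENNReal.rpow_le_rpow (split hp hη K hF (S j) T0 g (fun i => (hg i).1) hcT b)
            ha.le).trans ?_
          rw [ENNReal.mul_rpow_of_nonneg _ _ ha.le]
          exact mul_le_mul_right (rpow_sum_le T0 _ ha ha1) _
      _ = _ := by
          rw [Finset.prod_mul_distrib, Finset.prod_const, Finset.card_univ, Fintype.card_fin,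
            Finset.prod_univ_sum]
  refine (lintegral_mono hpt).trans ?_
  have hmeas : ∀ κ : Fin (d + 1) → ι,
      Measurable fun b => ∏ j, (I0 p η K F (G j (κ j)) b) ^ a := fun κ =>
    Finset.measurable_fun_prod _ fun j _ => (meas p hη K hF (G j (κ j))).pow_const a
  rw [lintegral_const_mul _ (Finset.measurable_fun_sum _ fun κ _ => hmeas κ),
    lintegral_finsetSum _ fun κ _ => hmeas κ, mul_assoc]
  refine mul_le_mul_right ?_ _
  have hterm : ∀ κ ∈ Fintype.piFinset fun _ : Fin (d + 1) => T0,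
      ∫⁻ b, ∏ j, (I0 p η K F (G j (κ j)) b) ^ a ≤ A := by
    intro κ _
    by_cases hne : ∀ j, (G j (κ j)).Nonempty
    · choose z hz using hne
      refine hA (fun j => G j (κ j)) z (fun j => Finset.filter_subset _ _) hz fun j i hi => ?_
      have h1 := (Finset.mem_filter.1 hi).2
      have h2 := (Finset.mem_filter.1 (hz j)).2
      have h3 := (hg i).2
      have h4 := (hg (z j)).2
      rw [h1] at h3
      rw [h2] at h4
      have e : c i - c (z j) = (c i - c (κ j)) - (c (z j) - c (κ j)) := by abel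
      rw [e]
      refine (norm_sub_le _ _).trans ?_
      linarith
    · push Not at hne
      obtain ⟨j, hj⟩ := hne
      have h1 : ∀ b, ∏ j, (I0 p η K F (G j (κ j)) b) ^ a = 0 := by
        intro b
        refine Finset.prod_eq_zero (Finset.mem_univ j) ?_
        rw [hj, empty (by linarith) η K F b]
        exact ENNReal.zero_rpow_of_pos ha
      simp only [h1, lintegral_zero]
      exact bot_le
  refine (Finset.sum_le_card_nsmul _ _ _ hterm).trans ?_
  rw [Fintype.card_piFinset, Finset.prod_const, Finset.card_univ, Fintype.card_fin, nsmul_eq_mul]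
  refine mul_le_mul_left ?_ _
  push_cast
  exact pow_le_pow_left' (by exact_mod_cast hcT) _

end Pool.Agent.DEC
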