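import Pool.Agent.DEC.BroadA
import Pool.Agent.DEC.BSPLIT
import Pool.Agent.DEC.BBIG

/-!
# [DEC] Row BROAD: the multilinear estimate.
-/

set_option autoImplicit false

namespace Pool.Agent.DEC

open MeasureTheory Set Filter Topology Pool.Agent.MP_6cbfb8_an
open scoped ENNReal Real RealInnerProductSpace SchwartzMap

theorem broad (d : ℕ) (hd : 1 ≤ d) (p : ℝ) (hp : 2 ≤ p) (hpd : p * d ≤ 2 * (d + 1))
    (η : E (d + 1) → ℂ) (hη : IsEta η) (K ν ε : ℝ) (hK : 1 ≤ K) (hν : 0 < ν) (hε : 0 < ε) :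
    ∃ C : ℝ≥0∞, C ≠ ⊤ ∧ ∀ ρ : ℝ, 0 < ρ → ρ ≤ 1 →
    ∀ (ι : Type) [Fintype ι] (c : ι → E d) (F : ι → E (d + 1) → ℂ)
      (S : Fin (d + 1) → Finset ι), (∀ i, ‖c i‖ ≤ 1) → (∀ i j, i ≠ j → ρ ≤ ‖c i - c j‖) →
      (∀ i, Sp (Np (c i) (2 * ρ) (2 * ρ ^ 2)) (F i)) →
      (∀ s : Fin (d + 1) → ι, (∀ j, s j ∈ S j) → ν ≤ |dt fun j => Nrm (c (s j))|) →
      ∫⁻ b, ∏ j, (∫⁻ ξ, ‖bump η b K ξ * ∑ i ∈ S j, F i ξ‖ₑ ^ p) ^ (1 / ((d : ℝ) + 1)) ≤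
        C * ENNReal.ofReal (ρ ^ (-ε)) * (∑ i, Lq p (F i)) ^ (p / 2) := by
  obtain ⟨δ, ρ0, C1, hδ, hρ0, hC1, h1⟩ := broad_one d hd p hp hpd η hη K ν ε hK hν hε
  obtain ⟨C2, hC2, h2⟩ := broad_split d p (by linarith) (min δ 1) (lt_min hδ one_pos)
    (min_le_right _ _)
  obtain ⟨C3, hC3, h3⟩ := broad_big d hd p hp η hη K hK
  refine ⟨C2 * C1 + C3 * ENNReal.ofReal (ρ0 ^ (-((d : ℝ) * p / 2))),
    ENNReal.add_ne_top.2 ⟨ENNReal.mul_ne_top hC2 hC1, ENNReal.mul_ne_top hC3 ENNReal.ofReal_ne_top⟩,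
    fun ρ hρ hρ1 ι _ c F S hc hsep hF hS => ?_⟩
  rcases le_total ρ ρ0 with hle | hle
  · have h4 := h2 η K (eta_continuous hη) ι c F S hc (fun i => (hF i).continuous)
      (C1 * ENNReal.ofReal (ρ ^ (-ε)) * (∑ i, Lq p (F i)) ^ (p / 2))
      (fun T z hTS hz hT => h1 ρ hρ hle hρ1 ι c F T z hc hsep hF
        (fun j i hi => (hT j i hi).trans (min_le_left _ _)) (hS z fun j => hTS j (hz j)))
    refine h4.trans ?_
    rw [← mul_assoc, ← mul_assoc]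
    gcongr
    exact le_self_add
  · have h4 := h3 ρ hρ hρ1 ι c F S hc hsep hF
    refine h4.trans ?_
    have h5 : (1 : ℝ≥0∞) ≤ ENNReal.ofReal (ρ ^ (-ε)) := by
      rw [← ENNReal.ofReal_one]
      exact ENNReal.ofReal_le_ofReal
        (Real.one_le_rpow_of_pos_of_le_one_of_nonpos hρ hρ1 (by linarith))
    have h6 : ENNReal.ofReal (ρ ^ (-((d : ℝ) * p / 2))) ≤
        ENNReal.ofReal (ρ0 ^ (-((d : ℝ) * p / 2))) := by
      refine ENNReal.ofReal_le_ofReal (Real.rpow_le_rpow_of_nonpos hρ0 hle ?_)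
      have : (0 : ℝ) ≤ (d : ℝ) * p / 2 := by positivity
      linarith
    refine mul_le_mul_left ?_ _
    calc C3 * ENNReal.ofReal (ρ ^ (-((d : ℝ) * p / 2)))
        ≤ C3 * ENNReal.ofReal (ρ0 ^ (-((d : ℝ) * p / 2))) := by gcongr
      _ = C3 * ENNReal.ofReal (ρ0 ^ (-((d : ℝ) * p / 2))) * 1 := (mul_one _).symm
      _ ≤ (C2 * C1 + C3 * ENNReal.ofReal (ρ0 ^ (-((d : ℝ) * p / 2)))) *
          ENNReal.ofReal (ρ ^ (-ε)) := by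
          gcongr
          exact le_add_self

end Pool.Agent.DEC
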