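import Pool.Agent.DEC.DSK0
import Pool.Agent.GNP.TMLC

/-!
The start of the broad case: a local norm at scale `K` by a weighted mean at a larger scale.
-/

set_option autoImplicit false

namespace Pool.Agent.DEC

open MeasureTheory Set Filter Topology Metric Pool.Agent.MP_6cbfb8_an
open scoped ENNReal Real RealInnerProductSpace Pointwise

/-- The weight. -/
noncomputable def pw {n : ℕ} (M : ℕ) (r : ℝ) (y ξ : E n) : ℝ≥0∞ :=
  ENNReal.ofReal (((1 + ‖ξ - y‖ ^ 2 / r ^ 2) ^ M)⁻¹)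

/-- The weighted mean of `|F|^2` at scale `r`. -/
noncomputable def P {n : ℕ} (M : ℕ) (r : ℝ) (F : E n → ℂ) (y : E n) : ℝ≥0∞ :=
  ENNReal.ofReal (r ^ n)⁻¹ * ∫⁻ ξ, ‖F ξ‖ₑ ^ 2 * pw M r y ξ

theorem sp_spec {n : ℕ} {A : Set (E n)} {F : E n → ℂ} (h : Sp A F) {c : E n} {r : ℝ}
    (hA : A ⊆ closedBall c r) : GNP.TMR.Spec c r F := by
  obtain ⟨Ω, i, ν, X, a, h1, h2, h3, h4, h5⟩ := h
  refine ⟨Ω, i, ν, a, X, h1, h3, h2, fun x hx => ?_, fun ξ => h5 ξ⟩
  have := hA (h4 x hx)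
  rwa [mem_closedBall, dist_eq_norm] at this

/-- START. -/
theorem broad_start {n : ℕ} {p : ℝ} (hp : 2 ≤ p) (M : ℕ) (η : E n → ℂ)
    (hdec : ∀ L : ℕ, ∃ B : ℝ, ∀ z, ‖η z‖ ≤ B * ((1 + ‖z‖) ^ L)⁻¹) (c : E n) (ρ : ℝ) (hρ : 1 ≤ ρ)
    (K r : ℝ) (hK : 1 ≤ K) (hr : 1 ≤ r) :
    ∃ C : ℝ≥0∞, C ≠ ∞ ∧ ∀ (A : Set (E n)) (F : E n → ℂ), A ⊆ closedBall c ρ → Sp A F → ∀ y,
      ∫⁻ z, ‖η (K⁻¹ • (z - y)) * F z‖ₑ ^ p ≤ C * P M r F y ^ (p / 2) := by
  obtain ⟨C0, hC0, hlc⟩ := GNP.TMR.local_const n 2 (by norm_num) (2 * M)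
  obtain ⟨B, hB⟩ := hdec (M + (n + 1))
  have hB0 : 0 ≤ B := by
    have := (norm_nonneg _).trans (hB 0)
    simpa using this
  have hp0 : 0 < p := by linarith
  have hK0 : 0 < K := by linarith
  have hr0 : 0 < r := by linarith
  -- the integral of the weight
  set I : ℝ≥0∞ := ∫⁻ z : E n, ENNReal.ofReal (((1 + ‖z‖) ^ (n + 1))⁻¹) with hI
  have hint : Integrable fun z : E n => ((1 + ‖z‖) ^ (n + 1))⁻¹ := by
    have h1 : Integrable fun z : E n => (1 + ‖z‖) ^ (-((n + 1 : ℕ) : ℝ)) := by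
      refine integrable_one_add_norm ?_
      rw [finrank_euclideanSpace_fin]
      push_cast
      linarith
    refine h1.congr (Eventually.of_forall fun z => ?_)
    simp only
    rw [Real.rpow_neg (by positivity), Real.rpow_natCast]
  have hIfin : I ≠ ∞ := hint.lintegral_lt_top.ne
  set D : ℝ := B ^ 2 * (C0 * (4 * ρ * K) ^ (2 * M)) * (ρ ^ n * r ^ n) with hD
  have hD0 : 0 ≤ D := by positivity
  refine ⟨ENNReal.ofReal D ^ (p / 2) * (ENNReal.ofReal (K ^ n) * I), ?_, ?_⟩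
  · exact ENNReal.mul_ne_top (ENNReal.rpow_ne_top_of_nonneg (by positivity) ENNReal.ofReal_ne_top)
      (ENNReal.mul_ne_top ENNReal.ofReal_ne_top hIfin)
  intro A F hA hF y
  have hsp := sp_spec hF hA
  have hFc : Continuous F := hsp.cont
  -- pointwise
  have hpt : ∀ z, ‖η (K⁻¹ • (z - y)) * F z‖ₑ ^ p ≤
      ENNReal.ofReal D ^ (p / 2) * P M r F y ^ (p / 2) *
        ENNReal.ofReal (((1 + ‖K⁻¹ • (z - y)‖) ^ (n + 1))⁻¹) := by
    intro z
    set t : ℝ := ‖K⁻¹ • (z - y)‖ with ht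
    have ht0 : 0 ≤ t := norm_nonneg _
    have hzt : ‖z - y‖ = K * t := by
      rw [ht, norm_smul, norm_inv, Real.norm_eq_abs, abs_of_pos hK0]
      field_simp
    have h1 : ‖F z‖ₑ ^ (2 : ℕ) ≤ ENNReal.ofReal (C0 * (1 + ρ * ‖z - y‖) ^ (2 * M)) *
        (ENNReal.ofReal (ρ ^ n * r ^ n) * P M r F y) := by
      have h2 := hlc ρ (by linarith) c F hsp y z
      have e1 : ENNReal.ofReal (‖F z‖ ^ (2 : ℝ)) = ‖F z‖ₑ ^ (2 : ℕ) := by
        rw [← ofReal_norm, ← ENNReal.ofReal_pow (norm_nonneg _)]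
        congr 1
        exact Real.rpow_natCast _ 2
      rw [e1] at h2
      refine h2.trans (mul_le_mul_right ?_ _)
      have e2 : ENNReal.ofReal (ρ ^ n * r ^ n) * P M r F y =
          ∫⁻ ξ, ENNReal.ofReal (ρ ^ n) * (‖F ξ‖ₑ ^ 2 * pw M r y ξ) := by
        have hmw : Measurable fun ξ => pw M r y ξ := by
          unfold pw
          fun_prop
        have hmm : Measurable fun ξ => ‖F ξ‖ₑ ^ 2 * pw M r y ξ :=
          (hFc.measurable.enorm.pow_const _).mul hmw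
        rw [lintegral_const_mul _ hmm]
        unfold P
        rw [← mul_assoc]
        congr 1
        rw [← ENNReal.ofReal_mul (by positivity)]
        congr 1
        field_simp
      rw [e2]
      refine lintegral_mono fun ξ => ?_
      simp only
      have e3 : ‖F ξ‖ₑ ^ (2 : ℝ) = ‖F ξ‖ₑ ^ 2 := by
        exact_mod_cast ENNReal.rpow_natCast ‖F ξ‖ₑ 2
      rw [e3, ENNReal.ofReal_mul (by positivity), mul_assoc]
      refine mul_le_mul_right ?_ _
      rw [mul_comm]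
      refine mul_le_mul_right ?_ _
      unfold pw
      refine ENNReal.ofReal_le_ofReal ?_
      refine inv_anti₀ (by positivity) ?_
      rw [pow_mul]
      refine pow_le_pow_left₀ (by positivity) ?_ _
      have h3 : ‖ξ - y‖ ^ 2 / r ^ 2 ≤ (ρ * ‖ξ - y‖) ^ 2 := by
        rw [div_le_iff₀ (by positivity)]
        have h4 : ‖ξ - y‖ ^ 2 * 1 ≤ ‖ξ - y‖ ^ 2 * (ρ ^ 2 * r ^ 2) := by
          refine mul_le_mul_of_nonneg_left ?_ (by positivity)
          nlinarith [one_le_pow₀ hρ (n := 2), one_le_pow₀ hr (n := 2)]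
        nlinarith
      nlinarith [norm_nonneg (ξ - y), mul_nonneg (by linarith : (0:ℝ) ≤ ρ) (norm_nonneg (ξ - y))]
    have h5 : ‖η (K⁻¹ • (z - y))‖ₑ ^ (2 : ℕ) ≤
        ENNReal.ofReal ((B * ((1 + t) ^ (M + (n + 1)))⁻¹) ^ 2) := by
      rw [← ofReal_norm, ← ENNReal.ofReal_pow (norm_nonneg _)]
      exact ENNReal.ofReal_le_ofReal (pow_le_pow_left₀ (norm_nonneg _) (hB _) 2)
    have h6 : ‖η (K⁻¹ • (z - y)) * F z‖ₑ ^ (2 : ℕ) ≤
        ENNReal.ofReal D * P M r F y * ENNReal.ofReal (((1 + t) ^ (n + 1))⁻¹) := by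
      rw [enorm_mul, mul_pow]
      refine (mul_le_mul' h5 h1).trans ?_
      rw [show ∀ a b c d : ℝ≥0∞, a * (b * (c * d)) = a * b * c * d from fun a b c d => by ring,
        ← ENNReal.ofReal_mul (by positivity), ← ENNReal.ofReal_mul (by positivity),
        show ∀ a b c : ℝ≥0∞, a * b * c = a * c * b from fun a b c => by ring,
        ← ENNReal.ofReal_mul hD0]
      refine mul_le_mul_left (ENNReal.ofReal_le_ofReal ?_) _
      rw [hzt]
      have h7 : (1 + ρ * (K * t)) ^ (2 * M) ≤ (4 * ρ * K) ^ (2 * M) * (1 + t) ^ (2 * M) := by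
        rw [← mul_pow]
        refine pow_le_pow_left₀ (by positivity) ?_ _
        have h8 : 1 ≤ ρ * K := by nlinarith
        nlinarith [mul_nonneg (by positivity : (0:ℝ) ≤ ρ * K) ht0]
      have h9 : (B * ((1 + t) ^ (M + (n + 1)))⁻¹) ^ 2 * (1 + t) ^ (2 * M) ≤
          B ^ 2 * ((1 + t) ^ (n + 1))⁻¹ := by
        have e4 : (B * ((1 + t) ^ (M + (n + 1)))⁻¹) ^ 2 * (1 + t) ^ (2 * M) =
            B ^ 2 * (((1 + t) ^ (n + 1))⁻¹ * ((1 + t) ^ (n + 1))⁻¹) := by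
          have : (1 + t) ≠ 0 := by positivity
          field_simp
          ring
        rw [e4]
        refine mul_le_mul_of_nonneg_left ?_ (by positivity)
        refine mul_le_of_le_one_left (by positivity) ?_
        exact inv_le_one_of_one_le₀ (one_le_pow₀ (by linarith))
      calc (B * ((1 + t) ^ (M + (n + 1)))⁻¹) ^ 2 * (C0 * (1 + ρ * (K * t)) ^ (2 * M)) *
            (ρ ^ n * r ^ n)
          ≤ (B * ((1 + t) ^ (M + (n + 1)))⁻¹) ^ 2 *
              (C0 * ((4 * ρ * K) ^ (2 * M) * (1 + t) ^ (2 * M))) * (ρ ^ n * r ^ n) := by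
            gcongr
        _ = ((B * ((1 + t) ^ (M + (n + 1)))⁻¹) ^ 2 * (1 + t) ^ (2 * M)) *
              (C0 * (4 * ρ * K) ^ (2 * M) * (ρ ^ n * r ^ n)) := by ring
        _ ≤ (B ^ 2 * ((1 + t) ^ (n + 1))⁻¹) * (C0 * (4 * ρ * K) ^ (2 * M) * (ρ ^ n * r ^ n)) := by
            gcongr
        _ = D * ((1 + t) ^ (n + 1))⁻¹ := by
            rw [hD]
            ring
    have e5 : ‖η (K⁻¹ • (z - y)) * F z‖ₑ ^ p = (‖η (K⁻¹ • (z - y)) * F z‖ₑ ^ (2 : ℕ)) ^ (p / 2) := by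
      rw [← ENNReal.rpow_natCast, ← ENNReal.rpow_mul]
      congr 1
      push_cast
      field_simp
    rw [e5]
    refine (ENNReal.rpow_le_rpow h6 (by positivity)).trans ?_
    rw [ENNReal.mul_rpow_of_nonneg _ _ (by positivity), ENNReal.mul_rpow_of_nonneg _ _ (by positivity)]
    refine mul_le_mul_right ?_ _
    have h10 : ENNReal.ofReal (((1 + t) ^ (n + 1))⁻¹) ≤ 1 := by
      rw [ENNReal.ofReal_le_one]
      exact inv_le_one_of_one_le₀ (one_le_pow₀ (by linarith))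
    calc ENNReal.ofReal (((1 + t) ^ (n + 1))⁻¹) ^ (p / 2)
        ≤ ENNReal.ofReal (((1 + t) ^ (n + 1))⁻¹) ^ (1 : ℝ) :=
          ENNReal.rpow_le_rpow_of_exponent_ge h10 (by linarith)
      _ = _ := ENNReal.rpow_one _
  refine (lintegral_mono hpt).trans ?_
  rw [lintegral_const_mul _ (by fun_prop)]
  have h11 : ∫⁻ z : E n, ENNReal.ofReal (((1 + ‖K⁻¹ • (z - y)‖) ^ (n + 1))⁻¹) =
      ENNReal.ofReal (K ^ n) * I := by
    have e6 := lintegral_sub_right_eq_self (μ := (volume : Measure (E n)))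
      (fun z : E n => ENNReal.ofReal (((1 + ‖K⁻¹ • z‖) ^ (n + 1))⁻¹)) y
    rw [e6]
    have e8 : ∀ z : E n, 0 ≤ ((1 + ‖z‖) ^ (n + 1))⁻¹ := fun z => by positivity
    have e9 := Measure.integral_comp_smul (volume : Measure (E n))
      (fun z : E n => ((1 + ‖z‖) ^ (n + 1))⁻¹) K⁻¹
    rw [hI, ← ofReal_integral_eq_lintegral_ofReal (hint.comp_smul (inv_ne_zero hK0.ne'))
      (Eventually.of_forall fun z => e8 _),
      ← ofReal_integral_eq_lintegral_ofReal hint (Eventually.of_forall fun z => e8 _), e9,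
      ← ENNReal.ofReal_mul (by positivity), smul_eq_mul, finrank_euclideanSpace_fin]
    congr 2
    rw [inv_pow, inv_inv, abs_of_nonneg (by positivity)]
  rw [h11]
  exact le_of_eq (by ring)

end Pool.Agent.DEC
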