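import Pool.Agent.DEC.LC4
import Pool.Agent.DEC.BStart

/-!
The local energies of a function of the class `Sp`.
-/

set_option autoImplicit false

namespace Pool.Agent.DEC

open MeasureTheory Set Filter Topology Pool.Agent.MP_6cbfb8_an
open scoped ENNReal Real RealInnerProductSpace

theorem P_lc {n : ℕ} (M : ℕ) {r : ℝ} (hr : 0 < r) {F : E n → ℂ} (hF : Measurable F) (y : E n) :
    LC.P M r F y = P M r F y := by
  have h1 := LC.P_eq M hr hF y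
  have h2 : ENNReal.ofReal (r ^ n)⁻¹ * (ENNReal.ofReal (r ^ n) * LC.P M r F y) =
      LC.P M r F y := by
    rw [← mul_assoc, ← ENNReal.ofReal_mul (by positivity), inv_mul_cancel₀ (by positivity),
      ENNReal.ofReal_one, one_mul]
  rw [← h2, h1]
  unfold P pw
  congr 1
  refine lintegral_congr fun x => ?_
  rw [← ofReal_norm, ENNReal.ofReal_pow (norm_nonneg _)]
  rfl

/-- **The energies** of a function of the class `Sp`. -/
theorem lc_e (n M : ℕ) (hM : n < 2 * M) (A0 : ℝ) (hA0 : 1 ≤ A0) : ∃ C : ℝ, 0 < C ∧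
    ∀ δ : ℝ, 0 < δ → δ ≤ 1 → ∃ Cδ : ℝ, 0 < Cδ ∧ ∀ (v : E n) (A : Set (E n)) (F : E n → ℂ)
      (Rm : ℝ), 1 ≤ ‖v‖ → ‖v‖ ≤ A0 → Sp A F →
      (∀ r : ℝ, 1 ≤ δ * r → r / δ ≤ Rm → ∀ x ∈ A, ∀ x' ∈ A, ‖x - x'‖ ≤ 1 / r →
        |⟪x - x', v⟫| ≤ A0 * δ / r) →
      ∃ e : ℝ → E n → ℝ≥0∞, (∀ r, Measurable (e r)) ∧
        (∀ r, 1 ≤ δ * r → r / δ ≤ Rm → ∀ y s, |s| ≤ r / δ →
          e r (y + s • v) ≤ ENNReal.ofReal C * e r y) ∧
        (∀ r, 1 ≤ δ * r → r / δ ≤ Rm → ∀ y,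
          ∫⁻ z in Metric.closedBall y (n * A0 * (r / δ)), e r z ≤
            ENNReal.ofReal (C * (r / δ) ^ n) * e (r / δ) y) ∧
        (∀ r y, 1 ≤ δ * r → r / δ ≤ Rm → P M r F y ≤ ENNReal.ofReal C * e r y) ∧
        (∀ r y, 1 ≤ δ * r → r ≤ Rm → e r y ≤ ENNReal.ofReal Cδ * P M r F y) := by
  obtain ⟨C, hC, h⟩ := LC.energies_loc n M hM A0 hA0
  refine ⟨C, hC, fun δ hδ hδ1 => ?_⟩
  obtain ⟨Cδ, hCδ, h⟩ := h δ hδ hδ1
  refine ⟨Cδ, hCδ, fun v A F Rm hv1 hvA hF hA => ?_⟩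
  have hFm : Measurable F := hF.continuous.measurable
  obtain ⟨W, i, ν, X, a, h1, h2, h3, h4, h5⟩ := hF
  have hsp : ∀ r : ℝ, 1 ≤ δ * r → r / δ ≤ Rm → ∀ w w', a w ≠ 0 → a w' ≠ 0 →
      ‖-X w - -X w'‖ ≤ 1 / r → |⟪-X w - -X w', v⟫| ≤ A0 * δ / r := by
    intro r hr hrR w w' hw hw' h6
    have e1 : -X w - -X w' = -(X w - X w') := by abel
    rw [e1, norm_neg] at h6
    rw [e1, inner_neg_left, abs_neg]
    exact hA r hr hrR _ (h4 w hw) _ (h4 w' hw') h6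
  have hF5 : ∀ x, F x = ∫ w, a w * LC.ee ⟪-X w, x⟫ ∂ν := by
    intro x
    rw [h5]
    refine integral_congr_ae (Eventually.of_forall fun w => ?_)
    simp only [chr, LC.ee, inner_neg_left]
    congr 3
    ring_nf
  obtain ⟨e, g1, g2, g3, g4, g5⟩ := h W i ν inferInstance (fun w => -X w) a h2.neg h3 v Rm hv1 hvA
    hsp F hF5
  have hpos : ∀ r, 1 ≤ δ * r → 0 < r := by
    intro r hr
    by_contra hcon
    nlinarith [not_lt.1 hcon]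
  refine ⟨e, g1, g2, g3, fun r y hr hrR => ?_, fun r y hr hrR => ?_⟩
  · rw [← P_lc M (hpos r hr) hFm]
    exact g4 r y hr hrR
  · rw [← P_lc M (hpos r hr) hFm]
    exact g5 r y hr hrR

end Pool.Agent.DEC
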