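import Pool.Agent.DEC.MRA

/-!
The multilinear estimate with the loss `R ^ ε`, over the abstract energies.
-/

set_option autoImplicit false

namespace Pool.Agent.DEC

open MeasureTheory Set Metric
open scoped ENNReal Real

/-- **The multilinear estimate with the loss `R ^ ε`.** `F j` is bounded by the energy at the scale `1 / δ`
(START), the energies at the scales above `R` are bounded (END). -/
theorem mr_at (n : ℕ) (hn : 2 ≤ n) (A ν C ε : ℝ) (hA : 1 ≤ A) (hν : 0 < ν) (hC : 0 < C)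
    (hε : 0 < ε) : ∃ δ0 : ℝ, 0 < δ0 ∧ δ0 ≤ 1 / 3 ∧ ∀ δ : ℝ, 0 < δ → δ ≤ δ0 → ∃ K : ℝ, 1 ≤ K ∧
      ∀ R : ℝ, 1 ≤ R → ∀ v : Fin n → EuclideanSpace ℝ (Fin n), (∀ i, ‖v i‖ ≤ A) →
      ν ≤ |(Matrix.of fun i j => v i j).det| →
      ∀ e : Fin n → ℝ → EuclideanSpace ℝ (Fin n) → ℝ≥0∞, (∀ i r, Measurable (e i r)) →
      (∀ i r, 1 ≤ δ * r → r / δ ≤ K * R → ∀ y s, |s| ≤ r / δ →
        e i r (y + s • v i) ≤ ENNReal.ofReal C * e i r y) →
      (∀ i r, 1 ≤ δ * r → r / δ ≤ K * R → ∀ y,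
        ∫⁻ z in closedBall y (n * A * (r / δ)), e i r z ≤
          ENNReal.ofReal (C * (r / δ) ^ n) * e i (r / δ) y) →
      ∀ (F : Fin n → EuclideanSpace ℝ (Fin n) → ℝ≥0∞) (S Q : ℝ≥0∞) (I : Fin n → ℝ≥0∞),
      (∀ i y, F i y ≤ S * e i δ⁻¹ y) →
      ∀ y0 : EuclideanSpace ℝ (Fin n), (∀ i r, R ≤ r → r ≤ K * R → e i r y0 ≤ Q * I i) →
        ∫⁻ y in closedBall y0 R, ∏ i, F i y ^ (1 / ((n : ℝ) - 1)) ≤
          ENNReal.ofReal (K * R ^ ((n : ℝ) + ε)) * (S * Q) ^ ((n : ℝ) / ((n : ℝ) - 1)) *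
            ∏ i, I i ^ (1 / ((n : ℝ) - 1)) := by
  obtain ⟨c, K0, hc, hK0, h⟩ := mr_abs n hn A ν C hA hν hC
  have hn2 : (2 : ℝ) ≤ n := by exact_mod_cast hn
  have hn1 : 0 < (n : ℝ) - 1 := by linarith
  have hK00 : 0 < K0 := by linarith
  set q : ℝ := 1 / ((n : ℝ) - 1) with hqdef
  have hq : 0 < q := by positivity
  have hqn : (n : ℝ) / ((n : ℝ) - 1) = q * n := by rw [hqdef]; field_simp
  set c1 : ℝ := min c 1 with hc1
  have hc10 : 0 < c1 := lt_min hc one_pos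
  have hc11 : c1 ≤ 1 := min_le_right _ _
  have hc1c : c1 ≤ c := min_le_left _ _
  refine ⟨min (1 / 3) (K0 ^ (-(1 / ε))), lt_min (by norm_num) (Real.rpow_pos_of_pos hK00 _),
    min_le_left _ _, fun δ hδ hδ0 => ?_⟩
  have hδ3 : δ ≤ 1 / 3 := hδ0.trans (min_le_left _ _)
  have hδK : δ ≤ K0 ^ (-(1 / ε)) := hδ0.trans (min_le_right _ _)
  have hδi : 1 ≤ δ⁻¹ := by
    rw [one_le_inv₀ hδ]
    linarith
  have hδi0 : 0 < δ⁻¹ := by positivity
  -- `K0 ≤ δ ^ (-ε)`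
  have hKδ : K0 ≤ (δ⁻¹) ^ ε := by
    have h1 : (δ : ℝ) ^ ε ≤ (K0 ^ (-(1 / ε))) ^ ε := Real.rpow_le_rpow hδ.le hδK hε.le
    rw [← Real.rpow_mul hK00.le] at h1
    have h2 : -(1 / ε) * ε = -1 := by field_simp
    rw [h2, Real.rpow_neg_one] at h1
    rw [Real.inv_rpow hδ.le]
    exact (le_inv_comm₀ (by positivity) hK00).1 h1
  set K : ℝ := max (δ⁻¹ ^ 2) (δ⁻¹ / c1) with hK
  have hK1 : 1 ≤ K := le_trans (one_le_pow₀ hδi) (le_max_left _ _)
  -- the constant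
  set K' : ℝ := K0 * K ^ n * K ^ ε with hK'
  have hKpos : 0 < K := by linarith
  refine ⟨max K K', le_trans hK1 (le_max_left _ _), fun R hR v hv hdet e hem hslow havg F S Q I hS
    y0 hQ => ?_⟩
  have hR0 : 0 < R := by linarith
  -- the number of steps
  have hex : ∃ m : ℕ, R ≤ c1 * δ⁻¹ ^ (m + 2) := by
    have h1 : 1 < δ⁻¹ := by
      have : (3 : ℝ) ≤ δ⁻¹ := by
        rw [le_inv_comm₀ (by norm_num) hδ]
        linarith
      linarith
    obtain ⟨m, hm⟩ := pow_unbounded_of_one_lt (R / c1) h1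
    refine ⟨m, ?_⟩
    rw [div_lt_iff₀ hc10] at hm
    have h2 : δ⁻¹ ^ m ≤ δ⁻¹ ^ (m + 2) := pow_le_pow_right₀ hδi (by omega)
    nlinarith
  classical
  set m : ℕ := Nat.find hex with hm
  have hm1 : R ≤ c1 * δ⁻¹ ^ (m + 2) := Nat.find_spec hex
  set r : ℝ := δ⁻¹ ^ (m + 2) with hr
  have hr0 : 0 < r := by positivity
  have hrR : R ≤ r := hm1.trans (by nlinarith)
  have hrK : r ≤ K * R := by
    rcases Nat.eq_zero_or_pos m with h0 | h0
    · have : r = δ⁻¹ ^ 2 := by rw [hr, h0]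
      rw [this]
      have h1 : δ⁻¹ ^ 2 ≤ K := le_max_left _ _
      nlinarith
    · have h1 : ¬ R ≤ c1 * δ⁻¹ ^ (m - 1 + 2) := Nat.find_min hex (by omega)
      push Not at h1
      have h2 : r = δ⁻¹ * δ⁻¹ ^ (m - 1 + 2) := by
        rw [hr, ← pow_succ']
        congr 1
        omega
      have h3 : δ⁻¹ ^ (m - 1 + 2) ≤ R / c1 := by
        rw [le_div_iff₀ hc10]
        linarith
      calc r = δ⁻¹ * δ⁻¹ ^ (m - 1 + 2) := h2
        _ ≤ δ⁻¹ * (R / c1) := by gcongr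
        _ = δ⁻¹ / c1 * R := by ring
        _ ≤ K * R := mul_le_mul_of_nonneg_right (le_max_right _ _) hR0.le
  have hmK : K0 ^ (m + 1) ≤ K0 * (K ^ ε * R ^ ε) := by
    have h1 : K0 ^ m ≤ (K * R) ^ ε := by
      calc K0 ^ m ≤ ((δ⁻¹) ^ ε) ^ m := pow_le_pow_left₀ hK00.le hKδ _
        _ = (δ⁻¹ ^ m) ^ ε := by
            rw [← Real.rpow_natCast, ← Real.rpow_mul hδi0.le, mul_comm, Real.rpow_mul hδi0.le,
              Real.rpow_natCast]
        _ ≤ r ^ ε := by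
            refine Real.rpow_le_rpow (by positivity) ?_ hε.le
            exact pow_le_pow_right₀ hδi (by omega)
        _ ≤ (K * R) ^ ε := Real.rpow_le_rpow hr0.le hrK hε.le
    rw [Real.mul_rpow hKpos.le hR0.le] at h1
    rw [pow_succ, mul_comm]
    exact mul_le_mul_of_nonneg_left h1 hK00.le
  have hKR : K * R ≤ max K K' * R := mul_le_mul_of_nonneg_right (le_max_left _ _) hR0.le
  have h1 := h δ hδ hδ3 v hv hdet m e hem
    (fun i s h1 h2 => hslow i s h1 (h2.trans (hrK.trans hKR)))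
    (fun i s h1 h2 => havg i s h1 (h2.trans (hrK.trans hKR))) y0
  rw [← hr] at h1
  calc ∫⁻ y in closedBall y0 R, ∏ i, F i y ^ q
      ≤ ∫⁻ y in closedBall y0 (c * r), ∏ i, F i y ^ q := by
        refine lintegral_mono_set (closedBall_subset_closedBall (hm1.trans ?_))
        exact mul_le_mul_of_nonneg_right hc1c hr0.le
    _ ≤ ∫⁻ y in closedBall y0 (c * r), (S ^ q) ^ n * ∏ i, e i δ⁻¹ y ^ q := by
        refine lintegral_mono fun y => ?_
        calc ∏ i, F i y ^ q ≤ ∏ i : Fin n, S ^ q * e i δ⁻¹ y ^ q := by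
              refine Finset.prod_le_prod' fun i _ => ?_
              rw [← ENNReal.mul_rpow_of_nonneg _ _ hq.le]
              exact ENNReal.rpow_le_rpow (hS i y) hq.le
          _ = _ := by
              rw [Finset.prod_mul_distrib, Finset.prod_const, Finset.card_univ, Fintype.card_fin]
    _ = (S ^ q) ^ n * ∫⁻ y in closedBall y0 (c * r), ∏ i, e i δ⁻¹ y ^ q := by
        rw [lintegral_const_mul]
        exact Finset.measurable_prod _ fun i _ => (hem i _).pow_const _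
    _ ≤ (S ^ q) ^ n * (ENNReal.ofReal (K0 ^ (m + 1) * r ^ n) * ∏ i, e i r y0 ^ q) :=
        mul_le_mul_right h1 _
    _ ≤ (S ^ q) ^ n * (ENNReal.ofReal (K' * R ^ ((n : ℝ) + ε)) *
        ((Q ^ q) ^ n * ∏ i, I i ^ q)) := by
        refine mul_le_mul_right (mul_le_mul' (ENNReal.ofReal_le_ofReal ?_) ?_) _
        · calc K0 ^ (m + 1) * r ^ n ≤ K0 * (K ^ ε * R ^ ε) * (K * R) ^ n := by gcongr
            _ = K' * (R ^ n * R ^ ε) := by rw [hK', mul_pow]; ring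
            _ = K' * R ^ ((n : ℝ) + ε) := by
                rw [Real.rpow_add hR0, Real.rpow_natCast]
        · calc ∏ i, e i r y0 ^ q ≤ ∏ i : Fin n, Q ^ q * I i ^ q := by
                refine Finset.prod_le_prod' fun i _ => ?_
                rw [← ENNReal.mul_rpow_of_nonneg _ _ hq.le]
                exact ENNReal.rpow_le_rpow (hQ i r hrR (hrK.trans hKR)) hq.le
            _ = _ := by
                rw [Finset.prod_mul_distrib, Finset.prod_const, Finset.card_univ,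
                  Fintype.card_fin]
    _ = ENNReal.ofReal (K' * R ^ ((n : ℝ) + ε)) * (S * Q) ^ ((n : ℝ) / ((n : ℝ) - 1)) *
        ∏ i, I i ^ q := by
        rw [hqn, ENNReal.rpow_mul, ENNReal.mul_rpow_of_nonneg _ _ hq.le, ENNReal.rpow_natCast,
          mul_pow]
        ring
    _ ≤ _ := by
        gcongr
        exact le_max_right _ _

/-- **The multilinear estimate with the loss `R ^ ε`.** `F j` is bounded by the energy at the scale `1 / δ`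
(START), the energies at the scales above `R` are bounded (END). -/
theorem mr_fin (n : ℕ) (hn : 2 ≤ n) (A ν C ε : ℝ) (hA : 1 ≤ A) (hν : 0 < ν) (hC : 0 < C)
    (hε : 0 < ε) : ∃ δ0 : ℝ, 0 < δ0 ∧ δ0 ≤ 1 / 3 ∧ ∀ δ : ℝ, 0 < δ → δ ≤ δ0 → ∃ K : ℝ, 1 ≤ K ∧
      ∀ R : ℝ, 1 ≤ R → ∀ v : Fin n → EuclideanSpace ℝ (Fin n), (∀ i, ‖v i‖ ≤ A) →
      ν ≤ |(Matrix.of fun i j => v i j).det| →
      ∀ e : Fin n → ℝ → EuclideanSpace ℝ (Fin n) → ℝ≥0∞, (∀ i r, Measurable (e i r)) →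
      (∀ i r, 1 ≤ δ * r → r / δ ≤ K * R → ∀ y s, |s| ≤ r / δ →
        e i r (y + s • v i) ≤ ENNReal.ofReal C * e i r y) →
      (∀ i r, 1 ≤ δ * r → r / δ ≤ K * R → ∀ y,
        ∫⁻ z in closedBall y (n * A * (r / δ)), e i r z ≤
          ENNReal.ofReal (C * (r / δ) ^ n) * e i (r / δ) y) →
      ∀ (F : Fin n → EuclideanSpace ℝ (Fin n) → ℝ≥0∞) (S Q : ℝ≥0∞) (I : Fin n → ℝ≥0∞),
      (∀ i y, F i y ≤ S * e i δ⁻¹ y) →
      (∀ i r, R ≤ r → r ≤ K * R → ∀ y, e i r y ≤ Q * I i) →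
      ∀ y0 : EuclideanSpace ℝ (Fin n),
        ∫⁻ y in closedBall y0 R, ∏ i, F i y ^ (1 / ((n : ℝ) - 1)) ≤
          ENNReal.ofReal (K * R ^ ((n : ℝ) + ε)) * (S * Q) ^ ((n : ℝ) / ((n : ℝ) - 1)) *
            ∏ i, I i ^ (1 / ((n : ℝ) - 1)) := by
  obtain ⟨δ0, h1, h2, h⟩ := mr_at n hn A ν C ε hA hν hC hε
  refine ⟨δ0, h1, h2, fun δ hδ hδ0 => ?_⟩
  obtain ⟨K, hK, h⟩ := h δ hδ hδ0
  exact ⟨K, hK, fun R hR v hv hdet e hem hs ha F S Q I hS hQ y0 =>
    h R hR v hv hdet e hem hs ha F S Q I hS y0 fun i r h3 h4 => hQ i r h3 h4 y0⟩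

end Pool.Agent.DEC
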