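import Pool.Agent.DEC.BMean
import Pool.Agent.DEC.BGeo
import Pool.Agent.DEC.MRF
import Pool.Agent.DEC.LC
import Pool.Agent.DEC.BEnd
import Pool.Agent.DEC.ETA

/-!
The broad case for small caps.
-/

set_option autoImplicit false

namespace Pool.Agent.DEC

open MeasureTheory Set Filter Topology Metric Pool.Agent.MP_6cbfb8_an
open scoped ENNReal Real RealInnerProductSpace Pointwise

/-- The final constant. -/
theorem broad_const {n : ℕ} {K ε R ρ s : ℝ} (hK : 1 ≤ K) (hε : 0 < ε) (hR : 0 < R)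
    (hρ : 0 < ρ) (hρ1 : ρ ≤ 1) (hRρ : R ≤ ρ⁻¹) (hs : 0 < s) (hs1 : s ≤ 1) (X : ℝ≥0∞) :
    ((volume (ball (0 : E n) R))⁻¹ * (ENNReal.ofReal (K * R ^ ((n : ℝ) + ε)) * X)) ^ s ≤
      ((volume (ball (0 : E n) 1))⁻¹ * (ENNReal.ofReal K * X)) ^ s * ENNReal.ofReal (ρ ^ (-ε)) := by
  have h1 : volume (ball (0 : E n) R) = ENNReal.ofReal (R ^ n) * volume (ball (0 : E n) 1) := by
    rw [Measure.addHaar_ball_of_pos _ _ hR, finrank_euclideanSpace_fin]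
  have h2 : ENNReal.ofReal (K * R ^ ((n : ℝ) + ε)) =
      ENNReal.ofReal (R ^ n) * (ENNReal.ofReal K * ENNReal.ofReal (R ^ ε)) := by
    rw [← ENNReal.ofReal_mul (by linarith), ← ENNReal.ofReal_mul (by positivity)]
    congr 1
    rw [Real.rpow_add hR, Real.rpow_natCast]
    ring
  have h3 : ENNReal.ofReal (R ^ n) ≠ 0 := by
    rw [Ne, ENNReal.ofReal_eq_zero, not_le]
    positivity
  have h4 : (volume (ball (0 : E n) R))⁻¹ * (ENNReal.ofReal (K * R ^ ((n : ℝ) + ε)) * X) =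
      ((volume (ball (0 : E n) 1))⁻¹ * (ENNReal.ofReal K * X)) * ENNReal.ofReal (R ^ ε) := by
    rw [h1, h2, ENNReal.mul_inv (Or.inl h3) (Or.inl ENNReal.ofReal_ne_top)]
    rw [show ∀ a b c d e f : ℝ≥0∞, a * b * (c * (d * e) * f) = (a * c) * (b * (d * f) * e) from
      fun a b c d e f => by ring, ENNReal.inv_mul_cancel h3 ENNReal.ofReal_ne_top, one_mul]
  rw [h4, ENNReal.mul_rpow_of_nonneg _ _ hs.le]
  refine mul_le_mul_right ?_ _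
  rw [ENNReal.ofReal_rpow_of_nonneg (by positivity) hs.le]
  refine ENNReal.ofReal_le_ofReal ?_
  have h5 : R ^ ε ≤ ρ ^ (-ε) := by
    rw [Real.rpow_neg hρ.le, ← Real.inv_rpow hρ.le]
    exact Real.rpow_le_rpow hR.le hRρ hε.le
  have h6 : 1 ≤ ρ ^ (-ε) := Real.one_le_rpow_of_pos_of_le_one_of_nonpos hρ hρ1 (by linarith)
  calc (R ^ ε) ^ s ≤ (ρ ^ (-ε)) ^ s := Real.rpow_le_rpow (by positivity) h5 hs.le
    _ ≤ (ρ ^ (-ε)) ^ (1 : ℝ) := Real.rpow_le_rpow_of_exponent_le h6 hs1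
    _ = _ := Real.rpow_one _

/-- START in the form of `mr_at`. -/
theorem broad_st {p : ℝ} (hp : 2 ≤ p) {Cs A q P e : ℝ≥0∞} (h1 : q ≤ Cs * P ^ (p / 2)) (h2 : P ≤ A * e) : q ^ (2 / p) ≤ Cs ^ (2 / p) * A * e := by
  have hp0 : 0 < p := by linarith
  calc q ^ (2 / p) ≤ (Cs * P ^ (p / 2)) ^ (2 / p) := by gcongr
    _ = Cs ^ (2 / p) * P := by
        rw [ENNReal.mul_rpow_of_nonneg _ _ (by positivity), ← ENNReal.rpow_mul,
          show p / 2 * (2 / p) = 1 by field_simp, ENNReal.rpow_one]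
    _ ≤ Cs ^ (2 / p) * (A * e) := by gcongr
    _ = Cs ^ (2 / p) * A * e := by rw [mul_assoc]

/-- END in the form of `mr_at`. -/
theorem broad_end (d : ℕ) (p : ℝ) (hp : 2 ≤ p) (M : ℕ) (hM : d + 1 < 2 * M) (K1 : ℝ)
    (hK1 : 1 ≤ K1) : ∃ C : ℝ≥0∞, C ≠ ⊤ ∧ ∀ ρ : ℝ, 0 < ρ → ρ ≤ 1 →
    ∀ (ι : Type) [Fintype ι] (c : ι → E d) (F : ι → E (d + 1) → ℂ) (T : Finset ι),
      (∀ i, ‖c i‖ ≤ 1) → (∀ i j, i ≠ j → ρ ≤ ‖c i - c j‖) →
      (∀ i, Sp (Np (c i) (2 * ρ) (2 * ρ ^ 2)) (F i)) →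
      ∀ (y0 : E (d + 1)) (r : ℝ), 1 / (4 * ρ) / K1 ≤ r → r ≤ 1 / (4 * ρ) →
        P M r (fun ξ => ∑ i ∈ T, F i ξ) y0 ≤ C * ∑ i, PP p M (1 / (4 * ρ)) (F i) y0 ^ (2 / p) := by
  have hp0 : 0 < p := by linarith
  obtain ⟨Co, hCo, horth⟩ := p_orth (d + 1) M
  obtain ⟨Q0, hQ0⟩ := card_cap d
  have hK10 : 0 < K1 := by linarith
  have hIM : IM (d + 1) M ≠ ∞ := im_ne_top hM
  have h2p : 2 / p ≤ 1 := by
    rw [div_le_one hp0]
    exact hp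
  refine ⟨ENNReal.ofReal (K1 ^ (d + 1)) * (ENNReal.ofReal (Co * Q0) * IM (d + 1) M ^ (1 - 2 / p)),
    ENNReal.mul_ne_top ENNReal.ofReal_ne_top (ENNReal.mul_ne_top ENNReal.ofReal_ne_top
      (ENNReal.rpow_ne_top_of_nonneg (by linarith) hIM)),
    fun ρ hρ hρ1 ι _ c F T hc hsep hF y0 r hr1 hr2 => ?_⟩
  set Re : ℝ := 1 / (4 * ρ) with hRe
  have hRe0 : 0 < Re := by positivity
  have hr0 : 0 < r := lt_of_lt_of_le (by positivity) hr1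
  have hFc : ∀ i, Continuous (F i) := fun i => (hF i).continuous
  have h2 : P M r (fun ξ => ∑ i ∈ T, F i ξ) y0 ≤
      ENNReal.ofReal (K1 ^ (d + 1)) * P M Re (fun ξ => ∑ i ∈ T, F i ξ) y0 := by
    refine p_scale M hr0 hr2 ?_ _ _
    rwa [div_le_iff₀ hK10, mul_comm] at hr1
  have e3 : 3 / Re = 12 * ρ := by rw [hRe]; field_simp; norm_num
  have e10 : 10 / Re = 40 * ρ := by rw [hRe]; field_simp; norm_num
  have h3 := horth Q0 Re ι T (fun i => join (c i) (‖c i‖ ^ 2)) F hRe0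
    (fun i _ => by
      rw [e3]
      exact (hF i).mono (np_ball (hc i) hρ hρ1))
    (fun i _ => by
      rw [e10]
      exact hQ0 ι c ρ T hρ hsep i) y0
  have h4 : ∀ i, P M Re (F i) y0 ≤ IM (d + 1) M ^ (1 - 2 / p) * PP p M Re (F i) y0 ^ (2 / p) :=
    fun i => p_hoelder hM hp hRe0 (hFc i) y0
  refine h2.trans ?_
  rw [mul_assoc]
  refine mul_le_mul_right (h3.trans ?_) _
  rw [mul_assoc]
  refine mul_le_mul_right ?_ _
  rw [Finset.mul_sum]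
  exact (Finset.sum_le_sum_of_subset (Finset.subset_univ _)).trans
    (Finset.sum_le_sum fun i _ => h4 i)

theorem cap_ball {d : ℕ} {c : E d} (hc : ‖c‖ ≤ 1) {δ ρ : ℝ} (hδ : δ ≤ 1 / 3) (hρ : ρ ^ 2 ≤ 1 / 144) :
    Np c δ (2 * ρ ^ 2) ⊆ closedBall (0 : E (d + 1)) 3 := by
  rintro x ⟨y, τ, rfl, h1, h2⟩
  rw [mem_closedBall, dist_zero_right]
  have h3 : ‖y‖ ≤ 4 / 3 := by
    have := norm_le_norm_add_norm_sub' y c
    linarith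
  have h4 : |τ| ≤ 5 / 2 := by
    have h5 : ‖y‖ ^ 2 ≤ 16 / 9 := by nlinarith [norm_nonneg y]
    have h6 := abs_le.1 h2
    have h8 : 0 ≤ ‖y‖ ^ 2 := by positivity
    rw [abs_le]
    constructor <;> linarith [h6.1, h6.2]
  exact bj_norm_le h3 h4 (by norm_num) (by norm_num)

/-- The scales. -/
theorem broad_scales {δ0 K1 ρ : ℝ} (hδ0 : 0 < δ0) (hK1 : 1 ≤ K1) (hρ : 0 < ρ)
    (h : ρ ≤ min (min (δ0 / 4) (δ0 ^ 2 / 4)) (min (1 / (4 * K1)) (δ0 / (4 * K1)))) :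
    ρ ≤ δ0 / 4 ∧ 1 ≤ 1 / (4 * ρ) / K1 ∧ 1 ≤ δ0 * (1 / (4 * ρ) / K1) ∧ δ0⁻¹ / δ0 ≤ 1 / (4 * ρ) ∧
      1 / (4 * ρ) / K1 ≤ ρ⁻¹ := by
  have hK10 : 0 < K1 := by linarith
  have hρa : ρ ≤ δ0 / 4 := h.trans ((min_le_left _ _).trans (min_le_left _ _))
  have hρb : ρ ≤ δ0 ^ 2 / 4 := h.trans ((min_le_left _ _).trans (min_le_right _ _))
  have hρc : ρ ≤ 1 / (4 * K1) := h.trans ((min_le_right _ _).trans (min_le_left _ _))
  have hρd : ρ ≤ δ0 / (4 * K1) := h.trans ((min_le_right _ _).trans (min_le_right _ _))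
  rw [le_div_iff₀ (by positivity)] at hρc hρd
  refine ⟨hρa, ?_, ?_, ?_, ?_⟩
  · rw [le_div_iff₀ hK10, le_div_iff₀ (by positivity)]
    linarith
  · rw [show δ0 * (1 / (4 * ρ) / K1) = δ0 / (4 * ρ * K1) by field_simp, le_div_iff₀ (by positivity)]
    linarith
  · rw [le_div_iff₀ (by positivity), ← one_div, div_div, div_mul_eq_mul_div,
      div_le_iff₀ (by positivity)]
    nlinarith
  · rw [div_div, ← one_div]
    exact one_div_le_one_div_of_le hρ (by nlinarith)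

/-- The broad case, for the caps of radius `δ`. -/
theorem broad_one (d : ℕ) (hd : 1 ≤ d) (p : ℝ) (hp : 2 ≤ p) (hpd : p * d ≤ 2 * (d + 1))
    (η : E (d + 1) → ℂ) (hη : IsEta η) (K ν ε : ℝ) (hK : 1 ≤ K) (hν : 0 < ν) (hε : 0 < ε) :
    ∃ (δ ρ0 : ℝ) (C : ℝ≥0∞), 0 < δ ∧ 0 < ρ0 ∧ C ≠ ⊤ ∧ ∀ ρ : ℝ, 0 < ρ → ρ ≤ ρ0 → ρ ≤ 1 →
    ∀ (ι : Type) [Fintype ι] (c : ι → E d) (F : ι → E (d + 1) → ℂ)
      (T : Fin (d + 1) → Finset ι) (z : Fin (d + 1) → ι), (∀ i, ‖c i‖ ≤ 1) →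
      (∀ i j, i ≠ j → ρ ≤ ‖c i - c j‖) →
      (∀ i, Sp (Np (c i) (2 * ρ) (2 * ρ ^ 2)) (F i)) →
      (∀ j, ∀ i ∈ T j, ‖c i - c (z j)‖ ≤ δ) → ν ≤ |dt fun j => Nrm (c (z j))| →
      ∫⁻ b, ∏ j, (∫⁻ ξ, ‖bump η b K ξ * ∑ i ∈ T j, F i ξ‖ₑ ^ p) ^ (1 / ((d : ℝ) + 1)) ≤
        C * ENNReal.ofReal (ρ ^ (-ε)) * (∑ i, Lq p (F i)) ^ (p / 2) := by
  have hp0 : 0 < p := by linarith
  have hd0 : (1 : ℝ) ≤ d := by exact_mod_cast hd
  have hnR : ((d + 1 : ℕ) : ℝ) = (d : ℝ) + 1 := by push_cast; ring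
  obtain ⟨M, hM⟩ : ∃ M, M = d + 2 := ⟨_, rfl⟩
  have hnM : d + 1 < 2 * M := by omega
  obtain ⟨C0, hC0, hlc⟩ := lc_e (d + 1) M hnM 6 (by norm_num)
  obtain ⟨δ0, hδ0, hδ3, hmr⟩ := mr_at (d + 1) (by omega) 6 ν C0 ε (by norm_num) hν hC0 hε
  obtain ⟨K1, hK1, hmr1⟩ := hmr δ0 hδ0 le_rfl
  have hδ1 : δ0 ≤ 1 := by linarith
  obtain ⟨Cδ, hCδ, hlc1⟩ := hlc δ0 hδ0 hδ1
  obtain ⟨Ce, hCe, hEND⟩ := broad_end d p hp M hnM K1 hK1
  obtain ⟨Cs, hCs, hstart⟩ := broad_start hp M η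
    (fun L => by
      obtain ⟨B, -, hB⟩ := eta_decay hη L
      exact ⟨B, hB⟩) 0 3 (by norm_num) K δ0⁻¹ hK ((one_le_inv₀ hδ0).2 hδ1)
  have hK10 : 0 < K1 := by linarith
  obtain ⟨St, hSt⟩ : ∃ St, St = Cs ^ (2 / p) * ENNReal.ofReal C0 := ⟨_, rfl⟩
  obtain ⟨Qe, hQe⟩ : ∃ Qe, Qe = ENNReal.ofReal Cδ * Ce := ⟨_, rfl⟩
  have hIM : IM (d + 1) M ≠ ∞ := im_ne_top hnM
  have hSt1 : St ≠ ∞ := by
    rw [hSt]
    exact ENNReal.mul_ne_top (ENNReal.rpow_ne_top_of_nonneg (by positivity) hCs)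
      ENNReal.ofReal_ne_top
  have hQe1 : Qe ≠ ∞ := by
    rw [hQe]
    exact ENNReal.mul_ne_top ENNReal.ofReal_ne_top hCe
  have hn1 : 0 < ((d + 1 : ℕ) : ℝ) - 1 := by rw [hnR]; linarith
  obtain ⟨X, hX⟩ : ∃ X, X = (St * Qe) ^ (((d + 1 : ℕ) : ℝ) / (((d + 1 : ℕ) : ℝ) - 1)) := ⟨_, rfl⟩
  have hX1 : X ≠ ∞ := by
    rw [hX]
    exact ENNReal.rpow_ne_top_of_nonneg (by positivity) (ENNReal.mul_ne_top hSt1 hQe1)
  obtain ⟨s, hs⟩ : ∃ s, s = p * (((d + 1 : ℕ) : ℝ) - 1) / (2 * ((d + 1 : ℕ) : ℝ)) := ⟨_, rfl⟩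
  have hn0 : 0 < ((d + 1 : ℕ) : ℝ) := by rw [hnR]; linarith
  have hs0 : 0 < s := by
    rw [hs]
    positivity
  have hs1 : s ≤ 1 := by
    rw [hs, div_le_one (by positivity), hnR]
    linarith
  have hv1 : (volume (ball (0 : E (d + 1)) 1))⁻¹ ≠ ∞ :=
    ENNReal.inv_ne_top.2 (measure_ball_pos _ _ one_pos).ne'
  refine ⟨δ0 / 2, min (min (δ0 / 4) (δ0 ^ 2 / 4)) (min (1 / (4 * K1)) (δ0 / (4 * K1))),
    ((volume (ball (0 : E (d + 1)) 1))⁻¹ * (ENNReal.ofReal K1 * X)) ^ s * IM (d + 1) M,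
    by positivity, by positivity, ENNReal.mul_ne_top (ENNReal.rpow_ne_top_of_nonneg hs0.le
      (ENNReal.mul_ne_top hv1 (ENNReal.mul_ne_top ENNReal.ofReal_ne_top hX1))) hIM,
    fun ρ hρ hρρ0 hρ1 ι _ c F T z hc hsep hF hT hdet => ?_⟩
  -- scales
  obtain ⟨hρa, hR1, hRδ, hReδ, hRρ⟩ := broad_scales hδ0 hK1 hρ hρρ0
  obtain ⟨Re, hRe⟩ : ∃ Re : ℝ, Re = 1 / (4 * ρ) := ⟨_, rfl⟩
  rw [← hRe] at hR1 hRδ hReδ hRρ
  have hRe0 : 0 < Re := by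
    rw [hRe]
    positivity
  obtain ⟨R, hR⟩ : ∃ R : ℝ, R = Re / K1 := ⟨_, rfl⟩
  rw [← hR] at hR1 hRδ hRρ
  have hR0 : 0 < R := by linarith
  have hKR : K1 * R = Re := by rw [hR]; field_simp
  -- the functions
  obtain ⟨G, hG⟩ : ∃ G : Fin (d + 1) → E (d + 1) → ℂ, G = fun j ξ => ∑ i ∈ T j, F i ξ := ⟨_, rfl⟩
  have hGsp : ∀ j, Sp (Np (c (z j)) δ0 (2 * ρ ^ 2)) (G j) := fun j => by
    rw [hG]
    exact Sp.sum (T j) fun i hi => (hF i).mono (np_mono (hT j i hi) (by linarith))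
  have hFc : ∀ i, Continuous (F i) := fun i => (hF i).continuous
  have hGc : ∀ j, Continuous (G j) := fun j => (hGsp j).continuous
  -- the energies
  have hen := fun j => hlc1 (Nrm (c (z j))) _ (G j) Re (nrm_one_le _) (nrm_le (hc _)) (hGsp j)
    (fun r hr1 hr2 x hx x' hx' hxx => by
      have hr0 : 0 < r := by
        by_contra h0
        push Not at h0
        nlinarith
      refine np_H hr0 ?_ hx hx' hxx
      rw [div_le_iff₀ hδ0] at hr2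
      calc ρ ^ 2 * r ≤ ρ ^ 2 * (Re * δ0) := by gcongr
        _ = ρ / 4 * δ0 := by rw [hRe]; field_simp
        _ ≤ δ0 := by nlinarith)
  choose e he1 he2 he3 he4 he5 using hen
  have hρ2 : ρ ^ 2 ≤ 1 / 144 := by nlinarith
  obtain ⟨q, hq⟩ : ∃ q : Fin (d + 1) → E (d + 1) → ℝ≥0∞, q = fun j b =>
    ∫⁻ ξ, ‖bump η b K ξ * G j ξ‖ₑ ^ p := ⟨_, rfl⟩
  have hqm : ∀ j, Measurable (q j) := fun j => by
    rw [hq]
    exact loc_measurable (eta_continuous hη) K p (hGc j)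
  -- START
  have hst : ∀ j y, q j y ^ (2 / p) ≤ St * e j δ0⁻¹ y := by
    intro j y
    rw [hSt]
    refine broad_st hp ?_
      (he4 j δ0⁻¹ y (by rw [mul_inv_cancel₀ hδ0.ne']) hReδ)
    rw [hq]
    exact hstart _ (G j) (cap_ball (hc (z j)) hδ3 hρ2) (hGsp j) y
  -- END
  obtain ⟨b, hb⟩ : ∃ b : ι → E (d + 1) → ℝ≥0∞, b = fun i => PP p M Re (F i) := ⟨_, rfl⟩
  have hend : ∀ y0 j r, R ≤ r → r ≤ K1 * R → e j r y0 ≤ Qe * ∑ i, b i y0 ^ (2 / p) := by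
    intro y0 j r hr1 hr2
    rw [hKR] at hr2
    have h1 := he5 j r y0 (hRδ.trans (by gcongr)) hr2
    refine h1.trans ?_
    rw [hQe, mul_assoc]
    refine mul_le_mul_right ?_ _
    rw [hb, hG, hRe]
    refine hEND ρ hρ hρ1 ι c F (T j) hc hsep hF y0 r ?_ ?_
    · rw [← hRe, ← hR]
      exact hr1
    · rw [← hRe]
      exact hr2
  -- one ball
  have hone : ∀ y0, ∫⁻ y in ball y0 R, ∏ j, (q j y ^ (2 / p)) ^ (1 / (((d + 1 : ℕ) : ℝ) - 1)) ≤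
      (ENNReal.ofReal (K1 * R ^ (((d + 1 : ℕ) : ℝ) + ε)) * X) *
        ∏ _j : Fin (d + 1), (1 * ∑ i, b i y0 ^ (2 / p)) ^ (1 / (((d + 1 : ℕ) : ℝ) - 1)) := by
    intro y0
    have h1 := hmr1 R hR1 (fun j => Nrm (c (z j))) (fun j => nrm_le (hc _)) hdet e he1
      (fun j r hr1 hr2 => he2 j r hr1 (by rwa [hKR] at hr2))
      (fun j r hr1 hr2 => he3 j r hr1 (by rwa [hKR] at hr2))
      (fun j y => q j y ^ (2 / p)) St Qe (fun _ => ∑ i, b i y0 ^ (2 / p)) hst y0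
      (fun j r hr1 hr2 => hend y0 j r hr1 hr2)
    simp only [one_mul]
    rw [hX]
    exact (lintegral_mono_set ball_subset_closedBall).trans h1
  have hcore := broad_core (n := d + 1) (by omega) (volume : Measure (E (d + 1))) hp
    (by
      rw [le_div_iff₀ hn1, hnR]
      linarith) Finset.univ (fun j y => q j y ^ (2 / p))
    (fun j => (hqm j).pow_const _) b (fun i _ => by rw [hb]; exact pp_measurable p M Re (hFc i))
    R hR0 measure_ball_lt_top.ne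
    (ENNReal.ofReal (K1 * R ^ (((d + 1 : ℕ) : ℝ) + ε)) * X) 1 hone
  have e4 : ∀ y, ∏ j, (q j y ^ (2 / p)) ^ (p / (2 * ((d + 1 : ℕ) : ℝ))) =
      ∏ j, q j y ^ (1 / ((d : ℝ) + 1)) := by
    intro y
    refine Finset.prod_congr rfl fun j _ => ?_
    rw [← ENNReal.rpow_mul]
    congr 1
    rw [← hnR]
    field_simp
  simp_rw [e4] at hcore
  have e5 : ∀ i, (∫⁻ y, b i y) ^ (2 / p) = IM (d + 1) M ^ (2 / p) * Lq p (F i) := by
    intro i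
    rw [hb]
    simp only
    rw [pp_int hnM hRe0 (hFc i), ENNReal.mul_rpow_of_nonneg _ _ (by positivity)]
    rfl
  simp_rw [e5] at hcore
  have e8 : (IM (d + 1) M ^ (2 / p) * ∑ i, Lq p (F i)) ^ (p / 2) =
      IM (d + 1) M * (∑ i, Lq p (F i)) ^ (p / 2) := by
    rw [ENNReal.mul_rpow_of_nonneg _ _ (by positivity), ← ENNReal.rpow_mul,
      show 2 / p * (p / 2) = 1 by field_simp, ENNReal.rpow_one]
  rw [← Finset.mul_sum, e8, ENNReal.one_rpow, mul_one, ← hs] at hcore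
  have h6 := broad_const (n := d + 1) hK1 hε hR0 hρ hρ1 hRρ hs0 hs1 X
  have e7 : ∀ y, ∏ j, (∫⁻ ξ, ‖bump η y K ξ * ∑ i ∈ T j, F i ξ‖ₑ ^ p) ^ (1 / ((d : ℝ) + 1)) =
      ∏ j, q j y ^ (1 / ((d : ℝ) + 1)) := by
    intro y
    rw [hq, hG]
  simp_rw [e7]
  refine hcore.trans ((mul_le_mul_left h6 _).trans (le_of_eq ?_))
  ring

end Pool.Agent.DEC
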