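import Pool.Agent.GNP.N5Cov
import Pool.Agent.DEC.SP

/-!
# [DEC] Definitions of the decoupling project.
-/

set_option autoImplicit false

namespace Pool.Agent.DEC

open MeasureTheory Set Filter Topology Pool.Agent.MP_6cbfb8_an
open scoped ENNReal Real RealInnerProductSpace SchwartzMap

/-- The cap of centre `c` and radius `r` of the `b`-neighbourhood of the paraboloid. -/
def Np {d : ℕ} (c : E d) (r b : ℝ) : Set (E (d + 1)) :=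
  {x | ∃ (η : E d) (τ : ℝ), x = join η τ ∧ ‖η - c‖ ≤ r ∧ |τ - ‖η‖ ^ 2| ≤ b}

/-- The square of the norm of `F` in `L^p`. -/
noncomputable def Lq {n : ℕ} (p : ℝ) (F : E n → ℂ) : ℝ≥0∞ := (∫⁻ ξ, ‖F ξ‖ₑ ^ p) ^ (2 / p)

/-- `D` is a constant (for the squares of the norms) of the decoupling of the paraboloid over
`E d` into caps of radius `ρ`. -/
def Dec (d : ℕ) (p ρ : ℝ) (D : ℝ≥0∞) : Prop :=
  ∀ (ι : Type) [Fintype ι] (c : ι → E d) (F : ι → E (d + 1) → ℂ), (∀ i, ‖c i‖ ≤ 1) →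
    (∀ i j, i ≠ j → ρ ≤ ‖c i - c j‖) → (∀ i, Sp (Np (c i) (2 * ρ) (2 * ρ ^ 2)) (F i)) →
    Lq p (fun ξ => ∑ i, F i ξ) ≤ D * ∑ i, Lq p (F i)

/-- Decoupling with an `ε`-loss. -/
def DecAll (d : ℕ) (p : ℝ) : Prop :=
  ∀ ε : ℝ, 0 < ε → ∃ C : ℝ≥0∞, C ≠ ⊤ ∧ ∀ ρ : ℝ, 0 < ρ → ρ ≤ 1 →
    Dec d p ρ (C * ENNReal.ofReal (ρ ^ (-ε)))

/-- A strip of a cap: as `Np (w) (A σ) (A σ ^ 2)`, near the hyperplane `⟪a, η⟫ = b`. -/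
def Ns {d : ℕ} (a : E d) (b : ℝ) (w : E d) (A σ : ℝ) : Set (E (d + 1)) :=
  {x | ∃ (η : E d) (τ : ℝ), x = join η τ ∧ ‖η - w‖ ≤ A * σ ∧ |τ - ‖η‖ ^ 2| ≤ A * σ ^ 2 ∧
    |⟪a, η⟫ - b| ≤ A * σ ^ 2}

/-- The cap of centre `x` and radius `r` of the `b`-neighbourhood of the unit sphere. -/
def Nsph {n : ℕ} (x : E n) (r b : ℝ) : Set (E n) := {y | ‖y - x‖ ≤ r ∧ |‖y‖ - 1| ≤ b}

/-- Decoupling of the sphere of `E n` with an `ε`-loss. -/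
def DecSph (n : ℕ) (p : ℝ) : Prop :=
  ∀ (A : ℝ) (M : ℕ) (ε : ℝ), 1 ≤ A → 0 < ε → ∃ C : ℝ≥0∞, C ≠ ⊤ ∧ ∀ ρ : ℝ, 0 < ρ → ρ ≤ 1 →
    ∀ (ι : Type) [Fintype ι] (x : ι → E n) (F : ι → E n → ℂ), (∀ i, ‖x i‖ = 1) →
      (∀ z, {i | ‖z - x i‖ < ρ}.encard ≤ M) →
      (∀ i, Sp (Nsph (x i) (A * ρ) (A * ρ ^ 2)) (F i)) →
      Lq p (fun ξ => ∑ i, F i ξ) ≤ C * ENNReal.ofReal (ρ ^ (-ε)) * ∑ i, Lq p (F i)

/-- The (not normalised) normal of the paraboloid. -/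
noncomputable def Nrm {d : ℕ} (c : E d) : E (d + 1) := join (-(2 : ℝ) • c) 1

/-- The determinant of `n` vectors. -/
noncomputable def dt {n : ℕ} (v : Fin n → E n) : ℝ := (Matrix.of fun i j => v i j).det

/-- Bumps: Fourier transforms of Schwartz functions supported in the unit ball, of modulus at
least one on the unit ball. -/
def IsEta {n : ℕ} (η : E n → ℂ) : Prop :=
  (∃ h : 𝓢(E n, ℂ), (∀ x, h x ≠ 0 → ‖x‖ ≤ 1) ∧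
    ∀ ξ, η ξ = ∫ x, h x * chr x ξ) ∧
  ∀ ξ, ‖ξ‖ ≤ 1 → 1 ≤ ‖η ξ‖

/-- The bump at `b` of radius `r`. -/
noncomputable def bump {n : ℕ} (η : E n → ℂ) (b : E n) (r : ℝ) (ξ : E n) : ℂ := η (r⁻¹ • (ξ - b))

end Pool.Agent.DEC
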