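import Mathlib

/-!
The local energy of solutions of the free Schrödinger equation varies slowly along the direction of
propagation: basic facts.
-/

set_option autoImplicit false

namespace Pool.Agent.DEC.EN

open MeasureTheory Set Filter Topology Complex
open scoped Real RealInnerProductSpace ComplexConjugate

variable {d : ℕ}

/-- The function with frequencies on the paraboloid. -/
noncomputable def J (g : EuclideanSpace ℝ (Fin d) → ℂ) (z : EuclideanSpace ℝ (Fin d)) (t : ℝ) : ℂ :=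
  ∫ η, g η * cexp (((2 * π * (⟪z, η⟫ + t * ‖η‖ ^ 2) : ℝ) : ℂ) * I)

/-- The weight. -/
noncomputable def wt (M : ℕ) (R : ℝ) (y : EuclideanSpace ℝ (Fin d)) : ℝ :=
  ((1 + ‖y‖ ^ 2 / R ^ 2) ^ M)⁻¹

/-- The local energy. -/
noncomputable def En (M : ℕ) (g : EuclideanSpace ℝ (Fin d) → ℂ) (x : EuclideanSpace ℝ (Fin d))
    (t R : ℝ) : ℝ :=
  ∫ z, ‖J g z t‖ ^ 2 * wt M R (z - x)

/-- The class of the amplitudes. -/
def Cls (δ : ℝ) (g : EuclideanSpace ℝ (Fin d) → ℂ) : Prop :=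
  Integrable g ∧ ∀ η, g η ≠ 0 → ‖η‖ ≤ δ

/-- The Fourier multiplier of the derivative in the direction `v`. -/
noncomputable def dv (v : EuclideanSpace ℝ (Fin d)) (g : EuclideanSpace ℝ (Fin d) → ℂ)
    (η : EuclideanSpace ℝ (Fin d)) : ℂ := ((2 * π * ⟪v, η⟫ : ℝ) : ℂ) * I * g η

/-- The Fourier multiplier of the derivative in time. -/
noncomputable def dt (g : EuclideanSpace ℝ (Fin d) → ℂ) (η : EuclideanSpace ℝ (Fin d)) : ℂ :=
  ((2 * π * ‖η‖ ^ 2 : ℝ) : ℂ) * I * g η

/-! ### Differentiation of oscillatory integrals -/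

theorem norm_osc (a : ℂ) (x : ℝ) : ‖a * cexp ((x : ℂ) * I)‖ = ‖a‖ := by
  rw [norm_mul, norm_exp_ofReal_mul_I, mul_one]

theorem osc_deriv {α : Type*} [MeasurableSpace α] {μ : Measure α} {g : α → ℂ} {a b : α → ℝ}
    (hg : Integrable g μ) (hgb : Integrable (fun η => (b η : ℂ) * I * g η) μ) (ha : Measurable a)
    (hb : Measurable b) (s : ℝ) :
    HasDerivAt (fun s : ℝ => ∫ η, g η * cexp (((a η + s * b η : ℝ) : ℂ) * I) ∂μ)
      (∫ η, ((b η : ℂ) * I * g η) * cexp (((a η + s * b η : ℝ) : ℂ) * I) ∂μ) s := by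
  have hm : ∀ s : ℝ, AEStronglyMeasurable
      (fun η => cexp (((a η + s * b η : ℝ) : ℂ) * I)) μ := fun s =>
    (Complex.measurable_exp.comp ((Complex.measurable_ofReal.comp
      (ha.add (hb.const_mul s))).mul_const I)).aestronglyMeasurable
  refine (hasDerivAt_integral_of_dominated_loc_of_deriv_le
    (F := fun s η => g η * cexp (((a η + s * b η : ℝ) : ℂ) * I))
    (F' := fun s η => ((b η : ℂ) * I * g η) * cexp (((a η + s * b η : ℝ) : ℂ) * I))
    (bound := fun η => ‖(b η : ℂ) * I * g η‖) (s := univ) univ_mem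
    (Eventually.of_forall fun s => hg.aestronglyMeasurable.mul (hm s)) ?_
    (hgb.aestronglyMeasurable.mul (hm s)) ?_ hgb.norm ?_).2
  · refine hg.mono (hg.aestronglyMeasurable.mul (hm s)) (Eventually.of_forall fun η => ?_)
    rw [norm_osc]
  · exact Eventually.of_forall fun η x _ => (norm_osc _ _).le
  · refine Eventually.of_forall fun η x _ => ?_
    have h1 : HasDerivAt (fun x : ℝ => (((a η + x * b η : ℝ) : ℂ) * I)) ((b η : ℂ) * I) x := by
      have h2 : HasDerivAt (fun x : ℝ => a η + x * b η) (b η) x := by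
        simpa using ((hasDerivAt_id x).mul_const (b η)).const_add (a η)
      exact h2.ofReal_comp.mul_const I
    have h3 := (h1.cexp).const_mul (g η)
    exact h3.congr_deriv (by ring)

theorem Cls.mul {δ K : ℝ} {g : EuclideanSpace ℝ (Fin d) → ℂ} (hg : Cls δ g)
    {m : EuclideanSpace ℝ (Fin d) → ℂ} (hm : Continuous m) (hK : ∀ η, ‖η‖ ≤ δ → ‖m η‖ ≤ K) :
    Cls δ (fun η => m η * g η) := by
  refine ⟨?_, fun η h => hg.2 η fun h0 => h (by simp [h0])⟩
  refine (hg.1.norm.const_mul K).mono' (hm.aestronglyMeasurable.mul hg.1.aestronglyMeasurable)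
    (Eventually.of_forall fun η => ?_)
  rw [norm_mul]
  by_cases h0 : g η = 0
  · simp [h0]
  · exact mul_le_mul_of_nonneg_right (hK η (hg.2 η h0)) (norm_nonneg _)

theorem Cls.dv {δ : ℝ} {g : EuclideanSpace ℝ (Fin d) → ℂ} (hg : Cls δ g)
    (v : EuclideanSpace ℝ (Fin d)) : Cls δ (dv v g) := by
  refine hg.mul (m := fun η => ((2 * π * ⟪v, η⟫ : ℝ) : ℂ) * I) (K := 2 * π * (‖v‖ * δ))
    (by fun_prop) fun η h => ?_
  rw [norm_mul, Complex.norm_I, mul_one, Complex.norm_real, Real.norm_eq_abs, abs_mul,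
    abs_of_pos (by positivity : (0 : ℝ) < 2 * π)]
  refine mul_le_mul_of_nonneg_left ?_ (by positivity)
  exact (abs_real_inner_le_norm v η).trans (mul_le_mul_of_nonneg_left h (norm_nonneg _))

theorem Cls.dt {δ : ℝ} {g : EuclideanSpace ℝ (Fin d) → ℂ} (hg : Cls δ g) : Cls δ (dt g) := by
  refine hg.mul (m := fun η => ((2 * π * ‖η‖ ^ 2 : ℝ) : ℂ) * I) (K := 2 * π * δ ^ 2)
    (by fun_prop) fun η h => ?_
  rw [norm_mul, Complex.norm_I, mul_one, Complex.norm_real, Real.norm_eq_abs,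
    abs_of_nonneg (by positivity)]
  exact mul_le_mul_of_nonneg_left (pow_le_pow_left₀ (norm_nonneg _) h 2) (by positivity)

theorem norm_J_le (g : EuclideanSpace ℝ (Fin d) → ℂ) (z : EuclideanSpace ℝ (Fin d)) (t : ℝ) :
    ‖J g z t‖ ≤ ∫ η, ‖g η‖ := by
  refine (norm_integral_le_integral_norm _).trans (le_of_eq ?_)
  refine integral_congr_ae (Eventually.of_forall fun η => ?_)
  exact norm_osc _ _

theorem J_deriv_t {δ : ℝ} {g : EuclideanSpace ℝ (Fin d) → ℂ} (hg : Cls δ g)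
    (z : EuclideanSpace ℝ (Fin d)) (t : ℝ) : HasDerivAt (fun t => J g z t) (J (dt g) z t) t := by
  have h := osc_deriv (μ := volume) (g := g) (a := fun η => 2 * π * ⟪z, η⟫)
    (b := fun η => 2 * π * ‖η‖ ^ 2) hg.1 hg.dt.1 (by fun_prop) (by fun_prop) t
  have e : ∀ (s : ℝ) (η : EuclideanSpace ℝ (Fin d)), 2 * π * ⟪z, η⟫ + s * (2 * π * ‖η‖ ^ 2) =
      2 * π * (⟪z, η⟫ + s * ‖η‖ ^ 2) := fun s η => by ring
  simp only [e] at h
  exact h

theorem J_deriv_z {δ : ℝ} {g : EuclideanSpace ℝ (Fin d) → ℂ} (hg : Cls δ g)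
    (v z : EuclideanSpace ℝ (Fin d)) (t : ℝ) :
    HasLineDerivAt ℝ (fun z => J g z t) (J (dv v g) z t) z v := by
  have h := osc_deriv (μ := volume) (g := g) (a := fun η => 2 * π * (⟪z, η⟫ + t * ‖η‖ ^ 2))
    (b := fun η => 2 * π * ⟪v, η⟫) hg.1 (hg.dv v).1 (by fun_prop) (by fun_prop) 0
  have e : ∀ (s : ℝ) (η : EuclideanSpace ℝ (Fin d)),
      2 * π * (⟪z, η⟫ + t * ‖η‖ ^ 2) + s * (2 * π * ⟪v, η⟫) =
      2 * π * (⟪z + s • v, η⟫ + t * ‖η‖ ^ 2) := fun s η => by
    rw [inner_add_left, inner_smul_left]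
    simp
    ring
  simp only [e] at h
  rw [zero_smul, add_zero] at h
  exact h

theorem J_cont {g : EuclideanSpace ℝ (Fin d) → ℂ} (hg : Integrable g) (t : ℝ) :
    Continuous fun z => J g z t := by
  refine continuous_of_dominated (F := fun z η =>
    g η * cexp (((2 * π * (⟪z, η⟫ + t * ‖η‖ ^ 2) : ℝ) : ℂ) * I)) (bound := fun η => ‖g η‖) ?_ ?_
    hg.norm ?_
  · intro z
    exact hg.aestronglyMeasurable.mul (Continuous.aestronglyMeasurable (by fun_prop))
  · exact fun z => Eventually.of_forall fun η => (norm_osc _ _).le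
  · exact Eventually.of_forall fun η => by fun_prop

theorem J_smul (c : ℂ) (g : EuclideanSpace ℝ (Fin d) → ℂ) (z : EuclideanSpace ℝ (Fin d)) (t : ℝ) :
    J (fun η => c * g η) z t = c * J g z t := by
  unfold J
  rw [← integral_const_mul]
  simp only [mul_assoc]

theorem J_sum {ι : Type*} (s : Finset ι) {g : ι → EuclideanSpace ℝ (Fin d) → ℂ}
    (hg : ∀ i ∈ s, Integrable (g i)) (z : EuclideanSpace ℝ (Fin d)) (t : ℝ) :
    J (fun η => ∑ i ∈ s, g i η) z t = ∑ i ∈ s, J (g i) z t := by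
  unfold J
  simp only [Finset.sum_mul]
  refine integral_finsetSum s fun i hi => ?_
  refine (hg i hi).mono ((hg i hi).aestronglyMeasurable.mul
    (Continuous.aestronglyMeasurable (by fun_prop))) (Eventually.of_forall fun η => ?_)
  exact (norm_osc _ _).le

/-- The Schrödinger equation. -/
theorem J_dt {δ : ℝ} {g : EuclideanSpace ℝ (Fin d) → ℂ} (hg : Cls δ g)
    (z : EuclideanSpace ℝ (Fin d)) (t : ℝ) :
    J (dt g) z t = (-(1 / (2 * π) : ℝ) * I) *
      ∑ j, J (dv (EuclideanSpace.single j 1) (dv (EuclideanSpace.single j 1) g)) z t := by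
  rw [← J_sum Finset.univ (fun j _ => ((hg.dv _).dv _).1), ← J_smul]
  congr 1
  funext η
  have h1 : ∀ j, dv (EuclideanSpace.single j (1 : ℝ)) (dv (EuclideanSpace.single j 1) g) η =
      -((2 * π * η j : ℝ) : ℂ) ^ 2 * g η := by
    intro j
    unfold dv
    rw [EuclideanSpace.inner_single_left]
    have : (I : ℂ) * I = -1 := I_mul_I
    simp only [map_one, one_mul]
    linear_combination ((2 * π * η j : ℝ) : ℂ) ^ 2 * g η * this
  simp only [h1]
  rw [← Finset.sum_mul, Finset.sum_neg_distrib]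
  unfold dt
  have h2 : ∑ j, (((2 * π * η j : ℝ) : ℂ)) ^ 2 = (((2 * π) ^ 2 * ‖η‖ ^ 2 : ℝ) : ℂ) := by
    rw [EuclideanSpace.norm_sq_eq, Finset.mul_sum]
    push_cast
    refine Finset.sum_congr rfl fun j _ => ?_
    rw [Real.norm_eq_abs, ← Complex.ofReal_pow |η j| 2, sq_abs]
    push_cast
    ring
  rw [h2]
  have hpi : ((2 * π : ℝ) : ℂ) ≠ 0 := by
    exact_mod_cast (by positivity : (2 * π : ℝ) ≠ 0)
  push_cast
  push_cast at hpi
  field_simp

end Pool.Agent.DEC.EN
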