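import Pool.Agent.DEC.EN0

/-!
The local energy of solutions of the free Schrödinger equation varies slowly along the direction of
propagation: the flux and Gronwall's inequality.
-/

set_option autoImplicit false

namespace Pool.Agent.DEC.EN

open MeasureTheory Set Filter Topology Complex
open scoped Real RealInnerProductSpace ComplexConjugate

variable {d : ℕ}

/-! ### The weight -/

theorem wt_pos (M : ℕ) {R : ℝ} (y : EuclideanSpace ℝ (Fin d)) : 0 < wt M R y := by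
  unfold wt; positivity

theorem wt_cont (M : ℕ) (R : ℝ) : Continuous (wt M R : EuclideanSpace ℝ (Fin d) → ℝ) := by
  unfold wt
  refine Continuous.inv₀ (by fun_prop) fun y => ?_
  positivity

theorem wt_integrable {M : ℕ} (hM : d < 2 * M) {R : ℝ} (hR : 0 < R) :
    Integrable (wt M R : EuclideanSpace ℝ (Fin d) → ℝ) := by
  have h0 : Integrable (fun x : EuclideanSpace ℝ (Fin d) =>
      ((1 : ℝ) + ‖x‖ ^ 2) ^ (-((2 * M : ℕ) : ℝ) / 2)) := by
    refine integrable_rpow_neg_one_add_norm_sq ?_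
    rw [finrank_euclideanSpace_fin]
    exact_mod_cast hM
  have h1 := h0.comp_smul (inv_ne_zero hR.ne')
  refine h1.congr (Eventually.of_forall fun x => ?_)
  have h2 : ‖R⁻¹ • x‖ ^ 2 = ‖x‖ ^ 2 / R ^ 2 := by
    rw [norm_smul, mul_pow, norm_inv, inv_pow, Real.norm_eq_abs, sq_abs]
    field_simp
  simp only [h2]
  unfold wt
  have h3 : -((2 * M : ℕ) : ℝ) / 2 = -(M : ℝ) := by push_cast; ring
  rw [h3, Real.rpow_neg (by positivity), Real.rpow_natCast]

theorem wt_comp_integrable {M : ℕ} (hM : d < 2 * M) {R : ℝ} (hR : 0 < R)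
    (x : EuclideanSpace ℝ (Fin d)) :
    Integrable (fun z : EuclideanSpace ℝ (Fin d) => wt M R (z - x)) :=
  (wt_integrable hM hR).comp_sub_right x

/-- the derivative of the weight in the direction `v` -/
noncomputable def dwt (M : ℕ) (R : ℝ) (v y : EuclideanSpace ℝ (Fin d)) : ℝ :=
  -(M * (2 * ⟪y, v⟫ / R ^ 2) * (1 + ‖y‖ ^ 2 / R ^ 2) ^ (M - 1)) / ((1 + ‖y‖ ^ 2 / R ^ 2) ^ M) ^ 2

theorem dwt_cont (M : ℕ) (R : ℝ) (v : EuclideanSpace ℝ (Fin d)) : Continuous (dwt M R v) := by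
  unfold dwt
  refine Continuous.div (by fun_prop) (by fun_prop) fun y => ?_
  positivity

theorem wt_deriv (M : ℕ) (R : ℝ) (v y : EuclideanSpace ℝ (Fin d)) :
    HasLineDerivAt ℝ (wt M R) (dwt M R v y) y v := by
  unfold HasLineDerivAt wt dwt
  have h0 : ∀ s : ℝ, 1 + ‖y + s • v‖ ^ 2 / R ^ 2 =
      1 + (‖y‖ ^ 2 + 2 * (s * ⟪y, v⟫) + s ^ 2 * ‖v‖ ^ 2) / R ^ 2 := by
    intro s
    rw [norm_add_sq_real, inner_smul_right, norm_smul, mul_pow, Real.norm_eq_abs, sq_abs]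
  have h1 : HasDerivAt (fun s : ℝ => 1 + ‖y + s • v‖ ^ 2 / R ^ 2) (2 * ⟪y, v⟫ / R ^ 2) 0 := by
    simp only [h0]
    have h2 : HasDerivAt (fun s : ℝ => ‖y‖ ^ 2 + 2 * (s * ⟪y, v⟫) + s ^ 2 * ‖v‖ ^ 2)
        (2 * ⟪y, v⟫) 0 := by
      have h3 := (((hasDerivAt_id (0 : ℝ)).mul_const ⟪y, v⟫).const_mul 2).const_add (‖y‖ ^ 2)
      have h4 := ((hasDerivAt_pow 2 (0 : ℝ)).mul_const (‖v‖ ^ 2))
      exact (h3.add h4).congr_deriv (by simp)
    exact (h2.div_const _).const_add 1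
  have h5 := (h1.pow M).inv (by simp only [Pi.pow_apply]; positivity)
  refine h5.congr_deriv ?_
  simp only [zero_smul, add_zero, Pi.pow_apply]
  ring

theorem dwt_le (M : ℕ) {R : ℝ} (hR : 0 < R) (v y : EuclideanSpace ℝ (Fin d)) :
    |dwt M R v y| ≤ M * ‖v‖ / R * wt M R y := by
  unfold dwt wt
  set q : ℝ := 1 + ‖y‖ ^ 2 / R ^ 2 with hq
  have hq0 : 0 < q := by positivity
  rcases Nat.eq_zero_or_pos M with h0 | h0
  · subst h0
    simp
  have h1 : |2 * ⟪y, v⟫ / R ^ 2| ≤ ‖v‖ / R * q := by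
    rw [abs_div, abs_mul, abs_of_pos (by norm_num : (0 : ℝ) < 2),
      abs_of_pos (by positivity : 0 < R ^ 2), div_le_iff₀ (by positivity)]
    have h2 := abs_real_inner_le_norm y v
    have h3 : ‖v‖ / R * q * R ^ 2 = ‖v‖ * (R + ‖y‖ ^ 2 / R) := by
      rw [hq]; field_simp
    rw [h3]
    have h4 : 2 * ‖y‖ ≤ R + ‖y‖ ^ 2 / R := by
      rw [← sub_nonneg]
      have : R + ‖y‖ ^ 2 / R - 2 * ‖y‖ = (R - ‖y‖) ^ 2 / R := by field_simp; ring
      rw [this]; positivity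
    nlinarith [norm_nonneg v, norm_nonneg y]
  rw [abs_div, abs_neg, abs_mul, abs_mul, abs_of_nonneg (by positivity : (0 : ℝ) ≤ (M : ℝ)),
    abs_of_pos (by positivity : 0 < q ^ (M - 1)), abs_of_pos (by positivity : 0 < (q ^ M) ^ 2)]
  have hqM : q ^ M = q ^ (M - 1) * q := by
    rw [← pow_succ, Nat.sub_add_cancel h0]
  rw [div_le_iff₀ (by positivity)]
  calc (M : ℝ) * |2 * ⟪y, v⟫ / R ^ 2| * q ^ (M - 1) ≤ M * (‖v‖ / R * q) * q ^ (M - 1) := by gcongr
    _ = M * ‖v‖ / R * q ^ M := by rw [hqM]; ring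
    _ = M * ‖v‖ / R * (q ^ M)⁻¹ * (q ^ M) ^ 2 := by
        have : q ^ M ≠ 0 := by positivity
        field_simp

end Pool.Agent.DEC.EN
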