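import Pool.Agent.DEC.EN1

/-!
The local energy of solutions of the free Schrödinger equation varies slowly along the direction of
propagation: the derivative of the energy.
-/

set_option autoImplicit false

namespace Pool.Agent.DEC.EN

open MeasureTheory Set Filter Topology Complex
open scoped Real RealInnerProductSpace ComplexConjugate

variable {d : ℕ}

/-- Products of bounded continuous functions and the weight are integrable. -/
theorem int_mul_wt {M : ℕ} (hM : d < 2 * M) {R : ℝ} (hR : 0 < R) (x : EuclideanSpace ℝ (Fin d))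
    {f : EuclideanSpace ℝ (Fin d) → ℂ} (hf : Continuous f) {A : ℝ} (hA : ∀ z, ‖f z‖ ≤ A)
    {w : EuclideanSpace ℝ (Fin d) → ℝ} (hw : Continuous w) {B : ℝ}
    (hB : ∀ z, |w z| ≤ B * wt M R (z - x)) :
    Integrable (fun z => f z * (w z : ℂ)) := by
  refine ((wt_comp_integrable hM hR x).const_mul (A * B)).mono'
    (Continuous.aestronglyMeasurable (by fun_prop)) (Eventually.of_forall fun z => ?_)
  rw [norm_mul, Complex.norm_real, Real.norm_eq_abs, mul_assoc]
  exact mul_le_mul (hA z) (hB z) (abs_nonneg _) ((norm_nonneg _).trans (hA z))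

theorem En_deriv {M : ℕ} (hM : d < 2 * M) {δ R : ℝ} (hR : 0 < R)
    {g : EuclideanSpace ℝ (Fin d) → ℂ} (hg : Cls δ g) (x : EuclideanSpace ℝ (Fin d)) (t : ℝ) :
    HasDerivAt (fun t => En M g x t R)
      (∫ z, 2 * ⟪J g z t, J (dt g) z t⟫ * wt M R (z - x)) t := by
  have hJc := fun s => J_cont hg.1 s
  have hJ'c := fun s => J_cont hg.dt.1 s
  have hwc : Continuous fun z : EuclideanSpace ℝ (Fin d) => wt M R (z - x) :=
    (wt_cont M R).comp (by fun_prop)
  refine (hasDerivAt_integral_of_dominated_loc_of_deriv_le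
    (F := fun t z => ‖J g z t‖ ^ 2 * wt M R (z - x))
    (F' := fun t z => 2 * ⟪J g z t, J (dt g) z t⟫ * wt M R (z - x))
    (bound := fun z => 2 * ((∫ η, ‖g η‖) * ∫ η, ‖dt g η‖) * wt M R (z - x)) (s := univ) univ_mem
    (Eventually.of_forall fun s => ((((hJc s).norm.pow 2).mul hwc).aestronglyMeasurable)) ?_
    ((((hJc t).inner (hJ'c t)).const_mul 2 |>.mul hwc).aestronglyMeasurable) ?_
    ((wt_comp_integrable hM hR x).const_mul _) ?_).2
  · refine ((wt_comp_integrable hM hR x).const_mul ((∫ η, ‖g η‖) ^ 2)).mono'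
      (((hJc t).norm.pow 2).mul hwc).aestronglyMeasurable (Eventually.of_forall fun z => ?_)
    rw [Real.norm_eq_abs, abs_of_nonneg (mul_nonneg (by positivity) (wt_pos M _).le)]
    exact mul_le_mul_of_nonneg_right (pow_le_pow_left₀ (norm_nonneg _) (norm_J_le g z t) 2)
      (wt_pos M _).le
  · refine Eventually.of_forall fun z s _ => ?_
    rw [norm_mul, norm_mul, Real.norm_eq_abs, Real.norm_eq_abs, Real.norm_eq_abs,
      abs_of_pos (by norm_num : (0 : ℝ) < 2), abs_of_pos (wt_pos M _), mul_assoc 2, mul_assoc 2]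
    refine mul_le_mul_of_nonneg_left ?_ (by norm_num)
    refine mul_le_mul_of_nonneg_right ?_ (wt_pos M _).le
    refine (abs_real_inner_le_norm _ _).trans ?_
    exact mul_le_mul (norm_J_le g z s) (norm_J_le _ z s) (norm_nonneg _)
      ((norm_nonneg _).trans (norm_J_le g z s))
  · refine Eventually.of_forall fun z s _ => ?_
    exact ((J_deriv_t hg z s).norm_sq).mul_const _

/-- Integration by parts. -/
theorem parts {M : ℕ} (hM : d < 2 * M) {δ R : ℝ} (hR : 0 < R)
    {g : EuclideanSpace ℝ (Fin d) → ℂ} (hg : Cls δ g) (x v : EuclideanSpace ℝ (Fin d)) (t : ℝ) :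
    ∫ z, conj (J g z t) * J (dv v (dv v g)) z t * (wt M R (z - x) : ℂ) =
      -((∫ z, ((‖J (dv v g) z t‖ ^ 2 * wt M R (z - x) : ℝ) : ℂ)) +
        ∫ z, conj (J g z t) * J (dv v g) z t * (dwt M R v (z - x) : ℂ)) := by
  have h0 := J_cont hg.1 t
  have h1 := J_cont (hg.dv v).1 t
  have h2 := J_cont ((hg.dv v).dv v).1 t
  have hwc : Continuous fun z : EuclideanSpace ℝ (Fin d) => wt M R (z - x) :=
    (wt_cont M R).comp (by fun_prop)
  have hdc : Continuous fun z : EuclideanSpace ℝ (Fin d) => dwt M R v (z - x) :=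
    (dwt_cont M R v).comp (by fun_prop)
  have hwB : ∀ z : EuclideanSpace ℝ (Fin d), |wt M R (z - x)| ≤ 1 * wt M R (z - x) := fun z => by
    rw [one_mul, abs_of_pos (wt_pos M _)]
  have hdB : ∀ z : EuclideanSpace ℝ (Fin d), |dwt M R v (z - x)| ≤
      (M * ‖v‖ / R) * wt M R (z - x) := fun z => dwt_le M hR v _
  have hb : ∀ g' g'' : EuclideanSpace ℝ (Fin d) → ℂ, ∀ z, ‖conj (J g' z t) * J g'' z t‖ ≤
      (∫ η, ‖g' η‖) * ∫ η, ‖g'' η‖ := fun g' g'' z => by
    rw [norm_mul, RCLike.norm_conj]
    exact mul_le_mul (norm_J_le _ _ _) (norm_J_le _ _ _) (norm_nonneg _)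
      ((norm_nonneg _).trans (norm_J_le g' z t))
  have hcc : Continuous (fun z : ℂ => conj z) := Complex.continuous_conj
  have i1 : Integrable fun z => conj (J g z t) * J (dv v (dv v g)) z t * (wt M R (z - x) : ℂ) :=
    int_mul_wt hM hR x ((hcc.comp h0).mul h2) (hb _ _) hwc hwB
  have i2 : Integrable fun z => conj (J (dv v g) z t) * J (dv v g) z t * (wt M R (z - x) : ℂ) :=
    int_mul_wt hM hR x ((hcc.comp h1).mul h1) (hb _ _) hwc hwB
  have i3 : Integrable fun z => conj (J g z t) * J (dv v g) z t * (dwt M R v (z - x) : ℂ) :=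
    int_mul_wt hM hR x ((hcc.comp h0).mul h1) (hb _ _) hdc hdB
  have i4 : Integrable fun z => conj (J g z t) * J (dv v g) z t * (wt M R (z - x) : ℂ) :=
    int_mul_wt hM hR x ((hcc.comp h0).mul h1) (hb _ _) hwc hwB
  have key := integral_bilinear_hasLineDerivAt_right_eq_neg_left_of_integrable
    (μ := (volume : Measure (EuclideanSpace ℝ (Fin d)))) (v := v)
    (B := ContinuousLinearMap.mul ℝ ℂ)
    (f := fun z => conj (J g z t) * (wt M R (z - x) : ℂ))
    (f' := fun z => conj (J (dv v g) z t) * (wt M R (z - x) : ℂ) +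
      conj (J g z t) * (dwt M R v (z - x) : ℂ))
    (g := fun z => J (dv v g) z t) (g' := fun z => J (dv v (dv v g)) z t)
    ((i2.add i3).congr (Eventually.of_forall fun z => by
      simp only [ContinuousLinearMap.mul_apply', Pi.add_apply]; ring))
    (i1.congr (Eventually.of_forall fun z => by
      simp only [ContinuousLinearMap.mul_apply']; ring))
    (i4.congr (Eventually.of_forall fun z => by
      simp only [ContinuousLinearMap.mul_apply']; ring))
    (fun z _ => by
      have a1 : HasDerivAt (fun s : ℝ => J g (z + s • v) t) (J (dv v g) z t) 0 :=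
        J_deriv_z hg v z t
      have a2 : HasDerivAt (fun s : ℝ => wt M R (z - x + s • v)) (dwt M R v (z - x)) 0 :=
        wt_deriv M R v (z - x)
      have a3 := (Complex.conjCLE.toContinuousLinearMap.hasFDerivAt.comp_hasDerivAt (0 : ℝ) a1)
      have a4 := a3.mul a2.ofReal_comp
      refine (a4.congr_deriv ?_).congr_of_eventuallyEq ?_
      · simp
      · refine Eventually.of_forall fun s => ?_
        simp [sub_add_eq_add_sub])
    (fun z _ => J_deriv_z (hg.dv v) v z t)
  simp only [ContinuousLinearMap.mul_apply'] at key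
  have e1 : ∫ z, conj (J g z t) * J (dv v (dv v g)) z t * (wt M R (z - x) : ℂ) =
      ∫ z, conj (J g z t) * (wt M R (z - x) : ℂ) * J (dv v (dv v g)) z t := by
    congr 1; funext z; ring
  rw [e1, key]
  congr 1
  rw [← integral_add]
  · refine integral_congr_ae (Eventually.of_forall fun z => ?_)
    simp only
    have h3 : conj (J (dv v g) z t) * J (dv v g) z t = ((‖J (dv v g) z t‖ ^ 2 : ℝ) : ℂ) := by
      rw [← Complex.normSq_eq_conj_mul_self, Complex.normSq_eq_norm_sq]
    push_cast at h3 ⊢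
    linear_combination (wt M R (z - x) : ℂ) * h3
  · refine i2.congr (Eventually.of_forall fun z => ?_)
    simp only
    have h3 : conj (J (dv v g) z t) * J (dv v g) z t = ((‖J (dv v g) z t‖ ^ 2 : ℝ) : ℂ) := by
      rw [← Complex.normSq_eq_conj_mul_self, Complex.normSq_eq_norm_sq]
    rw [h3]
    push_cast
    ring
  · exact i3

end Pool.Agent.DEC.EN
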