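import Pool.Agent.DEC.EN2

/-!
The local energy of solutions of the free Schrödinger equation varies slowly along the direction of
propagation.
-/

set_option autoImplicit false

namespace Pool.Agent.DEC.EN

open MeasureTheory Set Filter Topology Complex
open scoped Real RealInnerProductSpace ComplexConjugate

variable {d : ℕ}

/-- The weighted estimate of Bernstein. -/
def Bern (d M : ℕ) (C : ℝ) : Prop :=
  ∀ δ R : ℝ, 0 < δ → 1 ≤ δ * R → ∀ g : EuclideanSpace ℝ (Fin d) → ℂ, Cls δ g →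
    ∀ (j : Fin d) (x : EuclideanSpace ℝ (Fin d)) (t : ℝ),
    ∫ z, ‖J (dv (EuclideanSpace.single j 1) g) z t‖ ^ 2 * wt M R (z - x) ≤
      C * δ ^ 2 * En M g x t R

theorem int_sq_wt {M : ℕ} (hM : d < 2 * M) {R : ℝ} (hR : 0 < R) (x : EuclideanSpace ℝ (Fin d))
    {g : EuclideanSpace ℝ (Fin d) → ℂ} (hg : Integrable g) (t : ℝ) :
    Integrable fun z => ‖J g z t‖ ^ 2 * wt M R (z - x) := by
  have hwc : Continuous fun z : EuclideanSpace ℝ (Fin d) => wt M R (z - x) :=
    (wt_cont M R).comp (by fun_prop)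
  refine ((wt_comp_integrable hM hR x).const_mul ((∫ η, ‖g η‖) ^ 2)).mono'
    (((J_cont hg t).norm.pow 2).mul hwc).aestronglyMeasurable (Eventually.of_forall fun z => ?_)
  rw [Real.norm_eq_abs, abs_of_nonneg (mul_nonneg (by positivity) (wt_pos M _).le)]
  exact mul_le_mul_of_nonneg_right (pow_le_pow_left₀ (norm_nonneg _) (norm_J_le g z t) 2)
    (wt_pos M _).le

theorem En_nonneg (M : ℕ) (g : EuclideanSpace ℝ (Fin d) → ℂ) (x : EuclideanSpace ℝ (Fin d))
    (t R : ℝ) : 0 ≤ En M g x t R :=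
  integral_nonneg fun _ => mul_nonneg (by positivity) (wt_pos M _).le

/-- The flux through the weight. -/
theorem flux_le {M : ℕ} (hM : d < 2 * M) {C δ R : ℝ} (hC : 0 < C) (hB : Bern d M C) (hδ : 0 < δ)
    (hδR : 1 ≤ δ * R) {g : EuclideanSpace ℝ (Fin d) → ℂ} (hg : Cls δ g)
    (x : EuclideanSpace ℝ (Fin d)) (t : ℝ) :
    |∫ z, 2 * ⟪J g z t, J (dt g) z t⟫ * wt M R (z - x)| ≤
      (d * M * √C) * (δ / R) * En M g x t R := by
  have hR : 0 < R := by
    by_contra h
    nlinarith [mul_nonpos_of_nonneg_of_nonpos hδ.le (not_lt.mp h)]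
  have hwc : Continuous fun z : EuclideanSpace ℝ (Fin d) => wt M R (z - x) :=
    (wt_cont M R).comp (by fun_prop)
  have hcc : Continuous (fun z : ℂ => conj z) := Complex.continuous_conj
  have hb : ∀ g' g'' : EuclideanSpace ℝ (Fin d) → ℂ, ∀ z, ‖conj (J g' z t) * J g'' z t‖ ≤
      (∫ η, ‖g' η‖) * ∫ η, ‖g'' η‖ := fun g' g'' z => by
    rw [norm_mul, RCLike.norm_conj]
    exact mul_le_mul (norm_J_le _ _ _) (norm_J_le _ _ _) (norm_nonneg _)
      ((norm_nonneg _).trans (norm_J_le g' z t))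
  set e : Fin d → EuclideanSpace ℝ (Fin d) := fun j => EuclideanSpace.single j 1 with he
  have hen : ∀ j, ‖e j‖ = 1 := fun j => by simp [he]
  set P : Fin d → ℝ := fun j => ∫ z, ‖J (dv (e j) g) z t‖ ^ 2 * wt M R (z - x) with hP
  set Q : Fin d → ℂ := fun j => ∫ z, conj (J g z t) * J (dv (e j) g) z t *
    (dwt M R (e j) (z - x) : ℂ) with hQ
  -- the complex form
  have h1 : ∫ z, 2 * ⟪J g z t, J (dt g) z t⟫ * wt M R (z - x) =
      2 * (∫ z, conj (J g z t) * J (dt g) z t * (wt M R (z - x) : ℂ)).re := by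
    have i0 : Integrable fun z => conj (J g z t) * J (dt g) z t * (wt M R (z - x) : ℂ) :=
      int_mul_wt hM hR x ((hcc.comp (J_cont hg.1 t)).mul (J_cont hg.dt.1 t)) (hb _ _) hwc
        fun z => by rw [one_mul, abs_of_pos (wt_pos M _)]
    have h2 := integral_re (𝕜 := ℂ) i0
    simp only [RCLike.re_to_complex] at h2
    rw [← h2, ← integral_const_mul]
    refine integral_congr_ae (Eventually.of_forall fun z => ?_)
    simp only
    rw [Complex.inner, Complex.re_mul_ofReal]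
    ring_nf
  have h3 : ∫ z, conj (J g z t) * J (dt g) z t * (wt M R (z - x) : ℂ) =
      (-(1 / (2 * π) : ℝ) * I) * ∑ j, -((P j : ℂ) + Q j) := by
    have h4 : ∀ z, conj (J g z t) * J (dt g) z t * (wt M R (z - x) : ℂ) =
        (-(1 / (2 * π) : ℝ) * I) * ∑ j, conj (J g z t) * J (dv (e j) (dv (e j) g)) z t *
          (wt M R (z - x) : ℂ) := by
      intro z
      rw [J_dt hg, Finset.mul_sum, Finset.mul_sum, Finset.mul_sum, Finset.sum_mul]
      refine Finset.sum_congr rfl fun j _ => ?_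
      ring
    simp only [h4]
    rw [integral_const_mul, integral_finsetSum]
    · congr 1
      refine Finset.sum_congr rfl fun j _ => ?_
      rw [parts hM hR hg x (e j) t, hP, hQ]
      simp only
      rw [integral_complex_ofReal]
    · intro j _
      exact int_mul_wt hM hR x ((hcc.comp (J_cont hg.1 t)).mul
        (J_cont ((hg.dv (e j)).dv (e j)).1 t)) (hb _ _) hwc
        fun z => by rw [one_mul, abs_of_pos (wt_pos M _)]
  have h5 : |2 * (∫ z, conj (J g z t) * J (dt g) z t * (wt M R (z - x) : ℂ)).re| ≤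
      (1 / π) * ∑ j, ‖Q j‖ := by
    rw [h3]
    have h6 : ((-(1 / (2 * π) : ℝ) * I) * ∑ j, -((P j : ℂ) + Q j)).re =
        -(1 / (2 * π)) * ∑ j, (Q j).im := by
      have h7 : (∑ j, -((P j : ℂ) + Q j)) = -((((∑ j, P j : ℝ)) : ℂ) + ∑ j, Q j) := by
        rw [Finset.sum_neg_distrib, Finset.sum_add_distrib]
        push_cast
        rfl
      rw [h7]
      have h8 : (-((1 / (2 * π) : ℝ) : ℂ) * I * -((((∑ j, P j : ℝ)) : ℂ) + ∑ j, Q j)).re =
          -(1 / (2 * π)) * (∑ j, Q j).im := by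
        simp only [Complex.mul_re, Complex.neg_re, Complex.neg_im, Complex.mul_im, Complex.I_re,
          Complex.I_im, Complex.add_re, Complex.add_im, Complex.ofReal_re, Complex.ofReal_im]
        ring
      rw [h8, Complex.im_sum]
    rw [h6, abs_mul, abs_mul, abs_neg, abs_of_pos (by norm_num : (0 : ℝ) < 2),
      abs_of_pos (by positivity : (0 : ℝ) < 1 / (2 * π))]
    have h9 : |∑ j, (Q j).im| ≤ ∑ j, ‖Q j‖ :=
      (Finset.abs_sum_le_sum_abs _ _).trans (Finset.sum_le_sum fun j _ => Complex.abs_im_le_norm _)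
    calc 2 * (1 / (2 * π) * |∑ j, (Q j).im|) = (1 / π) * |∑ j, (Q j).im| := by
          field_simp
      _ ≤ (1 / π) * ∑ j, ‖Q j‖ := mul_le_mul_of_nonneg_left h9 (by positivity)
  have h10 : ∀ j, ‖Q j‖ ≤ M * √C * (δ / R) * En M g x t R := by
    intro j
    set c : ℝ := √C with hc
    have hc0 : 0 < c := Real.sqrt_pos.mpr hC
    have hc2 : c ^ 2 = C := Real.sq_sqrt hC.le
    have i1 := int_sq_wt hM hR x hg.1 t
    have i2 := int_sq_wt hM hR x (hg.dv (e j)).1 t
    have h11 : ‖Q j‖ ≤ ∫ z, (M / R) * ((1 / 2) * ((c * δ) * (‖J g z t‖ ^ 2 * wt M R (z - x)) +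
        (c * δ)⁻¹ * (‖J (dv (e j) g) z t‖ ^ 2 * wt M R (z - x)))) := by
      refine (norm_integral_le_integral_norm _).trans ?_
      refine integral_mono_of_nonneg (Eventually.of_forall fun z => norm_nonneg _)
        (((i1.const_mul _).add (i2.const_mul _)).const_mul _ |>.const_mul _)
        (Eventually.of_forall fun z => ?_)
      simp only
      rw [norm_mul, norm_mul, RCLike.norm_conj, Complex.norm_real, Real.norm_eq_abs]
      have h12 := dwt_le M hR (e j) (z - x)
      rw [hen j, mul_one] at h12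
      have h13 : ‖J g z t‖ * ‖J (dv (e j) g) z t‖ ≤
          (1 / 2) * ((c * δ) * ‖J g z t‖ ^ 2 + (c * δ)⁻¹ * ‖J (dv (e j) g) z t‖ ^ 2) := by
        have hcd : 0 < c * δ := by positivity
        have h14 : (1 / 2) * ((c * δ) * ‖J g z t‖ ^ 2 + (c * δ)⁻¹ * ‖J (dv (e j) g) z t‖ ^ 2) -
            ‖J g z t‖ * ‖J (dv (e j) g) z t‖ =
            (1 / 2) * (c * δ)⁻¹ * ((c * δ) * ‖J g z t‖ - ‖J (dv (e j) g) z t‖) ^ 2 := by
          field_simp
          ring
        have h15 : 0 ≤ (1 / 2) * (c * δ)⁻¹ *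
            ((c * δ) * ‖J g z t‖ - ‖J (dv (e j) g) z t‖) ^ 2 := by positivity
        linarith
      calc ‖J g z t‖ * ‖J (dv (e j) g) z t‖ * |dwt M R (e j) (z - x)|
          ≤ ((1 / 2) * ((c * δ) * ‖J g z t‖ ^ 2 + (c * δ)⁻¹ * ‖J (dv (e j) g) z t‖ ^ 2)) *
            (M / R * wt M R (z - x)) :=
            mul_le_mul h13 h12 (abs_nonneg _) (by positivity)
        _ = _ := by ring
    refine h11.trans ?_
    rw [integral_const_mul, integral_const_mul, integral_add (i1.const_mul _) (i2.const_mul _),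
      integral_const_mul, integral_const_mul]
    have h16 := hB δ R hδ hδR g hg j x t
    have h17 : (c * δ)⁻¹ * ∫ z, ‖J (dv (e j) g) z t‖ ^ 2 * wt M R (z - x) ≤
        (c * δ) * En M g x t R := by
      rw [inv_mul_le_iff₀ (by positivity)]
      refine h16.trans (le_of_eq ?_)
      rw [← hc2]
      ring
    calc (M / R : ℝ) * (1 / 2 * (c * δ * (∫ z, ‖J g z t‖ ^ 2 * wt M R (z - x)) +
          (c * δ)⁻¹ * ∫ z, ‖J (dv (e j) g) z t‖ ^ 2 * wt M R (z - x)))
        ≤ (M / R : ℝ) * (1 / 2 * (c * δ * En M g x t R + c * δ * En M g x t R)) := by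
          refine mul_le_mul_of_nonneg_left ?_ (by positivity)
          refine mul_le_mul_of_nonneg_left ?_ (by norm_num)
          exact add_le_add le_rfl h17
      _ = M * c * (δ / R) * En M g x t R := by ring
  rw [h1]
  refine h5.trans ?_
  have h18 : ∑ j, ‖Q j‖ ≤ d * (M * √C * (δ / R) * En M g x t R) := by
    refine (Finset.sum_le_sum fun j _ => h10 j).trans ?_
    simp
  have h19 : (1 / π) * ∑ j, ‖Q j‖ ≤ 1 * ∑ j, ‖Q j‖ := by
    refine mul_le_mul_of_nonneg_right ?_ (Finset.sum_nonneg fun j _ => norm_nonneg _)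
    rw [div_le_one Real.pi_pos]
    linarith [Real.pi_gt_three]
  calc (1 / π) * ∑ j, ‖Q j‖ ≤ 1 * ∑ j, ‖Q j‖ := h19
    _ ≤ d * (M * √C * (δ / R) * En M g x t R) := by rw [one_mul]; exact h18
    _ = _ := by ring

/-- Gronwall's inequality. -/
theorem gronwall {f f' : ℝ → ℝ} {K : ℝ} (hf : ∀ t, HasDerivAt f (f' t) t)
    (h : ∀ t, |f' t| ≤ K * f t) (t s : ℝ) : f (t + s) ≤ Real.exp (K * |s|) * f t := by
  have hexp : ∀ (c u : ℝ), HasDerivAt (fun u => Real.exp (c * u) * f u)
      (Real.exp (c * u) * (c * f u + f' u)) u := by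
    intro c u
    have h1 : HasDerivAt (fun u : ℝ => Real.exp (c * u)) (Real.exp (c * u) * c) u := by
      simpa using ((hasDerivAt_id u).const_mul c).exp
    exact (h1.mul (hf u)).congr_deriv (by ring)
  rcases le_total 0 s with hs | hs
  · have h2 : Antitone fun u => Real.exp (-K * u) * f u := by
      refine antitone_of_deriv_nonpos (fun u => (hexp (-K) u).differentiableAt) fun u => ?_
      rw [(hexp (-K) u).deriv]
      have := (abs_le.mp (h u)).2
      exact mul_nonpos_of_nonneg_of_nonpos (Real.exp_pos _).le (by linarith)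
    have h3 := h2 (by linarith : t ≤ t + s)
    simp only at h3
    have h4 : Real.exp (-K * (t + s)) * f (t + s) ≤ Real.exp (-K * (t + s)) *
        (Real.exp (K * |s|) * f t) := by
      refine h3.trans (le_of_eq ?_)
      rw [← mul_assoc, ← Real.exp_add, abs_of_nonneg hs]
      congr 2
      ring
    exact le_of_mul_le_mul_left h4 (Real.exp_pos _)
  · have h2 : Monotone fun u => Real.exp (K * u) * f u := by
      refine monotone_of_deriv_nonneg (fun u => (hexp K u).differentiableAt) fun u => ?_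
      rw [(hexp K u).deriv]
      have := (abs_le.mp (h u)).1
      exact mul_nonneg (Real.exp_pos _).le (by linarith)
    have h3 := h2 (by linarith : t + s ≤ t)
    simp only at h3
    have h4 : Real.exp (K * (t + s)) * f (t + s) ≤ Real.exp (K * (t + s)) *
        (Real.exp (K * |s|) * f t) := by
      refine h3.trans (le_of_eq ?_)
      rw [← mul_assoc, ← Real.exp_add, abs_of_nonpos hs]
      congr 2
      ring
    exact le_of_mul_le_mul_left h4 (Real.exp_pos _)

theorem energy0 {M : ℕ} (hM : d < 2 * M) {C δ R : ℝ} (hC : 0 < C) (hB : Bern d M C) (hδ : 0 < δ)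
    (hδR : 1 ≤ δ * R) {g : EuclideanSpace ℝ (Fin d) → ℂ} (hg : Cls δ g)
    (x : EuclideanSpace ℝ (Fin d)) (t s : ℝ) (hs : |s| ≤ R / δ) :
    En M g x (t + s) R ≤ Real.exp (d * M * √C) * En M g x t R := by
  have hR : 0 < R := by
    by_contra h
    nlinarith [mul_nonpos_of_nonneg_of_nonpos hδ.le (not_lt.mp h)]
  have h1 := gronwall (f := fun t => En M g x t R) (K := (d * M * √C) * (δ / R))
    (fun t => En_deriv hM hR hg x t) (fun t => flux_le hM hC hB hδ hδR hg x t) t s
  refine h1.trans (mul_le_mul_of_nonneg_right (Real.exp_le_exp.mpr ?_) (En_nonneg _ _ _ _ _))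
  calc (d * M * √C) * (δ / R) * |s| ≤ (d * M * √C) * (δ / R) * (R / δ) := by gcongr
    _ = d * M * √C := by field_simp

/-- A change of the centre of the frequencies. -/
theorem En_shift (M : ℕ) (g : EuclideanSpace ℝ (Fin d) → ℂ) (ξ0 x : EuclideanSpace ℝ (Fin d))
    (t R : ℝ) : En M g x t R = En M (fun η => g (η + ξ0)) (x + (2 * t) • ξ0) t R := by
  unfold En
  rw [← integral_add_right_eq_self (μ := volume)
    (fun z => ‖J (fun η => g (η + ξ0)) z t‖ ^ 2 * wt M R (z - (x + (2 * t) • ξ0))) ((2 * t) • ξ0)]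
  refine integral_congr_ae (Eventually.of_forall fun z => ?_)
  simp only [add_sub_add_right_eq_sub]
  congr 2
  unfold J
  have h1 := integral_add_right_eq_self (μ := volume)
    (fun η => g η * cexp (((2 * π * (⟪z, η⟫ + t * ‖η‖ ^ 2) : ℝ) : ℂ) * I)) ξ0
  rw [← h1]
  have h2 : ∀ η : EuclideanSpace ℝ (Fin d),
      g (η + ξ0) * cexp (((2 * π * (⟪z, η + ξ0⟫ + t * ‖η + ξ0‖ ^ 2) : ℝ) : ℂ) * I) =
      cexp (((2 * π * (⟪z, ξ0⟫ + t * ‖ξ0‖ ^ 2) : ℝ) : ℂ) * I) *
      (g (η + ξ0) * cexp (((2 * π * (⟪z + (2 * t) • ξ0, η⟫ + t * ‖η‖ ^ 2) : ℝ) : ℂ) * I)) := by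
    intro η
    rw [mul_left_comm, ← Complex.exp_add]
    congr 2
    rw [← add_mul, ← Complex.ofReal_add]
    congr 2
    rw [inner_add_right, norm_add_sq_real, inner_add_left, inner_smul_left, real_inner_comm ξ0 η]
    simp
    ring
  simp only [h2]
  rw [integral_const_mul, norm_mul, Complex.norm_exp_ofReal_mul_I, one_mul]

/-- **The energy varies slowly along the direction of propagation.** -/
theorem energy_of {M : ℕ} (hM : d < 2 * M) {C : ℝ} (hC : 0 < C) (hB : Bern d M C) :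
    ∃ C', 0 < C' ∧ ∀ δ R : ℝ, 0 < δ → 1 ≤ δ * R → ∀ (ξ0 : EuclideanSpace ℝ (Fin d))
      (g : EuclideanSpace ℝ (Fin d) → ℂ), Integrable g → (∀ η, g η ≠ 0 → ‖η - ξ0‖ ≤ δ) →
      ∀ (x : EuclideanSpace ℝ (Fin d)) (t s : ℝ), |s| ≤ R / δ →
      En M g (x - (2 * s) • ξ0) (t + s) R ≤ C' * En M g x t R := by
  refine ⟨Real.exp (d * M * √C), Real.exp_pos _, ?_⟩
  intro δ R hδ hδR ξ0 g hg hs x t s hst
  have hcls : Cls δ (fun η => g (η + ξ0)) :=
    ⟨hg.comp_add_right ξ0, fun η h => by simpa using hs _ h⟩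
  rw [En_shift M g ξ0 (x - (2 * s) • ξ0) (t + s) R, En_shift M g ξ0 x t R]
  have h1 : x - (2 * s) • ξ0 + (2 * (t + s)) • ξ0 = x + (2 * t) • ξ0 := by
    rw [mul_add, add_smul]
    abel
  rw [h1]
  exact energy0 hM hC hB hδ hδR hcls _ t s hst

end Pool.Agent.DEC.EN
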