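import Pool.Agent.DEC.EN3

/-!
The local energy of solutions of the free Schrödinger equation: dependence on the centre, and
averages of the energy at a small scale.
-/

set_option autoImplicit false

namespace Pool.Agent.DEC.EN

open MeasureTheory Set Filter Topology Complex
open scoped Real RealInnerProductSpace ComplexConjugate ENNReal

variable {d : ℕ}

theorem wt_peetre (M : ℕ) (R : ℝ) (y y' : EuclideanSpace ℝ (Fin d)) :
    wt M R y ≤ (2 * (1 + ‖y - y'‖ ^ 2 / R ^ 2)) ^ M * wt M R y' := by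
  unfold wt
  have h1 : 0 < 1 + ‖y‖ ^ 2 / R ^ 2 := by positivity
  have h2 : 0 < 1 + ‖y'‖ ^ 2 / R ^ 2 := by positivity
  have h3 : 1 + ‖y'‖ ^ 2 / R ^ 2 ≤ 2 * (1 + ‖y - y'‖ ^ 2 / R ^ 2) * (1 + ‖y‖ ^ 2 / R ^ 2) := by
    have h4 : ‖y'‖ ^ 2 ≤ 2 * ‖y‖ ^ 2 + 2 * ‖y - y'‖ ^ 2 := by
      have h5 : ‖y'‖ ≤ ‖y‖ + ‖y - y'‖ := by
        have : y' = y - (y - y') := by abel
        nth_rw 1 [this]
        exact norm_sub_le _ _
      nlinarith [sq_nonneg (‖y‖ - ‖y - y'‖), norm_nonneg y, norm_nonneg y', norm_nonneg (y - y')]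
    have h6 : ‖y'‖ ^ 2 / R ^ 2 ≤ 2 * (‖y‖ ^ 2 / R ^ 2) + 2 * (‖y - y'‖ ^ 2 / R ^ 2) := by
      calc ‖y'‖ ^ 2 / R ^ 2 ≤ (2 * ‖y‖ ^ 2 + 2 * ‖y - y'‖ ^ 2) / R ^ 2 := by gcongr
        _ = _ := by ring
    have h7 : 0 ≤ ‖y‖ ^ 2 / R ^ 2 := by positivity
    have h8 : 0 ≤ ‖y - y'‖ ^ 2 / R ^ 2 := by positivity
    nlinarith [mul_nonneg h7 h8]
  rw [← div_eq_mul_inv, inv_eq_one_div, div_le_div_iff₀ (by positivity) (by positivity), one_mul,
    ← mul_pow]
  exact pow_le_pow_left₀ h2.le h3 M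

theorem wt_near (M : ℕ) {A R : ℝ} (hR : 0 < R) {y y' : EuclideanSpace ℝ (Fin d)}
    (h : ‖y - y'‖ ≤ A * R) : wt M R y ≤ (2 * (1 + A ^ 2)) ^ M * wt M R y' := by
  refine (wt_peetre M R y y').trans (mul_le_mul_of_nonneg_right ?_ (wt_pos M y').le)
  have h1 : ‖y - y'‖ ^ 2 / R ^ 2 ≤ A ^ 2 := by
    rw [div_le_iff₀ (by positivity), ← mul_pow]
    exact pow_le_pow_left₀ (norm_nonneg _) h 2
  gcongr

/-- The energy at two points at distance at most `A R`. -/
theorem En_comp {M : ℕ} (hM : d < 2 * M) {A R : ℝ} (hR : 0 < R)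
    {g : EuclideanSpace ℝ (Fin d) → ℂ} (hg : Integrable g) {x x' : EuclideanSpace ℝ (Fin d)}
    (h : ‖x - x'‖ ≤ A * R) (t : ℝ) :
    En M g x' t R ≤ (2 * (1 + A ^ 2)) ^ M * En M g x t R := by
  unfold En
  rw [← integral_const_mul]
  refine integral_mono (int_sq_wt hM hR x' hg t) ((int_sq_wt hM hR x hg t).const_mul _)
    fun z => ?_
  simp only
  rw [mul_left_comm]
  refine mul_le_mul_of_nonneg_left (wt_near M hR ?_) (by positivity)
  rw [sub_sub_sub_cancel_left]
  exact h

theorem wt_scale (M : ℕ) {R R' : ℝ} (hR : 0 < R) (hRR : R ≤ R')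
    (y : EuclideanSpace ℝ (Fin d)) :
    wt M R y ≤ 2 ^ M * (wt M R y + (R / R') ^ (2 * M)) * wt M R' y := by
  have hR' : 0 < R' := hR.trans_le hRR
  unfold wt
  set X : ℝ := ‖y‖ ^ 2 / R ^ 2 with hX
  set ρ : ℝ := (R / R') ^ 2 with hρ
  have hX0 : 0 ≤ X := by positivity
  have hρ0 : 0 ≤ ρ := by positivity
  have h1 : ‖y‖ ^ 2 / R' ^ 2 = ρ * X := by
    rw [hρ, hX]; field_simp
  rw [h1, pow_mul, ← hρ]
  have h2 : (1 + ρ * X) ≤ ((1 + X)⁻¹ + ρ) * (1 + X) := by
    rw [add_mul, inv_mul_cancel₀ (by positivity)]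
    nlinarith
  have h3 : (1 + ρ * X) ^ M ≤ (2 ^ M * (((1 + X) ^ M)⁻¹ + ρ ^ M)) * (1 + X) ^ M := by
    refine (pow_le_pow_left₀ (by positivity) h2 M).trans ?_
    rw [mul_pow]
    refine mul_le_mul_of_nonneg_right ?_ (by positivity)
    rcases le_total (1 + X)⁻¹ ρ with h | h
    · calc ((1 + X)⁻¹ + ρ) ^ M ≤ (2 * ρ) ^ M :=
            pow_le_pow_left₀ (by positivity) (by linarith) M
        _ = 2 ^ M * ρ ^ M := mul_pow _ _ _
        _ ≤ _ := by
            refine mul_le_mul_of_nonneg_left ?_ (by positivity)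
            exact le_add_of_nonneg_left (by positivity)
    · calc ((1 + X)⁻¹ + ρ) ^ M ≤ (2 * (1 + X)⁻¹) ^ M :=
            pow_le_pow_left₀ (by positivity) (by linarith) M
        _ = 2 ^ M * ((1 + X) ^ M)⁻¹ := by rw [mul_pow, inv_pow]
        _ ≤ _ := by
            refine mul_le_mul_of_nonneg_left ?_ (by positivity)
            exact le_add_of_nonneg_right (by positivity)
  rw [← div_eq_mul_inv, le_div_iff₀ (by positivity), inv_mul_le_iff₀ (by positivity)]
  calc (1 + ρ * X) ^ M ≤ (2 ^ M * (((1 + X) ^ M)⁻¹ + ρ ^ M)) * (1 + X) ^ M := h3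
    _ = _ := mul_comm _ _

theorem wt_integral (M : ℕ) {R : ℝ} (hR : 0 < R) :
    ∫ y, wt M R (y : EuclideanSpace ℝ (Fin d)) =
      R ^ d * ∫ y, wt M 1 (y : EuclideanSpace ℝ (Fin d)) := by
  have h1 := Measure.integral_comp_smul (volume : Measure (EuclideanSpace ℝ (Fin d)))
    (fun y => wt M 1 y) R⁻¹
  rw [finrank_euclideanSpace_fin] at h1
  have h2 : ∀ y : EuclideanSpace ℝ (Fin d), wt M 1 (R⁻¹ • y) = wt M R y := by
    intro y
    unfold wt
    rw [norm_smul, mul_pow, norm_inv, inv_pow, Real.norm_eq_abs, sq_abs]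
    congr 3
    field_simp
  simp only [h2] at h1
  rw [h1, smul_eq_mul, inv_pow, inv_inv, abs_of_pos (by positivity)]

/-- The average of the energy at scale `R` over a ball of radius `A R'` is controlled by the
energy at scale `R'`. -/
theorem En_avg (d M : ℕ) (hM : d < 2 * M) (A : ℝ) (hA : 0 < A) : ∃ C : ℝ, 0 < C ∧
    ∀ R R' : ℝ, 0 < R → R ≤ R' → ∀ g : EuclideanSpace ℝ (Fin d) → ℂ, Integrable g →
      ∀ (x0 : EuclideanSpace ℝ (Fin d)) (t : ℝ),
      ∫⁻ x in Metric.closedBall x0 (A * R'), ENNReal.ofReal (En M g x t R) ≤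
        ENNReal.ofReal (C * R ^ d * En M g x0 t R') := by
  set c1 : ℝ := ∫ y, wt M 1 (y : EuclideanSpace ℝ (Fin d)) with hc1
  set c2 : ℝ := (volume (Metric.ball (0 : EuclideanSpace ℝ (Fin d)) 1)).toReal with hc2
  have hc10 : 0 ≤ c1 := integral_nonneg fun y => (wt_pos M y).le
  have hc20 : 0 ≤ c2 := ENNReal.toReal_nonneg
  set K : ℝ := (2 * (1 + A ^ 2)) ^ M * 2 ^ M with hK
  have hK0 : 0 < K := by positivity
  refine ⟨K * (c1 + A ^ d * c2) + 1, by positivity, ?_⟩
  intro R R' hR hRR g hg x0 t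
  have hR' : 0 < R' := hR.trans_le hRR
  have hwm : ∀ r : ℝ, Measurable (wt M r : EuclideanSpace ℝ (Fin d) → ℝ) :=
    fun r => (wt_cont M r).measurable
  have hJm : Measurable fun z => J g z t := (J_cont hg t).measurable
  -- the inner integral
  have hin : ∀ z : EuclideanSpace ℝ (Fin d),
      ∫⁻ x in Metric.closedBall x0 (A * R'), ENNReal.ofReal (wt M R (z - x)) ≤
        ENNReal.ofReal (K * (c1 + A ^ d * c2) * R ^ d * wt M R' (z - x0)) := by
    intro z
    have h1 : ∀ x ∈ Metric.closedBall x0 (A * R'), ENNReal.ofReal (wt M R (z - x)) ≤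
        ENNReal.ofReal (K * wt M R' (z - x0)) *
          (ENNReal.ofReal (wt M R (z - x)) + ENNReal.ofReal ((R / R') ^ (2 * M))) := by
      intro x hx
      rw [← ENNReal.ofReal_add (wt_pos M _).le (by positivity),
        ← ENNReal.ofReal_mul (mul_nonneg hK0.le (wt_pos M _).le)]
      refine ENNReal.ofReal_le_ofReal ?_
      have h2 : ‖(z - x) - (z - x0)‖ ≤ A * R' := by
        rw [sub_sub_sub_cancel_left, ← dist_eq_norm, dist_comm]
        exact hx
      have h3 := wt_near M hR' h2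
      have h4 := wt_scale M hR hRR (z - x)
      calc wt M R (z - x)
          ≤ 2 ^ M * (wt M R (z - x) + (R / R') ^ (2 * M)) * wt M R' (z - x) := h4
        _ ≤ 2 ^ M * (wt M R (z - x) + (R / R') ^ (2 * M)) *
            ((2 * (1 + A ^ 2)) ^ M * wt M R' (z - x0)) := by
            refine mul_le_mul_of_nonneg_left h3 ?_
            have := (wt_pos M (R := R) (z - x)).le
            positivity
        _ = _ := by rw [hK]; ring
    refine (setLIntegral_mono' Metric.isClosed_closedBall.measurableSet h1).trans ?_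
    rw [lintegral_const_mul _ (by
      have := hwm R
      fun_prop)]
    have h5 : ∫⁻ x in Metric.closedBall x0 (A * R'),
        (ENNReal.ofReal (wt M R (z - x)) + ENNReal.ofReal ((R / R') ^ (2 * M))) ≤
        ENNReal.ofReal ((c1 + A ^ d * c2) * R ^ d) := by
      rw [lintegral_add_right _ measurable_const, setLIntegral_const]
      have h6 : ∫⁻ x in Metric.closedBall x0 (A * R'), ENNReal.ofReal (wt M R (z - x)) ≤
          ENNReal.ofReal (R ^ d * c1) := by
        refine (setLIntegral_le_lintegral _ _).trans ?_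
        rw [← ofReal_integral_eq_lintegral_ofReal ((wt_integrable hM hR).comp_sub_left z)
          (Eventually.of_forall fun x => (wt_pos M _).le), integral_sub_left_eq_self,
          wt_integral M hR]
      have h7 : ENNReal.ofReal ((R / R') ^ (2 * M)) * volume (Metric.closedBall x0 (A * R')) ≤
          ENNReal.ofReal (A ^ d * c2 * R ^ d) := by
        rw [Measure.addHaar_closedBall _ _ (by positivity), finrank_euclideanSpace_fin,
          ← ENNReal.ofReal_toReal (a := volume (Metric.ball (0 : EuclideanSpace ℝ (Fin d)) 1))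
            measure_ball_lt_top.ne, ← hc2, ← ENNReal.ofReal_mul (by positivity),
          ← ENNReal.ofReal_mul (by positivity)]
        refine ENNReal.ofReal_le_ofReal ?_
        have h8 : (R / R') ^ (2 * M) ≤ (R / R') ^ d :=
          pow_le_pow_of_le_one (by positivity) ((div_le_one hR').mpr hRR) hM.le
        calc (R / R') ^ (2 * M) * ((A * R') ^ d * c2) ≤ (R / R') ^ d * ((A * R') ^ d * c2) := by
              gcongr
          _ = A ^ d * c2 * R ^ d := by
              rw [div_pow, mul_pow]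
              field_simp
      refine (add_le_add h6 h7).trans (le_of_eq ?_)
      rw [← ENNReal.ofReal_add (by positivity) (by positivity)]
      congr 1
      ring
    refine (mul_le_mul_right h5 _).trans (le_of_eq ?_)
    rw [← ENNReal.ofReal_mul (mul_nonneg hK0.le (wt_pos M _).le)]
    congr 1
    ring
  -- Tonelli
  have h9 : ∀ (r : ℝ), 0 < r → ∀ x : EuclideanSpace ℝ (Fin d), ENNReal.ofReal (En M g x t r) =
      ∫⁻ z, ENNReal.ofReal (‖J g z t‖ ^ 2) * ENNReal.ofReal (wt M r (z - x)) := by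
    intro r hr x
    unfold En
    rw [ofReal_integral_eq_lintegral_ofReal (int_sq_wt hM hr x hg t)
      (Eventually.of_forall fun z => mul_nonneg (by positivity) (wt_pos M _).le)]
    refine lintegral_congr fun z => ?_
    rw [ENNReal.ofReal_mul (by positivity)]
  simp only [h9 R hR]
  rw [lintegral_lintegral_swap (by
    have := hwm R
    fun_prop)]
  calc ∫⁻ z, ∫⁻ x in Metric.closedBall x0 (A * R'),
        ENNReal.ofReal (‖J g z t‖ ^ 2) * ENNReal.ofReal (wt M R (z - x))
      ≤ ∫⁻ z, ENNReal.ofReal (K * (c1 + A ^ d * c2) * R ^ d) *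
        (ENNReal.ofReal (‖J g z t‖ ^ 2) * ENNReal.ofReal (wt M R' (z - x0))) := by
        refine lintegral_mono fun z => ?_
        simp only
        rw [lintegral_const_mul _ (by
          have := hwm R
          fun_prop)]
        refine (mul_le_mul_right (hin z) _).trans (le_of_eq ?_)
        rw [ENNReal.ofReal_mul (by positivity)]
        ring
    _ = ENNReal.ofReal (K * (c1 + A ^ d * c2) * R ^ d) * ENNReal.ofReal (En M g x0 t R') := by
        rw [lintegral_const_mul _ (by
          have := hwm R'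
          fun_prop), h9 R' hR']
    _ = ENNReal.ofReal (K * (c1 + A ^ d * c2) * R ^ d * En M g x0 t R') := by
        rw [← ENNReal.ofReal_mul (by positivity)]
    _ ≤ _ := by
        refine ENNReal.ofReal_le_ofReal ?_
        refine mul_le_mul_of_nonneg_right ?_ (En_nonneg _ _ _ _ _)
        refine mul_le_mul_of_nonneg_right ?_ (by positivity)
        linarith

end Pool.Agent.DEC.EN
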