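import Pool.Agent.DEC.DSK0
import Pool.Agent.DEC.ETA

/-!
# [DEC] Row INT: integration of the local inequality over the balls.
-/

set_option autoImplicit false

namespace Pool.Agent.DEC

open MeasureTheory Set Filter Topology Pool.Agent.MP_6cbfb8_an
open scoped ENNReal Real RealInnerProductSpace

namespace INT

/-- Minkowski, for sums with coefficients. -/
theorem mink_coef {X : Type*} [MeasurableSpace X] (μ : Measure X) {κ : Type*} (s : Finset κ)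
    {p : ℝ} (hp : 2 ≤ p) (c : κ → ℝ≥0∞) (f : κ → X → ℝ≥0∞) (hf : ∀ k ∈ s, Measurable (f k))
    (L : X → ℝ≥0∞) (h : ∀ x, L x ^ (2 / p) ≤ ∑ k ∈ s, c k * f k x ^ (2 / p)) :
    (∫⁻ x, L x ∂μ) ^ (2 / p) ≤ ∑ k ∈ s, c k * (∫⁻ x, f k x ∂μ) ^ (2 / p) := by
  classical
  have hp0 : 0 < p := lt_of_lt_of_le two_pos hp
  have e2 : 2 / p * (p / 2) = 1 := by field_simp
  have e3 : p / 2 * (2 / p) = 1 := by field_simp
  have h1 : ∀ x, L x ≤ (∑ k ∈ s, c k * f k x ^ (2 / p)) ^ (p / 2) := by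
    intro x
    have h2 := ENNReal.rpow_le_rpow (h x) (by positivity : (0 : ℝ) ≤ p / 2)
    rwa [← ENNReal.rpow_mul, e2, ENNReal.rpow_one] at h2
  refine (ENNReal.rpow_le_rpow (lintegral_mono h1) (by positivity)).trans ?_
  have key : ∀ t : Finset κ, (∀ k ∈ t, Measurable (f k)) →
      (∫⁻ x, (∑ k ∈ t, c k * f k x ^ (2 / p)) ^ (p / 2) ∂μ) ^ (2 / p) ≤
        ∑ k ∈ t, c k * (∫⁻ x, f k x ∂μ) ^ (2 / p) := by
    intro t
    induction t using Finset.induction_on with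
    | empty =>
      intro _
      simp only [Finset.sum_empty]
      rw [ENNReal.zero_rpow_of_pos (by positivity), lintegral_zero,
        ENNReal.zero_rpow_of_pos (by positivity)]
    | insert a t ha ih =>
      intro hft
      have ha1 : Measurable (f a) := hft a (Finset.mem_insert_self a t)
      have ha2 : Measurable fun x => c a * f a x ^ (2 / p) := (ha1.pow_const _).const_mul _
      have hm : Measurable fun x => ∑ k ∈ t, c k * f k x ^ (2 / p) :=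
        Finset.measurable_fun_sum t fun k hk =>
          ((hft k (Finset.mem_insert_of_mem hk)).pow_const _).const_mul _
      have h3 := ENNReal.lintegral_Lp_add_le (μ := μ) ha2.aemeasurable hm.aemeasurable
        (by linarith : (1 : ℝ) ≤ p / 2)
      have e4 : 1 / (p / 2) = 2 / p := by rw [one_div_div]
      rw [e4] at h3
      simp only [Pi.add_apply] at h3
      simp only [Finset.sum_insert ha]
      refine h3.trans (add_le_add (le_of_eq ?_) (ih fun k hk => hft k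
        (Finset.mem_insert_of_mem hk)))
      have e5 : ∀ x, (c a * f a x ^ (2 / p)) ^ (p / 2) = c a ^ (p / 2) * f a x := by
        intro x
        rw [ENNReal.mul_rpow_of_nonneg _ _ (by positivity), ← ENNReal.rpow_mul, e2,
          ENNReal.rpow_one]
      simp only [e5]
      rw [lintegral_const_mul _ ha1, ENNReal.mul_rpow_of_nonneg _ _ (by positivity),
        ← ENNReal.rpow_mul, e3, ENNReal.rpow_one]
  exact key s hf

/-- Tonelli with a kernel of constant mass. -/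
theorem tonelli_const {n : ℕ} {k : E n → E n → ℝ≥0∞} (hk : Measurable fun q : E n × E n => k q.1 q.2)
    {g : E n → ℝ≥0∞} (hg : Measurable g) {K : ℝ≥0∞} (hK : ∀ ξ, ∫⁻ b, k b ξ = K) :
    ∫⁻ b, ∫⁻ ξ, k b ξ * g ξ = K * ∫⁻ ξ, g ξ := by
  have hm : Measurable (Function.uncurry fun b ξ : E n => k b ξ * g ξ) :=
    hk.mul (hg.comp measurable_snd)
  rw [lintegral_lintegral_swap hm.aemeasurable]
  have h2 : ∀ ξ : E n, ∫⁻ b, k b ξ * g ξ = K * g ξ := by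
    intro ξ
    have hk' : Measurable fun b : E n => k b ξ :=
      hk.comp (measurable_id.prodMk measurable_const)
    rw [lintegral_mul_const _ hk', hK]
  simp only [h2]
  rw [lintegral_const_mul _ hg]

theorem ball_int {n : ℕ} {g : E n → ℝ≥0∞} (hg : Measurable g) {r : ℝ} (hr : 0 ≤ r) :
    ∫⁻ b, ∫⁻ ξ in Metric.closedBall b r, g ξ =
      ENNReal.ofReal (r ^ n) * volume (Metric.ball (0 : E n) 1) * ∫⁻ ξ, g ξ := by
  have hms : MeasurableSet {q : E n × E n | dist q.2 q.1 ≤ r} :=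
    measurableSet_le (measurable_snd.dist measurable_fst) measurable_const
  have hk : Measurable fun q : E n × E n =>
      ({q : E n × E n | dist q.2 q.1 ≤ r}.indicator (fun _ => (1 : ℝ≥0∞))) (q.1, q.2) :=
    (measurable_const.indicator hms)
  have h1 : ∀ b : E n, ∫⁻ ξ in Metric.closedBall b r, g ξ = ∫⁻ ξ,
      ({q : E n × E n | dist q.2 q.1 ≤ r}.indicator (fun _ => (1 : ℝ≥0∞))) (b, ξ) * g ξ := by
    intro b
    rw [← lintegral_indicator Metric.isClosed_closedBall.measurableSet]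
    refine lintegral_congr fun ξ => ?_
    by_cases h : dist ξ b ≤ r
    · rw [Set.indicator_of_mem (by exact h), Set.indicator_of_mem (by exact h), one_mul]
    · rw [Set.indicator_of_notMem (by exact h), Set.indicator_of_notMem (by exact h), zero_mul]
  simp only [h1]
  refine tonelli_const hk hg fun ξ => ?_
  have h2 : ∀ b : E n,
      ({q : E n × E n | dist q.2 q.1 ≤ r}.indicator (fun _ => (1 : ℝ≥0∞))) (b, ξ) =
        (Metric.closedBall ξ r).indicator (fun _ => (1 : ℝ≥0∞)) b := by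
    intro b
    by_cases h : dist ξ b ≤ r
    · rw [Set.indicator_of_mem (by exact h), Set.indicator_of_mem
        (by rw [Metric.mem_closedBall, dist_comm]; exact h)]
    · rw [Set.indicator_of_notMem (by exact h), Set.indicator_of_notMem
        (by rw [Metric.mem_closedBall, dist_comm]; exact h)]
  simp only [h2]
  rw [lintegral_indicator Metric.isClosed_closedBall.measurableSet, setLIntegral_one,
    Measure.addHaar_closedBall _ _ hr, finrank_euclideanSpace_fin]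

end INT

open INT in
theorem bg_int_of (d : ℕ) (p : ℝ) (hp : 2 ≤ p) (η : E (d + 2) → ℂ) (hη : IsEta η)
    (ε : ℝ)
    (hloc : ∃ (C : ℝ≥0∞) (σ0 κ0 : ℝ), C ≠ ⊤ ∧ 0 < σ0 ∧ 0 < κ0 ∧
      ∀ (σ : ℝ) (m : ℕ), 0 < σ → σ ≤ σ0 → ∃ Cσ : ℝ≥0∞, Cσ ≠ ⊤ ∧
      ∀ (T A : Type) [Fintype T] [Fintype A] [DecidableEq A] (z : T → E (d + 1))
        (w : A → E (d + 1)) (g : T → A) (F : T → E (d + 2) → ℂ), Fintype.card T ≤ m →
        (∀ τ, ‖z τ‖ ≤ 1) → (∀ α, ‖w α‖ ≤ 1) → (∀ i j, i ≠ j → σ / 2 ≤ ‖w i - w j‖) →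
        (∀ τ, ‖z τ - w (g τ)‖ ≤ σ) → (∀ τ, Sp (Np (z τ) (3 * σ ^ 2) (2 * σ ^ 2)) (F τ)) →
        ∀ b : E (d + 2), (∫⁻ ξ in Metric.closedBall b (σ ^ 2)⁻¹, ‖∑ τ, F τ ξ‖ₑ ^ p) ^ (2 / p) ≤
          C * ENNReal.ofReal (σ ^ (-ε)) * (∑ α, Lq p (fun ξ => bump η b (σ ^ 2)⁻¹ ξ *
            ∑ τ with g τ = α, F τ ξ) + ∑ τ, Lq p (fun ξ => bump η b (σ ^ 2)⁻¹ ξ * F τ ξ)) +
          Cσ * ∑ s : Fin (d + 2) → T with κ0 * σ ^ (2 * (d + 2)) ≤ |dt fun j => Nrm (z (s j))|,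
            (∏ j, (∫⁻ ξ, ‖bump η b (σ ^ 2)⁻¹ ξ * F (s j) ξ‖ₑ ^ p) ^ (1 / ((d : ℝ) + 2))) ^
              (2 / p)) :
    ∃ (C : ℝ≥0∞) (σ0 κ0 : ℝ), C ≠ ⊤ ∧ 0 < σ0 ∧ 0 < κ0 ∧
    ∀ (σ : ℝ) (m : ℕ), 0 < σ → σ ≤ σ0 → ∃ Cσ : ℝ≥0∞, Cσ ≠ ⊤ ∧
    ∀ (T A : Type) [Fintype T] [Fintype A] [DecidableEq A] (z : T → E (d + 1))
      (w : A → E (d + 1)) (g : T → A) (F : T → E (d + 2) → ℂ), Fintype.card T ≤ m →
      (∀ τ, ‖z τ‖ ≤ 1) → (∀ α, ‖w α‖ ≤ 1) → (∀ i j, i ≠ j → σ / 2 ≤ ‖w i - w j‖) →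
      (∀ τ, ‖z τ - w (g τ)‖ ≤ σ) → (∀ τ, Sp (Np (z τ) (3 * σ ^ 2) (2 * σ ^ 2)) (F τ)) →
      Lq p (fun ξ => ∑ τ, F τ ξ) ≤
        C * ENNReal.ofReal (σ ^ (-ε)) *
          (∑ α, Lq p (fun ξ => ∑ τ with g τ = α, F τ ξ) + ∑ τ, Lq p (F τ)) +
        Cσ * ∑ s : Fin (d + 2) → T with κ0 * σ ^ (2 * (d + 2)) ≤ |dt fun j => Nrm (z (s j))|,
          (∫⁻ b, ∏ j, (∫⁻ ξ, ‖bump η b (σ ^ 2)⁻¹ ξ * F (s j) ξ‖ₑ ^ p) ^
            (1 / ((d : ℝ) + 2))) ^ (2 / p) := by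
  classical
  obtain ⟨C, σ0, κ0, hC, hσ0, hκ0, hloc⟩ := hloc
  have hp0 : 0 < p := lt_of_lt_of_le two_pos hp
  have hp1 : 1 ≤ p := by linarith
  obtain ⟨Cη, hCη, hbi⟩ := bump_int hη p hp1
  set v : ℝ≥0∞ := volume (Metric.ball (0 : E (d + 2)) 1) with hv
  have hv0 : v ≠ 0 := (Metric.measure_ball_pos volume _ one_pos).ne'
  have hvt : v ≠ ⊤ := measure_ball_lt_top.ne
  set Q : ℝ≥0∞ := (v⁻¹) ^ (2 / p) with hQ
  have hQt : Q ≠ ⊤ := ENNReal.rpow_ne_top_of_nonneg (by positivity) (ENNReal.inv_ne_top.2 hv0)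
  have hηc : Continuous η := eta_continuous hη
  refine ⟨C * (Cη ^ (2 / p) * Q), min σ0 1, κ0, ENNReal.mul_ne_top hC (ENNReal.mul_ne_top
    (ENNReal.rpow_ne_top_of_nonneg (by positivity) hCη) hQt), lt_min hσ0 one_pos, hκ0, ?_⟩
  intro σ m hσ hσ1
  have hσ2 : σ ≤ 1 := hσ1.trans (min_le_right _ _)
  obtain ⟨Cσ, hCσ, hloc⟩ := hloc σ m hσ (hσ1.trans (min_le_left _ _))
  refine ⟨Cσ * Q, ENNReal.mul_ne_top hCσ hQt, ?_⟩
  intro T A _ _ _ z w g F h1 h2 h3 h4 h5 h6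
  have hb := hloc T A z w g F h1 h2 h3 h4 h5 h6
  set r : ℝ := (σ ^ 2)⁻¹ with hr
  have hr1 : 1 ≤ r := (one_le_inv₀ (by positivity)).2 (pow_le_one₀ hσ.le hσ2)
  have hr0 : 0 < r := one_pos.trans_le hr1
  have hFc : ∀ τ, Continuous (F τ) := fun τ => (h6 τ).continuous
  have hFm : ∀ τ, Measurable (F τ) := fun τ => (hFc τ).measurable
  -- the three families
  set W : Finset (Fin (d + 2) → T) :=
    Finset.univ.filter fun s => κ0 * σ ^ (2 * (d + 2)) ≤ |dt fun j => Nrm (z (s j))| with hW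
  set FA : A → E (d + 2) → ℂ := fun α ξ => ∑ τ with g τ = α, F τ ξ with hFA
  have hFAm : ∀ α, Measurable (FA α) := fun α => Finset.measurable_fun_sum _ fun τ _ => hFm τ
  set I : (E (d + 2) → ℂ) → E (d + 2) → ℝ≥0∞ := fun G b => ∫⁻ ξ, ‖bump η b r ξ * G ξ‖ₑ ^ p with hI
  have hbm : Measurable fun q : E (d + 2) × E (d + 2) => bump η q.1 r q.2 := by
    have : Continuous fun q : E (d + 2) × E (d + 2) => η (r⁻¹ • (q.2 - q.1)) :=
      hηc.comp ((continuous_snd.sub continuous_fst).const_smul r⁻¹)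
    exact this.measurable
  have hIm : ∀ G : E (d + 2) → ℂ, Measurable G → Measurable (I G) := by
    intro G hG
    refine Measurable.lintegral_prod_right'
      (f := fun q : E (d + 2) × E (d + 2) => ‖bump η q.1 r q.2 * G q.2‖ₑ ^ p) ?_
    exact ((hbm.mul (hG.comp measurable_snd)).enorm).pow_const p
  have hII : ∀ G : E (d + 2) → ℂ, Measurable G →
      ∫⁻ b, I G b = Cη * ENNReal.ofReal (r ^ (d + 2)) * ∫⁻ ξ, ‖G ξ‖ₑ ^ p := by
    intro G hG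
    have e : ∀ b, I G b = ∫⁻ ξ, ‖bump η b r ξ‖ₑ ^ p * ‖G ξ‖ₑ ^ p := by
      intro b
      refine lintegral_congr fun ξ => ?_
      rw [enorm_mul, ENNReal.mul_rpow_of_nonneg _ _ hp0.le]
    simp only [e]
    exact tonelli_const (k := fun b ξ => ‖bump η b r ξ‖ₑ ^ p) (hbm.enorm.pow_const p)
      (hG.enorm.pow_const p) fun ξ => hbi r ξ hr0
  set f : A ⊕ (T ⊕ (Fin (d + 2) → T)) → E (d + 2) → ℝ≥0∞ :=
    Sum.elim (fun α => I (FA α)) (Sum.elim (fun τ => I (F τ))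
      fun s b => ∏ j, I (F (s j)) b ^ (1 / ((d : ℝ) + 2))) with hf
  set c : A ⊕ (T ⊕ (Fin (d + 2) → T)) → ℝ≥0∞ :=
    Sum.elim (fun _ => C * ENNReal.ofReal (σ ^ (-ε)))
      (Sum.elim (fun _ => C * ENNReal.ofReal (σ ^ (-ε))) fun _ => Cσ) with hc
  set S : Finset (A ⊕ (T ⊕ (Fin (d + 2) → T))) :=
    (Finset.univ : Finset A).disjSum ((Finset.univ : Finset T).disjSum W) with hS
  have hfm : ∀ k ∈ S, Measurable (f k) := by
    rintro (α | τ | s) _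
    · exact hIm _ (hFAm α)
    · exact hIm _ (hFm τ)
    · have hpr : Measurable fun b : E (d + 2) => ∏ j, I (F (s j)) b ^ (1 / ((d : ℝ) + 2)) :=
        Finset.measurable_fun_prod _ fun j _ => (hIm _ (hFm _)).pow_const _
      exact hpr
  have hmk := mink_coef (volume : Measure (E (d + 2))) S hp c f hfm
    (fun b => ∫⁻ ξ in Metric.closedBall b r, ‖∑ τ, F τ ξ‖ₑ ^ p) (fun b => by
      refine (hb b).trans (le_of_eq ?_)
      rw [hS, Finset.sum_disjSum, Finset.sum_disjSum]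
      simp only [hf, hc, Sum.elim_inl, Sum.elim_inr]
      rw [← Finset.mul_sum, ← Finset.mul_sum, ← Finset.mul_sum, mul_add, add_assoc]
      rfl)
  rw [ball_int ((Finset.measurable_fun_sum _ fun τ _ => hFm τ).enorm.pow_const p) hr0.le,
    hS, Finset.sum_disjSum, Finset.sum_disjSum] at hmk
  simp only [hf, hc, Sum.elim_inl, Sum.elim_inr] at hmk
  rw [← Finset.mul_sum, ← Finset.mul_sum, ← Finset.mul_sum] at hmk
  -- division by `(r^n v)^(2/p)`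
  set R : ℝ≥0∞ := ENNReal.ofReal (r ^ (d + 2)) with hR
  have hR1 : 1 ≤ R := by
    rw [hR]
    exact ENNReal.one_le_ofReal.2 (one_le_pow₀ hr1)
  have hR0 : R ≠ 0 := (one_pos.trans_le hR1).ne'
  have hRt : R ≠ ⊤ := ENNReal.ofReal_ne_top
  have e1 : ∀ G : E (d + 2) → ℂ, Measurable G →
      (∫⁻ b, I G b) ^ (2 / p) = Cη ^ (2 / p) * R ^ (2 / p) * Lq p G := by
    intro G hG
    rw [hII G hG, ENNReal.mul_rpow_of_nonneg _ _ (by positivity),
      ENNReal.mul_rpow_of_nonneg _ _ (by positivity)]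
    rfl
  have e2 : (R * v * ∫⁻ ξ, ‖∑ τ, F τ ξ‖ₑ ^ p) ^ (2 / p) =
      R ^ (2 / p) * v ^ (2 / p) * Lq p (fun ξ => ∑ τ, F τ ξ) := by
    rw [ENNReal.mul_rpow_of_nonneg _ _ (by positivity),
      ENNReal.mul_rpow_of_nonneg _ _ (by positivity)]
    rfl
  rw [e2] at hmk
  have e3 : ∑ α, (∫⁻ b, I (FA α) b) ^ (2 / p) =
      Cη ^ (2 / p) * R ^ (2 / p) * ∑ α, Lq p (FA α) := by
    rw [Finset.mul_sum]
    exact Finset.sum_congr rfl fun α _ => e1 _ (hFAm α)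
  have e4 : ∑ τ, (∫⁻ b, I (F τ) b) ^ (2 / p) =
      Cη ^ (2 / p) * R ^ (2 / p) * ∑ τ, Lq p (F τ) := by
    rw [Finset.mul_sum]
    exact Finset.sum_congr rfl fun τ _ => e1 _ (hFm τ)
  rw [e3, e4] at hmk
  set X : ℝ≥0∞ := Lq p (fun ξ => ∑ τ, F τ ξ) with hX
  set SA : ℝ≥0∞ := ∑ α, Lq p (FA α) with hSA
  set ST : ℝ≥0∞ := ∑ τ, Lq p (F τ) with hST
  set SW : ℝ≥0∞ := ∑ s ∈ W, (∫⁻ b, ∏ j, I (F (s j)) b ^ (1 / ((d : ℝ) + 2))) ^ (2 / p) with hSW
  set Rp : ℝ≥0∞ := R ^ (2 / p) with hRp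
  have hRp1 : 1 ≤ Rp := ENNReal.one_le_rpow hR1 (by positivity)
  have hRpt : Rp ≠ ⊤ := ENNReal.rpow_ne_top_of_nonneg (by positivity) hRt
  have hRp0 : Rp ≠ 0 := (one_pos.trans_le hRp1).ne'
  have hvp : v ^ (2 / p) * Q = 1 := by
    rw [hQ, ← ENNReal.mul_rpow_of_nonneg _ _ (by positivity), ENNReal.mul_inv_cancel hv0 hvt,
      ENNReal.one_rpow]
  have hRR : Rp⁻¹ * Rp = 1 := ENNReal.inv_mul_cancel hRp0 hRpt
  show X ≤ C * (Cη ^ (2 / p) * Q) * ENNReal.ofReal (σ ^ (-ε)) * (SA + ST) + Cσ * Q * SW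
  calc X = (Rp⁻¹ * Rp) * (v ^ (2 / p) * Q) * X := by rw [hRR, hvp, one_mul, one_mul]
    _ = (Rp⁻¹ * Q) * (Rp * v ^ (2 / p) * X) := by ring
    _ ≤ (Rp⁻¹ * Q) * (C * ENNReal.ofReal (σ ^ (-ε)) * (Cη ^ (2 / p) * Rp * SA) +
          (C * ENNReal.ofReal (σ ^ (-ε)) * (Cη ^ (2 / p) * Rp * ST) + Cσ * SW)) := by
        gcongr
    _ = (Rp⁻¹ * Rp) * (C * (Cη ^ (2 / p) * Q) * ENNReal.ofReal (σ ^ (-ε)) * (SA + ST)) +
          Rp⁻¹ * (Cσ * Q * SW) := by ring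
    _ ≤ 1 * (C * (Cη ^ (2 / p) * Q) * ENNReal.ofReal (σ ^ (-ε)) * (SA + ST)) +
          1 * (Cσ * Q * SW) := by
        rw [hRR]
        gcongr
        exact ENNReal.inv_le_one.2 hRp1
    _ = _ := by rw [one_mul, one_mul]

end Pool.Agent.DEC
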