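import Mathlib

/-!
Averages of functions with a given spectrum: the kernels.
-/

set_option autoImplicit false

namespace Pool.Agent.DEC.LC

open MeasureTheory Set Filter Topology Complex
open scoped Real RealInnerProductSpace ComplexConjugate ENNReal FourierTransform SchwartzMap ContDiff

/-- The character. -/
noncomputable def ee (t : ℝ) : ℂ := cexp (((2 * π * t : ℝ) : ℂ) * I)

theorem ee_add (s t : ℝ) : ee (s + t) = ee s * ee t := by
  unfold ee
  rw [← Complex.exp_add]
  congr 1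
  push_cast
  ring

theorem norm_ee (t : ℝ) : ‖ee t‖ = 1 := norm_exp_ofReal_mul_I _

theorem conj_ee (t : ℝ) : conj (ee t) = ee (-t) := by
  unfold ee
  rw [← Complex.exp_conj]
  congr 1
  rw [map_mul, conj_I, conj_ofReal]
  push_cast
  ring

theorem ee_zero : ee 0 = 1 := by simp [ee]

theorem continuous_ee : Continuous ee := by
  unfold ee
  fun_prop

section avg

variable {V : Type*} [NormedAddCommGroup V] [InnerProductSpace ℝ V] [MeasurableSpace V]
  [BorelSpace V] [SecondCountableTopology V]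
  {W : Type*} [MeasurableSpace W] {μ : Measure W} [SFinite μ]

theorem avg (ρ : Measure V) [SFinite ρ] (κ : V → ℂ) (hκ : Integrable κ ρ) (b : W → ℂ)
    (hb : Integrable b μ) (Y : W → V) (hY : Measurable Y) (T : V →L[ℝ] V)
    (hT : ∀ x y, ⟪x, T y⟫ = ⟪T x, y⟫) (y : V) :
    ∫ v, κ v * (∫ o, b o * ee ⟪Y o, y + T v⟫ ∂μ) ∂ρ =
      ∫ o, (b o * ∫ v, κ v * ee ⟪T (Y o), v⟫ ∂ρ) * ee ⟪Y o, y⟫ ∂μ := by
  have h1 : ∀ v, κ v * ∫ o, b o * ee ⟪Y o, y + T v⟫ ∂μ =
      ∫ o, κ v * (b o * ee ⟪Y o, y + T v⟫) ∂μ := fun v => (integral_const_mul _ _).symm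
  simp only [h1]
  rw [integral_integral_swap]
  · refine integral_congr_ae (Eventually.of_forall fun o => ?_)
    simp only
    have h2 : ∀ v, κ v * (b o * ee ⟪Y o, y + T v⟫) =
        (b o * ee ⟪Y o, y⟫) * (κ v * ee ⟪T (Y o), v⟫) := by
      intro v
      rw [inner_add_right, ee_add, hT]
      ring
    simp only [h2]
    rw [integral_const_mul]
    ring
  · have h3 : Integrable (fun q : V × W => κ q.1 * b q.2) (ρ.prod μ) := hκ.mul_prod hb
    refine h3.norm.mono' ?_ (Eventually.of_forall fun q => ?_)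
    · have h4 : (Function.uncurry fun v o => κ v * (b o * ee ⟪Y o, y + T v⟫)) =
          fun q : V × W => (κ q.1 * b q.2) * ee ⟪Y q.2, y + T q.1⟫ := by
        funext q
        simp only [Function.uncurry]
        ring
      rw [h4]
      refine h3.aestronglyMeasurable.mul ?_
      have hm : Measurable fun q : V × W => ⟪Y q.2, y + T q.1⟫ :=
        (hY.comp measurable_snd).inner
          ((T.continuous.measurable.comp measurable_fst).const_add y)
      exact (continuous_ee.measurable.comp hm).aestronglyMeasurable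
    · simp only [Function.uncurry, norm_mul, norm_ee, mul_one]
      exact le_rfl

omit [SecondCountableTopology V] in
/-- The transform of an integrable function. -/
theorem cont_K (ρ : Measure V) (κ : V → ℂ) (hκ : Integrable κ ρ) :
    Continuous fun x : V => ∫ v, κ v * ee ⟪x, v⟫ ∂ρ := by
  refine continuous_of_dominated (bound := fun v => ‖κ v‖) ?_ ?_ hκ.norm ?_
  · intro x
    have : Continuous fun v : V => ee ⟪x, v⟫ := continuous_ee.comp (by fun_prop)
    exact hκ.aestronglyMeasurable.mul this.aestronglyMeasurable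
  · intro x
    exact Eventually.of_forall fun v => by rw [norm_mul, norm_ee, mul_one]
  · refine Eventually.of_forall fun v => ?_
    exact continuous_const.mul (continuous_ee.comp (by fun_prop))

omit [BorelSpace V] [SecondCountableTopology V] in
theorem norm_K_le (ρ : Measure V) (κ : V → ℂ) (x : V) :
    ‖∫ v, κ v * ee ⟪x, v⟫ ∂ρ‖ ≤ ∫ v, ‖κ v‖ ∂ρ := by
  refine (norm_integral_le_integral_norm _).trans (le_of_eq ?_)
  refine integral_congr_ae (Eventually.of_forall fun v => ?_)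
  simp only [norm_mul, norm_ee, mul_one]

/-- The amplitude of an average is integrable. -/
theorem integrable_amp (ρ : Measure V) (κ : V → ℂ) (hκ : Integrable κ ρ) (b : W → ℂ)
    (hb : Integrable b μ) (Y : W → V) (hY : Measurable Y) :
    Integrable (fun o => b o * ∫ v, κ v * ee ⟪Y o, v⟫ ∂ρ) μ := by
  refine hb.mul_bdd (c := ∫ v, ‖κ v‖ ∂ρ) ?_ (Eventually.of_forall fun o => norm_K_le ρ κ _)
  exact ((cont_K ρ κ hκ).measurable.comp hY).aestronglyMeasurable

/-- A function with an integrable amplitude is continuous. -/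
theorem cont_F (b : W → ℂ) (hb : Integrable b μ) (Y : W → V) (hY : Measurable Y) :
    Continuous fun x : V => ∫ o, b o * ee ⟪Y o, x⟫ ∂μ := by
  refine continuous_of_dominated (bound := fun v => ‖b v‖) ?_ ?_ hb.norm ?_
  · intro x
    have : Measurable fun v : W => ee ⟪Y v, x⟫ :=
      continuous_ee.measurable.comp (hY.inner measurable_const)
    exact hb.aestronglyMeasurable.mul this.aestronglyMeasurable
  · intro x
    exact Eventually.of_forall fun v => by rw [norm_mul, norm_ee, mul_one]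
  · refine Eventually.of_forall fun v => ?_
    exact continuous_const.mul (continuous_ee.comp (by fun_prop))

omit [BorelSpace V] [SecondCountableTopology V] [SFinite μ] [MeasurableSpace V] in
theorem norm_F_le (b : W → ℂ) (Y : W → V) (x : V) :
    ‖∫ o, b o * ee ⟪Y o, x⟫ ∂μ‖ ≤ ∫ o, ‖b o‖ ∂μ := by
  refine (norm_integral_le_integral_norm _).trans (le_of_eq ?_)
  refine integral_congr_ae (Eventually.of_forall fun v => ?_)
  simp only [norm_mul, norm_ee, mul_one]

/-- The square of the modulus. -/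
theorem sq_F (a : W → ℂ) (X : W → V) (ξ : V) :
    ((‖∫ w, a w * ee ⟪X w, ξ⟫ ∂μ‖ ^ 2 : ℝ) : ℂ) =
      ∫ o : W × W, (a o.1 * conj (a o.2)) * ee ⟪X o.1 - X o.2, ξ⟫ ∂(μ.prod μ) := by
  have h1 : ∀ o : W × W, (a o.1 * conj (a o.2)) * ee ⟪X o.1 - X o.2, ξ⟫ =
      (a o.1 * ee ⟪X o.1, ξ⟫) * conj (a o.2 * ee ⟪X o.2, ξ⟫) := by
    intro o
    rw [map_mul, conj_ee, inner_sub_left, sub_eq_add_neg, ee_add]
    ring
  simp only [h1]
  rw [integral_prod_mul (fun w => a w * ee ⟪X w, ξ⟫) (fun w => conj (a w * ee ⟪X w, ξ⟫)),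
    integral_conj, Complex.mul_conj]
  rw [Complex.normSq_eq_norm_sq]

end avg

section kernels

variable (V : Type*) [NormedAddCommGroup V] [InnerProductSpace ℝ V] [FiniteDimensional ℝ V]
  [MeasurableSpace V] [BorelSpace V]

variable {V} in
theorem inv_ft (f : 𝓢(V, ℂ)) (x : V) : ∫ v, (𝓕 f) v * ee ⟪x, v⟫ = f x := by
  have h1 : 𝓕⁻ (𝓕 f) = f := FourierTransform.fourierInv_fourier_eq f
  have h2 : (𝓕⁻ (𝓕 f)) x = f x := by rw [h1]
  rw [← h2, SchwartzMap.fourierInv_coe, Real.fourierInv_eq]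
  refine integral_congr_ae (Eventually.of_forall fun v => ?_)
  simp only
  rw [Circle.smul_def, Real.fourierChar_apply, smul_eq_mul, ee, real_inner_comm x v, mul_comm]

/-- A Schwartz function whose transform is one on a ball. -/
theorem exists_Phi (ρ : ℝ) (hρ : 0 < ρ) : ∃ Φ : 𝓢(V, ℂ), ∀ x : V, ‖x‖ ≤ ρ →
    ∫ v, Φ v * ee ⟪x, v⟫ = 1 := by
  let b : ContDiffBump (0 : V) := ⟨ρ, 2 * ρ, hρ, by linarith⟩
  have h1 : HasCompactSupport fun η : V => ((b η : ℝ) : ℂ) :=
    b.hasCompactSupport.comp_left (g := fun r : ℝ => (r : ℂ)) (by simp)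
  have h2 : ContDiff ℝ ∞ fun η : V => ((b η : ℝ) : ℂ) :=
    Complex.ofRealCLM.contDiff.comp b.contDiff
  refine ⟨𝓕 (h1.toSchwartzMap h2), fun x hx => ?_⟩
  rw [inv_ft]
  have h3 : (h1.toSchwartzMap h2 : 𝓢(V, ℂ)) x = ((b x : ℝ) : ℂ) := rfl
  rw [h3, b.one_of_mem_closedBall (by simpa using hx)]
  simp

/-- A nonnegative kernel with a transform supported in the unit ball. -/
theorem exists_Theta : ∃ Θ : 𝓢(V, ℂ), (∃ c : ℝ, 0 < c ∧ ∀ v : V, ‖v‖ ≤ c → c ≤ ‖Θ v‖ ^ 2) ∧
    ∀ x : V, 1 < ‖x‖ → ∫ v, ((‖Θ v‖ ^ 2 : ℝ) : ℂ) * ee ⟪x, v⟫ = 0 := by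
  let b : ContDiffBump (0 : V) := ⟨1 / 4, 1 / 2, by norm_num, by norm_num⟩
  have h1 : HasCompactSupport fun η : V => ((b η : ℝ) : ℂ) :=
    b.hasCompactSupport.comp_left (g := fun r : ℝ => (r : ℂ)) (by simp)
  have h2 : ContDiff ℝ ∞ fun η : V => ((b η : ℝ) : ℂ) :=
    Complex.ofRealCLM.contDiff.comp b.contDiff
  set ψ : 𝓢(V, ℂ) := h1.toSchwartzMap h2 with hψ
  have hψv : ∀ x, ψ x = ((b x : ℝ) : ℂ) := fun x => rfl
  have hΘ : ∀ v, (𝓕 ψ) v = ∫ u, ψ u * ee ⟪-u, v⟫ := by
    intro v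
    rw [SchwartzMap.fourier_coe, Real.fourier_eq]
    refine integral_congr_ae (Eventually.of_forall fun u => ?_)
    simp only
    rw [Circle.smul_def, Real.fourierChar_apply, smul_eq_mul, ee, inner_neg_left, mul_comm]
  refine ⟨𝓕 ψ, ?_, ?_⟩
  · have h3 : (𝓕 ψ) 0 = ((∫ u, b u : ℝ) : ℂ) := by
      rw [hΘ]
      simp only [inner_zero_right, ee_zero, mul_one, hψv]
      exact integral_ofReal
    have h4 : 0 < ∫ u, b u := b.integral_pos
    have h5 : 0 < ‖(𝓕 ψ) 0‖ ^ 2 := by
      rw [h3, Complex.norm_real, Real.norm_eq_abs, sq_abs]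
      positivity
    have h6 : Continuous fun v => ‖(𝓕 ψ) v‖ ^ 2 := ((𝓕 ψ).continuous.norm.pow 2)
    have h7 : ∀ᶠ v in 𝓝 (0 : V), ‖(𝓕 ψ) 0‖ ^ 2 / 2 < ‖(𝓕 ψ) v‖ ^ 2 :=
      (h6.tendsto 0).eventually_const_lt (by linarith)
    obtain ⟨ε, hε, h8⟩ := Metric.eventually_nhds_iff_ball.1 h7
    refine ⟨min (ε / 2) (‖(𝓕 ψ) 0‖ ^ 2 / 2), by positivity, fun v hv => ?_⟩
    have h9 : v ∈ Metric.ball (0 : V) ε := by
      rw [mem_ball_zero_iff]
      exact (hv.trans (min_le_left _ _)).trans_lt (by linarith)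
    exact (min_le_right _ _).trans (h8 v h9).le
  · intro x hx
    have h3 : ∀ v : V, ((‖(𝓕 ψ) v‖ ^ 2 : ℝ) : ℂ) * ee ⟪x, v⟫ =
        (conj ((𝓕 ψ) v) * ee ⟪x, v⟫) * ∫ u, ψ u * ee ⟪-u, (0 : V) + ContinuousLinearMap.id ℝ V v⟫ := by
      intro v
      have h4 : ∫ u, ψ u * ee ⟪-u, (0 : V) + ContinuousLinearMap.id ℝ V v⟫ = (𝓕 ψ) v := by
        rw [hΘ, zero_add]
        rfl
      rw [h4, ← Complex.normSq_eq_norm_sq, ← Complex.mul_conj]
      ring
    simp only [h3]
    have hi : Integrable (fun v : V => conj ((𝓕 ψ) v) * ee ⟪x, v⟫) := by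
      have h5 : Continuous fun v : V => ee ⟪x, v⟫ := continuous_ee.comp (by fun_prop)
      refine ((𝓕 ψ).integrable.norm).mono' ?_ (Eventually.of_forall fun v => ?_)
      · exact ((continuous_conj.comp (𝓕 ψ).continuous).mul h5).aestronglyMeasurable
      · rw [norm_mul, norm_ee, mul_one, RCLike.norm_conj]
    rw [avg (volume : Measure V) _ hi (fun u => ψ u) ψ.integrable (fun u => -u)
      measurable_neg (ContinuousLinearMap.id ℝ V) (fun _ _ => rfl) 0]
    have h6 : ∀ u : V, (ψ u * ∫ v, (conj ((𝓕 ψ) v) * ee ⟪x, v⟫) *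
        ee ⟪(ContinuousLinearMap.id ℝ V) (-u), v⟫) * ee ⟪-u, (0 : V)⟫ = 0 := by
      intro u
      have h7 : ∀ v : V, (conj ((𝓕 ψ) v) * ee ⟪x, v⟫) *
          ee ⟪(ContinuousLinearMap.id ℝ V) (-u), v⟫ = conj ((𝓕 ψ) v * ee ⟪u - x, v⟫) := by
        intro v
        rw [map_mul, conj_ee, mul_assoc, ← ee_add]
        congr 2
        simp only [ContinuousLinearMap.id_apply, inner_neg_left, inner_sub_left]
        ring
      simp only [h7]
      rw [integral_conj, inv_ft, hψv, hψv]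
      by_cases hu : ‖u‖ < 1 / 2
      · have h8 : b (u - x) = 0 := by
          apply b.zero_of_le_dist
          rw [dist_zero_right]
          have : ‖x‖ ≤ ‖u‖ + ‖u - x‖ := by
            have h9 : x = u - (u - x) := by abel
            nth_rw 1 [h9]
            exact norm_sub_le _ _
          show (1 / 2 : ℝ) ≤ ‖u - x‖
          linarith
        rw [h8]
        simp
      · have h8 : b u = 0 := by
          apply b.zero_of_le_dist
          rw [dist_zero_right]
          show (1 / 2 : ℝ) ≤ ‖u‖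
          linarith
        rw [h8]
        simp
    simp only [h6, integral_zero]

end kernels

end Pool.Agent.DEC.LC
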