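import Pool.Agent.DEC.LC0
import Pool.Agent.DEC.EN4

/-!
Local constancy of the local `L^2` means of a function with a given spectrum: the means.
-/

set_option autoImplicit false
set_option linter.unusedSectionVars false

namespace Pool.Agent.DEC.LC

open MeasureTheory Set Filter Topology Complex
open scoped Real RealInnerProductSpace ComplexConjugate ENNReal FourierTransform SchwartzMap
open Pool.Agent.DEC.EN

variable {n : ℕ}

/-- The normalised local mean of the square at scale `r`. -/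
noncomputable def P (M : ℕ) (r : ℝ) (F : EuclideanSpace ℝ (Fin n) → ℂ)
    (y : EuclideanSpace ℝ (Fin n)) : ℝ≥0∞ :=
  ∫⁻ u, ENNReal.ofReal (‖F (y + r • u)‖ ^ 2) * ENNReal.ofReal (wt M 1 u)

theorem wt_meas (M : ℕ) (r : ℝ) : Measurable (wt M r : EuclideanSpace ℝ (Fin n) → ℝ) :=
  (wt_cont M r).measurable

theorem P_meas (M : ℕ) (r : ℝ) {F : EuclideanSpace ℝ (Fin n) → ℂ} (hF : Measurable F) :
    Measurable (P M r F) := by
  unfold P
  have h1 : Measurable fun q : EuclideanSpace ℝ (Fin n) × EuclideanSpace ℝ (Fin n) =>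
      ENNReal.ofReal (‖F (q.1 + r • q.2)‖ ^ 2) * ENNReal.ofReal (wt M 1 q.2) := by
    have := wt_meas (n := n) M 1
    fun_prop
  exact h1.lintegral_prod_right'

theorem P_shift (M : ℕ) {r : ℝ} (hr : 0 < r) {F : EuclideanSpace ℝ (Fin n) → ℂ}
    (hF : Measurable F) (y z : EuclideanSpace ℝ (Fin n)) :
    P M r F (y + r • z) ≤ ENNReal.ofReal ((2 * (1 + ‖z‖ ^ 2)) ^ M) * P M r F y := by
  unfold P
  have hw := wt_meas (n := n) M 1
  rw [← lintegral_const_mul _ (by fun_prop), ← lintegral_sub_right_eq_self _ z]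
  refine lintegral_mono fun u => ?_
  have h1 : y + r • z + r • (u - z) = y + r • u := by
    rw [smul_sub]
    abel
  rw [h1]
  have h2 : wt M 1 (u - z) ≤ (2 * (1 + ‖z‖ ^ 2)) ^ M * wt M 1 u := by
    have h3 := wt_peetre M 1 (u - z) u
    have h4 : ‖u - z - u‖ = ‖z‖ := by
      rw [show u - z - u = -z by abel, norm_neg]
    rw [h4] at h3
    simpa using h3
  calc ENNReal.ofReal (‖F (y + r • u)‖ ^ 2) * ENNReal.ofReal (wt M 1 (u - z))
      ≤ ENNReal.ofReal (‖F (y + r • u)‖ ^ 2) *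
        (ENNReal.ofReal ((2 * (1 + ‖z‖ ^ 2)) ^ M) * ENNReal.ofReal (wt M 1 u)) := by
        refine mul_le_mul_right ?_ _
        rw [← ENNReal.ofReal_mul (by positivity)]
        exact ENNReal.ofReal_le_ofReal h2
    _ = _ := by ring

/-- Change of variables. -/
theorem lintegral_scale {r : ℝ} (hr : 0 < r) (f : EuclideanSpace ℝ (Fin n) → ℝ≥0∞)
    (hf : Measurable f) (y : EuclideanSpace ℝ (Fin n)) :
    ENNReal.ofReal (r ^ n) * ∫⁻ u, f (y + r • u) = ∫⁻ x, f x := by
  have h1 : ∫⁻ u, f (y + r • u) =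
      ∫⁻ x, f (y + x) ∂(Measure.map (fun u : EuclideanSpace ℝ (Fin n) => r • u) volume) :=
    (lintegral_map (hf.comp (measurable_const_add y)) (measurable_const_smul r)).symm
  rw [h1, Measure.map_addHaar_smul _ hr.ne', lintegral_smul_measure, finrank_euclideanSpace_fin,
    smul_eq_mul, ← mul_assoc, ← ENNReal.ofReal_mul (by positivity), abs_of_pos (by positivity),
    mul_inv_cancel₀ (by positivity), ENNReal.ofReal_one, one_mul]
  exact lintegral_add_left_eq_self f y

theorem P_eq (M : ℕ) {r : ℝ} (hr : 0 < r) {F : EuclideanSpace ℝ (Fin n) → ℂ}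
    (hF : Measurable F) (y : EuclideanSpace ℝ (Fin n)) :
    ENNReal.ofReal (r ^ n) * P M r F y =
      ∫⁻ x, ENNReal.ofReal (‖F x‖ ^ 2) * ENNReal.ofReal (wt M r (x - y)) := by
  have hw := wt_meas (n := n) M r
  rw [← lintegral_scale hr _ (by fun_prop) y]
  congr 1
  unfold P
  refine lintegral_congr fun u => ?_
  congr 2
  unfold wt
  rw [add_sub_cancel_left, norm_smul, mul_pow, Real.norm_eq_abs, sq_abs,
    mul_div_cancel_left₀ _ (by positivity)]
  simp

/-- The mean of the weight over a larger ball. -/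
theorem wt_avg (n M : ℕ) (hM : n < 2 * M) (A : ℝ) (hA : 0 < A) : ∃ C : ℝ, 0 < C ∧
    ∀ R R' : ℝ, 0 < R → R ≤ R' → ∀ z x0 : EuclideanSpace ℝ (Fin n),
      ∫⁻ x in Metric.closedBall x0 (A * R'), ENNReal.ofReal (wt M R (z - x)) ≤
        ENNReal.ofReal (C * R ^ n * wt M R' (z - x0)) := by
  set c1 : ℝ := ∫ y, wt M 1 (y : EuclideanSpace ℝ (Fin n)) with hc1
  set c2 : ℝ := (volume (Metric.ball (0 : EuclideanSpace ℝ (Fin n)) 1)).toReal with hc2
  have hc10 : 0 ≤ c1 := integral_nonneg fun y => (wt_pos M y).le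
  have hc20 : 0 ≤ c2 := ENNReal.toReal_nonneg
  set K : ℝ := (2 * (1 + A ^ 2)) ^ M * 2 ^ M with hK
  have hK0 : 0 < K := by positivity
  refine ⟨K * (c1 + A ^ n * c2) + 1, by positivity, ?_⟩
  intro R R' hR hRR z x0
  have hR' : 0 < R' := hR.trans_le hRR
  have hwm : ∀ r : ℝ, Measurable (wt M r : EuclideanSpace ℝ (Fin n) → ℝ) :=
    fun r => (wt_cont M r).measurable
  have h1 : ∀ x ∈ Metric.closedBall x0 (A * R'), ENNReal.ofReal (wt M R (z - x)) ≤
      ENNReal.ofReal (K * wt M R' (z - x0)) *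
        (ENNReal.ofReal (wt M R (z - x)) + ENNReal.ofReal ((R / R') ^ (2 * M))) := by
    intro x hx
    rw [← ENNReal.ofReal_add (wt_pos M _).le (by positivity),
      ← ENNReal.ofReal_mul (mul_nonneg hK0.le (wt_pos M _).le)]
    refine ENNReal.ofReal_le_ofReal ?_
    have h2 : ‖(z - x) - (z - x0)‖ ≤ A * R' := by
      rw [sub_sub_sub_cancel_left, ← dist_eq_norm, dist_comm]
      exact hx
    have h3 := wt_near M hR' h2
    have h4 := wt_scale M hR hRR (z - x)
    calc wt M R (z - x)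
        ≤ 2 ^ M * (wt M R (z - x) + (R / R') ^ (2 * M)) * wt M R' (z - x) := h4
      _ ≤ 2 ^ M * (wt M R (z - x) + (R / R') ^ (2 * M)) *
          ((2 * (1 + A ^ 2)) ^ M * wt M R' (z - x0)) := by
          refine mul_le_mul_of_nonneg_left h3 ?_
          have := (wt_pos M (R := R) (z - x)).le
          positivity
      _ = _ := by rw [hK]; ring
  refine (setLIntegral_mono' Metric.isClosed_closedBall.measurableSet h1).trans ?_
  rw [lintegral_const_mul _ (by
    have := hwm R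
    fun_prop)]
  have h5 : ∫⁻ x in Metric.closedBall x0 (A * R'),
      (ENNReal.ofReal (wt M R (z - x)) + ENNReal.ofReal ((R / R') ^ (2 * M))) ≤
      ENNReal.ofReal ((c1 + A ^ n * c2) * R ^ n) := by
    rw [lintegral_add_right _ measurable_const, setLIntegral_const]
    have h6 : ∫⁻ x in Metric.closedBall x0 (A * R'), ENNReal.ofReal (wt M R (z - x)) ≤
        ENNReal.ofReal (R ^ n * c1) := by
      refine (setLIntegral_le_lintegral _ _).trans ?_
      rw [← ofReal_integral_eq_lintegral_ofReal ((wt_integrable hM hR).comp_sub_left z)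
        (Eventually.of_forall fun x => (wt_pos M _).le), integral_sub_left_eq_self,
        wt_integral M hR]
    have h7 : ENNReal.ofReal ((R / R') ^ (2 * M)) * volume (Metric.closedBall x0 (A * R')) ≤
        ENNReal.ofReal (A ^ n * c2 * R ^ n) := by
      rw [Measure.addHaar_closedBall _ _ (by positivity), finrank_euclideanSpace_fin,
        ← ENNReal.ofReal_toReal (a := volume (Metric.ball (0 : EuclideanSpace ℝ (Fin n)) 1))
          measure_ball_lt_top.ne, ← hc2, ← ENNReal.ofReal_mul (by positivity),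
        ← ENNReal.ofReal_mul (by positivity)]
      refine ENNReal.ofReal_le_ofReal ?_
      have h8 : (R / R') ^ (2 * M) ≤ (R / R') ^ n :=
        pow_le_pow_of_le_one (by positivity) ((div_le_one hR').mpr hRR) hM.le
      calc (R / R') ^ (2 * M) * ((A * R') ^ n * c2) ≤ (R / R') ^ n * ((A * R') ^ n * c2) := by
            gcongr
        _ = A ^ n * c2 * R ^ n := by
            rw [div_pow, mul_pow]
            field_simp
    refine (add_le_add h6 h7).trans (le_of_eq ?_)
    rw [← ENNReal.ofReal_add (by positivity) (by positivity)]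
    congr 1
    ring
  refine (mul_le_mul_right h5 _).trans ?_
  rw [← ENNReal.ofReal_mul (mul_nonneg hK0.le (wt_pos M _).le)]
  refine ENNReal.ofReal_le_ofReal ?_
  have h9 := (wt_pos M (R := R') (z - x0)).le
  have h10 : 0 ≤ R ^ n * wt M R' (z - x0) := by positivity
  nlinarith

/-- The mean at scale `r` over a ball of radius `A L` is controlled by the mean at scale `L`. -/
theorem P_avg (n M : ℕ) (hM : n < 2 * M) (A : ℝ) (hA : 0 < A) : ∃ C : ℝ≥0∞, C ≠ ⊤ ∧
    ∀ r L : ℝ, 0 < r → r ≤ L → ∀ F : EuclideanSpace ℝ (Fin n) → ℂ, Measurable F →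
      ∀ c : EuclideanSpace ℝ (Fin n),
      ∫⁻ y in Metric.closedBall c (A * L), P M r F y ≤ C * ENNReal.ofReal (L ^ n) * P M L F c := by
  obtain ⟨C, hC, h⟩ := wt_avg n M hM A hA
  refine ⟨ENNReal.ofReal C, ENNReal.ofReal_ne_top, ?_⟩
  intro r L hr hrL F hF c
  have hL : 0 < L := hr.trans_le hrL
  have hwr := wt_meas (n := n) M r
  have hwL := wt_meas (n := n) M L
  have h0 : ENNReal.ofReal (r ^ n) ≠ 0 := (ENNReal.ofReal_pos.2 (by positivity)).ne'
  have h1 : ENNReal.ofReal (r ^ n) * ∫⁻ y in Metric.closedBall c (A * L), P M r F y ≤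
      ENNReal.ofReal (r ^ n) * (ENNReal.ofReal C * ENNReal.ofReal (L ^ n) * P M L F c) := by
    rw [← lintegral_const_mul _ (P_meas M r hF)]
    simp only [P_eq M hr hF]
    rw [lintegral_lintegral_swap (by fun_prop)]
    calc ∫⁻ x, ∫⁻ y in Metric.closedBall c (A * L),
          ENNReal.ofReal (‖F x‖ ^ 2) * ENNReal.ofReal (wt M r (x - y))
        ≤ ∫⁻ x, ENNReal.ofReal (C * r ^ n) *
          (ENNReal.ofReal (‖F x‖ ^ 2) * ENNReal.ofReal (wt M L (x - c))) := by
          refine lintegral_mono fun x => ?_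
          simp only
          rw [lintegral_const_mul _ (by fun_prop)]
          refine (mul_le_mul_right (h r L hr hrL x c) _).trans (le_of_eq ?_)
          rw [ENNReal.ofReal_mul (by positivity)]
          ring
      _ = ENNReal.ofReal (C * r ^ n) * (ENNReal.ofReal (L ^ n) * P M L F c) := by
          rw [lintegral_const_mul _ (by fun_prop), P_eq M hL hF]
      _ = _ := by
          rw [ENNReal.ofReal_mul hC.le]
          ring
  exact (ENNReal.mul_le_mul_iff_right h0 ENNReal.ofReal_ne_top).1 h1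

/-- Change of the scale. -/
theorem P_mono (M : ℕ) {r L : ℝ} (hr : 0 < r) (hrL : r ≤ L) {F : EuclideanSpace ℝ (Fin n) → ℂ}
    (hF : Measurable F) (y : EuclideanSpace ℝ (Fin n)) :
    ENNReal.ofReal (r ^ n) * P M r F y ≤ ENNReal.ofReal (L ^ n) * P M L F y := by
  rw [P_eq M hr hF, P_eq M (hr.trans_le hrL) hF]
  refine lintegral_mono fun x => ?_
  refine mul_le_mul_right (ENNReal.ofReal_le_ofReal ?_) _
  unfold wt
  gcongr

/-- The mean at scale `r` and the global integral. -/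
theorem P_le (M : ℕ) {r : ℝ} (hr : 0 < r) {F : EuclideanSpace ℝ (Fin n) → ℂ}
    (hF : Measurable F) (y : EuclideanSpace ℝ (Fin n)) :
    ENNReal.ofReal (r ^ n) * P M r F y ≤ ∫⁻ x, ENNReal.ofReal (‖F x‖ ^ 2) := by
  rw [P_eq M hr hF]
  refine lintegral_mono fun x => ?_
  have h1 : wt M r (x - y) ≤ 1 := by
    unfold wt
    refine inv_le_one_of_one_le₀ (one_le_pow₀ ?_)
    have : 0 ≤ ‖x - y‖ ^ 2 / r ^ 2 := by positivity
    linarith
  calc ENNReal.ofReal (‖F x‖ ^ 2) * ENNReal.ofReal (wt M r (x - y))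
      ≤ ENNReal.ofReal (‖F x‖ ^ 2) * ENNReal.ofReal 1 := by gcongr
    _ = _ := by rw [ENNReal.ofReal_one, mul_one]

/-- Decay of a Schwartz function. -/
theorem schwartz_wt (m : ℕ) (Φ : 𝓢(EuclideanSpace ℝ (Fin n), ℂ)) : ∃ D : ℝ, 0 < D ∧
    ∀ v, ‖Φ v‖ ≤ D * wt m 1 v := by
  refine ⟨2 ^ (2 * m) * (Finset.Iic (2 * m, 0)).sup
    (fun m => SchwartzMap.seminorm ℝ m.1 m.2) Φ + 1, by positivity, fun v => ?_⟩
  have h1 := SchwartzMap.one_add_le_sup_seminorm_apply (𝕜 := ℝ) (m := (2 * m, 0)) (k := 2 * m)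
    (n := 0) le_rfl le_rfl Φ v
  rw [norm_iteratedFDeriv_zero] at h1
  have h2 : (1 + ‖v‖ ^ 2 / 1 ^ 2) ^ m ≤ (1 + ‖v‖) ^ (2 * m) := by
    rw [pow_mul]
    refine pow_le_pow_left₀ (by positivity) ?_ m
    nlinarith [norm_nonneg v]
  unfold wt
  rw [← div_eq_mul_inv, le_div_iff₀ (by positivity), mul_comm]
  calc (1 + ‖v‖ ^ 2 / 1 ^ 2) ^ m * ‖Φ v‖ ≤ (1 + ‖v‖) ^ (2 * m) * ‖Φ v‖ := by gcongr
    _ ≤ _ := h1.trans (by simp)

/-- The linear map of the tube of direction `N`. -/
noncomputable def TT (r L : ℝ) (N : EuclideanSpace ℝ (Fin n)) :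
    EuclideanSpace ℝ (Fin n) →L[ℝ] EuclideanSpace ℝ (Fin n) :=
  r • ContinuousLinearMap.id ℝ _ + (L - r) • (innerSL ℝ N).smulRight N

theorem TT_apply (r L : ℝ) (N v : EuclideanSpace ℝ (Fin n)) :
    TT r L N v = r • v + (L - r) • (⟪N, v⟫ • N) := by
  simp [TT]

theorem TT_symm (r L : ℝ) (N x y : EuclideanSpace ℝ (Fin n)) :
    ⟪x, TT r L N y⟫ = ⟪TT r L N x, y⟫ := by
  rw [TT_apply, TT_apply, inner_add_right, inner_add_left, inner_smul_right, inner_smul_right,
    inner_smul_right, inner_smul_left, inner_smul_left, inner_smul_left, real_inner_comm x N]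
  simp only [conj_trivial]
  ring

theorem TT_norm {r L : ℝ} {N : EuclideanSpace ℝ (Fin n)} (hN : ‖N‖ = 1)
    (v : EuclideanSpace ℝ (Fin n)) :
    ‖TT r L N v‖ ^ 2 = r ^ 2 * ‖v‖ ^ 2 + (L ^ 2 - r ^ 2) * ⟪v, N⟫ ^ 2 := by
  rw [TT_apply, ← real_inner_self_eq_norm_sq, ← real_inner_self_eq_norm_sq, inner_add_right,
    inner_add_left, inner_add_left]
  simp only [inner_smul_right, inner_smul_left, conj_trivial]
  rw [real_inner_self_eq_norm_sq N, hN, real_inner_comm v N]
  ring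

theorem TT_le {r L : ℝ} (hr : 0 < r) (hrL : r ≤ L) {N : EuclideanSpace ℝ (Fin n)}
    (hN : ‖N‖ = 1) (v : EuclideanSpace ℝ (Fin n)) : ‖TT r L N v‖ ≤ L * ‖v‖ := by
  have h1 : ‖TT r L N v‖ ^ 2 ≤ (L * ‖v‖) ^ 2 := by
    rw [TT_norm hN]
    have h2 : ⟪v, N⟫ ^ 2 ≤ ‖v‖ ^ 2 := by
      have h3 := abs_real_inner_le_norm v N
      rw [hN, mul_one] at h3
      rw [← sq_abs]
      exact pow_le_pow_left₀ (abs_nonneg _) h3 2
    have h4 : 0 ≤ L ^ 2 - r ^ 2 := by nlinarith
    nlinarith [mul_le_mul_of_nonneg_left h2 h4]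
  exact le_of_sq_le_sq h1 (by have := hr.trans_le hrL; positivity)

end Pool.Agent.DEC.LC
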