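import Pool.Agent.DEC.LC1

/-!
Local constancy of the local `L^2` means of a function with a given spectrum: the main inequality.
-/

set_option autoImplicit false
set_option linter.unusedSectionVars false

namespace Pool.Agent.DEC.LC

open MeasureTheory Set Filter Topology Complex
open scoped Real RealInnerProductSpace ComplexConjugate ENNReal FourierTransform SchwartzMap
open Pool.Agent.DEC.EN

variable {n : ℕ}

section main

variable {W : Type*} [MeasurableSpace W] {μ : Measure W} [SFinite μ]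

/-- The real form of the local mean. -/
noncomputable def Pr (M : ℕ) (r : ℝ) (S : EuclideanSpace ℝ (Fin n) → ℝ)
    (y : EuclideanSpace ℝ (Fin n)) : ℝ :=
  ∫ u, wt M 1 u * S (y + r • u)

theorem Pr_int {M : ℕ} (hM : n < 2 * M) (r : ℝ) {S : EuclideanSpace ℝ (Fin n) → ℝ}
    (hS : Continuous S) {B : ℝ} (hB : ∀ x, |S x| ≤ B) (y : EuclideanSpace ℝ (Fin n)) :
    Integrable fun u => wt M 1 u * S (y + r • u) := by
  refine (wt_integrable hM one_pos).mul_bdd (c := B) ?_ (Eventually.of_forall fun u => ?_)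
  · exact (hS.comp (by fun_prop)).aestronglyMeasurable
  · rw [Real.norm_eq_abs]
    exact hB _

theorem Pr_cont {M : ℕ} (hM : n < 2 * M) (r : ℝ) {S : EuclideanSpace ℝ (Fin n) → ℝ}
    (hS : Continuous S) {B : ℝ} (hB : ∀ x, |S x| ≤ B) : Continuous (Pr M r S) := by
  unfold Pr
  refine continuous_of_dominated (bound := fun u => wt M 1 u * B) ?_ ?_ ?_ ?_
  · intro x
    exact (Pr_int hM r hS hB x).aestronglyMeasurable
  · intro x
    refine Eventually.of_forall fun u => ?_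
    rw [norm_mul, Real.norm_eq_abs, Real.norm_eq_abs, abs_of_pos (wt_pos M u)]
    exact mul_le_mul_of_nonneg_left (hB _) (wt_pos M u).le
  · exact (wt_integrable hM one_pos).mul_const B
  · refine Eventually.of_forall fun u => ?_
    exact continuous_const.mul (hS.comp (by fun_prop))

theorem Pr_bdd {M : ℕ} (hM : n < 2 * M) (r : ℝ) {S : EuclideanSpace ℝ (Fin n) → ℝ}
    {B : ℝ} (hB : ∀ x, |S x| ≤ B) (y : EuclideanSpace ℝ (Fin n)) :
    |Pr M r S y| ≤ (∫ u, wt M 1 (u : EuclideanSpace ℝ (Fin n))) * B := by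
  unfold Pr
  rw [← Real.norm_eq_abs, ← integral_mul_const]
  refine norm_integral_le_of_norm_le ((wt_integrable hM one_pos).mul_const B)
    (Eventually.of_forall fun u => ?_)
  rw [norm_mul, Real.norm_eq_abs, Real.norm_eq_abs, abs_of_pos (wt_pos M u)]
  exact mul_le_mul_of_nonneg_left (hB _) (wt_pos M u).le

theorem P_ofReal {M : ℕ} (hM : n < 2 * M) (r : ℝ) {F : EuclideanSpace ℝ (Fin n) → ℂ}
    (hF : Continuous F) {B : ℝ} (hB : ∀ x, |‖F x‖ ^ 2| ≤ B) (y : EuclideanSpace ℝ (Fin n)) :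
    P M r F y = ENNReal.ofReal (Pr M r (fun x => ‖F x‖ ^ 2) y) := by
  have hc : Continuous fun x => ‖F x‖ ^ 2 := hF.norm.pow 2
  unfold P Pr
  rw [ofReal_integral_eq_lintegral_ofReal (Pr_int hM r hc hB y)
    (Eventually.of_forall fun u => mul_nonneg (wt_pos M u).le (by positivity))]
  refine lintegral_congr fun u => ?_
  rw [ENNReal.ofReal_mul (wt_pos M u).le, mul_comm]

/-- The spectral form of the local mean. -/
theorem Pr_spec {M : ℕ} (hM : n < 2 * M) (r : ℝ) {S : EuclideanSpace ℝ (Fin n) → ℝ}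
    (b : W → ℂ) (hb : Integrable b μ) (Y : W → EuclideanSpace ℝ (Fin n)) (hY : Measurable Y)
    (hS : ∀ x, ((S x : ℝ) : ℂ) = ∫ o, b o * ee ⟪Y o, x⟫ ∂μ) (y : EuclideanSpace ℝ (Fin n)) :
    ((Pr M r S y : ℝ) : ℂ) =
      ∫ o, (b o * ∫ v, ((wt M 1 v : ℝ) : ℂ) * ee ⟪r • Y o, v⟫) * ee ⟪Y o, y⟫ ∂μ := by
  have h1 := avg (μ := μ) (volume : Measure (EuclideanSpace ℝ (Fin n)))
    (fun v => ((wt M 1 v : ℝ) : ℂ)) (wt_integrable hM one_pos).ofReal b hb Y hY
    (r • ContinuousLinearMap.id ℝ _) (fun x z => by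
      simp [inner_smul_left, inner_smul_right]) y
  simp only [smul_apply, ContinuousLinearMap.id_apply] at h1
  rw [← h1]
  unfold Pr
  rw [← integral_complex_ofReal]
  refine integral_congr_ae (Eventually.of_forall fun u => ?_)
  simp only
  rw [← hS]
  push_cast
  rfl

/-- Average against a kernel. -/
theorem ker_spec (κ : EuclideanSpace ℝ (Fin n) → ℂ) (hκ : Integrable κ)
    (T : EuclideanSpace ℝ (Fin n) →L[ℝ] EuclideanSpace ℝ (Fin n))
    (hT : ∀ x y, ⟪x, T y⟫ = ⟪T x, y⟫) {S : EuclideanSpace ℝ (Fin n) → ℝ}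
    (b : W → ℂ) (hb : Integrable b μ) (Y : W → EuclideanSpace ℝ (Fin n)) (hY : Measurable Y)
    (hS : ∀ x, ((S x : ℝ) : ℂ) = ∫ o, b o * ee ⟪Y o, x⟫ ∂μ) (y : EuclideanSpace ℝ (Fin n)) :
    ∫ v, κ v * ((S (y + T v) : ℝ) : ℂ) =
      ∫ o, (b o * ∫ v, κ v * ee ⟪T (Y o), v⟫) * ee ⟪Y o, y⟫ ∂μ := by
  rw [← avg (μ := μ) (volume : Measure (EuclideanSpace ℝ (Fin n))) κ hκ b hb Y hY T hT y]
  refine integral_congr_ae (Eventually.of_forall fun u => ?_)
  simp only
  rw [← hS]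

/-- A kernel which is one on the spectrum reproduces. -/
theorem reprod (Φ : EuclideanSpace ℝ (Fin n) → ℂ) (hκ : Integrable Φ) {ρ : ℝ}
    (hΦ : ∀ x : EuclideanSpace ℝ (Fin n), ‖x‖ ≤ ρ → ∫ v, Φ v * ee ⟪x, v⟫ = 1)
    (T : EuclideanSpace ℝ (Fin n) →L[ℝ] EuclideanSpace ℝ (Fin n))
    (hT : ∀ x y, ⟪x, T y⟫ = ⟪T x, y⟫) {S : EuclideanSpace ℝ (Fin n) → ℝ}
    (b : W → ℂ) (hb : Integrable b μ) (Y : W → EuclideanSpace ℝ (Fin n)) (hY : Measurable Y)
    (hS : ∀ x, ((S x : ℝ) : ℂ) = ∫ o, b o * ee ⟪Y o, x⟫ ∂μ)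
    (hsp : ∀ o, b o ≠ 0 → ‖T (Y o)‖ ≤ ρ) (y : EuclideanSpace ℝ (Fin n)) :
    ENNReal.ofReal (|S y|) ≤ ∫⁻ v, ENNReal.ofReal ‖Φ v‖ * ENNReal.ofReal |S (y + T v)| := by
  have h1 := ker_spec (μ := μ) Φ hκ T hT b hb Y hY hS y
  have h2 : ∫ o, (b o * ∫ v, Φ v * ee ⟪T (Y o), v⟫) * ee ⟪Y o, y⟫ ∂μ = ((S y : ℝ) : ℂ) := by
    rw [hS]
    refine integral_congr_ae (Eventually.of_forall fun o => ?_)
    simp only
    by_cases h0 : b o = 0
    · simp [h0]
    · rw [hΦ _ (hsp o h0), mul_one]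
  rw [h2] at h1
  have h3 : ENNReal.ofReal |S y| = ‖((S y : ℝ) : ℂ)‖ₑ := by
    rw [← ofReal_norm, Complex.norm_real, Real.norm_eq_abs]
  rw [h3, ← h1]
  refine (enorm_integral_le_lintegral_enorm _).trans (le_of_eq ?_)
  refine lintegral_congr fun v => ?_
  rw [enorm_mul, ← ofReal_norm, ← ofReal_norm, Complex.norm_real, Real.norm_eq_abs]

end main

/-- The start: a value and the mean at the scale of the spectrum. -/
theorem start (n M : ℕ) (ρ : ℝ) (hρ : 0 < ρ) : ∃ C : ℝ≥0∞, C ≠ ⊤ ∧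
    ∀ (W : Type) (_ : MeasurableSpace W) (μ : Measure W) (_ : SFinite μ)
      (X : W → EuclideanSpace ℝ (Fin n)) (a : W → ℂ), Measurable X → Integrable a μ →
      ∀ r : ℝ, (∀ w w', a w ≠ 0 → a w' ≠ 0 → r * ‖X w - X w'‖ ≤ ρ) → 0 < r →
      ∀ F : EuclideanSpace ℝ (Fin n) → ℂ, (∀ x, F x = ∫ w, a w * ee ⟪X w, x⟫ ∂μ) →
      ∀ y, ENNReal.ofReal (‖F y‖ ^ 2) ≤ C * P M r F y := by
  obtain ⟨Φ, hΦ⟩ := exists_Phi (EuclideanSpace ℝ (Fin n)) ρ hρ
  obtain ⟨D, hD, hDv⟩ := schwartz_wt M Φ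
  refine ⟨ENNReal.ofReal D, ENNReal.ofReal_ne_top, ?_⟩
  intro W _ μ _ X a hX ha r hsp hr F hF y
  set b : W × W → ℂ := fun o => a o.1 * conj (a o.2) with hb
  set Y : W × W → EuclideanSpace ℝ (Fin n) := fun o => X o.1 - X o.2 with hY
  have hbi : Integrable b (μ.prod μ) := by
    have hac : Integrable (fun w => conj (a w)) μ :=
      ha.norm.mono' (continuous_conj.comp_aestronglyMeasurable ha.aestronglyMeasurable)
        (Eventually.of_forall fun w => (RCLike.norm_conj _).le)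
    exact ha.mul_prod hac
  have hYm : Measurable Y := (hX.comp measurable_fst).sub (hX.comp measurable_snd)
  have hS : ∀ x, ((‖F x‖ ^ 2 : ℝ) : ℂ) = ∫ o, b o * ee ⟪Y o, x⟫ ∂(μ.prod μ) := by
    intro x
    rw [hF]
    exact sq_F a X x
  have hFc : Continuous F := by
    have : F = fun x => ∫ w, a w * ee ⟪X w, x⟫ ∂μ := funext hF
    rw [this]
    exact cont_F a ha X hX
  have h1 := reprod (μ := μ.prod μ) (fun v => Φ v) Φ.integrable hΦ
    (r • ContinuousLinearMap.id ℝ _) (fun x z => by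
      simp [inner_smul_left, inner_smul_right]) b hbi Y hYm hS (fun o ho => by
      have h2 : a o.1 ≠ 0 := fun h => ho (by simp [hb, h])
      have h3 : a o.2 ≠ 0 := fun h => ho (by simp [hb, h])
      have h4 := hsp _ _ h2 h3
      simpa [norm_smul, abs_of_pos hr] using h4) y
  have h2 : |‖F y‖ ^ 2| = ‖F y‖ ^ 2 := abs_of_nonneg (by positivity)
  rw [h2] at h1
  refine h1.trans ?_
  unfold P
  have hw := wt_meas (n := n) M 1
  have hFm : Measurable F := hFc.measurable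
  rw [← lintegral_const_mul _ (by fun_prop)]
  refine lintegral_mono fun v => ?_
  simp only [smul_apply, ContinuousLinearMap.id_apply]
  rw [abs_of_nonneg (by positivity : (0:ℝ) ≤ ‖F (y + r • v)‖ ^ 2)]
  calc ENNReal.ofReal ‖Φ v‖ * ENNReal.ofReal (‖F (y + r • v)‖ ^ 2)
      ≤ (ENNReal.ofReal D * ENNReal.ofReal (wt M 1 v)) * ENNReal.ofReal (‖F (y + r • v)‖ ^ 2) := by
        rw [← ENNReal.ofReal_mul hD.le]
        exact mul_le_mul_left (ENNReal.ofReal_le_ofReal (hDv v)) _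
    _ = _ := by ring

/-- **Local constancy.** -/
theorem lconst (n M M' : ℕ) (hM : n < 2 * M) (B : ℝ) (hB : 0 ≤ B) : ∃ C : ℝ≥0∞, C ≠ ⊤ ∧
    ∀ (W : Type) (_ : MeasurableSpace W) (μ : Measure W) (_ : SFinite μ)
      (X : W → EuclideanSpace ℝ (Fin n)) (a : W → ℂ), Measurable X → Integrable a μ →
      ∀ (r L : ℝ) (N : EuclideanSpace ℝ (Fin n)), 0 < r → r ≤ L → ‖N‖ = 1 →
      (∀ w w', a w ≠ 0 → a w' ≠ 0 → r * ‖X w - X w'‖ ≤ 1 → L * |⟪X w - X w', N⟫| ≤ B) →
      ∀ F : EuclideanSpace ℝ (Fin n) → ℂ, (∀ x, F x = ∫ w, a w * ee ⟪X w, x⟫ ∂μ) →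
      ∀ y, P M r F y ≤ C * ∫⁻ v, ENNReal.ofReal (wt M' 1 v) * P M r F (y + TT r L N v) := by
  obtain ⟨Φ, hΦ⟩ := exists_Phi (EuclideanSpace ℝ (Fin n)) (1 + B) (by linarith)
  obtain ⟨D, hD, hDv⟩ := schwartz_wt M' Φ
  obtain ⟨Θ, ⟨c, hc, hΘc⟩, hΘ0⟩ := exists_Theta (EuclideanSpace ℝ (Fin n))
  obtain ⟨D1, hD1, hD1v⟩ := schwartz_wt M Θ
  -- the constants
  set C1 : ℝ≥0∞ := ∫⁻ v, ENNReal.ofReal (‖Θ v‖ ^ 2) * ENNReal.ofReal ((2 * (1 + ‖v‖ ^ 2)) ^ M)
    with hC1
  have hC1f : C1 ≠ ⊤ := by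
    have h1 : C1 ≤ ∫⁻ v, ENNReal.ofReal (D1 ^ 2 * 2 ^ M * wt M 1 (v : EuclideanSpace ℝ (Fin n))) := by
      refine lintegral_mono fun v => ?_
      simp only
      rw [← ENNReal.ofReal_mul (by positivity)]
      refine ENNReal.ofReal_le_ofReal ?_
      have h2 : ‖Θ v‖ ^ 2 ≤ (D1 * wt M 1 v) ^ 2 :=
        pow_le_pow_left₀ (norm_nonneg _) (hD1v v) 2
      have h3 : (1 + ‖v‖ ^ 2) ^ M * wt M 1 v = 1 := by
        unfold wt
        rw [one_pow, div_one, mul_inv_cancel₀ (by positivity)]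
      calc ‖Θ v‖ ^ 2 * (2 * (1 + ‖v‖ ^ 2)) ^ M ≤
          (D1 * wt M 1 v) ^ 2 * (2 * (1 + ‖v‖ ^ 2)) ^ M := by gcongr
        _ = D1 ^ 2 * 2 ^ M * wt M 1 v * ((1 + ‖v‖ ^ 2) ^ M * wt M 1 v) := by
            rw [mul_pow, mul_pow]
            ring
        _ = _ := by rw [h3, mul_one]
    refine ne_top_of_le_ne_top ?_ h1
    exact ((wt_integrable hM one_pos).const_mul _).lintegral_lt_top.ne
  set m : ℝ≥0∞ := volume (Metric.closedBall (0 : EuclideanSpace ℝ (Fin n)) c) * ENNReal.ofReal c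
    with hm
  have hm0 : m ≠ 0 := by
    refine mul_ne_zero ?_ (ENNReal.ofReal_pos.2 hc).ne'
    exact (Metric.measure_closedBall_pos _ _ hc).ne'
  have hmf : m ≠ ⊤ := ENNReal.mul_ne_top measure_closedBall_lt_top.ne ENNReal.ofReal_ne_top
  set C2 : ℝ≥0∞ := ENNReal.ofReal ((2 * (1 + c ^ 2)) ^ M) * m⁻¹ with hC2
  have hC2f : C2 ≠ ⊤ := ENNReal.mul_ne_top ENNReal.ofReal_ne_top (ENNReal.inv_ne_top.2 hm0)
  refine ⟨C2 * C1 * ENNReal.ofReal D, ENNReal.mul_ne_top (ENNReal.mul_ne_top hC2f hC1f)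
    ENNReal.ofReal_ne_top, ?_⟩
  intro W _ μ _ X a hX ha r L N hr hrL hN hsp F hF
  have hL : 0 < L := hr.trans_le hrL
  -- the spectral data
  set b : W × W → ℂ := fun o => a o.1 * conj (a o.2) with hb
  set Y : W × W → EuclideanSpace ℝ (Fin n) := fun o => X o.1 - X o.2 with hY
  have hbi : Integrable b (μ.prod μ) := by
    have hac : Integrable (fun w => conj (a w)) μ :=
      ha.norm.mono' (continuous_conj.comp_aestronglyMeasurable ha.aestronglyMeasurable)
        (Eventually.of_forall fun w => (RCLike.norm_conj _).le)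
    exact ha.mul_prod hac
  have hYm : Measurable Y := (hX.comp measurable_fst).sub (hX.comp measurable_snd)
  set S : EuclideanSpace ℝ (Fin n) → ℝ := fun x => ‖F x‖ ^ 2 with hSdef
  have hS : ∀ x, ((S x : ℝ) : ℂ) = ∫ o, b o * ee ⟪Y o, x⟫ ∂(μ.prod μ) := by
    intro x
    rw [hSdef]
    simp only
    rw [hF]
    exact sq_F a X x
  have hFc : Continuous F := by
    have : F = fun x => ∫ w, a w * ee ⟪X w, x⟫ ∂μ := funext hF
    rw [this]
    exact cont_F a ha X hX
  have hFm : Measurable F := hFc.measurable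
  have hSc : Continuous S := hFc.norm.pow 2
  set B0 : ℝ := (∫ w, ‖a w‖ ∂μ) ^ 2 with hB0
  have hSb : ∀ x, |S x| ≤ B0 := by
    intro x
    rw [hSdef, abs_of_nonneg (by positivity)]
    refine pow_le_pow_left₀ (norm_nonneg _) ?_ 2
    rw [hF]
    exact norm_F_le a X x
  -- the mean
  have hPr : ∀ y, P M r F y = ENNReal.ofReal (Pr M r S y) := P_ofReal hM r hFc hSb
  have hPr0 : ∀ y, 0 ≤ Pr M r S y := fun y => integral_nonneg fun u =>
    mul_nonneg (wt_pos M u).le (by rw [hSdef]; positivity)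
  have hPrc := Pr_cont hM r hSc hSb
  have hPrb := Pr_bdd hM r hSb
  have hPs := Pr_spec (μ := μ.prod μ) hM r b hbi Y hYm hS
  set K1 : EuclideanSpace ℝ (Fin n) → ℂ := fun x => ∫ v, ((wt M 1 v : ℝ) : ℂ) * ee ⟪x, v⟫ with hK1
  set b1 : W × W → ℂ := fun o => b o * K1 (r • Y o) with hb1
  have hwi : Integrable fun v : EuclideanSpace ℝ (Fin n) => ((wt M 1 v : ℝ) : ℂ) :=
    (wt_integrable hM one_pos).ofReal
  have hb1i : Integrable b1 (μ.prod μ) :=
    integrable_amp (volume : Measure (EuclideanSpace ℝ (Fin n))) _ hwi b hbi (fun o => r • Y o)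
      (hYm.const_smul r)
  -- the band limited mean
  set G0 : EuclideanSpace ℝ (Fin n) → ℝ := fun y => ∫ v, ‖Θ v‖ ^ 2 * Pr M r S (y + r • v) with hG0
  have hΘi : Integrable fun v : EuclideanSpace ℝ (Fin n) => ‖Θ v‖ ^ 2 := by
    refine ((wt_integrable (d := n) hM one_pos).const_mul (D1 ^ 2)).mono' ?_
      (Eventually.of_forall fun v => ?_)
    · exact (Θ.continuous.norm.pow 2).aestronglyMeasurable
    · rw [Real.norm_eq_abs, abs_of_nonneg (by positivity)]
      have h1 : ‖Θ v‖ ^ 2 ≤ (D1 * wt M 1 v) ^ 2 :=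
        pow_le_pow_left₀ (norm_nonneg _) (hD1v v) 2
      have h2 : wt M 1 v ≤ 1 := by
        unfold wt
        refine inv_le_one_of_one_le₀ (one_le_pow₀ ?_)
        have : 0 ≤ ‖v‖ ^ 2 / 1 ^ 2 := by positivity
        linarith
      have h3 := (wt_pos M (R := 1) v).le
      calc ‖Θ v‖ ^ 2 ≤ (D1 * wt M 1 v) ^ 2 := h1
        _ = D1 ^ 2 * (wt M 1 v * wt M 1 v) := by ring
        _ ≤ D1 ^ 2 * (wt M 1 v * 1) := by gcongr
        _ = _ := by rw [mul_one]
  have hG0i : ∀ y, Integrable fun v => ‖Θ v‖ ^ 2 * Pr M r S (y + r • v) := by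
    intro y
    refine hΘi.mul_bdd (c := (∫ u, wt M 1 (u : EuclideanSpace ℝ (Fin n))) * B0) ?_
      (Eventually.of_forall fun v => ?_)
    · exact (hPrc.comp (by fun_prop)).aestronglyMeasurable
    · rw [Real.norm_eq_abs]
      exact hPrb _
  have hG00 : ∀ y, 0 ≤ G0 y := fun y => integral_nonneg fun v =>
    mul_nonneg (by positivity) (hPr0 _)
  have hG0e : ∀ y, ENNReal.ofReal (G0 y) =
      ∫⁻ v, ENNReal.ofReal (‖Θ v‖ ^ 2) * P M r F (y + r • v) := by
    intro y
    rw [hG0]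
    simp only
    rw [ofReal_integral_eq_lintegral_ofReal (hG0i y)
      (Eventually.of_forall fun v => mul_nonneg (by positivity) (hPr0 _))]
    refine lintegral_congr fun v => ?_
    rw [ENNReal.ofReal_mul (by positivity), hPr]
  set K2 : EuclideanSpace ℝ (Fin n) → ℂ := fun x => ∫ v, ((‖Θ v‖ ^ 2 : ℝ) : ℂ) * ee ⟪x, v⟫ with hK2
  set b2 : W × W → ℂ := fun o => b1 o * K2 (r • Y o) with hb2
  have hb2i : Integrable b2 (μ.prod μ) :=
    integrable_amp (volume : Measure (EuclideanSpace ℝ (Fin n))) _ hΘi.ofReal b1 hb1i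
      (fun o => r • Y o) (hYm.const_smul r)
  have hG0s : ∀ y, ((G0 y : ℝ) : ℂ) = ∫ o, b2 o * ee ⟪Y o, y⟫ ∂(μ.prod μ) := by
    intro y
    have h1 := ker_spec (μ := μ.prod μ) (fun v => ((‖Θ v‖ ^ 2 : ℝ) : ℂ)) hΘi.ofReal
      (r • ContinuousLinearMap.id ℝ _) (fun x z => by
      simp [inner_smul_left, inner_smul_right]) b1 hb1i Y hYm hPs y
    simp only [smul_apply, ContinuousLinearMap.id_apply] at h1
    rw [hb2]
    simp only
    rw [← h1, hG0]
    simp only
    rw [← integral_complex_ofReal]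
    refine integral_congr_ae (Eventually.of_forall fun v => ?_)
    simp only
    push_cast
    rfl
  -- reproduction
  have hrep : ∀ y, ENNReal.ofReal (G0 y) ≤
      ∫⁻ v, ENNReal.ofReal ‖Φ v‖ * ENNReal.ofReal (G0 (y + TT r L N v)) := by
    intro y
    have h1 := reprod (μ := μ.prod μ) (fun v => Φ v) Φ.integrable hΦ (TT r L N)
      (TT_symm r L N) b2 hb2i Y hYm hG0s (fun o ho => by
        have h2 : a o.1 ≠ 0 := fun h => ho (by simp [hb2, hb1, hb, h])
        have h3 : a o.2 ≠ 0 := fun h => ho (by simp [hb2, hb1, hb, h])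
        have h4 : K2 (r • Y o) ≠ 0 := fun h => ho (by simp [hb2, h])
        have h5 : ‖r • Y o‖ ≤ 1 := by
          by_contra hcon
          exact h4 (hΘ0 _ (not_le.1 hcon))
        rw [norm_smul, Real.norm_eq_abs, abs_of_pos hr] at h5
        have h6 := hsp _ _ h2 h3 h5
        have h7 : ‖TT r L N (Y o)‖ ^ 2 ≤ (1 + B) ^ 2 := by
          rw [TT_norm hN]
          have h8 : (r * ‖Y o‖) ^ 2 ≤ 1 := by
            have := pow_le_pow_left₀ (by positivity) h5 2
            simpa using this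
          have h9 : (L * |⟪Y o, N⟫|) ^ 2 ≤ B ^ 2 := pow_le_pow_left₀ (by positivity) h6 2
          rw [mul_pow, sq_abs] at h9
          have h10 : 0 ≤ r ^ 2 * ⟪Y o, N⟫ ^ 2 := by positivity
          nlinarith
        exact le_of_sq_le_sq h7 (by linarith)) y
    rw [abs_of_nonneg (hG00 y)] at h1
    refine h1.trans (le_of_eq ?_)
    refine lintegral_congr fun v => ?_
    rw [abs_of_nonneg (hG00 _)]
  -- upper bound
  have hup : ∀ y, ENNReal.ofReal (G0 y) ≤ C1 * P M r F y := by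
    intro y
    rw [hG0e, hC1, ← lintegral_mul_const _ (by
      have := Θ.continuous.measurable
      fun_prop)]
    refine lintegral_mono fun v => ?_
    simp only
    rw [mul_assoc]
    exact mul_le_mul_right (P_shift M hr hFm y v) _
  -- lower bound
  have hlow : ∀ y, P M r F y ≤ C2 * ENNReal.ofReal (G0 y) := by
    intro y
    have h1 : m * P M r F y ≤ ENNReal.ofReal ((2 * (1 + c ^ 2)) ^ M) * ENNReal.ofReal (G0 y) := by
      rw [hG0e, ← lintegral_const_mul _ (by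
        have h2 := P_meas M r hFm
        have := Θ.continuous.measurable
        fun_prop)]
      calc m * P M r F y = ∫⁻ v in Metric.closedBall (0 : EuclideanSpace ℝ (Fin n)) c,
            ENNReal.ofReal c * P M r F y := by
            rw [setLIntegral_const, hm]
            ring
        _ ≤ ∫⁻ v in Metric.closedBall (0 : EuclideanSpace ℝ (Fin n)) c,
            ENNReal.ofReal ((2 * (1 + c ^ 2)) ^ M) *
              (ENNReal.ofReal (‖Θ v‖ ^ 2) * P M r F (y + r • v)) := by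
            refine setLIntegral_mono' Metric.isClosed_closedBall.measurableSet fun v hv => ?_
            rw [mem_closedBall_zero_iff] at hv
            have h2 := P_shift M hr hFm (y + r • v) (-v)
            rw [smul_neg, add_neg_cancel_right, norm_neg] at h2
            have h3 : P M r F y ≤
                ENNReal.ofReal ((2 * (1 + c ^ 2)) ^ M) * P M r F (y + r • v) := by
              refine h2.trans (mul_le_mul_left (ENNReal.ofReal_le_ofReal ?_) _)
              gcongr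
            calc ENNReal.ofReal c * P M r F y ≤ ENNReal.ofReal (‖Θ v‖ ^ 2) *
                  (ENNReal.ofReal ((2 * (1 + c ^ 2)) ^ M) * P M r F (y + r • v)) :=
                  mul_le_mul' (ENNReal.ofReal_le_ofReal (hΘc v hv)) h3
              _ = _ := by ring
        _ ≤ _ := setLIntegral_le_lintegral _ _
    calc P M r F y = m⁻¹ * (m * P M r F y) := by
          rw [← mul_assoc, ENNReal.inv_mul_cancel hm0 hmf, one_mul]
      _ ≤ m⁻¹ * (ENNReal.ofReal ((2 * (1 + c ^ 2)) ^ M) * ENNReal.ofReal (G0 y)) := by gcongr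
      _ = _ := by rw [hC2]; ring
  intro y
  have hwm := wt_meas (n := n) M' 1
  have hPm := P_meas M r hFm
  have hTm : Measurable fun v => y + TT r L N v := (TT r L N).continuous.measurable.const_add y
  calc P M r F y ≤ C2 * ENNReal.ofReal (G0 y) := hlow y
    _ ≤ C2 * ∫⁻ v, ENNReal.ofReal ‖Φ v‖ * ENNReal.ofReal (G0 (y + TT r L N v)) :=
        mul_le_mul_right (hrep y) _
    _ ≤ C2 * ∫⁻ v, (C1 * ENNReal.ofReal D) *
        (ENNReal.ofReal (wt M' 1 v) * P M r F (y + TT r L N v)) := by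
        refine mul_le_mul_right (lintegral_mono fun v => ?_) _
        calc ENNReal.ofReal ‖Φ v‖ * ENNReal.ofReal (G0 (y + TT r L N v))
            ≤ (ENNReal.ofReal D * ENNReal.ofReal (wt M' 1 v)) *
              (C1 * P M r F (y + TT r L N v)) := by
              rw [← ENNReal.ofReal_mul hD.le]
              exact mul_le_mul' (ENNReal.ofReal_le_ofReal (hDv v)) (hup _)
          _ = _ := by ring
    _ = _ := by
        rw [lintegral_const_mul _ (by
          have h1 := hPm.comp hTm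
          exact (hwm.ennreal_ofReal).mul h1)]
        ring

end Pool.Agent.DEC.LC
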