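import Pool.Agent.DEC.LC2

/-!
The local energies of a function whose spectrum is in a cap of a neighbourhood of a hypersurface.
-/

set_option autoImplicit false
set_option linter.unusedSectionVars false

namespace Pool.Agent.DEC.LC

open MeasureTheory Set Filter Topology Complex
open scoped Real RealInnerProductSpace ComplexConjugate ENNReal FourierTransform SchwartzMap
open Pool.Agent.DEC.EN

variable {n : ℕ}

/-- The mean over a tube. -/
noncomputable def ef (M : ℕ) (r L : ℝ) (N : EuclideanSpace ℝ (Fin n))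
    (F : EuclideanSpace ℝ (Fin n) → ℂ) (y : EuclideanSpace ℝ (Fin n)) : ℝ≥0∞ :=
  ∫⁻ v, ENNReal.ofReal (wt (2 * M) 1 v) * P M r F (y + TT r L N v)

theorem ef_meas (M : ℕ) (r L : ℝ) (N : EuclideanSpace ℝ (Fin n))
    {F : EuclideanSpace ℝ (Fin n) → ℂ} (hF : Measurable F) : Measurable (ef M r L N F) := by
  unfold ef
  have hP := P_meas M r hF
  have hT : Measurable fun q : EuclideanSpace ℝ (Fin n) × EuclideanSpace ℝ (Fin n) =>
      q.1 + TT r L N q.2 :=
    measurable_fst.add ((TT r L N).continuous.measurable.comp measurable_snd)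
  have h1 : Measurable fun q : EuclideanSpace ℝ (Fin n) × EuclideanSpace ℝ (Fin n) =>
      ENNReal.ofReal (wt (2 * M) 1 q.2) * P M r F (q.1 + TT r L N q.2) :=
    (((wt_meas (2 * M) 1).comp measurable_snd).ennreal_ofReal).mul (hP.comp hT)
  exact h1.lintegral_prod_right'

theorem TT_N {r L : ℝ} {N : EuclideanSpace ℝ (Fin n)} (hN : ‖N‖ = 1) (c : ℝ) :
    TT r L N (c • N) = (c * L) • N := by
  rw [TT_apply, inner_smul_right, real_inner_self_eq_norm_sq, hN, smul_smul, smul_smul, ← add_smul]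
  congr 1
  ring

/-- The mean over a tube varies slowly along the tube. -/
theorem ef_slow (M : ℕ) {r L S : ℝ} (hL : 0 < L) {N : EuclideanSpace ℝ (Fin n)}
    (hN : ‖N‖ = 1) {F : EuclideanSpace ℝ (Fin n) → ℂ} (hF : Measurable F)
    (y : EuclideanSpace ℝ (Fin n)) {s : ℝ} (hs : |s| ≤ S * L) :
    ef M r L N F (y + s • N) ≤ ENNReal.ofReal ((2 * (1 + S ^ 2)) ^ (2 * M)) * ef M r L N F y := by
  unfold ef
  have hP := P_meas M r hF
  have hT : Measurable fun v : EuclideanSpace ℝ (Fin n) => y + TT r L N v :=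
    (TT r L N).continuous.measurable.const_add y
  have hw := (wt_meas (n := n) (2 * M) 1).ennreal_ofReal
  have hm : Measurable fun v : EuclideanSpace ℝ (Fin n) =>
      ENNReal.ofReal (wt (2 * M) 1 v) * P M r F (y + TT r L N v) := hw.mul (hP.comp hT)
  rw [← lintegral_const_mul _ hm, ← lintegral_sub_right_eq_self _ ((s / L) • N)]
  refine lintegral_mono fun v => ?_
  have h1 : y + s • N + TT r L N (v - (s / L) • N) = y + TT r L N v := by
    rw [map_sub, TT_N hN, div_mul_cancel₀ _ hL.ne']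
    abel
  rw [h1]
  have h2 : wt (2 * M) 1 (v - (s / L) • N) ≤ (2 * (1 + S ^ 2)) ^ (2 * M) * wt (2 * M) 1 v := by
    refine wt_near (2 * M) one_pos ?_
    rw [show v - (s / L) • N - v = -((s / L) • N) by abel, norm_neg, norm_smul, hN, mul_one,
      mul_one, Real.norm_eq_abs, abs_div, abs_of_pos hL, div_le_iff₀ hL]
    exact hs
  calc ENNReal.ofReal (wt (2 * M) 1 (v - (s / L) • N)) * P M r F (y + TT r L N v)
      ≤ (ENNReal.ofReal ((2 * (1 + S ^ 2)) ^ (2 * M)) * ENNReal.ofReal (wt (2 * M) 1 v)) *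
        P M r F (y + TT r L N v) := by
        rw [← ENNReal.ofReal_mul (by positivity)]
        exact mul_le_mul_left (ENNReal.ofReal_le_ofReal h2) _
    _ = _ := by ring

/-- The mean over a tube, averaged over a ball of the length of the tube. -/
theorem ef_avg (n M : ℕ) (hM : n < 2 * M) (A : ℝ) (hA : 0 < A) : ∃ C : ℝ≥0∞, C ≠ ⊤ ∧
    ∀ (r L : ℝ) (N : EuclideanSpace ℝ (Fin n)), 0 < r → r ≤ L → ‖N‖ = 1 →
      ∀ F : EuclideanSpace ℝ (Fin n) → ℂ, Measurable F → ∀ c : EuclideanSpace ℝ (Fin n),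
      ∫⁻ y in Metric.closedBall c (A * L), ef M r L N F y ≤
        C * ENNReal.ofReal (L ^ n) * P M L F c := by
  obtain ⟨C1, hC1, h⟩ := P_avg n M hM A hA
  set C2 : ℝ≥0∞ := ∫⁻ v, ENNReal.ofReal (2 ^ M * wt M 1 (v : EuclideanSpace ℝ (Fin n))) with hC2
  have hC2f : C2 ≠ ⊤ := ((wt_integrable hM one_pos).const_mul _).lintegral_lt_top.ne
  refine ⟨C1 * C2, ENNReal.mul_ne_top hC1 hC2f, ?_⟩
  intro r L N hr hrL hN F hF c
  have hL : 0 < L := hr.trans_le hrL
  have hP := P_meas M r hF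
  have hw := (wt_meas (n := n) (2 * M) 1).ennreal_ofReal
  have hT : Measurable fun q : EuclideanSpace ℝ (Fin n) × EuclideanSpace ℝ (Fin n) =>
      q.1 + TT r L N q.2 :=
    measurable_fst.add ((TT r L N).continuous.measurable.comp measurable_snd)
  have h1 : Measurable fun q : EuclideanSpace ℝ (Fin n) × EuclideanSpace ℝ (Fin n) =>
      ENNReal.ofReal (wt (2 * M) 1 q.2) * P M r F (q.1 + TT r L N q.2) :=
    (((wt_meas (2 * M) 1).comp measurable_snd).ennreal_ofReal).mul (hP.comp hT)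
  unfold ef
  rw [lintegral_lintegral_swap h1.aemeasurable]
  -- the inner integral
  have h2 : ∀ v : EuclideanSpace ℝ (Fin n),
      ∫⁻ y in Metric.closedBall c (A * L),
        ENNReal.ofReal (wt (2 * M) 1 v) * P M r F (y + TT r L N v) ≤
      ENNReal.ofReal (2 ^ M * wt M 1 v) * (C1 * ENNReal.ofReal (L ^ n) * P M L F c) := by
    intro v
    have hTv : Measurable fun y : EuclideanSpace ℝ (Fin n) => y + TT r L N v :=
      measurable_id.add_const _
    have hm : Measurable fun y : EuclideanSpace ℝ (Fin n) => P M r F (y + TT r L N v) :=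
      hP.comp hTv
    rw [lintegral_const_mul _ hm]
    have h3 : ∫⁻ y in Metric.closedBall c (A * L), P M r F (y + TT r L N v) =
        ∫⁻ y in Metric.closedBall (c + TT r L N v) (A * L), P M r F y := by
      rw [← lintegral_indicator Metric.isClosed_closedBall.measurableSet,
        ← lintegral_indicator Metric.isClosed_closedBall.measurableSet,
        ← lintegral_add_right_eq_self
          ((Metric.closedBall (c + TT r L N v) (A * L)).indicator (P M r F)) (TT r L N v)]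
      refine lintegral_congr fun y => ?_
      by_cases hy : y ∈ Metric.closedBall c (A * L)
      · rw [indicator_of_mem hy, indicator_of_mem]
        rw [Metric.mem_closedBall, dist_add_right]
        exact hy
      · rw [indicator_of_notMem hy, indicator_of_notMem]
        rw [Metric.mem_closedBall, dist_add_right]
        exact hy
    rw [h3]
    have h4 := h r L hr hrL F hF (c + TT r L N v)
    have h5 : P M L F (c + TT r L N v) ≤
        ENNReal.ofReal ((2 * (1 + ‖v‖ ^ 2)) ^ M) * P M L F c := by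
      have h6 := P_shift M hL hF c (L⁻¹ • TT r L N v)
      rw [smul_smul, mul_inv_cancel₀ hL.ne', one_smul] at h6
      refine h6.trans (mul_le_mul_left (ENNReal.ofReal_le_ofReal ?_) _)
      have h7 : ‖L⁻¹ • TT r L N v‖ ≤ ‖v‖ := by
        rw [norm_smul, norm_inv, Real.norm_eq_abs, abs_of_pos hL, inv_mul_le_iff₀ hL]
        exact TT_le hr hrL hN v
      gcongr
    have h8 : ENNReal.ofReal (wt (2 * M) 1 v) * ENNReal.ofReal ((2 * (1 + ‖v‖ ^ 2)) ^ M) =
        ENNReal.ofReal (2 ^ M * wt M 1 v) := by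
      rw [← ENNReal.ofReal_mul (wt_pos _ v).le]
      congr 1
      unfold wt
      rw [one_pow, div_one, two_mul, pow_add, mul_inv, mul_pow]
      have : (1 + ‖v‖ ^ 2) ^ M ≠ 0 := by positivity
      field_simp
    calc ENNReal.ofReal (wt (2 * M) 1 v) *
          ∫⁻ y in Metric.closedBall (c + TT r L N v) (A * L), P M r F y
        ≤ ENNReal.ofReal (wt (2 * M) 1 v) * (C1 * ENNReal.ofReal (L ^ n) *
          (ENNReal.ofReal ((2 * (1 + ‖v‖ ^ 2)) ^ M) * P M L F c)) :=
          mul_le_mul_right (h4.trans (mul_le_mul_right h5 _)) _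
      _ = (ENNReal.ofReal (wt (2 * M) 1 v) * ENNReal.ofReal ((2 * (1 + ‖v‖ ^ 2)) ^ M)) *
          (C1 * ENNReal.ofReal (L ^ n) * P M L F c) := by ring
      _ = _ := by rw [h8]
  refine (lintegral_mono fun v => h2 v).trans (le_of_eq ?_)
  rw [lintegral_mul_const _ (by
    have := wt_meas (n := n) M 1
    fun_prop), ← hC2]
  ring

/-- **The energies** of a function with spectrum in a `δ`-cap of the `1/R`-neighbourhood of a
hypersurface with normal `v`. -/
theorem energies (n M : ℕ) (hM : n < 2 * M) (A B : ℝ) (hA : 1 ≤ A) (hB : 0 < B) :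
    ∃ C : ℝ, 0 < C ∧
    ∀ (W : Type) (_ : MeasurableSpace W) (μ : Measure W) (_ : SFinite μ)
      (X : W → EuclideanSpace ℝ (Fin n)) (a : W → ℂ), Measurable X → Integrable a μ →
      ∀ (δ R : ℝ) (v : EuclideanSpace ℝ (Fin n)), 0 < δ → δ ≤ 1 → 0 < R → 1 ≤ ‖v‖ → ‖v‖ ≤ A →
      (∀ w w', a w ≠ 0 → a w' ≠ 0 → ‖X w - X w'‖ ≤ B * δ) →
      (∀ w w', a w ≠ 0 → a w' ≠ 0 →
        |⟪X w - X w', v⟫| ≤ B * (δ * ‖X w - X w'‖ + 1 / R)) →
      ∀ F : EuclideanSpace ℝ (Fin n) → ℂ, (∀ x, F x = ∫ w, a w * ee ⟪X w, x⟫ ∂μ) →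
      ∃ e : ℝ → EuclideanSpace ℝ (Fin n) → ℝ≥0∞, (∀ r, Measurable (e r)) ∧
        (∀ y, ENNReal.ofReal (‖F y‖ ^ 2) ≤ ENNReal.ofReal C * e δ⁻¹ y) ∧
        (∀ r, 1 ≤ δ * r → ∀ y s, |s| ≤ r / δ → e r (y + s • v) ≤ ENNReal.ofReal C * e r y) ∧
        (∀ r, 1 ≤ δ * r → ∀ y, ∫⁻ z in Metric.closedBall y (n * A * (r / δ)), e r z ≤
          ENNReal.ofReal (C * (r / δ) ^ n) * e (r / δ) y) ∧
        (∀ r, R < r / δ → ∀ y, e r y =
          ENNReal.ofReal (((δ * R) ^ n)⁻¹) * ∫⁻ x, ENNReal.ofReal (‖F x‖ ^ 2)) := by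
  obtain ⟨C0, hC0, h0⟩ := lconst n M (2 * M) hM (2 * B) (by linarith)
  obtain ⟨Cs, hCs, hs⟩ := start n M B hB
  obtain ⟨Ca, hCa, ha'⟩ := ef_avg n M hM (n * A + 1) (by positivity)
  set c2 : ℝ≥0∞ := volume (Metric.ball (0 : EuclideanSpace ℝ (Fin n)) 1) with hc2
  have hc2f : c2 ≠ ⊤ := measure_ball_lt_top.ne
  set Cl : ℝ≥0∞ := ENNReal.ofReal ((2 * (1 + A ^ 2)) ^ (2 * M)) with hCl
  set Cv : ℝ≥0∞ := ENNReal.ofReal ((n * A) ^ n) * c2 with hCv
  set CC : ℝ≥0∞ := Cs * (C0 + 1) + Ca * (C0 + 1) + Cl + Cv + 1 with hCC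
  have hCCf : CC ≠ ⊤ := by
    rw [hCC]
    refine ENNReal.add_ne_top.2 ⟨ENNReal.add_ne_top.2 ⟨ENNReal.add_ne_top.2
      ⟨ENNReal.add_ne_top.2 ⟨?_, ?_⟩, ENNReal.ofReal_ne_top⟩, ?_⟩, ENNReal.one_ne_top⟩
    · exact ENNReal.mul_ne_top hCs (ENNReal.add_ne_top.2 ⟨hC0, ENNReal.one_ne_top⟩)
    · exact ENNReal.mul_ne_top hCa (ENNReal.add_ne_top.2 ⟨hC0, ENNReal.one_ne_top⟩)
    · exact ENNReal.mul_ne_top ENNReal.ofReal_ne_top hc2f
  have hC1 : Cs * (C0 + 1) ≤ CC := by
    rw [hCC]
    exact (((le_self_add.trans le_self_add).trans le_self_add).trans le_self_add)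
  have hC2 : Ca * (C0 + 1) ≤ CC := by
    rw [hCC]
    exact (((le_add_self.trans le_self_add).trans le_self_add).trans le_self_add)
  have hC3 : Cl ≤ CC := by
    rw [hCC]
    exact ((le_add_self.trans le_self_add).trans le_self_add)
  have hC4 : Cv ≤ CC := by
    rw [hCC]
    exact (le_add_self.trans le_self_add)
  have hC5 : 1 ≤ CC := by
    rw [hCC]
    exact le_add_self
  have hCr : ENNReal.ofReal CC.toReal = CC := ENNReal.ofReal_toReal hCCf
  have hCpos : 0 < CC.toReal := ENNReal.toReal_pos (one_pos.trans_le hC5).ne' hCCf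
  refine ⟨CC.toReal, hCpos, ?_⟩
  intro W _ μ _ X a hX ha δ R v hδ hδ1 hR hv1 hvA hsp1 hsp2 F hF
  have hFc : Continuous F := by
    have : F = fun x => ∫ w, a w * ee ⟪X w, x⟫ ∂μ := funext hF
    rw [this]
    exact cont_F a ha X hX
  have hFm : Measurable F := hFc.measurable
  have hv0 : 0 < ‖v‖ := one_pos.trans_le hv1
  set N : EuclideanSpace ℝ (Fin n) := ‖v‖⁻¹ • v with hNdef
  have hN : ‖N‖ = 1 := by
    rw [hNdef, norm_smul, norm_inv, norm_norm, inv_mul_cancel₀ hv0.ne']
  have hvN : v = ‖v‖ • N := by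
    rw [hNdef, smul_smul, mul_inv_cancel₀ hv0.ne', one_smul]
  have hinN : ∀ Z : EuclideanSpace ℝ (Fin n), |⟪Z, N⟫| ≤ |⟪Z, v⟫| := by
    intro Z
    rw [hNdef, inner_smul_right, abs_mul, abs_of_pos (inv_pos.2 hv0)]
    exact mul_le_of_le_one_left (abs_nonneg _) (inv_le_one_of_one_le₀ hv1)
  -- local constancy at all scales
  have hlc : ∀ r, 0 < r → r / δ ≤ R → ∀ y, P M r F y ≤ C0 * ef M r (r / δ) N F y := by
    intro r hr hrR y
    have hrL : r ≤ r / δ := by
      rw [le_div_iff₀ hδ]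
      nlinarith
    refine h0 W _ μ inferInstance X a hX ha r (r / δ) N hr hrL hN ?_ F hF y
    intro w w' hw hw' h1
    have h2 := (hinN (X w - X w')).trans (hsp2 w w' hw hw')
    have hrd : 0 < r / δ := by positivity
    calc r / δ * |⟪X w - X w', N⟫| ≤ r / δ * (B * (δ * ‖X w - X w'‖ + 1 / R)) := by gcongr
      _ = B * (r * ‖X w - X w'‖ + (r / δ) / R) := by
          field_simp
      _ ≤ B * (1 + 1) := by
          have h3 : (r / δ) / R ≤ 1 := (div_le_one hR).2 hrR
          gcongr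
      _ = 2 * B := by ring
  set I : ℝ≥0∞ := ∫⁻ x, ENNReal.ofReal (‖F x‖ ^ 2) with hI
  set e : ℝ → EuclideanSpace ℝ (Fin n) → ℝ≥0∞ := fun r y =>
    if r / δ ≤ R then ef M r (r / δ) N F y else ENNReal.ofReal (((δ * R) ^ n)⁻¹) * I with he
  have he1 : ∀ r, r / δ ≤ R → ∀ y, e r y = ef M r (r / δ) N F y := fun r h y => if_pos h
  have he2 : ∀ r, R < r / δ → ∀ y, e r y = ENNReal.ofReal (((δ * R) ^ n)⁻¹) * I :=
    fun r h y => if_neg (not_le.2 h)
  -- the mean at scale `r` is at most the energy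
  have hPe : ∀ r, 0 < r → ∀ y, P M r F y ≤ (C0 + 1) * e r y := by
    intro r hr y
    rcases le_or_gt (r / δ) R with h | h
    · rw [he1 r h]
      exact (hlc r hr h y).trans (mul_le_mul_left le_self_add _)
    · rw [he2 r h]
      have h1 := P_le M hr hFm y
      have h2 : P M r F y ≤ ENNReal.ofReal ((r ^ n)⁻¹) * I := by
        calc P M r F y = ENNReal.ofReal ((r ^ n)⁻¹) * (ENNReal.ofReal (r ^ n) * P M r F y) := by
              rw [← mul_assoc, ← ENNReal.ofReal_mul (by positivity),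
                inv_mul_cancel₀ (by positivity), ENNReal.ofReal_one, one_mul]
          _ ≤ _ := mul_le_mul_right h1 _
      have h3 : δ * R ≤ r := by
        rw [lt_div_iff₀ hδ] at h
        nlinarith
      have h4 : ENNReal.ofReal ((r ^ n)⁻¹) ≤ ENNReal.ofReal (((δ * R) ^ n)⁻¹) := by
        refine ENNReal.ofReal_le_ofReal ?_
        gcongr
      calc P M r F y ≤ ENNReal.ofReal ((r ^ n)⁻¹) * I := h2
        _ ≤ ENNReal.ofReal (((δ * R) ^ n)⁻¹) * I := mul_le_mul_left h4 _
        _ = 1 * (ENNReal.ofReal (((δ * R) ^ n)⁻¹) * I) := (one_mul _).symm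
        _ ≤ _ := mul_le_mul_left le_add_self _
  refine ⟨e, ?_, ?_, ?_, ?_, he2⟩
  · intro r
    by_cases h : r / δ ≤ R
    · have : e r = ef M r (r / δ) N F := funext (he1 r h)
      rw [this]
      exact ef_meas M r (r / δ) N hFm
    · have : e r = fun _ => ENNReal.ofReal (((δ * R) ^ n)⁻¹) * I := funext (he2 r (not_le.1 h))
      rw [this]
      exact measurable_const
  · intro y
    have h1 := hs W _ μ inferInstance X a hX ha δ⁻¹ (fun w w' hw hw' => by
      rw [inv_mul_le_iff₀ hδ]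
      linarith [hsp1 w w' hw hw']) (inv_pos.2 hδ) F hF y
    rw [hCr]
    calc ENNReal.ofReal (‖F y‖ ^ 2) ≤ Cs * P M δ⁻¹ F y := h1
      _ ≤ Cs * ((C0 + 1) * e δ⁻¹ y) := mul_le_mul_right (hPe _ (inv_pos.2 hδ) y) _
      _ = (Cs * (C0 + 1)) * e δ⁻¹ y := by ring
      _ ≤ _ := mul_le_mul_left hC1 _
  · intro r hr y s hs'
    have hr0 : 0 < r := by
      by_contra hcon
      nlinarith [not_lt.1 hcon]
    rw [hCr]
    rcases le_or_gt (r / δ) R with h | h
    · rw [he1 r h, he1 r h]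
      have h1 : y + s • v = y + (s * ‖v‖) • N := by
        conv_lhs => rw [hvN]
        rw [smul_smul]
      rw [h1]
      have h2 : |s * ‖v‖| ≤ A * (r / δ) := by
        rw [abs_mul, abs_of_pos hv0, mul_comm]
        exact mul_le_mul hvA hs' (abs_nonneg _) (by linarith)
      exact (ef_slow M (by positivity) hN hFm y h2).trans (mul_le_mul_left hC3 _)
    · rw [he2 r h, he2 r h]
      calc ENNReal.ofReal (((δ * R) ^ n)⁻¹) * I =
          1 * (ENNReal.ofReal (((δ * R) ^ n)⁻¹) * I) := (one_mul _).symm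
        _ ≤ _ := mul_le_mul_left hC5 _
  · intro r hr y
    have hr0 : 0 < r := by
      by_contra hcon
      nlinarith [not_lt.1 hcon]
    have hrd : 0 < r / δ := by positivity
    have hrL : r ≤ r / δ := by
      rw [le_div_iff₀ hδ]
      nlinarith
    rw [ENNReal.ofReal_mul hCpos.le, hCr]
    rcases le_or_gt (r / δ) R with h | h
    · have h1 : ∫⁻ z in Metric.closedBall y (n * A * (r / δ)), e r z ≤
          ∫⁻ z in Metric.closedBall y ((n * A + 1) * (r / δ)), ef M r (r / δ) N F z := by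
        have h2 : ∫⁻ z in Metric.closedBall y (n * A * (r / δ)), e r z =
            ∫⁻ z in Metric.closedBall y (n * A * (r / δ)), ef M r (r / δ) N F z :=
          lintegral_congr fun z => he1 r h z
        rw [h2]
        refine lintegral_mono_set (Metric.closedBall_subset_closedBall ?_)
        nlinarith
      refine h1.trans ((ha' r (r / δ) N hr0 hrL hN F hFm y).trans ?_)
      calc Ca * ENNReal.ofReal ((r / δ) ^ n) * P M (r / δ) F y
          ≤ Ca * ENNReal.ofReal ((r / δ) ^ n) * ((C0 + 1) * e (r / δ) y) :=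
            mul_le_mul_right (hPe _ hrd y) _
        _ = (Ca * (C0 + 1)) * ENNReal.ofReal ((r / δ) ^ n) * e (r / δ) y := by ring
        _ ≤ _ := mul_le_mul_left (mul_le_mul_left hC2 _) _
    · have h1 : R < r / δ / δ := by
        refine h.trans_le ?_
        rw [le_div_iff₀ hδ]
        nlinarith
      rw [he2 _ h1]
      have h2 : ∫⁻ z in Metric.closedBall y (n * A * (r / δ)), e r z =
          ∫⁻ z in Metric.closedBall y (n * A * (r / δ)),
            ENNReal.ofReal (((δ * R) ^ n)⁻¹) * I := lintegral_congr fun z => he2 r h z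
      have h3 : (n * A * (r / δ)) ^ n = (n * A) ^ n * (r / δ) ^ n := mul_pow _ _ _
      rw [h2, setLIntegral_const, Measure.addHaar_closedBall _ _ (by positivity),
        finrank_euclideanSpace_fin, ← hc2, h3, ENNReal.ofReal_mul (p := (n * A) ^ n)
        (by positivity)]
      calc ENNReal.ofReal (((δ * R) ^ n)⁻¹) * I *
            (ENNReal.ofReal ((n * A) ^ n) * ENNReal.ofReal ((r / δ) ^ n) * c2)
          = Cv * ENNReal.ofReal ((r / δ) ^ n) * (ENNReal.ofReal (((δ * R) ^ n)⁻¹) * I) := by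
            rw [hCv]; ring
        _ ≤ _ := mul_le_mul_left (mul_le_mul_left hC4 _) _

end Pool.Agent.DEC.LC
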