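import Pool.Agent.DEC.LC3

/-!
The local energies of a function whose spectrum is in a cap of a neighbourhood of a hypersurface,
local form.
-/

set_option autoImplicit false
set_option linter.unusedSectionVars false

namespace Pool.Agent.DEC.LC

open MeasureTheory Set Filter Topology Complex
open scoped Real RealInnerProductSpace ComplexConjugate ENNReal FourierTransform SchwartzMap
open Pool.Agent.DEC.EN

variable {n : ℕ}

/-- The mean over a tube is bounded by the local mean, with a constant which depends on the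
eccentricity of the tube. -/
theorem ef_le (n M : ℕ) (hM : n < 2 * M) : ∃ C : ℝ, 0 < C ∧
    ∀ (r δ : ℝ) (N : EuclideanSpace ℝ (Fin n)), 0 < r → 0 < δ → δ ≤ 1 → ‖N‖ = 1 →
      ∀ F : EuclideanSpace ℝ (Fin n) → ℂ, Measurable F → ∀ y : EuclideanSpace ℝ (Fin n),
      ef M r (r / δ) N F y ≤ ENNReal.ofReal (C * (δ⁻¹) ^ (2 * M)) * P M r F y := by
  set C2 : ℝ≥0∞ := ∫⁻ v, ENNReal.ofReal (2 ^ M * wt M 1 (v : EuclideanSpace ℝ (Fin n))) with hC2
  have hC2f : C2 ≠ ⊤ := ((wt_integrable hM one_pos).const_mul _).lintegral_lt_top.ne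
  refine ⟨C2.toReal + 1, by positivity, ?_⟩
  intro r δ N hr hδ hδ1 hN F hF y
  have hrL : r ≤ r / δ := by
    rw [le_div_iff₀ hδ]
    nlinarith
  have hδi : 1 ≤ δ⁻¹ := (one_le_inv₀ hδ).2 hδ1
  unfold ef
  have h2 : ∀ v : EuclideanSpace ℝ (Fin n),
      ENNReal.ofReal (wt (2 * M) 1 v) * P M r F (y + TT r (r / δ) N v) ≤
      ENNReal.ofReal (2 ^ M * wt M 1 v) * (ENNReal.ofReal ((δ⁻¹) ^ (2 * M)) * P M r F y) := by
    intro v
    have h6 := P_shift M hr hF y (r⁻¹ • TT r (r / δ) N v)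
    rw [smul_smul, mul_inv_cancel₀ hr.ne', one_smul] at h6
    have h7 : ‖r⁻¹ • TT r (r / δ) N v‖ ≤ δ⁻¹ * ‖v‖ := by
      rw [norm_smul, norm_inv, Real.norm_eq_abs, abs_of_pos hr, inv_mul_le_iff₀ hr]
      refine (TT_le hr hrL hN v).trans (le_of_eq ?_)
      ring
    have h8 : (2 * (1 + ‖r⁻¹ • TT r (r / δ) N v‖ ^ 2)) ^ M ≤
        (δ⁻¹) ^ (2 * M) * (2 * (1 + ‖v‖ ^ 2)) ^ M := by
      rw [pow_mul, ← mul_pow]
      refine pow_le_pow_left₀ (by positivity) ?_ M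
      have h9 : ‖r⁻¹ • TT r (r / δ) N v‖ ^ 2 ≤ (δ⁻¹ * ‖v‖) ^ 2 :=
        pow_le_pow_left₀ (norm_nonneg _) h7 2
      have h10 : 1 ≤ (δ⁻¹) ^ 2 := one_le_pow₀ hδi
      rw [mul_pow] at h9
      nlinarith [sq_nonneg ‖v‖]
    have h11 : P M r F (y + TT r (r / δ) N v) ≤
        ENNReal.ofReal ((δ⁻¹) ^ (2 * M) * (2 * (1 + ‖v‖ ^ 2)) ^ M) * P M r F y :=
      h6.trans (mul_le_mul_left (ENNReal.ofReal_le_ofReal h8) _)
    have h12 : ENNReal.ofReal (wt (2 * M) 1 v) * ENNReal.ofReal ((2 * (1 + ‖v‖ ^ 2)) ^ M) =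
        ENNReal.ofReal (2 ^ M * wt M 1 v) := by
      rw [← ENNReal.ofReal_mul (wt_pos _ v).le]
      congr 1
      unfold wt
      rw [one_pow, div_one, two_mul, pow_add, mul_inv, mul_pow]
      have : (1 + ‖v‖ ^ 2) ^ M ≠ 0 := by positivity
      field_simp
    calc ENNReal.ofReal (wt (2 * M) 1 v) * P M r F (y + TT r (r / δ) N v)
        ≤ ENNReal.ofReal (wt (2 * M) 1 v) *
          (ENNReal.ofReal ((δ⁻¹) ^ (2 * M) * (2 * (1 + ‖v‖ ^ 2)) ^ M) * P M r F y) :=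
          mul_le_mul_right h11 _
      _ = (ENNReal.ofReal (wt (2 * M) 1 v) * ENNReal.ofReal ((2 * (1 + ‖v‖ ^ 2)) ^ M)) *
          (ENNReal.ofReal ((δ⁻¹) ^ (2 * M)) * P M r F y) := by
          rw [ENNReal.ofReal_mul (by positivity)]
          ring
      _ = _ := by rw [h12]
  refine (lintegral_mono fun v => h2 v).trans ?_
  rw [lintegral_mul_const _ (by
    have := wt_meas (n := n) M 1
    fun_prop), ← hC2, ENNReal.ofReal_mul (by positivity), ← mul_assoc]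
  refine mul_le_mul_left (mul_le_mul_left ?_ _) _
  calc C2 = ENNReal.ofReal C2.toReal := (ENNReal.ofReal_toReal hC2f).symm
    _ ≤ _ := ENNReal.ofReal_le_ofReal (by linarith)

/-- **The energies**, local form. -/
theorem energies_loc (n M : ℕ) (hM : n < 2 * M) (A0 : ℝ) (hA0 : 1 ≤ A0) : ∃ C : ℝ, 0 < C ∧
    ∀ δ : ℝ, 0 < δ → δ ≤ 1 → ∃ Cδ : ℝ, 0 < Cδ ∧
    ∀ (W : Type) (_ : MeasurableSpace W) (μ : Measure W) (_ : SFinite μ)
      (X : W → EuclideanSpace ℝ (Fin n)) (a : W → ℂ), Measurable X → Integrable a μ →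
      ∀ (v : EuclideanSpace ℝ (Fin n)) (Rm : ℝ), 1 ≤ ‖v‖ → ‖v‖ ≤ A0 →
      (∀ r : ℝ, 1 ≤ δ * r → r / δ ≤ Rm → ∀ w w', a w ≠ 0 → a w' ≠ 0 →
        ‖X w - X w'‖ ≤ 1 / r → |⟪X w - X w', v⟫| ≤ A0 * δ / r) →
      ∀ F : EuclideanSpace ℝ (Fin n) → ℂ, (∀ x, F x = ∫ w, a w * ee ⟪X w, x⟫ ∂μ) →
      ∃ e : ℝ → EuclideanSpace ℝ (Fin n) → ℝ≥0∞, (∀ r, Measurable (e r)) ∧
        (∀ r, 1 ≤ δ * r → r / δ ≤ Rm → ∀ y s, |s| ≤ r / δ →
          e r (y + s • v) ≤ ENNReal.ofReal C * e r y) ∧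
        (∀ r, 1 ≤ δ * r → r / δ ≤ Rm → ∀ y,
          ∫⁻ z in Metric.closedBall y (n * A0 * (r / δ)), e r z ≤
            ENNReal.ofReal (C * (r / δ) ^ n) * e (r / δ) y) ∧
        (∀ r y, 1 ≤ δ * r → r / δ ≤ Rm → P M r F y ≤ ENNReal.ofReal C * e r y) ∧
        (∀ r y, 1 ≤ δ * r → r ≤ Rm → e r y ≤ ENNReal.ofReal Cδ * P M r F y) := by
  obtain ⟨C0, hC0, h0⟩ := lconst n M (2 * M) hM A0 (by linarith)
  obtain ⟨Ca, hCa, ha'⟩ := ef_avg n M hM (n * A0 + 1) (by positivity)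
  obtain ⟨Ce, hCe, he'⟩ := ef_le n M hM
  set Cl : ℝ≥0∞ := ENNReal.ofReal ((2 * (1 + A0 ^ 2)) ^ (2 * M)) with hCl
  set CC : ℝ≥0∞ := (C0 + 1) + Ca * (C0 + 1) + Cl with hCC
  have hCCf : CC ≠ ⊤ := by
    rw [hCC]
    refine ENNReal.add_ne_top.2 ⟨ENNReal.add_ne_top.2 ⟨?_, ?_⟩, ENNReal.ofReal_ne_top⟩
    · exact ENNReal.add_ne_top.2 ⟨hC0, ENNReal.one_ne_top⟩
    · exact ENNReal.mul_ne_top hCa (ENNReal.add_ne_top.2 ⟨hC0, ENNReal.one_ne_top⟩)
  have hC1 : C0 + 1 ≤ CC := by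
    rw [hCC]
    exact le_self_add.trans le_self_add
  have hC2 : Ca * (C0 + 1) ≤ CC := by
    rw [hCC]
    exact le_add_self.trans le_self_add
  have hC3 : Cl ≤ CC := by
    rw [hCC]
    exact le_add_self
  have hC5 : 1 ≤ CC := le_add_self.trans hC1
  have hCr : ENNReal.ofReal CC.toReal = CC := ENNReal.ofReal_toReal hCCf
  have hCpos : 0 < CC.toReal := ENNReal.toReal_pos (one_pos.trans_le hC5).ne' hCCf
  refine ⟨CC.toReal, hCpos, fun δ hδ hδ1 => ⟨Ce * (δ⁻¹) ^ (2 * M) + 1, by positivity, ?_⟩⟩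
  intro W _ μ _ X a hX ha v Rm hv1 hvA hsp F hF
  have hFc : Continuous F := by
    have : F = fun x => ∫ w, a w * ee ⟪X w, x⟫ ∂μ := funext hF
    rw [this]
    exact cont_F a ha X hX
  have hFm : Measurable F := hFc.measurable
  have hv0 : 0 < ‖v‖ := one_pos.trans_le hv1
  set N : EuclideanSpace ℝ (Fin n) := ‖v‖⁻¹ • v with hNdef
  have hN : ‖N‖ = 1 := by
    rw [hNdef, norm_smul, norm_inv, norm_norm, inv_mul_cancel₀ hv0.ne']
  have hvN : v = ‖v‖ • N := by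
    rw [hNdef, smul_smul, mul_inv_cancel₀ hv0.ne', one_smul]
  have hinN : ∀ Z : EuclideanSpace ℝ (Fin n), |⟪Z, N⟫| ≤ |⟪Z, v⟫| := by
    intro Z
    rw [hNdef, inner_smul_right, abs_mul, abs_of_pos (inv_pos.2 hv0)]
    exact mul_le_of_le_one_left (abs_nonneg _) (inv_le_one_of_one_le₀ hv1)
  have hpos : ∀ r, 1 ≤ δ * r → 0 < r := by
    intro r hr
    by_contra hcon
    nlinarith [not_lt.1 hcon]
  have hrL : ∀ r, 1 ≤ δ * r → r ≤ r / δ := by
    intro r hr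
    rw [le_div_iff₀ hδ]
    nlinarith [hpos r hr]
  -- local constancy at all scales
  have hlc : ∀ r, 1 ≤ δ * r → r / δ ≤ Rm → ∀ y, P M r F y ≤ C0 * ef M r (r / δ) N F y := by
    intro r hr hrR y
    have hr0 := hpos r hr
    refine h0 W _ μ inferInstance X a hX ha r (r / δ) N hr0 (hrL r hr) hN ?_ F hF y
    intro w w' hw hw' h1
    have h1' : ‖X w - X w'‖ ≤ 1 / r := by
      rw [le_div_iff₀ hr0, mul_comm]
      exact h1
    have h2 := (hinN (X w - X w')).trans (hsp r hr hrR w w' hw hw' h1')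
    calc r / δ * |⟪X w - X w', N⟫| ≤ r / δ * (A0 * δ / r) := by gcongr
      _ = A0 := by field_simp
  set e : ℝ → EuclideanSpace ℝ (Fin n) → ℝ≥0∞ := fun r y =>
    if r / δ ≤ Rm then ef M r (r / δ) N F y else P M r F y with he
  have he1 : ∀ r, r / δ ≤ Rm → ∀ y, e r y = ef M r (r / δ) N F y := fun r h y => if_pos h
  have he2 : ∀ r, ¬ r / δ ≤ Rm → ∀ y, e r y = P M r F y := fun r h y => if_neg h
  have hPe : ∀ r, 1 ≤ δ * r → ∀ y, P M r F y ≤ (C0 + 1) * e r y := by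
    intro r hr y
    by_cases h : r / δ ≤ Rm
    · rw [he1 r h]
      exact (hlc r hr h y).trans (mul_le_mul_left le_self_add _)
    · rw [he2 r h]
      calc P M r F y = 1 * P M r F y := (one_mul _).symm
        _ ≤ _ := mul_le_mul_left le_add_self _
  refine ⟨e, ?_, ?_, ?_, ?_, ?_⟩
  · intro r
    by_cases h : r / δ ≤ Rm
    · have : e r = ef M r (r / δ) N F := funext (he1 r h)
      rw [this]
      exact ef_meas M r (r / δ) N hFm
    · have : e r = P M r F := funext (he2 r h)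
      rw [this]
      exact P_meas M r hFm
  · intro r hr h y s hs'
    have hr0 := hpos r hr
    rw [hCr, he1 r h, he1 r h]
    have h1 : y + s • v = y + (s * ‖v‖) • N := by
      conv_lhs => rw [hvN]
      rw [smul_smul]
    rw [h1]
    have h2 : |s * ‖v‖| ≤ A0 * (r / δ) := by
      rw [abs_mul, abs_of_pos hv0, mul_comm]
      exact mul_le_mul hvA hs' (abs_nonneg _) (by linarith)
    exact (ef_slow M (by positivity) hN hFm y h2).trans (mul_le_mul_left hC3 _)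
  · intro r hr h y
    have hr0 := hpos r hr
    have hrd : 0 < r / δ := by positivity
    have hr' : 1 ≤ δ * (r / δ) := by
      rw [mul_div_cancel₀ _ hδ.ne']
      nlinarith
    rw [ENNReal.ofReal_mul hCpos.le, hCr]
    have h1 : ∫⁻ z in Metric.closedBall y (n * A0 * (r / δ)), e r z ≤
        ∫⁻ z in Metric.closedBall y ((n * A0 + 1) * (r / δ)), ef M r (r / δ) N F z := by
      have h2 : ∫⁻ z in Metric.closedBall y (n * A0 * (r / δ)), e r z =
          ∫⁻ z in Metric.closedBall y (n * A0 * (r / δ)), ef M r (r / δ) N F z :=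
        lintegral_congr fun z => he1 r h z
      rw [h2]
      refine lintegral_mono_set (Metric.closedBall_subset_closedBall ?_)
      nlinarith
    refine h1.trans ((ha' r (r / δ) N hr0 (hrL r hr) hN F hFm y).trans ?_)
    calc Ca * ENNReal.ofReal ((r / δ) ^ n) * P M (r / δ) F y
        ≤ Ca * ENNReal.ofReal ((r / δ) ^ n) * ((C0 + 1) * e (r / δ) y) :=
          mul_le_mul_right (hPe _ hr' y) _
      _ = (Ca * (C0 + 1)) * ENNReal.ofReal ((r / δ) ^ n) * e (r / δ) y := by ring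
      _ ≤ _ := mul_le_mul_left (mul_le_mul_left hC2 _) _
  · intro r y hr h
    rw [hCr]
    exact (hPe r hr y).trans (mul_le_mul_left hC1 _)
  · intro r y hr _
    have hr0 := hpos r hr
    by_cases h : r / δ ≤ Rm
    · rw [he1 r h]
      refine (he' r δ N hr0 hδ hδ1 hN F hFm y).trans (mul_le_mul_left
        (ENNReal.ofReal_le_ofReal (by linarith)) _)
    · rw [he2 r h]
      calc P M r F y = ENNReal.ofReal 1 * P M r F y := by rw [ENNReal.ofReal_one, one_mul]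
        _ ≤ _ := mul_le_mul_left (ENNReal.ofReal_le_ofReal (by
          have : 0 ≤ Ce * (δ⁻¹) ^ (2 * M) := by positivity
          linarith)) _

end Pool.Agent.DEC.LC
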