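import Mathlib

/-!
The Loomis-Whitney inequality, for probability measures, for functions which vary slowly in one
coordinate each, and for `n` transversal directions of `R^n`.
-/

namespace Pool.Agent.DEC

open MeasureTheory Set Function Finset
open scoped ENNReal Real

section marg

variable {ι : Type*} [DecidableEq ι] {A : ι → Type*} [∀ i, MeasurableSpace (A i)]
  (μ : ∀ i, Measure (A i)) [∀ i, IsProbabilityMeasure (μ i)]

set_option linter.unusedSectionVars false

theorem lmarginal_holder (s : Finset ι) {f g : (∀ i, A i) → ℝ≥0∞} (hf : Measurable f)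
    (hg : Measurable g) {p q : ℝ} (hp : 0 ≤ p) (hq : 0 ≤ q) (hpq : p + q = 1) (x : ∀ i, A i) :
    (∫⋯∫⁻_s, (fun y => f y ^ p * g y ^ q) ∂μ) x ≤
      ((∫⋯∫⁻_s, f ∂μ) x) ^ p * ((∫⋯∫⁻_s, g ∂μ) x) ^ q :=
  ENNReal.lintegral_mul_norm_pow_le (hf.comp measurable_updateFinset).aemeasurable
    (hg.comp measurable_updateFinset).aemeasurable hp hq hpq

theorem lmarginal_one (s : Finset ι) (x : ∀ i, A i) :
    (∫⋯∫⁻_s, (fun _ => (1 : ℝ≥0∞)) ∂μ) x = 1 := by
  simp [lmarginal]

/-- A factor which does not depend on the variables of `s`. -/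
theorem lmarginal_mul_const (s : Finset ι) {f g : (∀ i, A i) → ℝ≥0∞} (hf : Measurable f)
    (hg : ∀ x y, (∀ i ∉ s, x i = y i) → g x = g y) (x : ∀ i, A i) :
    (∫⋯∫⁻_s, (fun y => g y * f y) ∂μ) x = g x * (∫⋯∫⁻_s, f ∂μ) x := by
  have h1 : ∀ y : ∀ i : s, A i, g (updateFinset x s y) = g x := by
    intro y
    refine hg _ _ fun i hi => ?_
    simp [updateFinset, hi]
  show ∫⁻ y : ∀ i : s, A i, g (updateFinset x s y) * f (updateFinset x s y)
    ∂Measure.pi (fun i : s => μ i) = _
  simp_rw [h1]
  exact lintegral_const_mul _ (hf.comp measurable_updateFinset)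

/-- Loomis-Whitney, the induction. -/
theorem lw_marg (s : Finset ι) : ∀ (g : ι → (∀ i, A i) → ℝ≥0∞), (∀ i, Measurable (g i)) →
    (∀ i ∈ s, ∀ x a, g i (update x i a) = g i x) → s.Nonempty → ∀ x,
    (∫⋯∫⁻_s, (fun y => ∏ i ∈ s, g i y ^ (1 / ((s.card : ℝ) - 1))) ∂μ) x ≤
      ∏ i ∈ s, ((∫⋯∫⁻_s, g i ∂μ) x) ^ (1 / ((s.card : ℝ) - 1)) := by
  induction s using Finset.induction_on with
  | empty => intro g _ _ h; exact absurd h (by simp)
  | insert j s hj ih =>
    intro g hg hi _ x
    have hcard : (((insert j s).card : ℕ) : ℝ) - 1 = (s.card : ℝ) := by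
      rw [Finset.card_insert_of_notMem hj]; push_cast; ring
    rw [hcard]
    rcases s.eq_empty_or_nonempty with rfl | hs
    · simp [lmarginal_one]
    have hk1 : 1 ≤ s.card := Finset.card_pos.2 hs
    set k : ℝ := (s.card : ℝ) with hk
    have hk1' : (1 : ℝ) ≤ k := by rw [hk]; exact_mod_cast hk1
    have hk0 : 0 < k := by linarith
    -- integrate in the variable `j`
    set G : ι → (∀ i, A i) → ℝ≥0∞ := fun i y => ∫⁻ a, g i (update y j a) ∂μ j with hG
    have hGm : ∀ i, Measurable (G i) := by
      intro i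
      have := (hg i).lmarginal (s := {j}) μ
      rwa [lmarginal_singleton] at this
    have hGi : ∀ i ∈ s, ∀ y a, G i (update y i a) = G i y := by
      intro i his y a
      have hij : i ≠ j := fun h => hj (h ▸ his)
      simp only [hG]
      refine lintegral_congr fun b => ?_
      rw [update_comm hij]
      exact hi i (Finset.mem_insert_of_mem his) _ _
    have hprodm : Measurable fun y => ∏ i ∈ insert j s, g i y ^ (1 / k) :=
      Finset.measurable_prod _ fun i _ => (hg i).pow_const _
    rw [lmarginal_insert' _ hprodm hj]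
    have hstep : ∀ y, (∫⁻ a, ∏ i ∈ insert j s, g i (update y j a) ^ (1 / k) ∂μ j) ≤
        g j y ^ (1 / k) * ∏ i ∈ s, G i y ^ (1 / k) := by
      intro y
      have h1 : ∀ a, ∏ i ∈ insert j s, g i (update y j a) ^ (1 / k) =
          g j y ^ (1 / k) * ∏ i ∈ s, g i (update y j a) ^ (1 / k) := by
        intro a
        rw [Finset.prod_insert hj, hi j (Finset.mem_insert_self j s)]
      simp_rw [h1]
      have hm : Measurable fun a => ∏ i ∈ s, g i (update y j a) ^ (1 / k) :=
        Finset.measurable_prod _ fun i _ =>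
          ((hg i).comp (measurable_update y)).pow_const _
      rw [lintegral_const_mul _ hm]
      gcongr
      refine ENNReal.lintegral_prod_norm_pow_le s
        (fun i _ => ((hg i).comp (measurable_update y)).aemeasurable) ?_ fun i _ => by positivity
      rw [Finset.sum_const, nsmul_eq_mul]
      field_simp
      exact hk.symm
    have hlm : ∀ i, (∫⋯∫⁻_insert j s, g i ∂μ) x = (∫⋯∫⁻_s, G i ∂μ) x := by
      intro i
      rw [lmarginal_insert' _ (hg i) hj]
    have hGj : G j = g j := by
      funext y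
      simp only [hG]
      have : ∀ a, g j (update y j a) = g j y := fun a =>
        hi j (Finset.mem_insert_self j s) y a
      simp [this]
    refine (lmarginal_mono (fun y => hstep y) x).trans ?_
    rw [Finset.prod_insert hj, hlm j, hGj]
    have hR : ∏ i ∈ s, (∫⋯∫⁻_insert j s, g i ∂μ) x ^ (1 / k) =
        ∏ i ∈ s, (∫⋯∫⁻_s, G i ∂μ) x ^ (1 / k) :=
      Finset.prod_congr rfl fun i _ => by rw [hlm i]
    rw [hR]
    rcases eq_or_lt_of_le hk1 with hk1e | hk2
    · -- two variables
      obtain ⟨i, rfl⟩ := Finset.card_eq_one.1 hk1e.symm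
      have hk' : k = 1 := by rw [hk, ← hk1e]; norm_num
      rw [hk']
      simp only [Finset.prod_singleton, one_div, inv_one, ENNReal.rpow_one]
      have hc : ∀ y z, (∀ l ∉ ({i} : Finset ι), y l = z l) → G i y = G i z := by
        intro y z hyz
        have : y = update z i (y i) := by
          funext l
          rcases eq_or_ne l i with rfl | hl
          · simp
          · rw [update_of_ne hl]; exact hyz l (by simpa using hl)
        rw [this]
        exact hGi i (Finset.mem_singleton_self i) _ _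
      have e1 : (∫⋯∫⁻_({i} : Finset ι), G i ∂μ) x = G i x := by
        have := lmarginal_mul_const μ ({i} : Finset ι) (f := fun _ => 1) measurable_const hc x
        simpa [lmarginal_one] using this
      have e2 := lmarginal_mul_const μ ({i} : Finset ι) (hg j) hc x
      have e3 : (fun y => g j y * G i y) = fun y => G i y * g j y := by
        funext y; exact mul_comm _ _
      rw [e3, e2, e1, mul_comm]
    · -- the general step
      have hk2' : (2 : ℝ) ≤ k := by rw [hk]; exact_mod_cast hk2
      have e1 : ∀ y, ∏ i ∈ s, G i y ^ (1 / k) =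
          (∏ i ∈ s, G i y ^ (1 / (k - 1))) ^ ((k - 1) / k) := by
        intro y
        rw [← ENNReal.prod_rpow_of_nonneg (by apply div_nonneg <;> linarith)]
        refine Finset.prod_congr rfl fun i _ => ?_
        rw [← ENNReal.rpow_mul]
        congr 1
        have : k - 1 ≠ 0 := by linarith
        field_simp
      have e2 : (fun y => g j y ^ (1 / k) * ∏ i ∈ s, G i y ^ (1 / k)) =
          fun y => g j y ^ (1 / k) * (∏ i ∈ s, G i y ^ (1 / (k - 1))) ^ ((k - 1) / k) := by
        funext y; rw [e1]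
      rw [e2]
      refine (lmarginal_holder μ s (hg j) (Finset.measurable_prod _ fun i _ =>
        (hGm i).pow_const _) (by positivity) (by apply div_nonneg <;> linarith) ?_ x).trans ?_
      · field_simp
        ring
      gcongr
      have h3 := ih G hGm hGi hs x
      have h4 : (∏ i ∈ s, (∫⋯∫⁻_s, G i ∂μ) x ^ (1 / (k - 1))) ^ ((k - 1) / k) =
          ∏ i ∈ s, (∫⋯∫⁻_s, G i ∂μ) x ^ (1 / k) := by
        rw [← ENNReal.prod_rpow_of_nonneg (by apply div_nonneg <;> linarith)]
        refine Finset.prod_congr rfl fun i _ => ?_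
        rw [← ENNReal.rpow_mul]
        congr 1
        have : k - 1 ≠ 0 := by linarith
        field_simp
      rw [← h4]
      exact ENNReal.rpow_le_rpow h3 (by apply div_nonneg <;> linarith)

/-- Loomis-Whitney for functions which vary slowly in one variable each. -/
theorem lw_pi [Fintype ι] [Nonempty ι] (F : ι → (∀ i, A i) → ℝ≥0∞) (hF : ∀ i, Measurable (F i))
    (C : ℝ≥0∞) (h : ∀ i x a, F i x ≤ C * F i (update x i a)) :
    ∫⁻ x, ∏ i, F i x ^ (1 / ((Fintype.card ι : ℝ) - 1)) ∂(Measure.pi μ) ≤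
      C ^ ((Fintype.card ι : ℝ) / ((Fintype.card ι : ℝ) - 1)) *
        ∏ i, (∫⁻ x, F i x ∂(Measure.pi μ)) ^ (1 / ((Fintype.card ι : ℝ) - 1)) := by
  set k : ℝ := (Fintype.card ι : ℝ) with hk
  have hk1 : (1 : ℝ) ≤ k := by
    rw [hk]; exact_mod_cast (Fintype.card_pos : 0 < Fintype.card ι)
  have hp : 0 ≤ 1 / (k - 1) := by
    apply div_nonneg zero_le_one; linarith
  set G : ι → (∀ i, A i) → ℝ≥0∞ := fun i x => ∫⁻ a, F i (update x i a) ∂μ i with hG
  have hGm : ∀ i, Measurable (G i) := by
    intro i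
    have := (hF i).lmarginal (s := {i}) μ
    rwa [lmarginal_singleton] at this
  have hGi : ∀ i x a, G i (update x i a) = G i x := by
    intro i x a
    simp only [hG, update_idem]
  have hFG : ∀ i x, F i x ≤ C * G i x := by
    intro i x
    calc F i x = ∫⁻ _, F i x ∂μ i := by simp
      _ ≤ ∫⁻ a, C * F i (update x i a) ∂μ i := lintegral_mono fun a => h i x a
      _ = C * G i x := lintegral_const_mul _ ((hF i).comp (measurable_update x))
  have hint : ∀ i, ∫⁻ x, G i x ∂(Measure.pi μ) = ∫⁻ x, F i x ∂(Measure.pi μ) := by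
    intro i
    refine lintegral_eq_of_lmarginal_eq {i} (hGm i) (hF i) ?_
    rw [lmarginal_singleton, lmarginal_singleton]
    funext x
    have : ∀ a, G i (update x i a) = G i x := hGi i x
    simp_rw [this]
    simp [hG]
  have h1 := lw_marg μ Finset.univ G hGm (fun i _ => hGi i) Finset.univ_nonempty
  have hcard : ((Finset.univ : Finset ι).card : ℝ) = k := by rw [Finset.card_univ]
  rw [hcard] at h1
  simp only [lmarginal_univ] at h1
  calc ∫⁻ x, ∏ i, F i x ^ (1 / (k - 1)) ∂(Measure.pi μ)
      ≤ ∫⁻ x, C ^ (k / (k - 1)) * ∏ i, G i x ^ (1 / (k - 1)) ∂(Measure.pi μ) := by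
        refine lintegral_mono fun x => ?_
        calc ∏ i, F i x ^ (1 / (k - 1)) ≤ ∏ i, (C * G i x) ^ (1 / (k - 1)) :=
              Finset.prod_le_prod' fun i _ => ENNReal.rpow_le_rpow (hFG i x) hp
          _ = ∏ i, (C ^ (1 / (k - 1)) * G i x ^ (1 / (k - 1))) :=
              Finset.prod_congr rfl fun i _ => ENNReal.mul_rpow_of_nonneg _ _ hp
          _ = C ^ (k / (k - 1)) * ∏ i, G i x ^ (1 / (k - 1)) := by
              rw [Finset.prod_mul_distrib, Finset.prod_const, Finset.card_univ,
                ← ENNReal.rpow_natCast, ← ENNReal.rpow_mul, ← hk]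
              congr 2
              ring
    _ = C ^ (k / (k - 1)) * ∫⁻ x, ∏ i, G i x ^ (1 / (k - 1)) ∂(Measure.pi μ) :=
        lintegral_const_mul _ (Finset.measurable_prod _ fun i _ => (hGm i).pow_const _)
    _ ≤ C ^ (k / (k - 1)) * ∏ i, (∫⁻ x, G i x ∂(Measure.pi μ)) ^ (1 / (k - 1)) := by
        gcongr
        rcases isEmpty_or_nonempty (∀ i, A i) with he | ⟨⟨x⟩⟩
        · simp [lintegral_of_isEmpty]
        · exact h1 x
    _ = _ := by simp_rw [hint]

end marg

/-- The unit cube of `R^n`. -/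
def Q0 (n : ℕ) : Set (Fin n → ℝ) := Set.pi univ fun _ => Icc (-(1 / 2)) (1 / 2)

theorem measurableSet_Q0 (n : ℕ) : MeasurableSet (Q0 n) :=
  MeasurableSet.univ_pi fun _ => measurableSet_Icc

theorem clamp_mem (u : ℝ) : max (-(1 / 2)) (min (1 / 2) u) ∈ Icc (-(1 / 2 : ℝ)) (1 / 2) := by
  constructor
  · exact le_max_left _ _
  · exact max_le (by norm_num) (min_le_left _ _)

theorem clamp_of_mem {u : ℝ} (hu : u ∈ Icc (-(1 / 2 : ℝ)) (1 / 2)) :
    max (-(1 / 2)) (min (1 / 2) u) = u := by
  rw [min_eq_right hu.2, max_eq_right hu.1]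

/-- Loomis-Whitney on the parallelepiped of centre `y0` with the edges `v_j`, for functions which
vary slowly in the direction of one edge each. -/
theorem lw_cube {n : ℕ} (hn : 1 ≤ n) {W : Type*} [AddCommGroup W] [Module ℝ W]
    [MeasurableSpace W] (v : Fin n → W) (y0 : W)
    (hP : Measurable fun t : Fin n → ℝ => y0 + ∑ j, t j • v j) (F : Fin n → W → ℝ≥0∞)
    (hF : ∀ i, Measurable (F i)) (C : ℝ≥0∞)
    (h : ∀ i y s, |s| ≤ (1 : ℝ) → F i (y + s • v i) ≤ C * F i y) :
    ∫⁻ t in Q0 n, ∏ i, F i (y0 + ∑ j, t j • v j) ^ (1 / ((n : ℝ) - 1)) ≤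
      C ^ ((n : ℝ) / ((n : ℝ) - 1)) *
        ∏ i, (∫⁻ t in Q0 n, F i (y0 + ∑ j, t j • v j)) ^ (1 / ((n : ℝ) - 1)) := by
  have : Nonempty (Fin n) := ⟨⟨0, hn⟩⟩
  have : IsProbabilityMeasure ((volume : Measure ℝ).restrict (Icc (-(1 / 2)) (1 / 2))) := by
    constructor
    rw [Measure.restrict_apply_univ, Real.volume_Icc]
    norm_num
  have hm : (volume : Measure (Fin n → ℝ)).restrict (Q0 n) =
      Measure.pi fun _ => (volume : Measure ℝ).restrict (Icc (-(1 / 2)) (1 / 2)) := by
    rw [volume_pi, Q0, Measure.restrict_pi_pi]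
  set P : (Fin n → ℝ) → W := fun t => y0 + ∑ j, t j • v j with hPdef
  set cl : (Fin n → ℝ) → (Fin n → ℝ) := fun t j => max (-(1 / 2)) (min (1 / 2) (t j)) with hcl
  have hclm : Measurable cl := by
    refine measurable_pi_iff.2 fun j => ?_
    exact measurable_const.max (measurable_const.min (measurable_pi_apply j))
  have hcl' : ∀ t ∈ Q0 n, cl t = t := by
    intro t ht
    funext j
    exact clamp_of_mem (ht j (mem_univ j))
  have hPm : Measurable P := hP
  have hslow : ∀ i (x : Fin n → ℝ) (a : ℝ), F i (P (cl x)) ≤ C * F i (P (cl (update x i a))) := by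
    intro i x a
    set ca : ℝ := max (-(1 / 2)) (min (1 / 2) a) with hca
    have h1 : cl (update x i a) = update (cl x) i ca := by
      funext j
      rcases eq_or_ne j i with rfl | hj
      · simp [hcl, hca]
      · simp [hcl, update_of_ne hj]
    have h2 : P (cl x) = P (cl (update x i a)) + (cl x i - ca) • v i := by
      rw [h1]
      simp only [hPdef]
      have h3 : ∑ j, cl x j • v j - ∑ j, update (cl x) i ca j • v j = (cl x i - ca) • v i := by
        rw [← Finset.sum_sub_distrib, Finset.sum_eq_single i]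
        · rw [update_self, sub_smul]
        · intro j _ hj
          rw [update_of_ne hj, sub_self]
        · intro h; exact absurd (Finset.mem_univ i) h
      rw [add_assoc]
      congr 1
      rw [← h3]
      abel
    rw [h2]
    refine h i _ _ ?_
    have m1 := clamp_mem (x i)
    have m2 := clamp_mem a
    have e1 : cl x i = max (-(1 / 2)) (min (1 / 2) (x i)) := rfl
    rw [e1, abs_le]
    exact ⟨by linarith [m1.1, m2.2], by linarith [m1.2, m2.1]⟩
  have key := lw_pi (fun _ : Fin n => (volume : Measure ℝ).restrict (Icc (-(1 / 2)) (1 / 2)))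
    (fun i x => F i (P (cl x))) (fun i => (hF i).comp (hPm.comp hclm)) C hslow
  rw [Fintype.card_fin, ← hm] at key
  have e1 : ∫⁻ t in Q0 n, ∏ i, F i (P (cl t)) ^ (1 / ((n : ℝ) - 1)) =
      ∫⁻ t in Q0 n, ∏ i, F i (P t) ^ (1 / ((n : ℝ) - 1)) := by
    refine setLIntegral_congr_fun (measurableSet_Q0 n) fun t ht => ?_
    simp only [hcl' t ht]
  have e2 : ∀ i, ∫⁻ t in Q0 n, F i (P (cl t)) = ∫⁻ t in Q0 n, F i (P t) := by
    intro i
    refine setLIntegral_congr_fun (measurableSet_Q0 n) fun t ht => ?_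
    simp only [hcl' t ht]
  rw [e1] at key
  simp_rw [e2] at key
  exact key

end Pool.Agent.DEC
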