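import Pool.Agent.DEC.LW

/-!
The Loomis-Whitney inequality on balls, for functions on `R^n` which vary slowly in `n` transversal
directions.
-/

namespace Pool.Agent.DEC

open MeasureTheory Set Function Finset Metric
open scoped ENNReal Real Matrix

/-- Linear change of variables. -/
theorem lintegral_par {n : ℕ} (w : Fin n → EuclideanSpace ℝ (Fin n)) (y0 : EuclideanSpace ℝ (Fin n))
    (hD : (Matrix.of fun i j => w i j).det ≠ 0) (g : EuclideanSpace ℝ (Fin n) → ℝ≥0∞)
    (hg : Measurable g) :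
    ∫⁻ t : Fin n → ℝ, g (y0 + ∑ j, t j • w j) =
      ENNReal.ofReal |(Matrix.of fun i j => w i j).det|⁻¹ * ∫⁻ y, g y := by
  set M : Matrix (Fin n) (Fin n) ℝ := Matrix.of fun i j => w i j with hM
  have hdet : LinearMap.det (Matrix.toLin' Mᵀ) ≠ 0 := by
    rw [LinearMap.det_toLin', Matrix.det_transpose]; exact hD
  have h1 : ∀ t : Fin n → ℝ, ∑ j, t j • w j = WithLp.toLp 2 (Matrix.toLin' Mᵀ t) := by
    intro t
    ext i
    rw [Matrix.toLin'_apply]
    simp [Matrix.mulVec, dotProduct, hM, mul_comm]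
  have hcont : Continuous (Matrix.toLin' Mᵀ) := LinearMap.continuous_of_finiteDimensional _
  have hmL : Measurable fun z : Fin n → ℝ => g (y0 + WithLp.toLp 2 z) := by
    refine hg.comp ?_
    exact (continuous_const.add (PiLp.continuous_toLp 2 _)).measurable
  simp_rw [h1]
  have h2 := lintegral_map (μ := (volume : Measure (Fin n → ℝ))) hmL hcont.measurable
  rw [← h2, Real.map_linearMap_volume_pi_eq_smul_volume_pi hdet, lintegral_smul_measure,
    LinearMap.det_toLin', Matrix.det_transpose, smul_eq_mul, abs_inv]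
  congr 1
  have h3 := (PiLp.volume_preserving_toLp (Fin n)).lintegral_comp
    (f := fun y => g (y0 + y)) (hg.comp (measurable_const_add y0))
  rw [h3, lintegral_add_left_eq_self g y0]

/-- The parallelepiped contains a ball. -/
theorem par_ball {n : ℕ} (v : Fin n → EuclideanSpace ℝ (Fin n)) {A ν : ℝ} (hA : 1 ≤ A)
    (hν : 0 < ν) (hv : ∀ i, ‖v i‖ ≤ A) (hdet : ν ≤ |(Matrix.of fun i j => v i j).det|)
    (t : Fin n → ℝ) (j : Fin n) :
    |t j| ≤ n * (n.factorial * A ^ n) / ν * ‖∑ i, t i • v i‖ := by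
  set M : Matrix (Fin n) (Fin n) ℝ := Matrix.of fun i j => v i j with hM
  have hA0 : 0 ≤ A := by linarith
  have hent : ∀ i j, |v i j| ≤ A := fun i j => by
    have := PiLp.norm_apply_le (v i) j
    rw [Real.norm_eq_abs] at this
    exact this.trans (hv i)
  have hadj : ∀ i j, |M.adjugate i j| ≤ n.factorial * A ^ n := by
    intro i j
    rw [Matrix.adjugate_apply]
    have := Matrix.det_le (A := M.updateRow j (Pi.single i 1))
      (abv := (AbsoluteValue.abs : AbsoluteValue ℝ ℝ)) (x := A) ?_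
    · rw [Fintype.card_fin, nsmul_eq_mul] at this
      exact this
    · intro a b
      show |_| ≤ A
      rw [Matrix.updateRow_apply]
      split_ifs with h
      · rcases eq_or_ne b i with rfl | hb
        · simpa using hA
        · simp [Pi.single_eq_of_ne hb, hA0]
      · exact hent a b
  set z : EuclideanSpace ℝ (Fin n) := ∑ i, t i • v i with hz
  have hzM : ∀ k, z k = (t ᵥ* M) k := by
    intro k
    simp [hz, Matrix.vecMul, dotProduct, hM]
  have h1 : M.det * t j = ∑ k, z k * M.adjugate k j := by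
    have h2 : (t ᵥ* M) ᵥ* M.adjugate = M.det • t := by
      rw [Matrix.vecMul_vecMul, Matrix.mul_adjugate]
      simp [Matrix.vecMul_smul]
    have h3 := congrFun h2 j
    rw [Pi.smul_apply, smul_eq_mul] at h3
    rw [← h3]
    simp [Matrix.vecMul, dotProduct, hzM]
  have hzk : ∀ k, |z k| ≤ ‖z‖ := fun k => by
    have := PiLp.norm_apply_le z k
    rwa [Real.norm_eq_abs] at this
  have h4 : |M.det| * |t j| ≤ n * (n.factorial * A ^ n) * ‖z‖ := by
    rw [← abs_mul, h1]
    calc |∑ k, z k * M.adjugate k j| ≤ ∑ k, |z k * M.adjugate k j| := Finset.abs_sum_le_sum_abs _ _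
      _ ≤ ∑ _k : Fin n, ‖z‖ * (n.factorial * A ^ n) := by
          refine Finset.sum_le_sum fun k _ => ?_
          rw [abs_mul]
          exact mul_le_mul (hzk k) (hadj k j) (abs_nonneg _) (norm_nonneg _)
      _ = n * (n.factorial * A ^ n) * ‖z‖ := by
          rw [Finset.sum_const, Finset.card_univ, Fintype.card_fin, nsmul_eq_mul]; ring
  rw [div_mul_eq_mul_div, le_div_iff₀ hν]
  calc |t j| * ν ≤ |t j| * |M.det| := mul_le_mul_of_nonneg_left hdet (abs_nonneg _)
    _ = |M.det| * |t j| := mul_comm _ _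
    _ ≤ _ := h4

/-- Loomis-Whitney on balls: functions which vary slowly in the directions `v_i` up to the length
`L`; all integrals are divided by `L^n`. -/
theorem lw_ball (n : ℕ) (hn : 1 ≤ n) (A ν : ℝ) (hA : 1 ≤ A) (hν : 0 < ν) : ∃ c C1 : ℝ, 0 < c ∧
    0 < C1 ∧ ∀ (v : Fin n → EuclideanSpace ℝ (Fin n)), (∀ i, ‖v i‖ ≤ A) →
      ν ≤ |(Matrix.of fun i j => v i j).det| → ∀ L : ℝ, 0 < L →
      ∀ F : Fin n → EuclideanSpace ℝ (Fin n) → ℝ≥0∞, (∀ i, Measurable (F i)) → ∀ C : ℝ≥0∞,
      (∀ i y s, |s| ≤ L → F i (y + s • v i) ≤ C * F i y) → ∀ y0,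
      (ENNReal.ofReal (L ^ n))⁻¹ *
          ∫⁻ y in closedBall y0 (c * L), ∏ i, F i y ^ (1 / ((n : ℝ) - 1)) ≤
        ENNReal.ofReal C1 * C ^ ((n : ℝ) / ((n : ℝ) - 1)) *
          ∏ i, ((ENNReal.ofReal (L ^ n))⁻¹ *
            ∫⁻ y in closedBall y0 (n * A * L), F i y) ^ (1 / ((n : ℝ) - 1)) := by
  have hA0 : 0 < A := by linarith
  have hn0 : (0 : ℝ) < n := by exact_mod_cast hn
  have hn1 : (1 : ℝ) ≤ n := by exact_mod_cast hn
  have hp : 0 ≤ 1 / ((n : ℝ) - 1) := by
    apply div_nonneg zero_le_one; linarith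
  set B : ℝ := n.factorial * A ^ n with hB
  have hB0 : 0 < B := by positivity
  set c : ℝ := ν / (2 * (n * B)) with hc
  have hc0 : 0 < c := by positivity
  set C1 : ℝ := B * (ν⁻¹) ^ ((n : ℝ) / ((n : ℝ) - 1)) with hC1
  have hC10 : 0 < C1 := by positivity
  refine ⟨c, C1, hc0, hC10, fun v hv hdet L hL F hF C hslow y0 => ?_⟩
  set Dv : ℝ := (Matrix.of fun i j => v i j).det with hDv
  set w : Fin n → EuclideanSpace ℝ (Fin n) := fun i => L • v i with hw
  have hMw : (Matrix.of fun i j => w i j) = L • (Matrix.of fun i j => v i j) := by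
    ext i j
    simp [hw]
  have hDw : (Matrix.of fun i j => w i j).det = L ^ n * Dv := by
    rw [hMw, Matrix.det_smul, Fintype.card_fin]
  have hDv0 : 0 < |Dv| := lt_of_lt_of_le hν hdet
  have hLn : 0 < L ^ n := by positivity
  have hDw0 : (Matrix.of fun i j => w i j).det ≠ 0 := by
    rw [hDw]
    exact mul_ne_zero hLn.ne' (abs_pos.1 hDv0)
  have habs : |(Matrix.of fun i j => w i j).det| = L ^ n * |Dv| := by
    rw [hDw, abs_mul, abs_of_pos hLn]
  have hDB : |Dv| ≤ B := by
    have := Matrix.det_le (A := Matrix.of fun i j => v i j)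
      (abv := (AbsoluteValue.abs : AbsoluteValue ℝ ℝ)) (x := A) fun i j => by
        show |v i j| ≤ A
        have := PiLp.norm_apply_le (v i) j
        rw [Real.norm_eq_abs] at this
        exact this.trans (hv i)
    rw [Fintype.card_fin, nsmul_eq_mul] at this
    exact this
  set P : (Fin n → ℝ) → EuclideanSpace ℝ (Fin n) := fun t => y0 + ∑ j, t j • w j with hP
  have hPc : Continuous P := by
    simp only [hP]
    fun_prop
  have hPm : Measurable P := hPc.measurable
  have hsum : ∀ t : Fin n → ℝ, ∑ j, t j • w j = L • ∑ j, t j • v j := by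
    intro t
    rw [Finset.smul_sum]
    refine Finset.sum_congr rfl fun j _ => ?_
    simp only [hw]
    rw [smul_comm]
  -- the cube and the balls
  have hin : ∀ t, P t ∈ closedBall y0 (c * L) → t ∈ Q0 n := by
    intro t ht j _
    rw [mem_closedBall, dist_eq_norm] at ht
    have h1 : P t - y0 = L • ∑ j, t j • v j := by
      simp only [hP]; rw [hsum]; abel
    rw [h1, norm_smul, Real.norm_eq_abs, abs_of_pos hL] at ht
    have h2 : ‖∑ j, t j • v j‖ ≤ c := by
      by_contra h0
      push Not at h0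
      have := mul_lt_mul_of_pos_left h0 hL
      linarith [mul_comm c L]
    have h3 := par_ball v hA hν hv hdet t j
    have h4 : n * (n.factorial * A ^ n) / ν * ‖∑ j, t j • v j‖ ≤ 1 / 2 := by
      calc n * (n.factorial * A ^ n) / ν * ‖∑ j, t j • v j‖
          ≤ n * (n.factorial * A ^ n) / ν * c := mul_le_mul_of_nonneg_left h2 (by positivity)
        _ = 1 / 2 := by rw [hc, hB]; field_simp
    have h5 := h3.trans h4
    rw [abs_le] at h5
    exact ⟨h5.1, h5.2⟩
  have hout : ∀ t ∈ Q0 n, P t ∈ closedBall y0 (n * A * L) := by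
    intro t ht
    rw [mem_closedBall, dist_eq_norm]
    have h1 : P t - y0 = L • ∑ j, t j • v j := by
      simp only [hP]; rw [hsum]; abel
    rw [h1, norm_smul, Real.norm_eq_abs, abs_of_pos hL]
    have h2 : ‖∑ j, t j • v j‖ ≤ n * A := by
      calc ‖∑ j, t j • v j‖ ≤ ∑ j, ‖t j • v j‖ := norm_sum_le _ _
        _ ≤ ∑ _j : Fin n, A := by
            refine Finset.sum_le_sum fun j _ => ?_
            have h3 := ht j (mem_univ j)
            have h4 : |t j| ≤ 1 := abs_le.2 ⟨by linarith [h3.1], by linarith [h3.2]⟩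
            rw [norm_smul, Real.norm_eq_abs]
            calc |t j| * ‖v j‖ ≤ 1 * A := mul_le_mul h4 (hv j) (norm_nonneg _) zero_le_one
              _ = A := one_mul A
        _ = n * A := by rw [Finset.sum_const, Finset.card_univ, Fintype.card_fin, nsmul_eq_mul]
    calc L * ‖∑ j, t j • v j‖ ≤ L * (n * A) := mul_le_mul_of_nonneg_left h2 hL.le
      _ = n * A * L := by ring
  have hcube := lw_cube hn w y0 hPm F hF C fun i y s hs => by
    have : s • w i = (s * L) • v i := by simp only [hw]; rw [smul_smul]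
    rw [this]
    refine hslow i y _ ?_
    rw [abs_mul, abs_of_pos hL]
    nlinarith [abs_nonneg s]
  -- abbreviations
  set q : ℝ := 1 / ((n : ℝ) - 1) with hq
  have hqn : (n : ℝ) / ((n : ℝ) - 1) = n * q := by rw [hq]; ring
  have hprodm : Measurable fun y => ∏ i, F i y ^ q :=
    Finset.measurable_prod _ fun i _ => (hF i).pow_const _
  have hI1 : ∫⁻ y in closedBall y0 (c * L), ∏ i, F i y ^ q ≤
      ENNReal.ofReal (L ^ n * |Dv|) * ∫⁻ t in Q0 n, ∏ i, F i (P t) ^ q := by
    have e1 := lintegral_par w y0 hDw0 ((closedBall y0 (c * L)).indicator fun y => ∏ i, F i y ^ q)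
      (hprodm.indicator measurableSet_closedBall)
    rw [lintegral_indicator measurableSet_closedBall, habs] at e1
    have e2 : ENNReal.ofReal (L ^ n * |Dv|) * ENNReal.ofReal (L ^ n * |Dv|)⁻¹ = 1 := by
      rw [← ENNReal.ofReal_mul (by positivity), mul_inv_cancel₀ (by positivity),
        ENNReal.ofReal_one]
    have e3 : ∫⁻ y in closedBall y0 (c * L), ∏ i, F i y ^ q = ENNReal.ofReal (L ^ n * |Dv|) *
        ∫⁻ t : Fin n → ℝ, ((closedBall y0 (c * L)).indicator fun y => ∏ i, F i y ^ q)
          (y0 + ∑ j, t j • w j) := by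
      rw [e1, ← mul_assoc, e2, one_mul]
    rw [e3, ← lintegral_indicator (measurableSet_Q0 n)]
    gcongr with t
    by_cases ht : P t ∈ closedBall y0 (c * L)
    · rw [indicator_of_mem ht, indicator_of_mem (hin t ht)]
    · rw [indicator_of_notMem ht]
      exact zero_le
  have hI2 : ∀ i, ∫⁻ t in Q0 n, F i (P t) ≤
      ENNReal.ofReal (L ^ n * |Dv|)⁻¹ * ∫⁻ y in closedBall y0 (n * A * L), F i y := by
    intro i
    have e1 := lintegral_par w y0 hDw0 ((closedBall y0 (n * A * L)).indicator fun y => F i y)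
      ((hF i).indicator measurableSet_closedBall)
    rw [lintegral_indicator measurableSet_closedBall, habs] at e1
    rw [← e1, ← lintegral_indicator (measurableSet_Q0 n)]
    refine lintegral_mono fun t => ?_
    by_cases ht : t ∈ Q0 n
    · rw [indicator_of_mem ht, indicator_of_mem (hout t ht)]
    · rw [indicator_of_notMem ht]
      exact zero_le
  have hLn' : ENNReal.ofReal (L ^ n) ≠ 0 := by
    rw [Ne, ENNReal.ofReal_eq_zero, not_le]; exact hLn
  have hLnt : ENNReal.ofReal (L ^ n) ≠ ⊤ := ENNReal.ofReal_ne_top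
  calc (ENNReal.ofReal (L ^ n))⁻¹ * ∫⁻ y in closedBall y0 (c * L), ∏ i, F i y ^ q
      ≤ (ENNReal.ofReal (L ^ n))⁻¹ * (ENNReal.ofReal (L ^ n * |Dv|) *
          (C ^ ((n : ℝ) / ((n : ℝ) - 1)) * ∏ i, (∫⁻ t in Q0 n, F i (P t)) ^ q)) := by
        gcongr
        exact hI1.trans (by gcongr)
    _ = ENNReal.ofReal |Dv| *
          (C ^ ((n : ℝ) / ((n : ℝ) - 1)) * ∏ i, (∫⁻ t in Q0 n, F i (P t)) ^ q) := by
        rw [ENNReal.ofReal_mul hLn.le, ← mul_assoc, ← mul_assoc (ENNReal.ofReal (L ^ n))⁻¹,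
          ENNReal.inv_mul_cancel hLn' hLnt, one_mul]
    _ ≤ ENNReal.ofReal B * (C ^ ((n : ℝ) / ((n : ℝ) - 1)) *
          ∏ i, (ENNReal.ofReal ν⁻¹ * ((ENNReal.ofReal (L ^ n))⁻¹ *
            ∫⁻ y in closedBall y0 (n * A * L), F i y)) ^ q) := by
        gcongr with i _
        refine (hI2 i).trans ?_
        rw [← mul_assoc]
        gcongr
        rw [← ENNReal.ofReal_inv_of_pos hLn, ← ENNReal.ofReal_mul (by positivity)]
        refine ENNReal.ofReal_le_ofReal ?_
        rw [mul_inv, mul_comm]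
        exact mul_le_mul_of_nonneg_right (inv_anti₀ hν hdet) (by positivity)
    _ = _ := by
        have e4 : ∏ i : Fin n, (ENNReal.ofReal ν⁻¹ * ((ENNReal.ofReal (L ^ n))⁻¹ *
            ∫⁻ y in closedBall y0 (n * A * L), F i y)) ^ q =
            ENNReal.ofReal (ν⁻¹ ^ ((n : ℝ) / ((n : ℝ) - 1))) *
              ∏ i, ((ENNReal.ofReal (L ^ n))⁻¹ *
                ∫⁻ y in closedBall y0 (n * A * L), F i y) ^ q := by
          simp_rw [ENNReal.mul_rpow_of_nonneg _ _ hp]
          rw [Finset.prod_mul_distrib]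
          congr 1
          rw [Finset.prod_const, Finset.card_univ, Fintype.card_fin, ← ENNReal.rpow_natCast,
            ← ENNReal.rpow_mul, ENNReal.ofReal_rpow_of_nonneg (by positivity) (by positivity)]
          congr 2
          rw [hqn]; ring
        rw [e4, hC1, ENNReal.ofReal_mul hB0.le]
        ring

end Pool.Agent.DEC
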