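import Pool.Agent.DEC.LWB

/-!
The multilinear estimate, in an abstract form: `n` families of energies on `R^n`, each of which varies slowly
in one of `n` transversal directions.
-/

set_option autoImplicit false

namespace Pool.Agent.DEC

open MeasureTheory Set Metric
open scoped ENNReal Real

/-- One step. -/
theorem mr_step (n : ℕ) (hn : 2 ≤ n) (A ν C : ℝ) (hA : 1 ≤ A) (hν : 0 < ν) (hC : 0 < C) :
    ∃ c K : ℝ, 0 < c ∧ 0 < K ∧ ∀ v : Fin n → EuclideanSpace ℝ (Fin n), (∀ i, ‖v i‖ ≤ A) →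
      ν ≤ |(Matrix.of fun i j => v i j).det| → ∀ L : ℝ, 0 < L →
      ∀ F G : Fin n → EuclideanSpace ℝ (Fin n) → ℝ≥0∞, (∀ i, Measurable (F i)) →
      (∀ i y s, |s| ≤ L → F i (y + s • v i) ≤ ENNReal.ofReal C * F i y) →
      (∀ i y, ∫⁻ z in closedBall y (n * A * L), F i z ≤ ENNReal.ofReal (C * L ^ n) * G i y) →
      ∀ y0, ∫⁻ y in closedBall y0 (c * L), ∏ i, F i y ^ (1 / ((n : ℝ) - 1)) ≤
        ENNReal.ofReal (K * L ^ n) * ∏ i, G i y0 ^ (1 / ((n : ℝ) - 1)) := by
  obtain ⟨c, C1, hc, hC1, h⟩ := lw_ball n (by omega) A ν hA hν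
  have hn2 : (2 : ℝ) ≤ n := by exact_mod_cast hn
  have hq : 0 < 1 / ((n : ℝ) - 1) := by
    have : 0 < (n : ℝ) - 1 := by linarith
    positivity
  set q : ℝ := 1 / ((n : ℝ) - 1) with hqdef
  refine ⟨c, C1 * C ^ ((n : ℝ) / ((n : ℝ) - 1)) * (C ^ q) ^ n, hc, by positivity,
    fun v hv hdet L hL F G hF hslow havg y0 => ?_⟩
  have hLn : 0 < L ^ n := by positivity
  have hL0 : ENNReal.ofReal (L ^ n) ≠ 0 := by simpa using hLn
  have hL1 : ENNReal.ofReal (L ^ n) ≠ ⊤ := ENNReal.ofReal_ne_top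
  have h1 := h v hv hdet L hL F hF (ENNReal.ofReal C) hslow y0
  have h2 : ∏ i, ((ENNReal.ofReal (L ^ n))⁻¹ *
      ∫⁻ y in closedBall y0 (n * A * L), F i y) ^ q ≤
      ENNReal.ofReal ((C ^ q) ^ n) * ∏ i, G i y0 ^ q := by
    calc ∏ i, ((ENNReal.ofReal (L ^ n))⁻¹ * ∫⁻ y in closedBall y0 (n * A * L), F i y) ^ q
        ≤ ∏ i : Fin n, (ENNReal.ofReal (C ^ q) * G i y0 ^ q) := by
          refine Finset.prod_le_prod' fun i _ => ?_
          have h3 : (ENNReal.ofReal (L ^ n))⁻¹ * ∫⁻ y in closedBall y0 (n * A * L), F i y ≤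
              ENNReal.ofReal C * G i y0 := by
            calc (ENNReal.ofReal (L ^ n))⁻¹ * ∫⁻ y in closedBall y0 (n * A * L), F i y
                ≤ (ENNReal.ofReal (L ^ n))⁻¹ * (ENNReal.ofReal (C * L ^ n) * G i y0) :=
                  mul_le_mul_right (havg i y0) _
              _ = ENNReal.ofReal C * G i y0 := by
                  rw [ENNReal.ofReal_mul hC.le, mul_comm (ENNReal.ofReal C), mul_assoc,
                    ← mul_assoc, ENNReal.inv_mul_cancel hL0 hL1, one_mul]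
          calc ((ENNReal.ofReal (L ^ n))⁻¹ * ∫⁻ y in closedBall y0 (n * A * L), F i y) ^ q
              ≤ (ENNReal.ofReal C * G i y0) ^ q := ENNReal.rpow_le_rpow h3 hq.le
            _ = _ := by
                rw [ENNReal.mul_rpow_of_nonneg _ _ hq.le, ENNReal.ofReal_rpow_of_pos hC]
      _ = _ := by
          rw [Finset.prod_mul_distrib, Finset.prod_const, Finset.card_univ, Fintype.card_fin,
            ← ENNReal.ofReal_pow (by positivity)]
  have h3 : ∫⁻ y in closedBall y0 (c * L), ∏ i, F i y ^ q =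
      ENNReal.ofReal (L ^ n) * ((ENNReal.ofReal (L ^ n))⁻¹ *
        ∫⁻ y in closedBall y0 (c * L), ∏ i, F i y ^ q) := by
    rw [← mul_assoc, ENNReal.mul_inv_cancel hL0 hL1, one_mul]
  rw [h3]
  calc ENNReal.ofReal (L ^ n) * ((ENNReal.ofReal (L ^ n))⁻¹ *
        ∫⁻ y in closedBall y0 (c * L), ∏ i, F i y ^ q)
      ≤ ENNReal.ofReal (L ^ n) * (ENNReal.ofReal C1 * ENNReal.ofReal C ^ ((n : ℝ) / ((n : ℝ) - 1)) *
        (ENNReal.ofReal ((C ^ q) ^ n) * ∏ i, G i y0 ^ q)) := by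
        exact mul_le_mul_right (h1.trans (mul_le_mul_right h2 _)) _
    _ = _ := by
        rw [ENNReal.ofReal_rpow_of_pos hC, ← mul_assoc, ← mul_assoc,
          ← ENNReal.ofReal_mul hC1.le, ← ENNReal.ofReal_mul (by positivity),
          ← ENNReal.ofReal_mul (by positivity)]
        congr 2
        ring

/-- A function is bounded by its averages. -/
theorem avg_le {n : ℕ} (Φ : EuclideanSpace ℝ (Fin n) → ℝ≥0∞) (hΦ : Measurable Φ) (a ρ : ℝ)
    (y0 : EuclideanSpace ℝ (Fin n)) :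
    volume (closedBall (0 : EuclideanSpace ℝ (Fin n)) a) * ∫⁻ z in closedBall y0 ρ, Φ z ≤
      ∫⁻ y in closedBall y0 (ρ + a), ∫⁻ z in closedBall y a, Φ z := by
  have hS : MeasurableSet {w : EuclideanSpace ℝ (Fin n) × EuclideanSpace ℝ (Fin n) |
      w.1 ∈ closedBall y0 (ρ + a) ∧ w.2 ∈ closedBall w.1 a} := by
    refine MeasurableSet.inter (measurableSet_closedBall.preimage measurable_fst) ?_
    exact (isClosed_le (by fun_prop) continuous_const).measurableSet
  have e1 : ∫⁻ y in closedBall y0 (ρ + a), ∫⁻ z in closedBall y a, Φ z =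
      ∫⁻ y, ∫⁻ z, {w : EuclideanSpace ℝ (Fin n) × EuclideanSpace ℝ (Fin n) |
        w.1 ∈ closedBall y0 (ρ + a) ∧ w.2 ∈ closedBall w.1 a}.indicator (fun w => Φ w.2) (y, z) := by
    rw [← lintegral_indicator measurableSet_closedBall]
    refine lintegral_congr fun y => ?_
    by_cases hy : y ∈ closedBall y0 (ρ + a)
    · rw [indicator_of_mem hy, ← lintegral_indicator measurableSet_closedBall]
      refine lintegral_congr fun z => ?_
      by_cases hz : z ∈ closedBall y a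
      · rw [indicator_of_mem hz, indicator_of_mem (show (y, z) ∈ {w :
          EuclideanSpace ℝ (Fin n) × EuclideanSpace ℝ (Fin n) |
          w.1 ∈ closedBall y0 (ρ + a) ∧ w.2 ∈ closedBall w.1 a} from ⟨hy, hz⟩)]
      · rw [indicator_of_notMem hz, indicator_of_notMem (fun h => hz h.2)]
    · rw [indicator_of_notMem hy]
      symm
      rw [lintegral_eq_zero_of_ae_eq_zero]
      filter_upwards with z
      rw [indicator_of_notMem (fun h => hy h.1)]
      rfl
  rw [e1, lintegral_lintegral_swap]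
  · rw [← lintegral_indicator measurableSet_closedBall, ← lintegral_const_mul _
      (hΦ.indicator measurableSet_closedBall)]
    refine lintegral_mono fun z => ?_
    by_cases hz : z ∈ closedBall y0 ρ
    · rw [indicator_of_mem hz]
      have h1 : ∀ y, (closedBall z a).indicator (fun _ => Φ z) y ≤ {w :
          EuclideanSpace ℝ (Fin n) × EuclideanSpace ℝ (Fin n) |
          w.1 ∈ closedBall y0 (ρ + a) ∧ w.2 ∈ closedBall w.1 a}.indicator (fun w => Φ w.2) (y, z) := by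
        intro y
        by_cases hy : y ∈ closedBall z a
        · rw [indicator_of_mem hy, indicator_of_mem]
          refine ⟨?_, ?_⟩
          · rw [mem_closedBall] at hy hz ⊢
            have := dist_triangle y z y0
            simp only
            linarith
          · rw [mem_closedBall] at hy ⊢
            simp only
            rw [dist_comm]
            exact hy
        · rw [indicator_of_notMem hy]
          exact bot_le
      refine le_trans (le_of_eq ?_) (lintegral_mono h1)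
      rw [lintegral_indicator measurableSet_closedBall, setLIntegral_const, mul_comm]
      congr 1
      rw [Measure.addHaar_closedBall_center volume z a]
    · rw [indicator_of_notMem hz, mul_zero]
      exact bot_le
  · exact ((hΦ.comp measurable_snd).indicator hS).aemeasurable

/-- **The multilinear estimate** over all scales. The energies `e i r` vary slowly along `v i` on the
length `r / δ`, and their averages on the balls of radius `n A r / δ` are controlled by the energy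
`e i (r / δ)`. The constant `K` does not depend on `δ`. -/
theorem mr_abs (n : ℕ) (hn : 2 ≤ n) (A ν C : ℝ) (hA : 1 ≤ A) (hν : 0 < ν) (hC : 0 < C) :
    ∃ c K : ℝ, 0 < c ∧ 1 ≤ K ∧ ∀ δ : ℝ, 0 < δ → δ ≤ 1 / 3 →
      ∀ v : Fin n → EuclideanSpace ℝ (Fin n), (∀ i, ‖v i‖ ≤ A) →
      ν ≤ |(Matrix.of fun i j => v i j).det| →
      ∀ (m : ℕ) (e : Fin n → ℝ → EuclideanSpace ℝ (Fin n) → ℝ≥0∞), (∀ i r, Measurable (e i r)) →
      (∀ i r, 1 ≤ δ * r → r / δ ≤ δ⁻¹ ^ (m + 2) → ∀ y s, |s| ≤ r / δ →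
        e i r (y + s • v i) ≤ ENNReal.ofReal C * e i r y) →
      (∀ i r, 1 ≤ δ * r → r / δ ≤ δ⁻¹ ^ (m + 2) → ∀ y,
        ∫⁻ z in closedBall y (n * A * (r / δ)), e i r z ≤
          ENNReal.ofReal (C * (r / δ) ^ n) * e i (r / δ) y) →
      ∀ y0 : EuclideanSpace ℝ (Fin n),
        ∫⁻ y in closedBall y0 (c * δ⁻¹ ^ (m + 2)), ∏ i, e i δ⁻¹ y ^ (1 / ((n : ℝ) - 1)) ≤
          ENNReal.ofReal (K ^ (m + 1) * (δ⁻¹ ^ (m + 2)) ^ n) *
            ∏ i, e i (δ⁻¹ ^ (m + 2)) y0 ^ (1 / ((n : ℝ) - 1)) := by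
  obtain ⟨c, K, hc, hK, h⟩ := mr_step n hn A ν C hA hν hC
  have hn2 : (2 : ℝ) ≤ n := by exact_mod_cast hn
  have : Nonempty (Fin n) := ⟨⟨0, by omega⟩⟩
  set V : ℝ := (volume (closedBall (0 : EuclideanSpace ℝ (Fin n)) 1)).toReal with hV
  have hV0 : 0 < V := ENNReal.toReal_pos (Metric.measure_closedBall_pos _ _ one_pos).ne'
    measure_closedBall_lt_top.ne
  have hVe : volume (closedBall (0 : EuclideanSpace ℝ (Fin n)) 1) = ENNReal.ofReal V :=
    (ENNReal.ofReal_toReal measure_closedBall_lt_top.ne).symm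
  set K1 : ℝ := max 1 (max K (K / (V * c ^ n))) with hK1
  have hK11 : 1 ≤ K1 := le_max_left _ _
  have hKK1 : K ≤ K1 := (le_max_left _ _).trans (le_max_right _ _)
  have hKK2 : K / (V * c ^ n) ≤ K1 := (le_max_right _ _).trans (le_max_right _ _)
  refine ⟨c / 2, K1, by positivity, hK11, fun δ hδ hδ3 v hv hdet m0 e hem hslow havg => ?_⟩
  set P : ℕ → EuclideanSpace ℝ (Fin n) → ℝ≥0∞ := fun k y =>
    ∏ i, e i (δ⁻¹ ^ (k + 1)) y ^ (1 / ((n : ℝ) - 1)) with hP
  have hPm : ∀ k, Measurable (P k) := fun k =>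
    Finset.measurable_prod _ fun i _ => (hem i _).pow_const _
  have hδ1 : 1 ≤ δ⁻¹ := by
    rw [one_le_inv₀ hδ]
    linarith
  have hr : ∀ k : ℕ, 1 ≤ δ * δ⁻¹ ^ (k + 1) := fun k => by
    rw [pow_succ', ← mul_assoc, mul_inv_cancel₀ hδ.ne', one_mul]
    exact one_le_pow₀ hδ1
  have hrd : ∀ k : ℕ, δ⁻¹ ^ (k + 1) / δ = δ⁻¹ ^ (k + 2) := fun k => by
    rw [div_eq_mul_inv, ← pow_succ]
  have hr0 : ∀ k : ℕ, 0 < δ⁻¹ ^ k := fun k => by positivity
  have hrm : ∀ k : ℕ, k ≤ m0 → δ⁻¹ ^ (k + 1) / δ ≤ δ⁻¹ ^ (m0 + 2) := fun k hk => by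
    rw [hrd]
    exact pow_le_pow_right₀ hδ1 (by omega)
  -- one step on one ball
  have hstep : ∀ k, k ≤ m0 → ∀ y, ∫⁻ z in closedBall y (c * δ⁻¹ ^ (k + 2)), P k z ≤
      ENNReal.ofReal (K * (δ⁻¹ ^ (k + 2)) ^ n) * P (k + 1) y := by
    intro k hk y
    have h1 := h v hv hdet (δ⁻¹ ^ (k + 2)) (hr0 _) (fun i => e i (δ⁻¹ ^ (k + 1)))
      (fun i => e i (δ⁻¹ ^ (k + 2))) (fun i => hem i _)
      (fun i y s hs => hslow i _ (hr k) (hrm k hk) y s (by rw [hrd]; exact hs))
      (fun i y => by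
        have := havg i _ (hr k) (hrm k hk) y
        rw [hrd] at this
        exact this) y
    exact h1
  -- one step
  have hone : ∀ k, k ≤ m0 → ∀ ρ y, ∫⁻ z in closedBall y ρ, P k z ≤
      ENNReal.ofReal K1 * ∫⁻ z in closedBall y (ρ + c * δ⁻¹ ^ (k + 2)), P (k + 1) z := by
    intro k hk ρ y
    set a : ℝ := c * δ⁻¹ ^ (k + 2) with ha
    have ha0 : 0 < a := mul_pos hc (hr0 _)
    have hvol : volume (closedBall (0 : EuclideanSpace ℝ (Fin n)) a) =
        ENNReal.ofReal (V * a ^ n) := by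
      rw [Measure.addHaar_closedBall' volume _ ha0.le, hVe, ← ENNReal.ofReal_mul (by positivity),
        mul_comm]
      simp
    have h1 := avg_le (P k) (hPm k) a ρ y
    rw [hvol] at h1
    have h2 : ∫⁻ y in closedBall y (ρ + a), ∫⁻ z in closedBall y a, P k z ≤
        ENNReal.ofReal (K * (δ⁻¹ ^ (k + 2)) ^ n) * ∫⁻ y in closedBall y (ρ + a), P (k + 1) y := by
      rw [← lintegral_const_mul _ (hPm _)]
      exact lintegral_mono fun y => hstep k hk y
    have h3 : 0 < V * a ^ n := by positivity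
    have h4 := h1.trans h2
    have h5 : ∫⁻ z in closedBall y ρ, P k z = (ENNReal.ofReal (V * a ^ n))⁻¹ *
        (ENNReal.ofReal (V * a ^ n) * ∫⁻ z in closedBall y ρ, P k z) := by
      rw [← mul_assoc, ENNReal.inv_mul_cancel (by simpa using h3) ENNReal.ofReal_ne_top, one_mul]
    rw [h5]
    calc (ENNReal.ofReal (V * a ^ n))⁻¹ *
        (ENNReal.ofReal (V * a ^ n) * ∫⁻ z in closedBall y ρ, P k z)
        ≤ (ENNReal.ofReal (V * a ^ n))⁻¹ * (ENNReal.ofReal (K * (δ⁻¹ ^ (k + 2)) ^ n) *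
          ∫⁻ y in closedBall y (ρ + a), P (k + 1) y) := by gcongr
      _ = ENNReal.ofReal (K / (V * c ^ n)) * ∫⁻ y in closedBall y (ρ + a), P (k + 1) y := by
          rw [← ENNReal.ofReal_inv_of_pos h3, ← mul_assoc, ← ENNReal.ofReal_mul (by positivity)]
          congr 2
          rw [ha, mul_pow]
          have := hr0 (k + 2)
          field_simp
      _ ≤ _ := by gcongr
  -- all the steps
  have hall : ∀ m : ℕ, m ≤ m0 → ∀ (ρ : ℝ) (y : EuclideanSpace ℝ (Fin n)),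
      ∫⁻ z in closedBall y ρ, P 0 z ≤ ENNReal.ofReal (K1 ^ m) *
        ∫⁻ z in closedBall y (ρ + c * (δ⁻¹ ^ (m + 2) / 2)), P m z := by
    intro m
    induction m with
    | zero =>
      intro _ ρ y
      rw [pow_zero, ENNReal.ofReal_one, one_mul]
      refine lintegral_mono_set (closedBall_subset_closedBall ?_)
      have : 0 ≤ c * (δ⁻¹ ^ (0 + 2) / 2) := by positivity
      linarith
    | succ m ih =>
      intro hm ρ y
      refine (ih (by omega) ρ y).trans ?_
      have h1 := hone m (by omega) (ρ + c * (δ⁻¹ ^ (m + 2) / 2)) y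
      have h5 : ∫⁻ z in closedBall y (ρ + c * (δ⁻¹ ^ (m + 2) / 2) + c * δ⁻¹ ^ (m + 2)), P (m + 1) z ≤
          ∫⁻ z in closedBall y (ρ + c * (δ⁻¹ ^ (m + 1 + 2) / 2)), P (m + 1) z := by
        refine lintegral_mono_set (closedBall_subset_closedBall ?_)
        have h2 : δ⁻¹ ^ (m + 1 + 2) = δ⁻¹ * δ⁻¹ ^ (m + 2) := by ring
        have h3 : 3 ≤ δ⁻¹ := by
          rw [le_inv_comm₀ (by norm_num) hδ]
          linarith
        have h4 : 3 * δ⁻¹ ^ (m + 2) ≤ δ⁻¹ ^ (m + 1 + 2) := by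
          rw [h2]
          exact mul_le_mul_of_nonneg_right h3 (hr0 _).le
        nlinarith
      calc ENNReal.ofReal (K1 ^ m) * ∫⁻ z in closedBall y (ρ + c * (δ⁻¹ ^ (m + 2) / 2)), P m z
          ≤ ENNReal.ofReal (K1 ^ m) * (ENNReal.ofReal K1 * ∫⁻ z in closedBall y
            (ρ + c * (δ⁻¹ ^ (m + 2) / 2) + c * δ⁻¹ ^ (m + 2)), P (m + 1) z) :=
            mul_le_mul_right h1 _
        _ ≤ ENNReal.ofReal (K1 ^ m) * (ENNReal.ofReal K1 * ∫⁻ z in closedBall y
            (ρ + c * (δ⁻¹ ^ (m + 1 + 2) / 2)), P (m + 1) z) :=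
            mul_le_mul_right (mul_le_mul_right h5 _) _
        _ = _ := by
            rw [← mul_assoc, ← ENNReal.ofReal_mul (by positivity), ← pow_succ]
  intro y0
  set m : ℕ := m0 with hm
  have h1 := hall m le_rfl (c / 2 * δ⁻¹ ^ (m + 2)) y0
  have h2 : c / 2 * δ⁻¹ ^ (m + 2) + c * (δ⁻¹ ^ (m + 2) / 2) = c * δ⁻¹ ^ (m + 2) := by ring
  rw [h2] at h1
  have h3 : P 0 = fun y => ∏ i, e i δ⁻¹ y ^ (1 / ((n : ℝ) - 1)) := by
    rw [hP]
    simp
  rw [h3] at h1
  refine h1.trans ?_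
  calc ENNReal.ofReal (K1 ^ m) * ∫⁻ z in closedBall y0 (c * δ⁻¹ ^ (m + 2)), P m z
      ≤ ENNReal.ofReal (K1 ^ m) * (ENNReal.ofReal (K * (δ⁻¹ ^ (m + 2)) ^ n) * P (m + 1) y0) := by
        exact mul_le_mul_right (hstep m le_rfl y0) _
    _ ≤ ENNReal.ofReal (K1 ^ m) * (ENNReal.ofReal (K1 * (δ⁻¹ ^ (m + 2)) ^ n) * P (m + 1) y0) := by
        gcongr
    _ = ENNReal.ofReal (K1 ^ (m + 1) * (δ⁻¹ ^ (m + 2)) ^ n) * P (m + 1) y0 := by
        rw [← mul_assoc, ← ENNReal.ofReal_mul (by positivity), ← mul_assoc, ← pow_succ]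

end Pool.Agent.DEC
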