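import Mathlib.MeasureTheory.Integral.MeanInequalities
import Mathlib.MeasureTheory.Function.LpSeminorm.Basic

/-!
Minkowski's inequality for finite sums, in the form used in the decoupling recursion.
-/

namespace Pool.Agent.DEC

open MeasureTheory Set
open scoped ENNReal Real

/-- Minkowski for finite sums of nonnegative functions. -/
theorem mink_b1 {Y : Type*} [MeasurableSpace Y] (μ : Measure Y) {ι : Type*} (s : Finset ι)
    (a : ι → Y → ℝ≥0∞) (ha : ∀ i ∈ s, AEMeasurable (a i) μ) {q : ℝ} (hq : 1 ≤ q) :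
    (∫⁻ y, (∑ i ∈ s, a i y) ^ q ∂μ) ^ (1 / q) ≤ ∑ i ∈ s, (∫⁻ y, a i y ^ q ∂μ) ^ (1 / q) := by
  classical
  have hq0 : 0 < q := by linarith
  induction s using Finset.induction_on with
  | empty =>
    simp only [Finset.sum_empty]
    rw [ENNReal.zero_rpow_of_pos hq0, lintegral_zero, ENNReal.zero_rpow_of_pos (by positivity)]
  | insert j s hj ih =>
    have h1 : AEMeasurable (a j) μ := ha j (Finset.mem_insert_self _ _)
    have h2 : ∀ i ∈ s, AEMeasurable (a i) μ := fun i hi => ha i (Finset.mem_insert_of_mem hi)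
    have h3 : AEMeasurable (fun y => ∑ i ∈ s, a i y) μ := Finset.aemeasurable_fun_sum s h2
    rw [Finset.sum_insert hj]
    refine le_trans ?_ (add_le_add le_rfl (ih h2))
    have h4 := ENNReal.lintegral_Lp_add_le h1 h3 hq
    refine le_trans (le_of_eq ?_) h4
    congr 1
    refine lintegral_congr fun y => ?_
    simp only [Pi.add_apply]
    rw [Finset.sum_insert hj]

/-- Minkowski in `L^(p/2)`. -/
theorem mink_b {Y : Type*} [MeasurableSpace Y] (μ : Measure Y) {ι : Type*} (s : Finset ι)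
    (b : ι → Y → ℝ≥0∞) (hb : ∀ i ∈ s, AEMeasurable (b i) μ) {p : ℝ} (hp : 2 ≤ p) :
    ∫⁻ y, (∑ i ∈ s, b i y ^ (2 / p)) ^ (p / 2) ∂μ ≤
      (∑ i ∈ s, (∫⁻ y, b i y ∂μ) ^ (2 / p)) ^ (p / 2) := by
  have hp0 : 0 < p := by linarith
  have h1 := mink_b1 μ s (fun i y => b i y ^ (2 / p)) (fun i hi => (hb i hi).pow_const _)
    (q := p / 2) (by linarith)
  have h2 : ∀ i ∈ s, ∫⁻ y, (b i y ^ (2 / p)) ^ (p / 2) ∂μ = ∫⁻ y, b i y ∂μ := fun i _ => by
    refine lintegral_congr fun y => ?_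
    rw [← ENNReal.rpow_mul, show 2 / p * (p / 2) = 1 by field_simp, ENNReal.rpow_one]
  have h3 : (1 : ℝ) / (p / 2) = 2 / p := by field_simp
  rw [h3] at h1
  rw [Finset.sum_congr rfl fun i hi => by rw [h2 i hi]] at h1
  calc ∫⁻ y, (∑ i ∈ s, b i y ^ (2 / p)) ^ (p / 2) ∂μ
      = ((∫⁻ y, (∑ i ∈ s, b i y ^ (2 / p)) ^ (p / 2) ∂μ) ^ (2 / p)) ^ (p / 2) := by
        rw [← ENNReal.rpow_mul, show 2 / p * (p / 2) = 1 by field_simp, ENNReal.rpow_one]
    _ ≤ _ := ENNReal.rpow_le_rpow h1 (by positivity)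

end Pool.Agent.DEC
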