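import Pool.Agent.DEC.DSK0
import Pool.Agent.GNP.DR69

/-!
# [DEC] Row RESCALE: parabolic rescaling.
-/

set_option autoImplicit false

namespace Pool.Agent.DEC

open MeasureTheory Set Filter Topology Pool.Agent.MP_6cbfb8_an
open scoped ENNReal Real RealInnerProductSpace

namespace RESCALE

open Pool.Agent.GNP

variable {d : ℕ}

/-- The map of the spectra. -/
noncomputable def M (a : E d) (r : ℝ) (x : E (d + 1)) : E (d + 1) :=
  joinL d (DR.Fr a r ((joinL d).symm x))

/-- The map of the positions. -/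
noncomputable def T (a : E d) (r : ℝ) (ξ : E (d + 1)) : E (d + 1) :=
  joinL d (DR.Sp a r ((joinL d).symm ξ))

theorem M_join (a : E d) (r : ℝ) (η : E d) (τ : ℝ) : M a r (join η τ) =
    join (a + r • η) (r ^ 2 * τ + (2 * r * ⟪a, η⟫ + ‖a‖ ^ 2)) := by
  have h : join η τ = joinL d (η, τ) := rfl
  rw [M, h, ContinuousLinearEquiv.symm_apply_apply]
  rfl

theorem exists_join (x : E (d + 1)) : ∃ (η : E d) (τ : ℝ), x = join η τ :=
  ⟨((joinL d).symm x).1, ((joinL d).symm x).2, ((joinL d).apply_symm_apply x).symm⟩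

theorem T_join (a : E d) (r : ℝ) (y : E d) (s : ℝ) : T a r (join y s) =
    join (r • (y + (2 * s) • a)) (r ^ 2 * s) := by
  have h : join y s = joinL d (y, s) := rfl
  rw [T, h, ContinuousLinearEquiv.symm_apply_apply]
  rfl

theorem inner_M (a : E d) (r : ℝ) (x ξ : E (d + 1)) :
    inner ℝ (M a r x) ξ = inner ℝ x (T a r ξ) + inner ℝ (join a (‖a‖ ^ 2)) ξ := by
  obtain ⟨η, τ, rfl⟩ := exists_join x
  obtain ⟨y, s, rfl⟩ := exists_join ξ
  rw [M_join, T_join, j5_inner, j5_inner, j5_inner]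
  simp only [inner_add_left, inner_add_right, inner_smul_left, inner_smul_right,
    real_inner_comm a η]
  simp
  ring

theorem chr_M (a : E d) (r : ℝ) (x ξ : E (d + 1)) :
    chr (M a r x) ξ = chr x (T a r ξ) * chr (join a (‖a‖ ^ 2)) ξ := by
  unfold chr
  rw [inner_M, ← Complex.exp_add]
  congr 1
  push_cast
  ring

theorem continuous_M (a : E d) (r : ℝ) : Continuous (M a r) := by
  have h : Continuous (DR.Fr a r) := by
    unfold DR.Fr
    fun_prop
  exact (joinL d).continuous.comp (h.comp (joinL d).symm.continuous)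

theorem continuous_T (a : E d) (r : ℝ) : Continuous (T a r) :=
  (joinL d).continuous.comp ((DR.Sp_continuous a r).comp (joinL d).symm.continuous)

theorem map_T (a : E d) {r : ℝ} (hr : 0 < r) : Measure.map (T a r) volume =
    ENNReal.ofReal ((r ^ (d + 2))⁻¹) • (volume : Measure (E (d + 1))) := by
  have h1 : Measure.map (joinL d) volume = (volume : Measure (E (d + 1))) := (mp_join d).map_eq
  have h2 : Measure.map (joinL d).symm (volume : Measure (E (d + 1))) = volume := by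
    conv_lhs => rw [← h1]
    rw [Measure.map_map (joinL d).symm.continuous.measurable (joinL d).continuous.measurable]
    have h3 : ((joinL d).symm : E (d + 1) → E d × ℝ) ∘ (joinL d) = id := by
      funext q
      exact (joinL d).symm_apply_apply q
    rw [h3, Measure.map_id]
  have h4 : T a r = (joinL d : E d × ℝ → E (d + 1)) ∘ (DR.Sp a r ∘ (joinL d).symm) := rfl
  rw [h4, ← Measure.map_map (joinL d).continuous.measurable
    ((DR.Sp_continuous a r).comp (joinL d).symm.continuous).measurable,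
    ← Measure.map_map (DR.Sp_continuous a r).measurable (joinL d).symm.continuous.measurable, h2,
    DR.map_Sp a hr, Measure.map_smul, h1]

/-- The norms. -/
theorem lq_T (a : E d) {r : ℝ} (hr : 0 < r) {p : ℝ} (hp : 0 < p) (F : E (d + 1) → ℂ)
    (hF : Measurable F) : Lq p (fun ξ => F (T a r ξ) * chr (join a (‖a‖ ^ 2)) ξ) =
      ENNReal.ofReal ((r ^ (d + 2))⁻¹) ^ (2 / p) * Lq p F := by
  unfold Lq
  have h1 : ∀ ξ, ‖F (T a r ξ) * chr (join a (‖a‖ ^ 2)) ξ‖ₑ ^ p = ‖F (T a r ξ)‖ₑ ^ p := by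
    intro ξ
    congr 1
    rw [← ofReal_norm, ← ofReal_norm, norm_mul, norm_chr, mul_one]
  simp_rw [h1]
  have h2 := lintegral_map (μ := volume) (f := fun ξ => ‖F ξ‖ₑ ^ p) (hF.enorm.pow_const p)
    (continuous_T a r).measurable
  rw [← h2, map_T a hr, lintegral_smul_measure, smul_eq_mul,
    ENNReal.mul_rpow_of_nonneg _ _ (by positivity)]

end RESCALE

open RESCALE in
theorem rescale (d : ℕ) (p ρ θ : ℝ) (hp : 1 ≤ p) (hρ : 0 < ρ) (hθ : 0 < θ) (D : ℝ≥0∞)
    (h : Dec d p (ρ / θ) D) (c0 : E d) (ι : Type) [Fintype ι] (c : ι → E d)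
    (F : ι → E (d + 1) → ℂ) (h1 : ∀ i, ‖c i - c0‖ ≤ θ) (h2 : ∀ i j, i ≠ j → ρ ≤ ‖c i - c j‖)
    (h3 : ∀ i, Sp (Np (c i) (2 * ρ) (2 * ρ ^ 2)) (F i)) :
    Lq p (fun ξ => ∑ i, F i ξ) ≤ D * ∑ i, Lq p (F i) := by
  obtain ⟨r, hr⟩ : ∃ r, r = θ⁻¹ := ⟨_, rfl⟩
  have hr0 : 0 < r := by rw [hr]; positivity
  obtain ⟨a, ha⟩ : ∃ a : E d, a = -(r • c0) := ⟨_, rfl⟩
  have hc : ∀ i, a + r • c i = r • (c i - c0) := by
    intro i
    rw [ha, smul_sub]
    abel
  have hFm : ∀ i, Measurable (F i) := fun i => (h3 i).continuous.measurable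
  have hS : ∀ i, Sp (Np (r • (c i - c0)) (2 * (ρ / θ)) (2 * (ρ / θ) ^ 2))
      (fun ξ => F i (T a r ξ) * chr (join a (‖a‖ ^ 2)) ξ) := by
    intro i
    obtain ⟨Ω, _, ν, X, b, e1, e2, e3, e4, e5⟩ := h3 i
    refine ⟨Ω, inferInstance, ν, fun ω => M a r (X ω), b, e1, (continuous_M a r).measurable.comp e2,
      e3, fun ω hω => ?_, fun ξ => ?_⟩
    · obtain ⟨η, τ, hx, hη, hτ⟩ := e4 ω hω
      refine ⟨a + r • η, r ^ 2 * τ + (2 * r * ⟪a, η⟫ + ‖a‖ ^ 2), ?_, ?_, ?_⟩
      · show M a r (X ω) = _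
        rw [hx, M_join]
      · rw [← hc i, add_sub_add_left_eq_sub, ← smul_sub, norm_smul, Real.norm_of_nonneg hr0.le]
        calc r * ‖η - c i‖ ≤ r * (2 * ρ) := mul_le_mul_of_nonneg_left hη hr0.le
          _ = 2 * (ρ / θ) := by rw [hr]; ring
      · have e6 := GNP.DR.Fr_par a r (η, τ)
        simp only [GNP.DR.Fr] at e6
        rw [e6, abs_mul, abs_of_pos (by positivity)]
        calc r ^ 2 * |τ - ‖η‖ ^ 2| ≤ r ^ 2 * (2 * ρ ^ 2) :=
              mul_le_mul_of_nonneg_left hτ (by positivity)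
          _ = 2 * (ρ / θ) ^ 2 := by rw [hr]; ring
    · show F i (T a r ξ) * chr (join a (‖a‖ ^ 2)) ξ = _
      rw [e5, ← integral_mul_const]
      refine integral_congr_ae (Filter.Eventually.of_forall fun ω => ?_)
      simp only
      rw [chr_M, mul_assoc]
  have h4 := h ι (fun i => r • (c i - c0)) (fun i ξ => F i (T a r ξ) * chr (join a (‖a‖ ^ 2)) ξ)
    (fun i => by
      rw [norm_smul, Real.norm_of_nonneg hr0.le, hr, inv_mul_le_iff₀ hθ, mul_one]
      exact h1 i)
    (fun i j hij => by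
      rw [← smul_sub, sub_sub_sub_cancel_right, norm_smul, Real.norm_of_nonneg hr0.le, hr,
        div_eq_inv_mul]
      exact mul_le_mul_of_nonneg_left (h2 i j hij) (by positivity)) hS
  have h5 : (fun ξ => ∑ i, F i (T a r ξ) * chr (join a (‖a‖ ^ 2)) ξ) =
      fun ξ => (fun ξ => ∑ i, F i ξ) (T a r ξ) * chr (join a (‖a‖ ^ 2)) ξ := by
    funext ξ
    simp only
    rw [Finset.sum_mul]
  rw [h5, lq_T a hr0 (by linarith) _ (Finset.measurable_sum _ fun i _ => hFm i)] at h4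
  simp_rw [lq_T a hr0 (lt_of_lt_of_le one_pos hp) _ (hFm _)] at h4
  rw [← Finset.mul_sum, mul_left_comm] at h4
  refine (ENNReal.mul_le_mul_iff_right ?_ ?_).1 h4
  · exact (ENNReal.rpow_pos (ENNReal.ofReal_pos.2 (by positivity)) ENNReal.ofReal_ne_top).ne'
  · exact ENNReal.rpow_ne_top_of_nonneg (by positivity) ENNReal.ofReal_ne_top

end Pool.Agent.DEC
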