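import Pool.Agent.DEC.TRIV
import Pool.Agent.DEC.NET
import Pool.Agent.DEC.RESCALE

/-!
# [DEC] Row REGROUP: caps with other constants and bounded overlap.
-/

set_option autoImplicit false

namespace Pool.Agent.DEC

open MeasureTheory Set Filter Topology Pool.Agent.MP_6cbfb8_an
open scoped ENNReal Real RealInnerProductSpace SchwartzMap

/-- From balls of radius `ρ` to balls of radius `A ρ`. -/
theorem regroup_card (d : ℕ) (A : ℝ) (hA : 1 ≤ A) (M : ℕ) : ∃ M' : ℕ,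
    ∀ (ρ : ℝ), 0 < ρ → ∀ (ι : Type) [Fintype ι] (c : ι → E d),
      (∀ z, {i | ‖z - c i‖ < ρ}.encard ≤ M) → ∀ (z : E d) (s : Finset ι),
      (∀ i ∈ s, ‖c i - z‖ < A * ρ) → s.card ≤ M' := by
  classical
  have hA0 : 0 < A := by linarith
  obtain ⟨C, hC, hcard⟩ := card_sep d 1 zero_le_one
  refine ⟨⌈C * ((1 / A) ^ d)⁻¹⌉₊ * M, ?_⟩
  intro ρ hρ ι _ c hM z s hs
  have hAρ : 0 < A * ρ := by positivity
  -- a net of the points in the ball
  obtain ⟨T, g, hg, hT⟩ := net (fun i : ↥s => c i) hρ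
  have h1 : (T.card : ℝ) ≤ C * ((1 / A) ^ d)⁻¹ := by
    have h2 := hcard ↥T (fun i => (A * ρ)⁻¹ • c i.1.1) ((A * ρ)⁻¹ • z) (1 / A) (by positivity)
      (by rw [div_le_one hA0]; exact hA)
      (fun i => by
        rw [← smul_sub, norm_smul, norm_inv, Real.norm_of_nonneg hAρ.le, inv_mul_le_iff₀ hAρ,
          mul_one]
        exact (hs i.1.1 i.1.2).le)
      (fun i j hij => by
        rw [← smul_sub, norm_smul, norm_inv, Real.norm_of_nonneg hAρ.le, inv_mul_eq_div,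
          le_div_iff₀ hAρ]
        have h3 := hT i.1 i.2 j.1 j.2 fun h => hij (Subtype.ext h)
        have h4 : 1 / A * (A * ρ) = ρ := by field_simp
        rw [h4]
        exact h3)
    rwa [Fintype.card_coe] at h2
  have h2 : T.card ≤ ⌈C * ((1 / A) ^ d)⁻¹⌉₊ := by
    exact_mod_cast h1.trans (Nat.le_ceil _)
  have h3 : s.card = (Finset.univ : Finset ↥s).card := by
    rw [Finset.card_univ, Fintype.card_coe]
  rw [h3]
  have h4 := Finset.card_le_mul_card_image_of_maps_to (s := (Finset.univ : Finset ↥s)) (t := T)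
    (f := g) (fun i _ => (hg i).1) M (fun t _ => by
      have h5 := hM (c t)
      have h6 : (((Finset.univ.filter fun i : ↥s => g i = t).image Subtype.val : Finset ι) :
          Set ι) ⊆ {i | ‖c t - c i‖ < ρ} := by
        intro i hi
        rw [Finset.coe_image] at hi
        obtain ⟨j, hj, rfl⟩ := hi
        have h7 := (Finset.mem_filter.1 hj).2
        show ‖c t - c j.1‖ < ρ
        rw [norm_sub_rev, ← h7]
        exact (hg j).2
      have h8 := (Set.encard_le_encard h6).trans h5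
      rw [Set.encard_coe_eq_coe_finsetCard, Finset.card_image_of_injective _
        Subtype.val_injective] at h8
      exact_mod_cast h8)
  calc (Finset.univ : Finset ↥s).card ≤ M * T.card := h4
    _ ≤ M * ⌈C * ((1 / A) ^ d)⁻¹⌉₊ := Nat.mul_le_mul_left _ h2
    _ = _ := mul_comm _ _

theorem regroup (d : ℕ) (p : ℝ) (hp : 2 ≤ p) (h : DecAll d p) (A : ℝ) (hA : 1 ≤ A) (M : ℕ)
    (ε : ℝ) (hε : 0 < ε) : ∃ C : ℝ≥0∞, C ≠ ⊤ ∧ ∀ ρ : ℝ, 0 < ρ → ρ ≤ 1 →
    ∀ (ι : Type) [Fintype ι] (c : ι → E d) (F : ι → E (d + 1) → ℂ), (∀ i, ‖c i‖ ≤ A) →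
      (∀ z, {i | ‖z - c i‖ < ρ}.encard ≤ M) →
      (∀ i, Sp (Np (c i) (A * ρ) (A * ρ ^ 2)) (F i)) →
      Lq p (fun ξ => ∑ i, F i ξ) ≤ C * ENNReal.ofReal (ρ ^ (-ε)) * ∑ i, Lq p (F i) := by
  classical
  obtain ⟨C, hC, hD⟩ := h ε hε
  obtain ⟨M', hM'⟩ := regroup_card d A hA M
  refine ⟨C * M', ENNReal.mul_ne_top hC (ENNReal.natCast_ne_top M'), ?_⟩
  intro ρ hρ hρ1 ι _ c F hc hM hF
  have hA0 : 0 < A := by linarith
  have hAρ : 0 < A * ρ := by positivity
  obtain ⟨T, g, hg, hT⟩ := net c hAρ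
  set G : ι → E (d + 1) → ℂ := fun t ξ => ∑ i ∈ Finset.univ.filter (fun i => g i = t), F i ξ
    with hG
  have e1 : (fun ξ => ∑ i, F i ξ) = fun ξ => ∑ t : ↥T, G t ξ := by
    funext ξ
    rw [Finset.sum_coe_sort T fun t => G t ξ]
    exact (Finset.sum_fiberwise_of_maps_to (fun i _ => (hg i).1) fun i => F i ξ).symm
  have hGs : ∀ t : ↥T, Sp (Np (c t) (2 * (A * ρ)) (2 * (A * ρ) ^ 2)) (G t) := by
    intro t
    refine Sp.sum _ fun i hi => (hF i).mono ?_
    rintro x ⟨η, τ, rfl, h1, h2⟩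
    have hgi : g i = t := (Finset.mem_filter.1 hi).2
    refine ⟨η, τ, rfl, ?_, h2.trans ?_⟩
    · have h3 : ‖c i - c t‖ < A * ρ := by
        rw [← hgi]
        exact (hg i).2
      calc ‖η - c t‖ = ‖(η - c i) + (c i - c t)‖ := by congr 1; abel
        _ ≤ ‖η - c i‖ + ‖c i - c t‖ := norm_add_le _ _
        _ ≤ 2 * (A * ρ) := by linarith
    · have h3 : 0 ≤ A * ρ ^ 2 := by positivity
      nlinarith
  have key := rescale d p (A * ρ) A (by linarith) hAρ hA0 (C * ENNReal.ofReal (ρ ^ (-ε)))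
    (by rw [mul_div_cancel_left₀ _ hA0.ne']; exact hD ρ hρ hρ1) 0 ↥T (fun t => c t) (fun t => G t)
    (fun t => by rw [sub_zero]; exact hc t)
    (fun i j hij => hT i i.2 j j.2 fun h => hij (Subtype.ext h)) hGs
  rw [e1]
  calc Lq p (fun ξ => ∑ t : ↥T, G t ξ) ≤
        C * ENNReal.ofReal (ρ ^ (-ε)) * ∑ t : ↥T, Lq p (G t) := key
    _ ≤ C * ENNReal.ofReal (ρ ^ (-ε)) * ∑ t : ↥T, (M' : ℝ≥0∞) *
          ∑ i ∈ Finset.univ.filter (fun i => g i = t), Lq p (F i) := by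
        gcongr with t _
        refine (Lq_sum _ p (by linarith) F fun i _ => (hF i).continuous).trans ?_
        gcongr
        refine hM' ρ hρ ι c hM (c t) _ fun i hi => ?_
        rw [← (Finset.mem_filter.1 hi).2]
        exact (hg i).2
    _ = C * M' * ENNReal.ofReal (ρ ^ (-ε)) * ∑ i, Lq p (F i) := by
        rw [← Finset.mul_sum, Finset.sum_coe_sort T fun t =>
          ∑ i ∈ Finset.univ.filter (fun i => g i = t), Lq p (F i),
          Finset.sum_fiberwise_of_maps_to (fun i _ => (hg i).1)]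
        ring

end Pool.Agent.DEC
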