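import Mathlib

/-!
Recursions on scales for monotone families of estimates `P ρ D` (`0 < ρ ≤ 1`, `D` the constant).
-/

set_option autoImplicit false

namespace Pool.Agent.DEC

open scoped ENNReal Real

/-- **Recursion on scales.** `P ρ D`: an estimate at the scale `ρ` with the constant `D`. If for all
small `σ` there is `τ ≤ σ` with `P ρ (C σ^(-ε) (D₁ + D₂) + A ρ^(-ε))` whenever `P (ρ/σ) D₁`,
`P (ρ/τ) D₂`, `ρ ≤ τ` (`C` independent of `σ`), then `P ρ (C' ρ^(-ε))`. -/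
theorem rec_dec {P : ℝ → ℝ≥0∞ → Prop} (hmono : ∀ ρ D D', D ≤ D' → P ρ D → P ρ D')
    (htriv : ∀ ρ₀ : ℝ, 0 < ρ₀ → ∃ B : ℝ≥0∞, B ≠ ⊤ ∧ ∀ ρ : ℝ, ρ₀ ≤ ρ → ρ ≤ 1 → P ρ B)
    (hstep : ∀ ε : ℝ, 0 < ε → ∃ (C σ₀ : ℝ), 0 < σ₀ ∧ ∀ σ : ℝ, 0 < σ → σ ≤ σ₀ → σ < 1 →
      ∃ τ : ℝ, 0 < τ ∧ τ ≤ σ ∧ ∃ A : ℝ≥0∞, A ≠ ⊤ ∧ ∀ ρ : ℝ, 0 < ρ → ρ ≤ τ → ∀ D₁ D₂ : ℝ≥0∞,
        P (ρ / σ) D₁ → P (ρ / τ) D₂ →
        P ρ (ENNReal.ofReal (C * σ ^ (-ε)) * (D₁ + D₂) + A * ENNReal.ofReal (ρ ^ (-ε)))) :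
    ∀ ε : ℝ, 0 < ε → ∃ C : ℝ≥0∞, C ≠ ⊤ ∧ ∀ ρ : ℝ, 0 < ρ → ρ ≤ 1 →
      P ρ (C * ENNReal.ofReal (ρ ^ (-ε))) := by
  intro ε hε
  obtain ⟨C, σ₀, hσ₀, h1⟩ := hstep (ε / 2) (by positivity)
  set C' : ℝ := max C 1 with hC'
  have hC1 : 1 ≤ C' := le_max_right _ _
  -- a small scale
  obtain ⟨σ, hσ, hσσ, hσ1, hσC⟩ : ∃ σ : ℝ, 0 < σ ∧ σ ≤ σ₀ ∧ σ < 1 ∧ 4 * C' * σ ^ (ε / 2) ≤ 1 := by
    have h2 : 0 < (4 * C')⁻¹ ^ (2 / ε) := by positivity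
    refine ⟨min (min σ₀ (1 / 2)) ((4 * C')⁻¹ ^ (2 / ε)), by positivity,
      (min_le_left _ _).trans (min_le_left _ _),
      ((min_le_left _ _).trans (min_le_right _ _)).trans_lt (by norm_num), ?_⟩
    have h3 : (min (min σ₀ (1 / 2)) ((4 * C')⁻¹ ^ (2 / ε))) ^ (ε / 2) ≤
        ((4 * C')⁻¹ ^ (2 / ε)) ^ (ε / 2) :=
      Real.rpow_le_rpow (by positivity) (min_le_right _ _) (by positivity)
    rw [← Real.rpow_mul (by positivity), show 2 / ε * (ε / 2) = 1 by field_simp, Real.rpow_one] at h3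
    calc 4 * C' * (min (min σ₀ (1 / 2)) ((4 * C')⁻¹ ^ (2 / ε))) ^ (ε / 2)
        ≤ 4 * C' * (4 * C')⁻¹ := by gcongr
      _ = 1 := mul_inv_cancel₀ (by positivity)
  obtain ⟨τ, hτ, hτσ, A, hA, hst⟩ := h1 σ hσ hσσ hσ1
  obtain ⟨B, hB, hBP⟩ := htriv τ hτ
  set M : ℝ≥0∞ := B + 2 * A with hM
  have hMt : M ≠ ⊤ := by finiteness
  refine ⟨M, hMt, ?_⟩
  have hone : ∀ ρ : ℝ, 0 < ρ → ρ ≤ 1 → ∀ e : ℝ, 0 ≤ e → (1 : ℝ≥0∞) ≤ ENNReal.ofReal (ρ ^ (-e)) := by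
    intro ρ hρ hρ1 e he
    rw [ENNReal.one_le_ofReal]
    exact Real.one_le_rpow_of_pos_of_le_one_of_nonpos hρ hρ1 (by linarith)
  have key : ∀ j : ℕ, ∀ ρ : ℝ, 0 < ρ → ρ ≤ 1 → τ * σ ^ j ≤ ρ →
      P ρ (M * ENNReal.ofReal (ρ ^ (-ε))) := by
    intro j
    induction j with
    | zero =>
      intro ρ hρ hρ1 hρ2
      rw [pow_zero, mul_one] at hρ2
      refine hmono ρ B _ ?_ (hBP ρ hρ2 hρ1)
      calc B ≤ M * 1 := by
            rw [mul_one, hM]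
            exact le_self_add
        _ ≤ _ := by gcongr; exact hone ρ hρ hρ1 ε hε.le
    | succ j ih =>
      intro ρ hρ hρ1 hρ2
      rcases le_total τ ρ with hρτ | hρτ
      · refine hmono ρ B _ ?_ (hBP ρ hρτ hρ1)
        calc B ≤ M * 1 := by
              rw [mul_one, hM]
              exact le_self_add
          _ ≤ _ := by gcongr; exact hone ρ hρ hρ1 ε hε.le
      · have ha : 0 < ρ / σ := by positivity
        have hb : 0 < ρ / τ := by positivity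
        have ha1 : ρ / σ ≤ 1 := (div_le_one hσ).2 (hρτ.trans hτσ)
        have hb1 : ρ / τ ≤ 1 := (div_le_one hτ).2 hρτ
        have ha2 : τ * σ ^ j ≤ ρ / σ := by
          rw [le_div_iff₀ hσ, mul_assoc, ← pow_succ]
          exact hρ2
        have hb2 : τ * σ ^ j ≤ ρ / τ := ha2.trans (div_le_div_of_nonneg_left hρ.le hτ hτσ)
        refine hmono ρ _ _ ?_ (hst ρ hρ hρτ _ _ (ih _ ha ha1 ha2) (ih _ hb hb1 hb2))
        have hx : (ρ / σ) ^ (-ε) = ρ ^ (-ε) * σ ^ ε := by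
          rw [Real.div_rpow hρ.le hσ.le, Real.rpow_neg hσ.le, div_inv_eq_mul]
        have hy : (ρ / τ) ^ (-ε) ≤ ρ ^ (-ε) * σ ^ ε := by
          rw [Real.div_rpow hρ.le hτ.le, Real.rpow_neg hτ.le, div_inv_eq_mul]
          gcongr
        have hD : M * ENNReal.ofReal ((ρ / σ) ^ (-ε)) + M * ENNReal.ofReal ((ρ / τ) ^ (-ε)) ≤
            M * ENNReal.ofReal (2 * (ρ ^ (-ε) * σ ^ ε)) := by
          rw [← mul_add, ← ENNReal.ofReal_add (by positivity) (by positivity)]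
          gcongr
          rw [hx]
          linarith
        have hCσ : ENNReal.ofReal (C * σ ^ (-(ε / 2))) * (M * ENNReal.ofReal (2 * (ρ ^ (-ε) * σ ^ ε)))
            ≤ M * ENNReal.ofReal (ρ ^ (-ε) / 2) := by
          rw [mul_left_comm, ← ENNReal.ofReal_mul' (by positivity)]
          gcongr
          have h4 : C * σ ^ (-(ε / 2)) * (2 * (ρ ^ (-ε) * σ ^ ε)) ≤
              C' * σ ^ (-(ε / 2)) * (2 * (ρ ^ (-ε) * σ ^ ε)) := by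
            gcongr
            exact le_max_left _ _
          refine h4.trans ?_
          have h5 : σ ^ (-(ε / 2)) * σ ^ ε = σ ^ (ε / 2) := by
            rw [← Real.rpow_add hσ]
            congr 1
            ring
          have h6 : C' * σ ^ (-(ε / 2)) * (2 * (ρ ^ (-ε) * σ ^ ε)) =
              (4 * C' * σ ^ (ε / 2)) * (ρ ^ (-ε) / 2) := by
            rw [← h5]
            ring
          rw [h6]
          exact mul_le_of_le_one_left (by positivity) hσC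
        have hAρ : A * ENNReal.ofReal (ρ ^ (-(ε / 2))) ≤ M * ENNReal.ofReal (ρ ^ (-ε) / 2) := by
          have h7 : ρ ^ (-(ε / 2)) ≤ ρ ^ (-ε) :=
            Real.rpow_le_rpow_of_exponent_ge hρ hρ1 (by linarith)
          calc A * ENNReal.ofReal (ρ ^ (-(ε / 2))) ≤ A * ENNReal.ofReal (ρ ^ (-ε)) := by gcongr
            _ = 2 * A * ENNReal.ofReal (ρ ^ (-ε) / 2) := by
              rw [show ρ ^ (-ε) = 2 * (ρ ^ (-ε) / 2) by ring, ENNReal.ofReal_mul (by norm_num),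
                ENNReal.ofReal_ofNat]
              ring_nf
            _ ≤ M * ENNReal.ofReal (ρ ^ (-ε) / 2) := by
              gcongr
              rw [hM]
              exact le_add_self
        calc ENNReal.ofReal (C * σ ^ (-(ε / 2))) *
              (M * ENNReal.ofReal ((ρ / σ) ^ (-ε)) + M * ENNReal.ofReal ((ρ / τ) ^ (-ε))) +
              A * ENNReal.ofReal (ρ ^ (-(ε / 2)))
            ≤ ENNReal.ofReal (C * σ ^ (-(ε / 2))) * (M * ENNReal.ofReal (2 * (ρ ^ (-ε) * σ ^ ε))) +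
              M * ENNReal.ofReal (ρ ^ (-ε) / 2) := by gcongr
          _ ≤ M * ENNReal.ofReal (ρ ^ (-ε) / 2) + M * ENNReal.ofReal (ρ ^ (-ε) / 2) := by gcongr
          _ = M * ENNReal.ofReal (ρ ^ (-ε)) := by
            rw [← mul_add, ← ENNReal.ofReal_add (by positivity) (by positivity)]
            congr 2
            ring
  intro ρ hρ hρ1
  obtain ⟨j, hj⟩ := exists_pow_lt_of_lt_one (div_pos hρ hτ) hσ1
  refine key j ρ hρ hρ1 ?_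
  rw [lt_div_iff₀ hτ] at hj
  nlinarith

/-- **The fixed power form**: `τ = σ ^ L`, and different constants in front of the two terms. -/
theorem rec_dec_pow {P : ℝ → ℝ≥0∞ → Prop} (hmono : ∀ ρ D D', D ≤ D' → P ρ D → P ρ D')
    (htriv : ∀ ρ₀ : ℝ, 0 < ρ₀ → ∃ B : ℝ≥0∞, B ≠ ⊤ ∧ ∀ ρ : ℝ, ρ₀ ≤ ρ → ρ ≤ 1 → P ρ B) (L : ℕ)
    (hL : 1 ≤ L)
    (hstep : ∀ ε : ℝ, 0 < ε → ∃ (C σ₀ : ℝ), 0 < σ₀ ∧ ∀ σ : ℝ, 0 < σ → σ ≤ σ₀ → σ < 1 →
      ∃ A : ℝ≥0∞, A ≠ ⊤ ∧ ∀ ρ : ℝ, 0 < ρ → ρ ≤ σ ^ L → ∀ D₁ D₂ : ℝ≥0∞,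
        P (ρ / σ) D₁ → P (ρ / σ ^ L) D₂ →
        P ρ (ENNReal.ofReal (C * σ ^ (-ε)) * (D₁ + D₂) + A * ENNReal.ofReal (ρ ^ (-ε)))) :
    ∀ ε : ℝ, 0 < ε → ∃ C : ℝ≥0∞, C ≠ ⊤ ∧ ∀ ρ : ℝ, 0 < ρ → ρ ≤ 1 →
      P ρ (C * ENNReal.ofReal (ρ ^ (-ε))) := by
  refine rec_dec hmono htriv fun ε hε => ?_
  obtain ⟨C, σ₀, hσ₀, h⟩ := hstep ε hε
  refine ⟨C, σ₀, hσ₀, fun σ hσ hσσ hσ1 => ?_⟩
  obtain ⟨A, hA, h⟩ := h σ hσ hσσ hσ1
  exact ⟨σ ^ L, by positivity, pow_le_of_le_one hσ.le hσ1.le (by omega), A, hA, h⟩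

/-- **Powers of scales** (passage to another surface): if `P ρ (C ρ^(-ε) D)` whenever `P (ρ^a) D`,
`0 < a < 1`, for all small `ρ`, then `P ρ (C' ρ^(-ε))`. -/
theorem rec_dec_rpow {P : ℝ → ℝ≥0∞ → Prop} (hmono : ∀ ρ D D', D ≤ D' → P ρ D → P ρ D')
    (htriv : ∀ ρ₀ : ℝ, 0 < ρ₀ → ∃ B : ℝ≥0∞, B ≠ ⊤ ∧ ∀ ρ : ℝ, ρ₀ ≤ ρ → ρ ≤ 1 → P ρ B)
    (a : ℝ) (ha0 : 0 < a) (ha1 : a < 1)
    (hstep : ∀ ε : ℝ, 0 < ε → ∃ (C ρ₀ : ℝ), 0 < ρ₀ ∧ ∀ ρ : ℝ, 0 < ρ → ρ ≤ ρ₀ → ρ ≤ 1 →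
      ∀ D : ℝ≥0∞, P (ρ ^ a) D → P ρ (ENNReal.ofReal (C * ρ ^ (-ε)) * D)) :
    ∀ ε : ℝ, 0 < ε → ∃ C : ℝ≥0∞, C ≠ ⊤ ∧ ∀ ρ : ℝ, 0 < ρ → ρ ≤ 1 →
      P ρ (C * ENNReal.ofReal (ρ ^ (-ε))) := by
  intro ε hε
  set η : ℝ := ε * (1 - a) / 2 with hη
  have hηp : 0 < η := by
    have : 0 < 1 - a := by linarith
    positivity
  obtain ⟨C, ρ₀, hρ₀, h1⟩ := hstep η hηp
  set C' : ℝ := max C 1 with hC'
  have hC1 : 1 ≤ C' := le_max_right _ _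
  obtain ⟨r, hr, hr0, hr1, hrC⟩ : ∃ r : ℝ, 0 < r ∧ r ≤ ρ₀ ∧ r < 1 ∧ C' * r ^ η ≤ 1 := by
    have h2 : 0 < C'⁻¹ ^ (1 / η) := by positivity
    refine ⟨min (min ρ₀ (1 / 2)) (C'⁻¹ ^ (1 / η)), by positivity,
      (min_le_left _ _).trans (min_le_left _ _),
      ((min_le_left _ _).trans (min_le_right _ _)).trans_lt (by norm_num), ?_⟩
    have h3 : (min (min ρ₀ (1 / 2)) (C'⁻¹ ^ (1 / η))) ^ η ≤ (C'⁻¹ ^ (1 / η)) ^ η :=
      Real.rpow_le_rpow (by positivity) (min_le_right _ _) hηp.le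
    rw [← Real.rpow_mul (by positivity), show 1 / η * η = 1 by field_simp, Real.rpow_one] at h3
    calc C' * (min (min ρ₀ (1 / 2)) (C'⁻¹ ^ (1 / η))) ^ η ≤ C' * C'⁻¹ := by gcongr
      _ = 1 := mul_inv_cancel₀ (by positivity)
  obtain ⟨B, hB, hBP⟩ := htriv r hr
  refine ⟨B, hB, ?_⟩
  have hone : ∀ ρ : ℝ, 0 < ρ → ρ ≤ 1 → ∀ e : ℝ, 0 ≤ e → (1 : ℝ≥0∞) ≤ ENNReal.ofReal (ρ ^ (-e)) := by
    intro ρ hρ hρ1 e he
    rw [ENNReal.one_le_ofReal]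
    exact Real.one_le_rpow_of_pos_of_le_one_of_nonpos hρ hρ1 (by linarith)
  have key : ∀ j : ℕ, ∀ ρ : ℝ, 0 < ρ → ρ ≤ 1 → r ≤ ρ ^ (a ^ j) →
      P ρ (B * ENNReal.ofReal (ρ ^ (-ε))) := by
    intro j
    induction j with
    | zero =>
      intro ρ hρ hρ1 hρ2
      rw [pow_zero, Real.rpow_one] at hρ2
      refine hmono ρ B _ ?_ (hBP ρ hρ2 hρ1)
      calc B = B * 1 := (mul_one _).symm
        _ ≤ _ := by gcongr; exact hone ρ hρ hρ1 ε hε.le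
    | succ j ih =>
      intro ρ hρ hρ1 hρ2
      rcases le_total r ρ with hρr | hρr
      · refine hmono ρ B _ ?_ (hBP ρ hρr hρ1)
        calc B = B * 1 := (mul_one _).symm
          _ ≤ _ := by gcongr; exact hone ρ hρ hρ1 ε hε.le
      · have hp : 0 < ρ ^ a := by positivity
        have hp1 : ρ ^ a ≤ 1 := Real.rpow_le_one hρ.le hρ1 ha0.le
        have hp2 : r ≤ (ρ ^ a) ^ (a ^ j) := by
          rw [← Real.rpow_mul hρ.le, ← pow_succ']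
          exact hρ2
        refine hmono ρ _ _ ?_ (h1 ρ hρ (hρr.trans hr0) hρ1 _ (ih _ hp hp1 hp2))
        rw [mul_left_comm, ← ENNReal.ofReal_mul' (by positivity)]
        gcongr
        rw [← Real.rpow_mul hρ.le]
        have h4 : C * ρ ^ (-η) * ρ ^ (a * -ε) ≤ C' * ρ ^ (-η) * ρ ^ (a * -ε) := by
          gcongr
          exact le_max_left _ _
        refine h4.trans ?_
        have h5 : ρ ^ (-η) * ρ ^ (a * -ε) = ρ ^ η * ρ ^ (-ε) := by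
          rw [← Real.rpow_add hρ, ← Real.rpow_add hρ]
          congr 1
          rw [hη]
          ring
        rw [mul_assoc, h5, ← mul_assoc]
        refine mul_le_of_le_one_left (by positivity) ?_
        refine le_trans ?_ hrC
        gcongr
  intro ρ hρ hρ1
  rcases eq_or_lt_of_le hρ1 with h | h
  · refine key 0 ρ hρ hρ1 ?_
    rw [h, Real.one_rpow]
    exact hr1.le
  · -- `ρ ^ (a ^ j) → 1`
    have hl : Filter.Tendsto (fun j : ℕ => ρ ^ (a ^ j)) Filter.atTop (nhds (ρ ^ (0:ℝ))) :=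
      (Real.continuous_const_rpow hρ.ne').tendsto 0 |>.comp
        (tendsto_pow_atTop_nhds_zero_of_lt_one ha0.le ha1)
    rw [Real.rpow_zero] at hl
    obtain ⟨j, hj⟩ := (hl.eventually (lt_mem_nhds hr1)).exists
    exact key j ρ hρ hρ1 hj.le

end Pool.Agent.DEC
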