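import Pool.Agent.DEC.RESCALE
import Pool.Agent.DEC.NET
import Pool.Agent.DEC.ETA
import Pool.Agent.DEC.TRIV
import Pool.Agent.DEC.BGI
import Pool.Agent.DEC.BROAD

/-!
# [DEC] Row STEP: one step of the recursion.
-/

set_option autoImplicit false

namespace Pool.Agent.DEC

open MeasureTheory Set Filter Topology Pool.Agent.MP_6cbfb8_an
open scoped ENNReal Real RealInnerProductSpace SchwartzMap Pointwise

theorem fib2 {ι T A M : Type} [Fintype ι] [Fintype T] [DecidableEq T] [DecidableEq A]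
    [AddCommMonoid M] (g : ι → T) (a : T → A) (α : A) (f : ι → M) :
    ∑ τ with a τ = α, ∑ i with g i = τ, f i = ∑ i with a (g i) = α, f i := by
  rw [Finset.sum_filter, Finset.sum_filter]
  have h1 : ∀ τ : T, (if a τ = α then ∑ i with g i = τ, f i else 0) =
      ∑ i, if g i = τ then (if a (g i) = α then f i else 0) else 0 := by
    intro τ
    by_cases h : a τ = α
    · rw [if_pos h, Finset.sum_filter]
      refine Finset.sum_congr rfl fun i _ => ?_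
      by_cases h2 : g i = τ
      · rw [if_pos h2, if_pos h2, if_pos (by rw [h2]; exact h)]
      · rw [if_neg h2, if_neg h2]
    · rw [if_neg h]
      refine (Finset.sum_eq_zero fun i _ => ?_).symm
      by_cases h2 : g i = τ
      · rw [if_pos h2, if_neg (by rw [h2]; exact h)]
      · rw [if_neg h2]
  rw [Finset.sum_congr rfl fun τ _ => h1 τ, Finset.sum_comm]
  refine Finset.sum_congr rfl fun i _ => ?_
  rw [Finset.sum_ite_eq Finset.univ (g i)]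
  simp

/-- The rescaled decoupling of a group of caps. -/
theorem grp {d : ℕ} {p ρ θ : ℝ} (hp : 1 ≤ p) (hρ : 0 < ρ) (hθ : 0 < θ) {D : ℝ≥0∞}
    (h : Dec d p (ρ / θ) D) (c0 : E d) {ι : Type} [Fintype ι] (c : ι → E d)
    (F : ι → E (d + 1) → ℂ) (P : ι → Prop) [DecidablePred P] (h1 : ∀ i, P i → ‖c i - c0‖ ≤ θ)
    (h2 : ∀ i j, i ≠ j → ρ ≤ ‖c i - c j‖)
    (h3 : ∀ i, Sp (Np (c i) (2 * ρ) (2 * ρ ^ 2)) (F i)) :
    Lq p (fun ξ => ∑ i with P i, F i ξ) ≤ D * ∑ i with P i, Lq p (F i) := by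
  have h4 := rescale d p ρ θ hp hρ hθ D h c0 {i // P i} (fun i => c i.1) (fun i => F i.1)
    (fun i => h1 i.1 i.2) (fun i j hij => h2 _ _ fun hc => hij (Subtype.ext hc)) fun i => h3 i.1
  have e1 : ∀ ξ, ∑ i with P i, F i ξ = ∑ i : {i // P i}, F i.1 ξ := fun ξ =>
    Finset.sum_subtype _ (fun i => by simp) _
  have e2 : ∑ i with P i, Lq p (F i) = ∑ i : {i // P i}, Lq p (F i.1) :=
    Finset.sum_subtype _ (fun i => by simp) _
  rw [e2]
  simp_rw [e1]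
  exact h4

theorem step' (d : ℕ) (p : ℝ) (hp : 2 ≤ p) (hpd : p * (d + 1) ≤ 2 * (d + 2)) (h : DecAll d p)
    (ε : ℝ) (hε : 0 < ε) : ∃ (C : ℝ≥0∞) (σ0 : ℝ) (L : ℕ), C ≠ ⊤ ∧ 0 < σ0 ∧ 1 ≤ L ∧
    ∀ σ : ℝ, 0 < σ → σ ≤ σ0 → ∃ Cσ : ℝ≥0∞, Cσ ≠ ⊤ ∧ ∀ ρ : ℝ, 0 < ρ → ρ ≤ σ ^ L →
      ∀ D D' : ℝ≥0∞, Dec (d + 1) p (ρ / σ) D → Dec (d + 1) p (ρ / σ ^ L) D' →
        Dec (d + 1) p ρ (C * ENNReal.ofReal (σ ^ (-ε)) * (D + D') +
          Cσ * ENNReal.ofReal (ρ ^ (-ε))) := by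
  have hp0 : 0 < p := by linarith
  obtain ⟨η, hη⟩ := exists_eta (d + 2)
  obtain ⟨C, σ0, κ0, hC, hσ0, hκ0, hbg⟩ := bg_int d p hp h η hη ε hε
  obtain ⟨Cn, hCn, hcard⟩ := card_sep (d + 1) 1 zero_le_one
  obtain ⟨Cs, hCs, hstab⟩ := dt_stable (d + 1)
  set L : ℕ := 2 * (d + 2) + 1 with hL
  refine ⟨C, min σ0 (min (1 / 4) (κ0 / (2 * Cs))), L, hC, by positivity, by omega, ?_⟩
  intro σ hσ hσ'
  have hσa : σ ≤ σ0 := hσ'.trans (min_le_left _ _)
  have hσb : σ ≤ 1 / 4 := hσ'.trans ((min_le_right _ _).trans (min_le_left _ _))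
  have hσc : σ * (2 * Cs) ≤ κ0 := by
    have h1 : σ ≤ κ0 / (2 * Cs) := hσ'.trans ((min_le_right _ _).trans (min_le_right _ _))
    rwa [le_div_iff₀ (by positivity)] at h1
  have hσL0 : 0 < σ ^ L := by positivity
  have hσL1 : σ ^ L ≤ σ ^ 2 := pow_le_pow_of_le_one hσ.le (by linarith) (by omega)
  have hσ2 : σ ^ 2 ≤ σ / 4 := by nlinarith
  have hσL2 : σ ^ L ≤ 1 := by linarith
  set m : ℕ := ⌈Cn * ((σ ^ L) ^ (d + 1))⁻¹⌉₊ with hm
  obtain ⟨Cσ, hCσ, hb⟩ := hbg σ m hσ hσa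
  set ν : ℝ := κ0 / 2 * σ ^ (2 * (d + 2)) with hν
  have hν0 : 0 < ν := by positivity
  have hK : 1 ≤ (σ ^ 2)⁻¹ := (one_le_inv₀ (by positivity)).2 (by nlinarith)
  obtain ⟨Cb, hCb, hbroad⟩ := broad (d + 1) (by omega) p hp (by push_cast; linarith) η hη
    (σ ^ 2)⁻¹ ν ε hK hν0 hε
  refine ⟨Cσ * ((m : ℝ≥0∞) ^ (d + 2) * Cb ^ (2 / p)), ?_, ?_⟩
  · refine ENNReal.mul_ne_top hCσ (ENNReal.mul_ne_top ?_
      (ENNReal.rpow_ne_top_of_nonneg (by positivity) hCb))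
    exact ENNReal.pow_ne_top (ENNReal.natCast_ne_top _)
  intro ρ hρ hρσ D D' hD hD' ι _ c F hc hsep hsp
  classical
  have hρ1 : ρ ≤ 1 := hρσ.trans hσL2
  have hρσ2 : ρ ≤ σ ^ 2 := hρσ.trans hσL1
  -- the small caps
  obtain ⟨T, g0, hg0, hT⟩ := net c hσL0
  let T' : Type := {i // i ∈ T}
  let g : ι → T' := fun i => ⟨g0 i, (hg0 i).1⟩
  let z : T' → E (d + 1) := fun τ => c τ.1
  have hgz : ∀ i, ‖c i - z (g i)‖ < σ ^ L := fun i => (hg0 i).2
  -- the large caps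
  obtain ⟨A, a0, ha0, hA⟩ := net z (show 0 < σ / 2 by positivity)
  let A' : Type := {τ // τ ∈ A}
  let a : T' → A' := fun τ => ⟨a0 τ, (ha0 τ).1⟩
  let w : A' → E (d + 1) := fun α => z α.1
  have hzw : ∀ τ, ‖z τ - w (a τ)‖ < σ / 2 := fun τ => (ha0 τ).2
  let G : T' → E (d + 2) → ℂ := fun τ ξ => ∑ i with g i = τ, F i ξ
  have hcT : Fintype.card T' ≤ m := by
    have h1 := hcard T' z 0 (σ ^ L) hσL0 hσL2 (fun τ => by rw [sub_zero]; exact hc τ.1)
      fun i j hij => hT i.1 i.2 j.1 j.2 fun hc => hij (Subtype.ext hc)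
    exact_mod_cast h1.trans (Nat.le_ceil _)
  have hGsp : ∀ τ, Sp (Np (z τ) (3 * σ ^ 2) (2 * σ ^ 2)) (G τ) := by
    intro τ
    refine Sp.sum _ fun i hi => (hsp i).mono ?_
    have hi' : g i = τ := (Finset.mem_filter.1 hi).2
    rintro _ ⟨η', t, rfl, h1, h2⟩
    refine ⟨η', t, rfl, ?_, ?_⟩
    · have h3 := hgz i
      rw [hi'] at h3
      calc ‖η' - z τ‖ = ‖(η' - c i) + (c i - z τ)‖ := by congr 1; abel
        _ ≤ ‖η' - c i‖ + ‖c i - z τ‖ := norm_add_le _ _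
        _ ≤ 2 * ρ + σ ^ L := by linarith
        _ ≤ 3 * σ ^ 2 := by linarith
    · refine h2.trans ?_
      have : ρ ^ 2 ≤ ρ := by nlinarith
      nlinarith
  have hmain := hb T' A' z w a G hcT (fun τ => hc τ.1) (fun α => hc α.1.1)
    (fun i j hij => hA i.1 i.2 j.1 j.2 fun hc => hij (Subtype.ext hc))
    (fun τ => (hzw τ).le.trans (by linarith)) hGsp
  have e1 : (fun ξ => ∑ τ, G τ ξ) = fun ξ => ∑ i, F i ξ := by
    funext ξ
    exact Finset.sum_fiberwise Finset.univ g fun i => F i ξ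
  rw [e1] at hmain
  refine hmain.trans ?_
  set Y : ℝ≥0∞ := ∑ i, Lq p (F i) with hY
  -- large caps
  have hbig : ∑ α, Lq p (fun ξ => ∑ τ with a τ = α, G τ ξ) ≤ D * Y := by
    have h1 : ∀ α, Lq p (fun ξ => ∑ τ with a τ = α, G τ ξ) ≤
        D * ∑ i with a (g i) = α, Lq p (F i) := by
      intro α
      have e2 : (fun ξ => ∑ τ with a τ = α, G τ ξ) = fun ξ => ∑ i with a (g i) = α, F i ξ := by
        funext ξ
        exact fib2 g a α fun i => F i ξ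
      rw [e2]
      refine grp (by linarith) hρ hσ hD (w α) c F (fun i => a (g i) = α) (fun i hi => ?_) hsep
        hsp
      have h3 := hgz i
      have h4 := hzw (g i)
      rw [hi] at h4
      calc ‖c i - w α‖ = ‖(c i - z (g i)) + (z (g i) - w α)‖ := by congr 1; abel
        _ ≤ ‖c i - z (g i)‖ + ‖z (g i) - w α‖ := norm_add_le _ _
        _ ≤ σ := by linarith
    refine (Finset.sum_le_sum fun α _ => h1 α).trans (le_of_eq ?_)
    rw [← Finset.mul_sum]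
    congr 1
    exact Finset.sum_fiberwise Finset.univ (fun i => a (g i)) fun i => Lq p (F i)
  -- small caps
  have hsmall : ∑ τ, Lq p (G τ) ≤ D' * Y := by
    have h1 : ∀ τ, Lq p (G τ) ≤ D' * ∑ i with g i = τ, Lq p (F i) := by
      intro τ
      refine grp (by linarith) hρ hσL0 hD' (z τ) c F (fun i => g i = τ) (fun i hi => ?_) hsep hsp
      have h3 := hgz i
      rw [hi] at h3
      exact h3.le
    refine (Finset.sum_le_sum fun τ _ => h1 τ).trans (le_of_eq ?_)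
    rw [← Finset.mul_sum]
    congr 1
    exact Finset.sum_fiberwise Finset.univ g fun i => Lq p (F i)
  -- the transversal terms
  have htr : ∀ s : Fin (d + 2) → T', κ0 * σ ^ (2 * (d + 2)) ≤ |dt fun j => Nrm (z (s j))| →
      (∫⁻ b, ∏ j, (∫⁻ ξ, ‖bump η b (σ ^ 2)⁻¹ ξ * G (s j) ξ‖ₑ ^ p) ^ (1 / ((d : ℝ) + 2))) ^
        (2 / p) ≤ Cb ^ (2 / p) * ENNReal.ofReal (ρ ^ (-ε)) * Y := by
    intro s hs
    have h1 := hbroad ρ hρ hρ1 ι c F (fun j => Finset.univ.filter fun i => g i = s j) hc hsep hsp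
      (fun i hi => ?_)
    · have e3 : (1 / (((d + 1 : ℕ) : ℝ) + 1)) = 1 / ((d : ℝ) + 2) := by
        push_cast
        congr 1
        ring
      rw [e3] at h1
      have h2 := ENNReal.rpow_le_rpow h1 (by positivity : 0 ≤ 2 / p)
      refine h2.trans ?_
      rw [ENNReal.mul_rpow_of_nonneg _ _ (by positivity),
        ENNReal.mul_rpow_of_nonneg _ _ (by positivity), ← ENNReal.rpow_mul,
        show p / 2 * (2 / p) = 1 by field_simp, ENNReal.rpow_one]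
      gcongr
      rw [ENNReal.ofReal_rpow_of_nonneg (by positivity) (by positivity)]
      refine ENNReal.ofReal_le_ofReal ?_
      rw [← Real.rpow_mul hρ.le]
      refine Real.rpow_le_rpow_of_exponent_ge hρ hρ1 ?_
      have : 2 / p ≤ 1 := by rw [div_le_one hp0]; exact hp
      nlinarith
    · have h2 := hstab (fun j => z (s j)) (fun j => c (i j)) (σ ^ L) (fun j => hc _)
        (fun j => hc _) (fun j => by
          have h3 := hgz (i j)
          rw [(Finset.mem_filter.1 (hi j)).2] at h3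
          rw [norm_sub_rev]
          exact h3.le)
      have h4 : |dt fun j => Nrm (z (s j))| - |dt fun j => Nrm (c (i j))| ≤ Cs * σ ^ L :=
        (abs_sub_abs_le_abs_sub _ _).trans h2
      have h5 : Cs * σ ^ L ≤ ν := by
        rw [hν, hL, pow_succ]
        have h6 : 0 < σ ^ (2 * (d + 2)) := by positivity
        nlinarith
      have h7 : κ0 * σ ^ (2 * (d + 2)) = 2 * ν := by rw [hν]; ring
      linarith
  have htr2 : ∑ s : Fin (d + 2) → T' with κ0 * σ ^ (2 * (d + 2)) ≤ |dt fun j => Nrm (z (s j))|,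
      (∫⁻ b, ∏ j, (∫⁻ ξ, ‖bump η b (σ ^ 2)⁻¹ ξ * G (s j) ξ‖ₑ ^ p) ^ (1 / ((d : ℝ) + 2))) ^
        (2 / p) ≤ (m : ℝ≥0∞) ^ (d + 2) * (Cb ^ (2 / p) * ENNReal.ofReal (ρ ^ (-ε)) * Y) := by
    refine (Finset.sum_le_sum fun s hs => htr s (Finset.mem_filter.1 hs).2).trans ?_
    rw [Finset.sum_const, nsmul_eq_mul]
    gcongr
    have h1 : (Finset.univ.filter fun s : Fin (d + 2) → T' =>
        κ0 * σ ^ (2 * (d + 2)) ≤ |dt fun j => Nrm (z (s j))|).card ≤ m ^ (d + 2) := by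
      refine (Finset.card_le_univ _).trans ?_
      rw [Fintype.card_fun, Fintype.card_fin]
      exact Nat.pow_le_pow_left hcT _
    exact_mod_cast h1
  calc C * ENNReal.ofReal (σ ^ (-ε)) *
          (∑ α, Lq p (fun ξ => ∑ τ with a τ = α, G τ ξ) + ∑ τ, Lq p (G τ)) +
        Cσ * ∑ s : Fin (d + 2) → T' with κ0 * σ ^ (2 * (d + 2)) ≤ |dt fun j => Nrm (z (s j))|,
          (∫⁻ b, ∏ j, (∫⁻ ξ, ‖bump η b (σ ^ 2)⁻¹ ξ * G (s j) ξ‖ₑ ^ p) ^
            (1 / ((d : ℝ) + 2))) ^ (2 / p)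
      ≤ C * ENNReal.ofReal (σ ^ (-ε)) * (D * Y + D' * Y) +
        Cσ * ((m : ℝ≥0∞) ^ (d + 2) * (Cb ^ (2 / p) * ENNReal.ofReal (ρ ^ (-ε)) * Y)) := by
        gcongr
    _ = _ := by ring

end Pool.Agent.DEC
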